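import Pool.Agent.PPH.Stmts4
import Pool.Agent.PPH.ACM

/-!
# Project PPH, module ACW: answers of the hierarchy in rounds over narrow DNFs do not compute majority, on average
(adapted from `ACM.lean` of helper10, with the parameter `U`; helper39)
-/

set_option autoImplicit false

namespace Pool.Agent.PPH

open Finset Pool.Agent.NegLim Pool.Agent.NLM Pool.Agent.S2C
open Pool.Agent.NPQ (hist)
open Pool.Agent.NBC (SameN St Tests winT)

namespace ACWM

lemma card_two {n₀ n W dd Λ E a c U : ℕ} (hE : E ≤ a + c)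
    (ha : 2 ^ Λ * a ≤ n * 2 ^ n * ((1 + dd) * 2 ^ W * 2 ^ n₀)) (hc : 2 ^ Λ * c ≤ 2 ^ n * 2 ^ n₀)
    (h : U * ((dd + 2) * (n + 1) * 2 ^ (n + W)) ≤ 2 ^ Λ) : U * E ≤ 2 ^ n₀ := by
  have hW : 1 ≤ 2 ^ W := Nat.one_le_two_pow
  have h1 : 2 ^ Λ * E ≤ (dd + 2) * (n + 1) * 2 ^ (n + W) * 2 ^ n₀ := by
    calc 2 ^ Λ * E ≤ 2 ^ Λ * a + 2 ^ Λ * c := by
          rw [← mul_add]
          exact Nat.mul_le_mul_left _ hE
      _ ≤ n * 2 ^ n * ((1 + dd) * 2 ^ W * 2 ^ n₀) + 2 ^ n * 2 ^ n₀ := Nat.add_le_add ha hc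
      _ = (n * (1 + dd) * 2 ^ W + 1) * (2 ^ n * 2 ^ n₀) := by ring
      _ ≤ ((dd + 2) * (n + 1) * 2 ^ W) * (2 ^ n * 2 ^ n₀) := by
          refine Nat.mul_le_mul_right _ ?_
          nlinarith [Nat.zero_le (n * dd * 2 ^ W), Nat.zero_le (n * 2 ^ W), Nat.zero_le (dd * 2 ^ W)]
      _ = (dd + 2) * (n + 1) * 2 ^ (n + W) * 2 ^ n₀ := by
          rw [pow_add]
          ring
  have h2 : 2 ^ Λ * (U * E) ≤ 2 ^ Λ * 2 ^ n₀ := by
    calc 2 ^ Λ * (U * E) = U * (2 ^ Λ * E) := by ring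
      _ ≤ U * ((dd + 2) * (n + 1) * 2 ^ (n + W) * 2 ^ n₀) := Nat.mul_le_mul_left _ h1
      _ = U * ((dd + 2) * (n + 1) * 2 ^ (n + W)) * 2 ^ n₀ := by ring
      _ ≤ 2 ^ Λ * 2 ^ n₀ := Nat.mul_le_mul_right _ h
  exact Nat.le_of_mul_le_mul_left h2 (by positivity)

end ACWM

open ACMM in
theorem ACW_thm : Stmt_ACW := by
  classical
  intro hDEG hROR hGAT hQAP hSMO hBIN hUNQ τ n q dd W Λ U bs h hD α X hΛ hlen htot hdnf hdnfD hX hbig
    hτ
  obtain ⟨hQ1, hQ2⟩ := hQAP hDEG hROR hGAT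
  -- the polynomials
  have e1 : ∀ (l : Fin n) (d : Fin n → Bool), Apx (2 * τ + 1) (Λ * Λ * Λ ^ (bs l).length)
      ((1 + (bs l).length) * 2 ^ tot (bs l)) Λ fun b => Qn (bs l) fun r => h l d r b :=
    fun l d => hQ1 (2 * τ + 1) (Λ * Λ) Λ 1 (bs l) (h l d) fun r hr =>
      hQ2 (2 * τ + 1) Λ Λ (h l d r) (hdnf l d r hr)
  choose φ B hφ hB hBc using fun l d => apx (e1 l d)
  choose ψ B' hψ hB' hBc' using fun d => apx (hQ2 (2 * τ + 1) Λ Λ (hD d) (hdnfD d))
  -- the exceptional set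
  set E : Finset (Fin (2 * τ + 1) → Bool) :=
    ((univ : Finset (Fin n × (Fin n → Bool))).biUnion fun p => B p.1 p.2) ∪
      (univ : Finset (Fin n → Bool)).biUnion B' with hE
  have hE1 : ∀ b, b ∉ E → (∀ l d, (φ l d b = 1 ↔ Qn (bs l) fun r => h l d r b)) ∧
      ∀ d, (ψ d b = 1 ↔ hD d b) := by
    intro b hb
    rw [hE, mem_union, not_or] at hb
    refine ⟨fun l d => hB l d b fun hc => hb.1 ?_, fun d => hB' d b fun hc => hb.2 ?_⟩
    · exact mem_biUnion.2 ⟨(l, d), mem_univ _, hc⟩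
    · exact mem_biUnion.2 ⟨d, mem_univ _, hc⟩
  have hEc : U * E.card ≤ 2 ^ (2 * τ + 1) := by
    refine ACWM.card_two (a := ∑ p : Fin n × (Fin n → Bool), (B p.1 p.2).card)
      (c := ∑ d : Fin n → Bool, (B' d).card) (n := n) (W := W) (dd := dd) (Λ := Λ) ?_ ?_ ?_ hbig
    · exact (card_union_le _ _).trans (Nat.add_le_add card_biUnion_le card_biUnion_le)
    · rw [Finset.mul_sum]
      refine (Finset.sum_le_sum (g := fun _ => (1 + dd) * 2 ^ W * 2 ^ (2 * τ + 1))
        fun p _ => (hBc p.1 p.2).trans ?_).trans ?_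
      · refine Nat.mul_le_mul_right _ (Nat.mul_le_mul ?_ ?_)
        · exact Nat.add_le_add_left (hlen p.1) 1
        · exact Nat.pow_le_pow_right (by norm_num) (htot p.1)
      · rw [Finset.sum_const, card_univ, Fintype.card_prod, Fintype.card_fin, Fintype.card_fun,
          Fintype.card_bool, Fintype.card_fin, smul_eq_mul]
    · rw [Finset.mul_sum]
      refine (Finset.sum_le_sum (g := fun _ => 2 ^ (2 * τ + 1)) fun d _ => ?_).trans ?_
      · exact (hBc' d).trans (by rw [one_mul])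
      · rw [Finset.sum_const, card_univ, Fintype.card_fun, Fintype.card_bool, Fintype.card_fin,
          smul_eq_mul]
  -- the polynomial
  let P : (Fin n → Bool) → (Fin (2 * τ + 1) → Bool) → ZMod 2 := fun d b =>
    ∏ l, if d l = true then φ l (hist q l d) b else 1 - φ l (hist q l d) b
  let G : (Fin (2 * τ + 1) → Bool) → ZMod 2 := fun b => ∑ d, P d b * ψ d b
  have hdeg1 : ∀ l d, Deg (2 * τ + 1) (Λ ^ (dd + 2)) (φ l d) := by
    intro l d
    refine hDEG.1 _ _ _ _ ?_ (hφ l d)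
    calc Λ * Λ * Λ ^ (bs l).length = Λ ^ ((bs l).length + 2) := by ring
      _ ≤ Λ ^ (dd + 2) := Nat.pow_le_pow_right hΛ (Nat.add_le_add_right (hlen l) 2)
  have hdeg2 : ∀ d, Deg (2 * τ + 1) (n * Λ ^ (dd + 2)) (P d) := by
    intro d
    have h1 := hDEG.2.2.2.2.2.1 (2 * τ + 1) (Fin n) univ (fun _ => Λ ^ (dd + 2))
      (fun l b => if d l = true then φ l (hist q l d) b else 1 - φ l (hist q l d) b) (by
        intro l _
        cases hl : d l
        · simpa using deg_sub hDEG (hdeg1 l (hist q l d))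
        · simpa using hdeg1 l (hist q l d))
    rw [Finset.sum_const, card_univ, Fintype.card_fin, smul_eq_mul] at h1
    exact h1
  have hG : Deg (2 * τ + 1) ((n + 1) * Λ ^ (dd + 2)) G := by
    refine hDEG.2.2.2.1 (2 * τ + 1) _ (Fin n → Bool) univ (fun d b => P d b * ψ d b)
      fun d _ => ?_
    refine hDEG.1 _ _ _ _ ?_ (hDEG.2.2.2.2.1 _ _ _ _ _ (hdeg2 d) (hψ d))
    have h1 : Λ * Λ ≤ Λ ^ (dd + 2) := by
      calc Λ * Λ = Λ ^ 2 := by ring
        _ ≤ Λ ^ (dd + 2) := Nat.pow_le_pow_right hΛ (by omega)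
    calc n * Λ ^ (dd + 2) + Λ * Λ ≤ n * Λ ^ (dd + 2) + Λ ^ (dd + 2) := Nat.add_le_add_left h1 _
      _ = (n + 1) * Λ ^ (dd + 2) := by ring
  -- its values
  have hval : ∀ b ∈ X \ E, (G b = 1 ↔ τ < ones b) := by
    intro b hb
    obtain ⟨hbX, hbE⟩ := mem_sdiff.1 hb
    obtain ⟨f1, f2⟩ := hE1 b hbE
    obtain ⟨g1, g2⟩ := hX b hbX
    have hP1 : P (α b) b = 1 := by
      refine Finset.prod_eq_one fun l _ => ?_
      by_cases hl : α b l = true
      · rw [if_pos hl]
        exact (f1 l _).2 ((g1 l).1 hl)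
      · rw [if_neg hl, z2 (φ l (hist q l (α b)) b) (fun hc => hl ((g1 l).2 ((f1 l _).1 hc))),
          sub_zero]
    have hP0 : ∀ d, d ≠ α b → P d b = 0 := by
      intro d hd
      obtain ⟨l, hl⟩ : ∃ l, ¬ (d l = true ↔ Qn (bs l) fun r => h l (hist q l d) r b) := by
        by_contra hc
        push Not at hc
        exact hd (hUNQ.1 n q (fun l e => Qn (bs l) fun r => h l e r b) d (α b) hc g1)
      refine Finset.prod_eq_zero (mem_univ l) ?_
      by_cases hdl : d l = true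
      · rw [if_pos hdl]
        exact z2 _ fun hc => hl ⟨fun _ => (f1 l _).1 hc, fun _ => hdl⟩
      · rw [if_neg hdl]
        have h1 : φ l (hist q l d) b = 1 := by
          by_contra hc
          exact hl ⟨fun h2 => absurd h2 hdl, fun h2 => absurd ((f1 l _).2 h2) hc⟩
        rw [h1, sub_self]
    have hGb : G b = ψ (α b) b := by
      show ∑ d, P d b * ψ d b = _
      rw [Finset.sum_eq_single (α b), hP1, one_mul]
      · intro d _ hd
        rw [hP0 d hd, zero_mul]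
      · intro hc
        exact absurd (mem_univ _) hc
    rw [hGb, f2, g2]
  have hS := hSMO hDEG τ _ G hG
  have hBn := hBIN τ ((n + 1) * Λ ^ (dd + 2)) U (by omega)
  have hXE : (X \ E).card ≤ ((univ : Finset (Fin (2 * τ + 1) → Bool)).filter fun b =>
      G b = 1 ↔ τ < ones b).card := by
    apply Finset.card_le_card
    intro b hb
    exact mem_filter.2 ⟨mem_univ _, hval b hb⟩
  have hXc : X.card ≤ (X \ E).card + E.card := by
    calc X.card ≤ ((X \ E) ∪ E).card := by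
          apply Finset.card_le_card
          intro b hb
          by_cases hbE : b ∈ E
          · exact mem_union_right _ hbE
          · exact mem_union_left _ (mem_sdiff.2 ⟨hb, hbE⟩)
      _ ≤ _ := card_union_le _ _
  have hS' := hXE.trans hS
  calc U * X.card ≤ U * (X \ E).card + U * E.card := by
        rw [← mul_add]
        exact Nat.mul_le_mul_left _ hXc
    _ ≤ (U + 1) * 4 ^ τ + 2 ^ (2 * τ + 1) :=
        Nat.add_le_add ((Nat.mul_le_mul_left _ hS').trans hBn) hEc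
    _ = (U + 3) * 4 ^ τ := by
        rw [pow_succ, pow_mul]
        norm_num
        ring

end Pool.Agent.PPH
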