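import Pool.Agent.PPH.Stmts5

/-!
# PPH, module ALN (helper48): the number of the changes which can still come
-/

set_option autoImplicit false

namespace Pool.Agent.PPH

open Finset Pool.Agent.NegLim Pool.Agent.NLM Pool.Agent.S2C

namespace ALNx

open Classical in
theorem potential {X : Type} (le P : X → X → Prop) (hrefl : ∀ x, le x x) (A : ℕ)
    (hA : ∀ (m : ℕ) (y : ℕ → X), (∀ i, le (y i) (y (i + 1))) →
      ((range m).filter fun i => P (y i) (y (i + 1))).card ≤ A) :
    ∃ φ : X → ℕ, (∀ x, φ x ≤ A) ∧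
      ∀ x x' : X, le x x' → φ x' ≤ φ x ∧ (φ x' = φ x → ¬ P x x') := by
  set Q : X → ℕ → Prop := fun x j => ∃ (m : ℕ) (y : ℕ → X), y 0 = x ∧
    (∀ i, le (y i) (y (i + 1))) ∧ ((range m).filter fun i => P (y i) (y (i + 1))).card = j with hQ
  have hQA : ∀ x j, Q x j → j ≤ A := by
    rintro x j ⟨m, y, _, h1, h2⟩
    rw [← h2]
    exact hA m y h1
  have hspec : ∀ x, Q x (Nat.findGreatest (Q x) A) := by
    intro x
    refine Nat.findGreatest_spec (P := Q x) (m := 0) (Nat.zero_le _)
      ⟨0, fun _ => x, rfl, fun _ => hrefl x, ?_⟩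
    simp
  have hstep : ∀ x x', le x x' →
      Q x (Nat.findGreatest (Q x') A + if P x x' then 1 else 0) := by
    intro x x' hxx
    obtain ⟨m, y, h0, h1, h2⟩ := hspec x'
    refine ⟨m + 1, fun i => Nat.casesOn i x y, rfl, ?_, ?_⟩
    · intro i
      cases i with
      | zero =>
        show le x (y 0)
        rw [h0]
        exact hxx
      | succ i => exact h1 i
    · rw [← h2, card_filter, card_filter, Finset.sum_range_succ']
      congr 1
      show (if P x (y 0) then 1 else 0) = _
      rw [h0]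
  refine ⟨fun x => Nat.findGreatest (Q x) A, fun x => Nat.findGreatest_le _, fun x x' hxx => ?_⟩
  have h1 := hstep x x' hxx
  have h2 : Nat.findGreatest (Q x') A + (if P x x' then 1 else 0) ≤ Nat.findGreatest (Q x) A :=
    Nat.le_findGreatest (hQA _ _ h1) h1
  refine ⟨le_trans (Nat.le_add_right _ _) h2, fun h3 hP => ?_⟩
  rw [if_pos hP] at h2
  have h4 : Nat.findGreatest (Q x') A = Nat.findGreatest (Q x) A := h3
  omega

end ALNx

theorem ALN_thm : Stmt_ALN := by
  intro E s t A C hA u
  obtain ⟨φ, h1, h2⟩ := ALNx.potential (X := E → Bool) (fun x x' => ∀ e, x e = true → x' e = true)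
    (fun x x' => ¬ SameU C u x x') (fun x e h => h) A (by
      intro m y hy
      have h := hA u m y hy
      refine le_trans (Finset.card_le_card ?_) h
      intro i hi
      simp only [Finset.mem_filter] at hi ⊢
      exact hi)
  exact ⟨φ, h1, fun x x' hxx => ⟨(h2 x x' hxx).1, fun h => not_not.1 ((h2 x x' hxx).2 h)⟩⟩

end Pool.Agent.PPH
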