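import Pool.Agent.PPH.Stmts5

/-!
# PPH_ALX: the alternation number is bounded by the number of the NOT gates (helper90)
-/

set_option autoImplicit false

namespace Pool.Agent.PPH

open Finset Pool.Agent.NegLim Pool.Agent.NLM Pool.Agent.S2C

namespace ALXM

variable {E : Type} {s t : ℕ}

open Classical in
/-- a decreasing potential bounds the number of the changes -/
lemma chain (C : NCirc E s t) (u : Fin s → Bool) (A : ℕ) (φ : (E → Bool) → ℕ)
    (hA : ∀ x, φ x ≤ A)
    (h : ∀ x x' : E → Bool, (∀ e, x e = true → x' e = true) →
      φ x' ≤ φ x ∧ (φ x' = φ x → SameU C u x x'))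
    (m : ℕ) (x : ℕ → E → Bool) (hx : ∀ i e, x i e = true → x (i + 1) e = true) :
    ((range m).filter fun i => ¬ SameU C u (x i) (x (i + 1))).card ≤ A := by
  have key : ∀ m : ℕ, ((range m).filter fun i => ¬ SameU C u (x i) (x (i + 1))).card +
      φ (x m) ≤ φ (x 0) := by
    intro m
    induction m with
    | zero => simp
    | succ m ih =>
      obtain ⟨h1, h2⟩ := h (x m) (x (m + 1)) (hx m)
      rw [Finset.range_add_one, Finset.filter_insert]
      by_cases hs : SameU C u (x m) (x (m + 1))
      · rw [if_neg (fun hc => hc hs)]
        omega
      · rw [if_pos hs, Finset.card_insert_of_notMem (by simp)]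
        have h3 : φ (x (m + 1)) ≠ φ (x m) := fun hc => hs (h2 hc)
        omega
  have h1 := key m
  have h2 := hA (x 0)
  omega

/-- the output of a NOT gate at an input bit -/
lemma get_inp (L : List (Gate E s t)) (x : E → Bool) (u : Fin s → Bool) (w : Fin t → Bool) :
    ∀ (n : ℕ) (e : E), L[n]? = some (Gate.not (Wire.inp e)) →
      (vals L x u w)[n]? = some (!(x e)) := by
  induction L using List.reverseRecOn with
  | nil => intro n e h; simp at h
  | append_singleton L g ih =>
    intro n e hn
    have hlen : (vals L x u w).length = L.length := vals_length ..
    rw [vals_concat]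
    rcases lt_trichotomy n L.length with h1 | h1 | h1
    · rw [List.getElem?_append_left (by omega)]
      rw [List.getElem?_append_left h1] at hn
      exact ih n e hn
    · subst h1
      rw [List.getElem?_append_right le_rfl] at hn
      simp only [Nat.sub_self, List.getElem?_cons_zero, Option.some.injEq] at hn
      subst hn
      rw [List.getElem?_append_right (by omega), hlen]
      simp only [Nat.sub_self, List.getElem?_cons_zero]
      rfl
    · rw [List.getElem?_eq_none (by simp; omega)] at hn
      cases hn

open Classical in
/-- the number of the NOT gates, counted by their indices -/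
lemma card_nots (L : List (Gate E s t)) (P : ℕ → Prop)
    (hP : ∀ n, P n → ∃ a, L[n]? = some (Gate.not a)) :
    ((range L.length).filter fun n => P n).card ≤ L.countP Gate.isNot := by
  have key : ∀ L : List (Gate E s t),
      ((range L.length).filter fun n => ∃ a, L[n]? = some (Gate.not a)).card ≤
        L.countP Gate.isNot := by
    intro L
    induction L using List.reverseRecOn with
    | nil => simp
    | append_singleton L g ih =>
      rw [List.length_append, List.length_singleton, Finset.range_add_one,
        Finset.filter_insert, List.countP_append]
      have h1 : (range L.length).filter (fun n => ∃ a, (L ++ [g])[n]? = some (Gate.not a)) =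
          (range L.length).filter (fun n => ∃ a, L[n]? = some (Gate.not a)) := by
        refine Finset.filter_congr fun n hn => ?_
        rw [List.getElem?_append_left (Finset.mem_range.1 hn)]
      rw [h1]
      split_ifs with h2
      · obtain ⟨a, ha⟩ := h2
        rw [List.getElem?_append_right le_rfl] at ha
        simp only [Nat.sub_self, List.getElem?_cons_zero, Option.some.injEq] at ha
        subst ha
        rw [Finset.card_insert_of_notMem (by simp)]
        have h3 : List.countP Gate.isNot [(Gate.not a : Gate E s t)] = 1 := rfl
        omega
      · omega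
  refine le_trans (Finset.card_le_card ?_) (key L)
  intro n hn
  rw [Finset.mem_filter] at hn ⊢
  exact ⟨hn.1, hP n hn.2⟩

end ALXM

open ALXM in
theorem ALX_thm : Stmt_ALX := by
  classical
  refine ⟨?_, ?_, ?_⟩
  · intro E s t C u m x hx
    refine chain C u (2 ^ C.nots - 1) (fun x => num C.gates x u fun _ => false) ?_ ?_ m x hx
    · intro x
      have h1 := num_lt C.gates x u fun _ => false
      have h2 : num C.gates x u (fun _ => false) < 2 ^ C.nots := h1
      show num C.gates x u (fun _ => false) ≤ 2 ^ C.nots - 1
      omega
    · intro x x' hxx
      refine ⟨num_le C.gates u (fun _ => false) hxx, fun h => ?_⟩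
      intro n hn
      exact num_inj C.gates h.symm n hn
  · intro E s t C hC n hn x u w w'
    obtain ⟨a, ha⟩ := hn
    obtain ⟨e, rfl⟩ := hC n a ha
    rw [get_inp C.gates x u w n e ha, get_inp C.gates x u w' n e ha]
  · intro E s t C hC u m x hx
    refine chain C u C.nots (fun x => ((range C.gates.length).filter fun n =>
      ∃ e, C.gates[n]? = some (Gate.not (Wire.inp e)) ∧ x e = false).card) ?_ ?_ m x hx
    · intro x
      exact card_nots C.gates _ fun n hn => by
        obtain ⟨e, he, -⟩ := hn
        exact ⟨Wire.inp e, he⟩
    · intro x x' hxx
      have hsub : ((range C.gates.length).filter fun n =>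
          ∃ e, C.gates[n]? = some (Gate.not (Wire.inp e)) ∧ x' e = false) ⊆
          ((range C.gates.length).filter fun n =>
          ∃ e, C.gates[n]? = some (Gate.not (Wire.inp e)) ∧ x e = false) := by
        intro n hn
        rw [Finset.mem_filter] at hn ⊢
        obtain ⟨h1, e, h2, h3⟩ := hn
        refine ⟨h1, e, h2, ?_⟩
        cases h4 : x e with
        | false => rfl
        | true =>
          rw [hxx e h4] at h3
          exact absurd h3 (by decide)
      refine ⟨Finset.card_le_card hsub, fun h => ?_⟩
      have heq := Finset.eq_of_subset_of_card_le hsub (le_of_eq h.symm)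
      intro n hn
      obtain ⟨a, ha⟩ := hn
      obtain ⟨e, rfl⟩ := hC n a ha
      rw [get_inp C.gates x u _ n e ha, get_inp C.gates x' u _ n e ha]
      cases h4 : x e with
      | true => rw [hxx e h4]
      | false =>
        have hlt : n < C.gates.length := (List.getElem?_eq_some_iff.1 ha).1
        have h5 : n ∈ ((range C.gates.length).filter fun n =>
            ∃ e, C.gates[n]? = some (Gate.not (Wire.inp e)) ∧ x e = false) := by
          rw [Finset.mem_filter, Finset.mem_range]
          exact ⟨hlt, e, ha, h4⟩
        rw [← heq, Finset.mem_filter] at h5
        obtain ⟨-, e', h6, h7⟩ := h5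
        rw [ha] at h6
        have h8 : e = e' := by
          have h9 := Option.some.inj h6
          injection h9 with h10
          injection h10
        rw [h8, h7]

end Pool.Agent.PPH
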