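import Pool.Agent.PPH.Stmts
import Pool.Agent.S2C.AVG
import Pool.Agent.S2C.RSM
import Pool.Agent.S2C.CFA
import Pool.Agent.S2C.CFB

/-!
# Module PPH_AVP: the average over a random chain
-/

set_option autoImplicit false

namespace Pool.Agent.PPH

open Finset Pool.Agent.NegLim Pool.Agent.NLM Pool.Agent.S2C
open Pool.Agent.NBC (SameN St Tests winT)

namespace AVPM

lemma ones_le {n : ℕ} (b : Fin n → Bool) : ones b ≤ n := by
  unfold ones
  exact (Finset.card_filter_le _ _).trans (by simp)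

lemma ind_le_sub {a b : ℕ} (h : b ≤ a) : avg_ind (a ≠ b) ≤ (a : ℝ) - b := by
  by_cases h1 : a ≠ b
  · rw [avg_ind_true h1]
    have h2 : b + 1 ≤ a := by omega
    have h3 : ((b + 1 : ℕ) : ℝ) ≤ a := by exact_mod_cast h2
    push_cast at h3
    linarith
  · rw [avg_ind_false h1]
    have h3 : (b : ℝ) ≤ a := by exact_mod_cast h
    linarith

/-- an antitone sequence of numbers with values at most `P` changes at most `P` times -/
lemma changes (u : ℕ → ℕ) (J P : ℕ) (h : ∀ j < J, u (j + 1) ≤ u j) (hP : u 0 ≤ P) :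
    ∑ j ∈ range J, avg_ind (u j ≠ u (j + 1)) ≤ (P : ℝ) := by
  have h1 : ∑ j ∈ range J, avg_ind (u j ≠ u (j + 1)) ≤
      ∑ j ∈ range J, ((u j : ℝ) - (u (j + 1) : ℕ)) :=
    Finset.sum_le_sum fun j hj => ind_le_sub (h j (Finset.mem_range.1 hj))
  rw [Finset.sum_range_sub' (fun j => (u j : ℝ))] at h1
  have h2 : (0 : ℝ) ≤ (u J : ℝ) := Nat.cast_nonneg _
  have h3 : ((u 0 : ℕ) : ℝ) ≤ P := by exact_mod_cast hP
  linarith

end AVPM

open AVPM in
theorem AVP_thm : Stmt_AVP := by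
  intro hC M n K J P Xn Xp _ _ _ _ Φ hn hK hJ hP hmono hS
  have hR : Stmt_RSM := RSM_thm
  have hnK : 0 < n * K := Nat.mul_pos hn hK
  set N : ℝ := (Fintype.card (Ply M Xn Xp) : ℝ) with hN
  have hN0 : 0 ≤ N := Nat.cast_nonneg _
  set D : ℕ → ℕ → ℝ := fun j l => ∑ ω : Ply M Xn Xp,
    avg_ind (Φ (conf (J * (n * K)) ω (j * (n * K)) l) ≠
      Φ (conf (J * (n * K)) ω ((j + 1) * (n * K)) l)) with hD
  have claim1 : ∀ l ≤ n, ∑ j ∈ range J, D j l ≤ P * N := by
    intro l hl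
    rw [hD]
    simp only
    rw [Finset.sum_comm]
    have h1 : ∀ ω : Ply M Xn Xp, ∑ j ∈ range J,
        avg_ind (Φ (conf (J * (n * K)) ω (j * (n * K)) l) ≠
          Φ (conf (J * (n * K)) ω ((j + 1) * (n * K)) l)) ≤ (P : ℝ) := by
      intro ω
      refine changes (fun j => Φ (conf (J * (n * K)) ω (j * (n * K)) l)) J P ?_ (hP _)
      intro j hj
      refine hmono _ _ (CFB_thm M (J * (n * K)) Xn Xp ω _ _ l l
        (Nat.mul_le_mul_right _ (Nat.le_succ j)) (Nat.mul_le_mul_right _ hj) le_rfl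
        (by omega)).1
    refine (Finset.sum_le_sum fun ω _ => h1 ω).trans (le_of_eq ?_)
    rw [Finset.sum_const, Finset.card_univ, nsmul_eq_mul, hN, mul_comm]
  have cxp : (0 : ℝ) < (Fintype.card Xp : ℝ) ^ n := by
    have : (0 : ℝ) < Fintype.card Xp := by exact_mod_cast Fintype.card_pos
    positivity
  have cχ : (0 : ℝ) < (Fintype.card (Fin n × Fin K → Xn) : ℝ) := by
    exact_mod_cast Fintype.card_pos
  have cK : (0 : ℝ) < (K : ℝ) ^ n := by
    have : (0 : ℝ) < (K : ℝ) := by exact_mod_cast hK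
    positivity
  have cy : (Fintype.card (Fin n → Fin K × Xp) : ℝ) = (K : ℝ) ^ n * (Fintype.card Xp : ℝ) ^ n := by
    rw [Fintype.card_fun, Fintype.card_prod, Fintype.card_fin, Fintype.card_fin]
    push_cast
    rw [mul_pow]
  have cβ : (Fintype.card (Fin n → Bool) : ℝ) = (2 : ℝ) ^ n := by
    rw [Fintype.card_fun, Fintype.card_bool, Fintype.card_fin]
    push_cast
    rfl
  have claim2 : ∀ j < J, 3 * ((2 : ℝ) ^ n * N) ≤
      64 * (∑ β : Fin n → Bool, D j (ones β) + (2 : ℝ) ^ n * D j 0) := by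
    intro j hj
    have hj1 : j * (n * K) + n * K ≤ J * (n * K) := by
      have := Nat.mul_le_mul_right (n * K) hj
      rw [Nat.succ_mul] at this
      exact this
    have hj2 : (j + 1) * (n * K) = j * (n * K) + n * K := by ring
    set g := j * (n * K) with hg
    set m := J * (n * K) with hm
    have hM : g + n * K ≤ M := by omega
    obtain ⟨C0, C0', -, -, C3⟩ := CFA_thm M n K m g 0 Xn Xp hM hn hK hj1 (by omega)
    have hinj : ∀ ω : Ply M Xn Xp, Function.Injective (cel hM ω) := fun ω => (C0 ω).1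
    have hR1 : ∀ (π : Equiv.Perm (Fin M)) (χ : Fin M → Xn) (τ τ' : Fin M → Xp),
        (∀ w, (∀ z, cel (Xn := Xn) (Xp := Xp) hM (π, χ, τ) z ≠ w) → τ w = τ' w) →
          conf m (π, χ, τ) g 0 = conf m (π, χ, τ') g 0 := fun π χ τ τ' h =>
      C0' π χ χ τ τ' fun w hw => ⟨rfl, h w hw⟩
    have hR2 : ∀ (π : Equiv.Perm (Fin M)) (χ χ' : Fin M → Xn) (τ : Fin M → Xp),
        (∀ w, (∀ z, cel (Xn := Xn) (Xp := Xp) hM (π, χ, τ) z ≠ w) → χ w = χ' w) →
          conf m (π, χ, τ) g 0 = conf m (π, χ', τ) g 0 := fun π χ χ' τ h =>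
      C0' π χ χ' τ τ fun w hw => ⟨h w hw, rfl⟩
    have hc1 : ∀ (π : Equiv.Perm (Fin M)) (χ : Fin M → Xn) (τ τ' : Fin M → Xp),
        cel (Xn := Xn) (Xp := Xp) hM (π, χ, τ) = cel (Xn := Xn) (Xp := Xp) hM (π, χ, τ') :=
      fun _ _ _ _ => rfl
    have hc2 : ∀ (π : Equiv.Perm (Fin M)) (χ χ' : Fin M → Xn) (τ : Fin M → Xp),
        cel (Xn := Xn) (Xp := Xp) hM (π, χ, τ) = cel (Xn := Xn) (Xp := Xp) hM (π, χ', τ) :=
      fun _ _ _ _ => rfl
    let f1 : Ply M Xn Xp → (Fin n → Bool) → (Fin n → Fin K × Xp) → (Fin n × Fin K → Xn) → ℝ :=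
      fun ω β y χ => avg_ind (Φ (put (cel hM ω) (sP β y) (conf m ω g 0)) ≠
        Φ (put (cel hM ω) (sQ β y χ) (conf m ω g 0)))
    let f2 : Ply M Xn Xp → (Fin n × Fin K → Xn) → ℝ := fun ω χ =>
      avg_ind (Φ (conf m ω g 0) ≠ Φ (put (cel hM ω) (sN χ) (conf m ω g 0)))
    -- the step
    have hstep : ∀ ω : Ply M Xn Xp, 3 * ((2 : ℝ) ^ n * (((K : ℝ) ^ n * (Fintype.card Xp : ℝ) ^ n) *
        (Fintype.card (Fin n × Fin K → Xn) : ℝ))) ≤
        64 * (∑ β, ∑ y, ∑ χ, f1 ω β y χ +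
          (2 : ℝ) ^ n * ((K : ℝ) ^ n * (Fintype.card Xp : ℝ) ^ n) * ∑ χ, f2 ω χ) := by
      intro ω
      have h := hS (conf m ω g 0) (cel hM ω) (hinj ω) (C0 ω).2
        (CFB_thm M m Xn Xp ω g g 0 0 le_rfl (by omega) le_rfl (by omega)).2
      have h' : ((3 * Fintype.card ((Fin n → Bool) × (Fin n → Fin K × Xp) ×
          (Fin n × Fin K → Xn)) : ℕ) : ℝ) ≤ _ := Nat.cast_le.2 h
      rw [Nat.cast_mul, Nat.cast_mul, Nat.cast_add, Nat.cast_mul, avg_card, avg_card,
        Fintype.card_prod, Fintype.card_prod, Fintype.card_prod, Nat.cast_mul, Nat.cast_mul,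
        Nat.cast_mul, cy, cβ] at h'
      rw [Fintype.sum_prod_type] at h'
      simp only [Fintype.sum_prod_type] at h'
      push_cast at h'
      exact h'
    -- the second term
    have a2 : ∑ ω : Ply M Xn Xp, ∑ χ, f2 ω χ =
        (Fintype.card (Fin n × Fin K → Xn) : ℝ) * D j 0 := by
      rw [avg_neu hR hM hinj f2 (by
        intro π χ χ' τ x h
        simp only [f2]
        rw [hR2 π χ χ' τ h, hc2 π χ χ' τ])]
      congr 1
      refine Finset.sum_congr rfl fun ω _ => ?_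
      simp only [f2]
      rw [C3 ω, hj2]
    -- the first term
    have a1 : ∑ ω : Ply M Xn Xp, ∑ β, ∑ y, ∑ χ, f1 ω β y χ ≤
        ((K : ℝ) ^ n * (Fintype.card Xp : ℝ) ^ n) * (Fintype.card (Fin n × Fin K → Xn) : ℝ) *
          ∑ β : Fin n → Bool, D j (ones β) := by
      rw [Finset.sum_comm, Finset.mul_sum]
      refine Finset.sum_le_sum fun β _ => ?_
      simp only [avg_split]
      rw [Finset.sum_comm]
      have b1 : ∀ κ : Fin n → Fin K, ∑ ω : Ply M Xn Xp, ∑ t : Fin n → Xp, ∑ χ,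
          f1 ω β (fun c => (κ c, t c)) χ ≤ (Fintype.card Xp : ℝ) ^ n *
            ((Fintype.card (Fin n × Fin K → Xn) : ℝ) * D j (ones β)) := by
        intro κ
        rw [avg_pos hR hM hinj κ (fun ω t => ∑ χ, f1 ω β (fun c => (κ c, t c)) χ) (by
          intro π χ τ τ' x h
          simp only [f1]
          rw [hR1 π χ τ τ' h, hc1 π χ τ τ'])]
        refine mul_le_mul_of_nonneg_left ?_ cxp.le
        rw [avg_neu hR hM hinj (fun ω χ => f1 ω β
          (fun c => (κ c, ω.2.2 (cel hM ω (c, κ c)))) χ) (by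
          intro π χ χ' τ x h
          simp only [f1]
          rw [hR2 π χ χ' τ h, hc2 π χ χ' τ])]
        refine mul_le_mul_of_nonneg_left ?_ cχ.le
        obtain ⟨σ, hσ⟩ := hC M n K m g Xn Xp hM hn hK hj1 (by omega) κ β
        have e1 : D j (ones β) = ∑ ω : Ply M Xn Xp,
            avg_ind (Φ (conf m (ω.1 * σ, ω.2) g (ones β)) ≠
              Φ (conf m (ω.1 * σ, ω.2) (g + n * K) (ones β))) := by
          rw [avg_comp σ fun ω => avg_ind (Φ (conf m ω g (ones β)) ≠
              Φ (conf m ω (g + n * K) (ones β)))]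
          simp only [hD]
          rw [hj2]
        rw [e1]
        refine Finset.sum_le_sum fun ω _ => ?_
        simp only [f1]
        refine avg_ind_le ?_
        intro hne heq
        obtain ⟨s1, s2, s3⟩ := hσ ω
        apply hne
        rw [s1]
        have t2 := hmono _ _ s2
        have t3 := hmono _ _ s3
        omega
      refine (Finset.sum_le_sum fun κ _ => b1 κ).trans (le_of_eq ?_)
      rw [Finset.sum_const, Finset.card_univ, nsmul_eq_mul, Fintype.card_fun, Fintype.card_fin,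
        Fintype.card_fin]
      push_cast
      ring
    have a4 := Finset.sum_le_sum fun (ω : Ply M Xn Xp) (_ : ω ∈ univ) => hstep ω
    rw [Finset.sum_const, Finset.card_univ, nsmul_eq_mul, ← Finset.mul_sum,
      Finset.sum_add_distrib, ← Finset.mul_sum, a2] at a4
    have hpos := mul_pos (mul_pos cK cxp) cχ
    refine le_of_mul_le_mul_left ?_ hpos
    rw [hN]
    nlinarith [a4, a1]
  -- the sum over all steps
  have h1 := Finset.sum_le_sum fun j (hj : j ∈ range J) => claim2 j (Finset.mem_range.1 hj)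
  rw [Finset.sum_const, Finset.card_range, nsmul_eq_mul, ← Finset.mul_sum,
    Finset.sum_add_distrib, Finset.sum_comm, ← Finset.mul_sum] at h1
  have h2 : ∑ β : Fin n → Bool, ∑ j ∈ range J, D j (ones β) ≤ (2 : ℝ) ^ n * (P * N) := by
    refine (Finset.sum_le_sum fun β _ => claim1 _ (ones_le β)).trans (le_of_eq ?_)
    rw [Finset.sum_const, Finset.card_univ, nsmul_eq_mul, cβ]
  have h3 := claim1 0 (Nat.zero_le _)
  have c2 : (0 : ℝ) < (2 : ℝ) ^ n := by positivity
  have hNpos : 0 < N := by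
    rw [hN]
    exact_mod_cast Fintype.card_pos
  have h4 : (J : ℝ) * (3 * ((2 : ℝ) ^ n * N)) ≤
      64 * ((2 : ℝ) ^ n * (P * N) + (2 : ℝ) ^ n * (P * N)) := by
    have := mul_le_mul_of_nonneg_left h3 c2.le
    linarith
  have h5 : ((2 : ℝ) ^ n * N) * (3 * J) ≤ ((2 : ℝ) ^ n * N) * (128 * P) := by linarith
  have h6 := le_of_mul_le_mul_left h5 (mul_pos c2 hNpos)
  exact_mod_cast h6

end Pool.Agent.PPH
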