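import Pool.Agent.PPH.Stmts4
import Pool.Agent.PPH.AVP

/-!
# Module PPH_AVW: the average over a random chain, the average-case form
-/

set_option autoImplicit false

namespace Pool.Agent.PPH

open Finset Pool.Agent.NegLim Pool.Agent.NLM Pool.Agent.S2C
open Pool.Agent.NBC (SameN St Tests winT)

namespace AVWM

open AVPM

open Classical in
/-- The general form: any hard states `sw`. -/
theorem core (hC : Stmt_CFP) (M n K J U : ℕ) (Xn Xp : Type) [Fintype Xn] [Fintype Xp]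
    [Nonempty Xn] [Nonempty Xp] (hn : 0 < n) (hK : 0 < K) (hJ : J * (n * K) + n ≤ M)
    (hB : ∀ j : Fin J, (j : ℕ) * (n * K) + n * K ≤ M)
    (sw : (Fin n → Bool) → (Fin n → Fin K × Xp) → (Fin n × Fin K → Xn) →
      Fin n × Fin K → St Xn Xp)
    (P : ℕ) (Φ : (Fin M → St Xn Xp) → ℕ) (Ri : (Fin M → St Xn Xp) → Prop)
    (hP : ∀ A, Φ A ≤ P) (hmono : ∀ A A', Sb A A' → Φ A' ≤ Φ A)
    (hS : ∀ (A : Fin M → St Xn Xp) (e : Fin n × Fin K → Fin M), Function.Injective e →
      (∀ x, A (e x) = St.emp) → cnt A = 0 →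
      2 * U * ((univ : Finset ((Fin n → Bool) × (Fin n → Fin K × Xp) ×
          (Fin n × Fin K → Xn))).filter fun z =>
          Ri (put e (sw z.1 z.2.1 z.2.2) A)).card ≤
        (U + 7) * Fintype.card ((Fin n → Bool) × (Fin n → Fin K × Xp) ×
          (Fin n × Fin K → Xn)) +
        2 * U * (((univ : Finset ((Fin n → Bool) × (Fin n → Fin K × Xp) ×
            (Fin n × Fin K → Xn))).filter fun z =>
            Φ (put e (sP z.1 z.2.1) A) ≠ Φ (put e (sQ z.1 z.2.1 z.2.2) A)).card +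
          4 * (Fintype.card ((Fin n → Bool) × (Fin n → Fin K × Xp)) *
            ((univ : Finset (Fin n × Fin K → Xn)).filter fun χ =>
              Φ A ≠ Φ (put e (sN χ) A)).card)))
    (hU : 10 * U * P ≤ J) :
    2 * U * ((univ : Finset (Fin J × Ply M Xn Xp × (Fin n → Bool) ×
        (Fin n → Fin K))).filter fun i =>
        Ri (put (cel (hB i.1) i.2.1)
          (sw i.2.2.1 (fun c => (i.2.2.2 c, i.2.1.2.2 (cel (hB i.1) i.2.1 (c, i.2.2.2 c))))
            fun x => i.2.1.2.1 (cel (hB i.1) i.2.1 x))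
          (conf (J * (n * K)) i.2.1 ((i.1 : ℕ) * (n * K)) 0))).card ≤
      (U + 8) * Fintype.card (Fin J × Ply M Xn Xp × (Fin n → Bool) × (Fin n → Fin K)) := by
  have hR : Stmt_RSM := RSM_thm
  have hnK : 0 < n * K := Nat.mul_pos hn hK
  set N : ℝ := (Fintype.card (Ply M Xn Xp) : ℝ) with hN
  have hN0 : 0 ≤ N := Nat.cast_nonneg _
  set D : ℕ → ℕ → ℝ := fun j l => ∑ ω : Ply M Xn Xp,
    avg_ind (Φ (conf (J * (n * K)) ω (j * (n * K)) l) ≠
      Φ (conf (J * (n * K)) ω ((j + 1) * (n * K)) l)) with hD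
  have claim1 : ∀ l ≤ n, ∑ j ∈ range J, D j l ≤ P * N := by
    intro l hl
    rw [hD]
    simp only
    rw [Finset.sum_comm]
    have h1 : ∀ ω : Ply M Xn Xp, ∑ j ∈ range J,
        avg_ind (Φ (conf (J * (n * K)) ω (j * (n * K)) l) ≠
          Φ (conf (J * (n * K)) ω ((j + 1) * (n * K)) l)) ≤ (P : ℝ) := by
      intro ω
      refine changes (fun j => Φ (conf (J * (n * K)) ω (j * (n * K)) l)) J P ?_ (hP _)
      intro j hj
      refine hmono _ _ (CFB_thm M (J * (n * K)) Xn Xp ω _ _ l l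
        (Nat.mul_le_mul_right _ (Nat.le_succ j)) (Nat.mul_le_mul_right _ hj) le_rfl
        (by omega)).1
    refine (Finset.sum_le_sum fun ω _ => h1 ω).trans (le_of_eq ?_)
    rw [Finset.sum_const, Finset.card_univ, nsmul_eq_mul, hN, mul_comm]
  have cxp : (0 : ℝ) < (Fintype.card Xp : ℝ) ^ n := by
    have : (0 : ℝ) < Fintype.card Xp := by exact_mod_cast Fintype.card_pos
    positivity
  have cχ : (0 : ℝ) < (Fintype.card (Fin n × Fin K → Xn) : ℝ) := by
    exact_mod_cast Fintype.card_pos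
  have cK : (0 : ℝ) < (K : ℝ) ^ n := by
    have : (0 : ℝ) < (K : ℝ) := by exact_mod_cast hK
    positivity
  have cy : (Fintype.card (Fin n → Fin K × Xp) : ℝ) = (K : ℝ) ^ n * (Fintype.card Xp : ℝ) ^ n := by
    rw [Fintype.card_fun, Fintype.card_prod, Fintype.card_fin, Fintype.card_fin]
    push_cast
    rw [mul_pow]
  have cβ : (Fintype.card (Fin n → Bool) : ℝ) = (2 : ℝ) ^ n := by
    rw [Fintype.card_fun, Fintype.card_bool, Fintype.card_fin]
    push_cast
    rfl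
  let G : Fin J → ℝ := fun j => ∑ ω : Ply M Xn Xp, ∑ β : Fin n → Bool, ∑ κ : Fin n → Fin K,
    avg_ind (Ri (put (cel (hB j) ω)
          (sw β (fun c => (κ c, ω.2.2 (cel (hB j) ω (c, κ c))))
            fun x => ω.2.1 (cel (hB j) ω x))
          (conf (J * (n * K)) ω ((j : ℕ) * (n * K)) 0)))
  have claim2 : ∀ j : Fin J, 2 * (U : ℝ) * G j ≤
      (U + 7) * (N * ((2 : ℝ) ^ n * (K : ℝ) ^ n)) +
      2 * U * ((K : ℝ) ^ n * ∑ β : Fin n → Bool, D j (ones β) +
        4 * ((2 : ℝ) ^ n * (K : ℝ) ^ n * D j 0)) := by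
    intro jj
    have hj : (jj : ℕ) < J := jj.2
    have hM0 := hB jj
    simp only [G]
    obtain ⟨j, hjj⟩ := jj
    simp only at hj hM0 ⊢
    have hj1 : j * (n * K) + n * K ≤ J * (n * K) := by
      have := Nat.mul_le_mul_right (n * K) hj
      rw [Nat.succ_mul] at this
      exact this
    have hj2 : (j + 1) * (n * K) = j * (n * K) + n * K := by ring
    set g := j * (n * K) with hg
    set m := J * (n * K) with hm
    have hM : g + n * K ≤ M := by omega
    obtain ⟨C0, C0', -, -, C3⟩ := CFA_thm M n K m g 0 Xn Xp hM hn hK hj1 (by omega)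
    have hinj : ∀ ω : Ply M Xn Xp, Function.Injective (cel hM ω) := fun ω => (C0 ω).1
    have hR1 : ∀ (π : Equiv.Perm (Fin M)) (χ : Fin M → Xn) (τ τ' : Fin M → Xp),
        (∀ w, (∀ z, cel (Xn := Xn) (Xp := Xp) hM (π, χ, τ) z ≠ w) → τ w = τ' w) →
          conf m (π, χ, τ) g 0 = conf m (π, χ, τ') g 0 := fun π χ τ τ' h =>
      C0' π χ χ τ τ' fun w hw => ⟨rfl, h w hw⟩
    have hR2 : ∀ (π : Equiv.Perm (Fin M)) (χ χ' : Fin M → Xn) (τ : Fin M → Xp),
        (∀ w, (∀ z, cel (Xn := Xn) (Xp := Xp) hM (π, χ, τ) z ≠ w) → χ w = χ' w) →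
          conf m (π, χ, τ) g 0 = conf m (π, χ', τ) g 0 := fun π χ χ' τ h =>
      C0' π χ χ' τ τ fun w hw => ⟨h w hw, rfl⟩
    have hc1 : ∀ (π : Equiv.Perm (Fin M)) (χ : Fin M → Xn) (τ τ' : Fin M → Xp),
        cel (Xn := Xn) (Xp := Xp) hM (π, χ, τ) = cel (Xn := Xn) (Xp := Xp) hM (π, χ, τ') :=
      fun _ _ _ _ => rfl
    have hc2 : ∀ (π : Equiv.Perm (Fin M)) (χ χ' : Fin M → Xn) (τ : Fin M → Xp),
        cel (Xn := Xn) (Xp := Xp) hM (π, χ, τ) = cel (Xn := Xn) (Xp := Xp) hM (π, χ', τ) :=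
      fun _ _ _ _ => rfl
    let f1 : Ply M Xn Xp → (Fin n → Bool) → (Fin n → Fin K × Xp) → (Fin n × Fin K → Xn) → ℝ :=
      fun ω β y χ => avg_ind (Φ (put (cel hM ω) (sP β y) (conf m ω g 0)) ≠
        Φ (put (cel hM ω) (sQ β y χ) (conf m ω g 0)))
    let f2 : Ply M Xn Xp → (Fin n × Fin K → Xn) → ℝ := fun ω χ =>
      avg_ind (Φ (conf m ω g 0) ≠ Φ (put (cel hM ω) (sN χ) (conf m ω g 0)))
    let f3 : Ply M Xn Xp → (Fin n → Bool) → (Fin n → Fin K × Xp) → (Fin n × Fin K → Xn) → ℝ :=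
      fun ω β y χ => avg_ind (Ri (put (cel hM ω) (sw β y χ) (conf m ω g 0)))
    -- the step
    have hstep : ∀ ω : Ply M Xn Xp, 2 * (U : ℝ) * (∑ β, ∑ y, ∑ χ, f3 ω β y χ) ≤
        (U + 7) * ((2 : ℝ) ^ n * (((K : ℝ) ^ n * (Fintype.card Xp : ℝ) ^ n) *
          (Fintype.card (Fin n × Fin K → Xn) : ℝ))) +
        2 * U * (∑ β, ∑ y, ∑ χ, f1 ω β y χ +
          4 * ((2 : ℝ) ^ n * ((K : ℝ) ^ n * (Fintype.card Xp : ℝ) ^ n) * ∑ χ, f2 ω χ)) := by
      intro ω
      have h := hS (conf m ω g 0) (cel hM ω) (hinj ω) (C0 ω).2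
        (CFB_thm M m Xn Xp ω g g 0 0 le_rfl (by omega) le_rfl (by omega)).2
      have h' := (Nat.cast_le (α := ℝ)).2 h
      rw [Nat.cast_mul, Nat.cast_add, Nat.cast_mul, Nat.cast_mul (2 * U), Nat.cast_add,
        Nat.cast_mul 4, Nat.cast_mul (Fintype.card _), avg_card, avg_card, avg_card,
        Fintype.card_prod, Fintype.card_prod, Fintype.card_prod, Nat.cast_mul, Nat.cast_mul,
        Nat.cast_mul, cy, cβ] at h'
      rw [Fintype.sum_prod_type] at h'
      simp only [Fintype.sum_prod_type] at h'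
      push_cast at h'
      simp only [cy, cβ] at h'
      exact h'
    -- the hard states
    have a0 : ∑ ω : Ply M Xn Xp, ∑ β, ∑ y, ∑ χ, f3 ω β y χ =
        ((Fintype.card Xp : ℝ) ^ n * (Fintype.card (Fin n × Fin K → Xn) : ℝ)) *
          ∑ ω : Ply M Xn Xp, ∑ β : Fin n → Bool, ∑ κ : Fin n → Fin K,
            f3 ω β (fun c => (κ c, ω.2.2 (cel hM ω (c, κ c)))) fun x => ω.2.1 (cel hM ω x) := by
      rw [Finset.sum_comm (f := fun (ω : Ply M Xn Xp) (β : Fin n → Bool) =>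
        ∑ κ : Fin n → Fin K,
            f3 ω β (fun c => (κ c, ω.2.2 (cel hM ω (c, κ c)))) fun x => ω.2.1 (cel hM ω x)),
        Finset.sum_comm, Finset.mul_sum]
      refine Finset.sum_congr rfl fun β _ => ?_
      simp only [avg_split]
      rw [Finset.sum_comm, Finset.sum_comm (f := fun (ω : Ply M Xn Xp) (κ : Fin n → Fin K) =>
            f3 ω β (fun c => (κ c, ω.2.2 (cel hM ω (c, κ c)))) fun x => ω.2.1 (cel hM ω x)),
        Finset.mul_sum]
      refine Finset.sum_congr rfl fun κ _ => ?_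
      rw [avg_pos hR hM hinj κ (fun ω t => ∑ χ, f3 ω β (fun c => (κ c, t c)) χ) (by
          intro π χ τ τ' x h
          simp only [f3]
          rw [hR1 π χ τ τ' h, hc1 π χ τ τ'])]
      rw [avg_neu hR hM hinj (fun ω χ => f3 ω β
          (fun c => (κ c, ω.2.2 (cel hM ω (c, κ c)))) χ) (by
          intro π χ χ' τ x h
          simp only [f3]
          rw [hR2 π χ χ' τ h, hc2 π χ χ' τ])]
      ring
    -- the second term
    have a2 : ∑ ω : Ply M Xn Xp, ∑ χ, f2 ω χ =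
        (Fintype.card (Fin n × Fin K → Xn) : ℝ) * D j 0 := by
      rw [avg_neu hR hM hinj f2 (by
        intro π χ χ' τ x h
        simp only [f2]
        rw [hR2 π χ χ' τ h, hc2 π χ χ' τ])]
      congr 1
      refine Finset.sum_congr rfl fun ω _ => ?_
      simp only [f2]
      rw [C3 ω, hj2]
    -- the first term
    have a1 : ∑ ω : Ply M Xn Xp, ∑ β, ∑ y, ∑ χ, f1 ω β y χ ≤
        ((K : ℝ) ^ n * (Fintype.card Xp : ℝ) ^ n) * (Fintype.card (Fin n × Fin K → Xn) : ℝ) *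
          ∑ β : Fin n → Bool, D j (ones β) := by
      rw [Finset.sum_comm, Finset.mul_sum]
      refine Finset.sum_le_sum fun β _ => ?_
      simp only [avg_split]
      rw [Finset.sum_comm]
      have b1 : ∀ κ : Fin n → Fin K, ∑ ω : Ply M Xn Xp, ∑ t : Fin n → Xp, ∑ χ,
          f1 ω β (fun c => (κ c, t c)) χ ≤ (Fintype.card Xp : ℝ) ^ n *
            ((Fintype.card (Fin n × Fin K → Xn) : ℝ) * D j (ones β)) := by
        intro κ
        rw [avg_pos hR hM hinj κ (fun ω t => ∑ χ, f1 ω β (fun c => (κ c, t c)) χ) (by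
          intro π χ τ τ' x h
          simp only [f1]
          rw [hR1 π χ τ τ' h, hc1 π χ τ τ'])]
        refine mul_le_mul_of_nonneg_left ?_ cxp.le
        rw [avg_neu hR hM hinj (fun ω χ => f1 ω β
          (fun c => (κ c, ω.2.2 (cel hM ω (c, κ c)))) χ) (by
          intro π χ χ' τ x h
          simp only [f1]
          rw [hR2 π χ χ' τ h, hc2 π χ χ' τ])]
        refine mul_le_mul_of_nonneg_left ?_ cχ.le
        obtain ⟨σ, hσ⟩ := hC M n K m g Xn Xp hM hn hK hj1 (by omega) κ β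
        have e1 : D j (ones β) = ∑ ω : Ply M Xn Xp,
            avg_ind (Φ (conf m (ω.1 * σ, ω.2) g (ones β)) ≠
              Φ (conf m (ω.1 * σ, ω.2) (g + n * K) (ones β))) := by
          rw [avg_comp σ fun ω => avg_ind (Φ (conf m ω g (ones β)) ≠
              Φ (conf m ω (g + n * K) (ones β)))]
          simp only [hD]
          rw [hj2]
        rw [e1]
        refine Finset.sum_le_sum fun ω _ => ?_
        simp only [f1]
        refine avg_ind_le ?_
        intro hne heq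
        obtain ⟨s1, s2, s3⟩ := hσ ω
        apply hne
        rw [s1]
        have t2 := hmono _ _ s2
        have t3 := hmono _ _ s3
        omega
      refine (Finset.sum_le_sum fun κ _ => b1 κ).trans (le_of_eq ?_)
      rw [Finset.sum_const, Finset.card_univ, nsmul_eq_mul, Fintype.card_fun, Fintype.card_fin,
        Fintype.card_fin]
      push_cast
      ring
    have a4 := Finset.sum_le_sum fun (ω : Ply M Xn Xp) (_ : ω ∈ univ) => hstep ω
    rw [← Finset.mul_sum, Finset.sum_add_distrib, Finset.sum_const, Finset.card_univ,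
      nsmul_eq_mul, ← Finset.mul_sum, Finset.sum_add_distrib, ← Finset.mul_sum,
      ← Finset.mul_sum, a2, a0] at a4
    have hpos := mul_pos cxp cχ
    refine le_of_mul_le_mul_left ?_ hpos
    have a5 := mul_le_mul_of_nonneg_left a1 (show (0 : ℝ) ≤ 2 * U by positivity)
    rw [hN]
    refine le_trans (le_of_eq ?_) (a4.trans (le_trans (add_le_add_right (le_refl _) _) ?_))
    · ring
    · nlinarith [a5]
  -- the sum over all steps
  have h1 := Finset.sum_le_sum fun j (_ : j ∈ (univ : Finset (Fin J))) => claim2 j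
  rw [← Finset.mul_sum, Finset.sum_add_distrib, Finset.sum_const, Finset.card_univ,
    nsmul_eq_mul, Fintype.card_fin, ← Finset.mul_sum, Finset.sum_add_distrib,
    ← Finset.mul_sum, Finset.sum_comm (f := fun (i : Fin J) (β : Fin n → Bool) =>
      D i (ones β)), ← Finset.mul_sum, ← Finset.mul_sum] at h1
  have h2 : ∑ β : Fin n → Bool, ∑ j : Fin J, D j (ones β) ≤ (2 : ℝ) ^ n * (P * N) := by
    refine (Finset.sum_le_sum fun β _ => (le_of_eq
      (Fin.sum_univ_eq_sum_range (fun j => D j (ones β)) J)).trans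
        (claim1 _ (ones_le β))).trans (le_of_eq ?_)
    rw [Finset.sum_const, Finset.card_univ, nsmul_eq_mul, cβ]
  have h3 : ∑ j : Fin J, D j 0 ≤ P * N :=
    (le_of_eq (Fin.sum_univ_eq_sum_range (fun j => D j 0) J)).trans (claim1 0 (Nat.zero_le _))
  have c2 : (0 : ℝ) < (2 : ℝ) ^ n := by positivity
  have hNpos : 0 < N := by
    rw [hN]
    exact_mod_cast Fintype.card_pos
  have hcard : (Fintype.card (Fin J × Ply M Xn Xp × (Fin n → Bool) × (Fin n → Fin K)) : ℝ) =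
      J * (N * ((2 : ℝ) ^ n * (K : ℝ) ^ n)) := by
    have cκ : (Fintype.card (Fin n → Fin K) : ℝ) = (K : ℝ) ^ n := by
      rw [Fintype.card_fun, Fintype.card_fin, Fintype.card_fin]
      push_cast
      rfl
    rw [Fintype.card_prod (Fin J) _, Fintype.card_prod (Ply M Xn Xp) _,
      Fintype.card_prod (Fin n → Bool) _, Fintype.card_fin J,
      Nat.cast_mul, Nat.cast_mul, Nat.cast_mul, cβ, cκ, hN]
  have hU' : 10 * (U : ℝ) * P ≤ J := by exact_mod_cast hU
  have hLHS : (((univ : Finset (Fin J × Ply M Xn Xp × (Fin n → Bool) ×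
        (Fin n → Fin K))).filter fun i =>
        Ri (put (cel (hB i.1) i.2.1)
          (sw i.2.2.1 (fun c => (i.2.2.2 c, i.2.1.2.2 (cel (hB i.1) i.2.1 (c, i.2.2.2 c))))
            fun x => i.2.1.2.1 (cel (hB i.1) i.2.1 x))
          (conf (J * (n * K)) i.2.1 ((i.1 : ℕ) * (n * K)) 0))).card : ℝ) = ∑ j, G j := by
    rw [avg_card, Fintype.sum_prod_type]
    refine Finset.sum_congr rfl fun j _ => ?_
    rw [Fintype.sum_prod_type]
    refine Finset.sum_congr rfl fun ω _ => ?_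
    rw [Fintype.sum_prod_type]
  have key : 2 * (U : ℝ) * ∑ j, G j ≤
      (U + 8) * (J * (N * ((2 : ℝ) ^ n * (K : ℝ) ^ n))) := by
    have e1 : (K : ℝ) ^ n * ∑ β : Fin n → Bool, ∑ j : Fin J, D j (ones β) ≤
        (K : ℝ) ^ n * ((2 : ℝ) ^ n * (P * N)) := mul_le_mul_of_nonneg_left h2 cK.le
    have e2 : (2 : ℝ) ^ n * (K : ℝ) ^ n * ∑ j : Fin J, D j 0 ≤
        (2 : ℝ) ^ n * (K : ℝ) ^ n * (P * N) := mul_le_mul_of_nonneg_left h3 (by positivity)
    have e3 : 2 * (U : ℝ) * ((K : ℝ) ^ n * ∑ β : Fin n → Bool, ∑ j : Fin J, D j (ones β) +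
        4 * ((2 : ℝ) ^ n * (K : ℝ) ^ n * ∑ j : Fin J, D j 0)) ≤
        2 * (U : ℝ) * ((K : ℝ) ^ n * ((2 : ℝ) ^ n * (P * N)) +
          4 * ((2 : ℝ) ^ n * (K : ℝ) ^ n * (P * N))) :=
      mul_le_mul_of_nonneg_left (by linarith) (by positivity)
    have e4 : 10 * (U : ℝ) * P * (N * ((2 : ℝ) ^ n * (K : ℝ) ^ n)) ≤
        J * (N * ((2 : ℝ) ^ n * (K : ℝ) ^ n)) :=
      mul_le_mul_of_nonneg_right hU' (by positivity)
    calc 2 * (U : ℝ) * ∑ j, G j ≤ _ := h1
      _ ≤ J * ((U + 7) * (N * ((2 : ℝ) ^ n * (K : ℝ) ^ n))) +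
          2 * (U : ℝ) * ((K : ℝ) ^ n * ((2 : ℝ) ^ n * (P * N)) +
          4 * ((2 : ℝ) ^ n * (K : ℝ) ^ n * (P * N))) := by linarith
      _ = (U + 7) * (J * (N * ((2 : ℝ) ^ n * (K : ℝ) ^ n))) +
          10 * (U : ℝ) * P * (N * ((2 : ℝ) ^ n * (K : ℝ) ^ n)) := by ring
      _ ≤ _ := by linarith
  rw [← hLHS, ← hcard] at key
  exact_mod_cast key

end AVWM

open AVWM in
theorem AVW_thm : Stmt_AVW := by
  intro hC M τ K J U Xn Xp _ _ _ _ hK hJ hM
  have hB : ∀ j : Fin J, (j : ℕ) * ((2 * τ + 1) * K) + (2 * τ + 1) * K ≤ M := by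
    intro j
    have h := Nat.mul_le_mul_right ((2 * τ + 1) * K) (Nat.succ_le_of_lt j.2)
    rw [Nat.succ_mul] at h
    omega
  refine ⟨Fin J × Ply M Xn Xp × (Fin (2 * τ + 1) → Bool) × (Fin (2 * τ + 1) → Fin K),
    inferInstance, ⟨(⟨0, hJ⟩, (1, fun _ => Classical.arbitrary Xn, fun _ =>
      Classical.arbitrary Xp), fun _ => false, fun _ => ⟨0, hK⟩)⟩,
    fun i => put (cel (hB i.1) i.2.1)
      (sW τ i.2.2.1 (fun c => (i.2.2.2 c, i.2.1.2.2 (cel (hB i.1) i.2.1 (c, i.2.2.2 c))))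
        fun x => i.2.1.2.1 (cel (hB i.1) i.2.1 x))
      (conf (J * ((2 * τ + 1) * K)) i.2.1 ((i.1 : ℕ) * ((2 * τ + 1) * K)) 0), ?_⟩
  intro P Φ Ri hP hmono hS hU
  exact core hC M (2 * τ + 1) K J U Xn Xp (by omega) hK hM hB (sW τ) P Φ Ri hP hmono hS hU

end Pool.Agent.PPH
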