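import Pool.Agent.PPH.Stmts

/-!
# PPH, module BIN: binomial sums
-/

set_option autoImplicit false

namespace Pool.Agent.PPH

open Finset

namespace BINM

theorem card_small (n t : ℕ) :
    ((univ : Finset (Finset (Fin n))).filter fun S => S.card ≤ t).card =
      ∑ j ∈ range (t + 1), n.choose j := by
  rw [Finset.card_eq_sum_card_fiberwise (f := fun S : Finset (Fin n) => S.card)
    (t := range (t + 1))]
  · refine Finset.sum_congr rfl fun j hj => ?_
    have hj' : j < t + 1 := Finset.mem_range.1 hj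
    have h1 : ((univ : Finset (Finset (Fin n))).filter fun S => S.card ≤ t).filter
        (fun S => S.card = j) = Finset.powersetCard j univ := by
      ext S
      rw [Finset.mem_filter, Finset.mem_filter, Finset.mem_powersetCard]
      constructor
      · rintro ⟨-, h⟩
        exact ⟨Finset.subset_univ _, h⟩
      · rintro ⟨-, h⟩
        exact ⟨⟨Finset.mem_univ _, by omega⟩, h⟩
    rw [h1, Finset.card_powersetCard, Finset.card_univ, Fintype.card_fin]
  · intro S hS
    have h1 : S.card ≤ t := (Finset.mem_filter.1 hS).2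
    exact Finset.mem_coe.2 (Finset.mem_range.2 (Nat.lt_succ_of_le h1))

theorem central : ∀ m : ℕ, (Nat.centralBinom m) ^ 2 * (3 * m + 1) ≤ 16 ^ m
  | 0 => by simp
  | m + 1 => by
    have h1 := Nat.succ_mul_centralBinom_succ m
    have h2 := central m
    have h3 : (m + 1) ^ 2 * ((Nat.centralBinom (m + 1)) ^ 2 * (3 * (m + 1) + 1)) ≤
        (m + 1) ^ 2 * 16 ^ (m + 1) := by
      calc (m + 1) ^ 2 * ((Nat.centralBinom (m + 1)) ^ 2 * (3 * (m + 1) + 1))
          = ((m + 1) * Nat.centralBinom (m + 1)) ^ 2 * (3 * (m + 1) + 1) := by ring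
        _ = (2 * (2 * m + 1) * Nat.centralBinom m) ^ 2 * (3 * (m + 1) + 1) := by rw [h1]
        _ = 4 * (Nat.centralBinom m) ^ 2 * ((2 * m + 1) ^ 2 * (3 * m + 4)) := by ring
        _ ≤ 4 * (Nat.centralBinom m) ^ 2 * (4 * (m + 1) ^ 2 * (3 * m + 1)) := by
          refine Nat.mul_le_mul_left _ ?_
          have h4 : 4 * (m + 1) ^ 2 * (3 * m + 1) = (2 * m + 1) ^ 2 * (3 * m + 4) + m := by ring
          omega
        _ = 16 * (m + 1) ^ 2 * ((Nat.centralBinom m) ^ 2 * (3 * m + 1)) := by ring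
        _ ≤ 16 * (m + 1) ^ 2 * 16 ^ m := Nat.mul_le_mul_left _ h2
        _ = (m + 1) ^ 2 * 16 ^ (m + 1) := by ring
    exact Nat.le_of_mul_le_mul_left h3 (by positivity)

theorem two_mul_choose (τ : ℕ) : 2 * (2 * τ + 1).choose τ = Nat.centralBinom (τ + 1) := by
  have h1 : (2 * τ + 1).choose (τ + 1) = (2 * τ + 1).choose τ := by
    have := Nat.choose_symm_of_eq_add (n := 2 * τ + 1) (a := τ + 1) (b := τ) (by ring)
    exact this
  rw [Nat.centralBinom, show 2 * (τ + 1) = (2 * τ + 1) + 1 by ring, Nat.choose_succ_succ', h1]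
  ring

end BINM

open BINM in
/-- **BIN** -/
theorem BIN_thm : Stmt_BIN := by
  intro τ Δ hΔ
  rw [card_small]
  set C : ℕ := (2 * τ + 1).choose τ with hC
  have h1 : ∑ j ∈ range (τ + Δ + 1), (2 * τ + 1).choose j ≤ 4 ^ τ + Δ * C := by
    have e : τ + Δ + 1 = τ + 1 + Δ := by ring
    rw [e, Finset.sum_range_add, Nat.sum_range_choose_halfway]
    refine Nat.add_le_add_left ?_ _
    have h2 : ∀ x ∈ range Δ, (2 * τ + 1).choose (τ + 1 + x) ≤ C := by
      intro x _
      have h3 := Nat.choose_le_middle (τ + 1 + x) (2 * τ + 1)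
      have h4 : (2 * τ + 1) / 2 = τ := by omega
      rw [h4] at h3
      exact h3
    refine (Finset.sum_le_card_nsmul _ _ _ h2).trans ?_
    rw [Finset.card_range, smul_eq_mul]
  have h5 := central (τ + 1)
  rw [← two_mul_choose, ← hC] at h5
  have h6 : (2 * C * Δ) ^ 2 ≤ (4 ^ τ) ^ 2 := by
    have h7 : 16 * (2 * C * Δ) ^ 2 ≤ 16 * (4 ^ τ) ^ 2 := by
      calc 16 * (2 * C * Δ) ^ 2 = (2 * C) ^ 2 * (16 * Δ ^ 2) := by ring
        _ ≤ (2 * C) ^ 2 * (3 * τ + 4) := Nat.mul_le_mul_left _ hΔ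
        _ = (2 * C) ^ 2 * (3 * (τ + 1) + 1) := by ring
        _ ≤ 16 ^ (τ + 1) := h5
        _ = 16 * (4 ^ τ) ^ 2 := by
          rw [pow_succ, ← pow_mul, mul_comm τ 2, pow_mul]
          norm_num
          ring
    exact Nat.le_of_mul_le_mul_left h7 (by norm_num)
  have h8 : 2 * C * Δ ≤ 4 ^ τ := (Nat.pow_le_pow_iff_left two_ne_zero).1 h6
  have h9 : 3 * 2 ^ (2 * τ + 1) = 6 * 4 ^ τ := by
    rw [pow_succ, pow_mul]
    norm_num
    ring
  rw [h9]
  have h10 : 2 * C * Δ = 2 * (Δ * C) := by ring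
  rw [h10] at h8
  omega

end Pool.Agent.PPH
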