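import Pool.Agent.PPH.Stmts4
import Pool.Agent.PPH.BIN

/-!
# PPH, module BIW: binomial sums, with a parameter
-/

set_option autoImplicit false

namespace Pool.Agent.PPH

open Finset

open BINM in
/-- **BIW** -/
theorem BIW_thm : Stmt_BIW := by
  intro τ Δ U hΔ
  rw [card_small]
  set C : ℕ := (2 * τ + 1).choose τ with hC
  have h1 : ∑ j ∈ range (τ + Δ + 1), (2 * τ + 1).choose j ≤ 4 ^ τ + Δ * C := by
    have e : τ + Δ + 1 = τ + 1 + Δ := by ring
    rw [e, Finset.sum_range_add, Nat.sum_range_choose_halfway]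
    refine Nat.add_le_add_left ?_ _
    have h2 : ∀ x ∈ range Δ, (2 * τ + 1).choose (τ + 1 + x) ≤ C := by
      intro x _
      have h3 := Nat.choose_le_middle (τ + 1 + x) (2 * τ + 1)
      have h4 : (2 * τ + 1) / 2 = τ := by omega
      rw [h4] at h3
      exact h3
    refine (Finset.sum_le_card_nsmul _ _ _ h2).trans ?_
    rw [Finset.card_range, smul_eq_mul]
  have h5 := central (τ + 1)
  rw [← two_mul_choose, ← hC] at h5
  have h6 : (U * (Δ * C)) ^ 2 ≤ (4 ^ τ) ^ 2 := by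
    have h7 : 16 * (U * (Δ * C)) ^ 2 ≤ 16 * (4 ^ τ) ^ 2 := by
      calc 16 * (U * (Δ * C)) ^ 2 = (2 * C) ^ 2 * (4 * (Δ * U) ^ 2) := by ring
        _ ≤ (2 * C) ^ 2 * (3 * τ + 4) := Nat.mul_le_mul_left _ hΔ
        _ = (2 * C) ^ 2 * (3 * (τ + 1) + 1) := by ring
        _ ≤ 16 ^ (τ + 1) := h5
        _ = 16 * (4 ^ τ) ^ 2 := by
          rw [pow_succ, ← pow_mul, mul_comm τ 2, pow_mul]
          norm_num
          ring
    exact Nat.le_of_mul_le_mul_left h7 (by norm_num)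
  have h8 : U * (Δ * C) ≤ 4 ^ τ := (Nat.pow_le_pow_iff_left two_ne_zero).1 h6
  calc U * ∑ j ∈ range (τ + Δ + 1), (2 * τ + 1).choose j
      ≤ U * (4 ^ τ + Δ * C) := Nat.mul_le_mul_left _ h1
    _ = U * 4 ^ τ + U * (Δ * C) := by ring
    _ ≤ U * 4 ^ τ + 4 ^ τ := Nat.add_le_add_left h8 _
    _ = (U + 1) * 4 ^ τ := by ring

end Pool.Agent.PPH
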