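import Pool.Agent.PPH.Stmts
import Pool.Agent.S2C.CFA

/-!
# CFP: the configurations and the cells, for a part of the cells
-/

set_option autoImplicit false

namespace Pool.Agent.PPH

open Finset Pool.Agent.NegLim Pool.Agent.NLM Pool.Agent.S2C
open Pool.Agent.NBC (St)

namespace CFPM

/-- An enumeration of the cells which begins with the cells of `β`. -/
theorem exists_enum {n : ℕ} (β : Fin n → Bool) :
    ∃ ρ : Equiv.Perm (Fin n), ∀ c, (ρ c : ℕ) < ones β ↔ β c = true := by
  classical
  have hle : ones β ≤ n := by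
    unfold ones
    exact (Finset.card_le_univ _).trans (by rw [Fintype.card_fin])
  have hcard : Fintype.card {c : Fin n // β c = true} =
      Fintype.card {c : Fin n // (c : ℕ) < ones β} := by
    rw [Fintype.card_subtype, Fintype.card_subtype]
    have h1 : ((univ : Finset (Fin n)).filter fun c : Fin n => (c : ℕ) < ones β).card = ones β := by
      have h2 : ((univ : Finset (Fin n)).filter fun c : Fin n => (c : ℕ) < ones β) =
          (univ : Finset (Fin (ones β))).map (Fin.castLEEmb hle) := by
        ext c
        simp only [Finset.mem_filter, Finset.mem_univ, true_and, Finset.mem_map]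
        constructor
        · intro h
          exact ⟨⟨c, h⟩, rfl⟩
        · rintro ⟨d, rfl⟩
          exact d.2
      rw [h2, Finset.card_map, Finset.card_univ, Fintype.card_fin]
    rw [h1]
    rfl
  let e := Fintype.equivOfCardEq hcard
  refine ⟨e.extendSubtype, fun c => ⟨fun h => ?_, fun h => e.extendSubtype_mem c h⟩⟩
  by_contra hc
  exact e.extendSubtype_not_mem c hc h

end CFPM

open CFAX CFPM in
theorem CFP_thm : Stmt_CFP := by
  classical
  intro M n K m g Xn Xp hM hn hK hgm hmn κ β
  obtain ⟨ρ, hρ⟩ := exists_enum β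
  have hle : ones β ≤ n := by
    unfold ones
    exact (Finset.card_le_univ _).trans (by rw [Fintype.card_fin])
  have hml : m + 0 + n ≤ M := by omega
  obtain ⟨σ, h1, h2, h3⟩ := main (K := K) hM hgm hml κ ρ {c | β c = true}
  have hC : ∀ c, c ∉ {c : Fin n | β c = true} → ones β ≤ 0 + (ρ c : ℕ) := by
    intro c hc
    have h4 : ¬ (ρ c : ℕ) < ones β := fun h => hc ((hρ c).1 h)
    omega
  refine ⟨σ, fun ω => ?_⟩
  have e1 : put (cel hM ω) (sP β fun c => (κ c, ω.2.2 (cel hM ω (c, κ c)))) (conf m ω g 0) =
      conf m (ω.1 * σ, ω.2) g (ones β) := by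
    refine eq_conf hM hgm hml κ ρ {c | β c = true} (ones β) (by omega) (by omega)
      hC σ h1 h2 h3 ω _ ?_
    rintro ⟨c, j⟩
    unfold sP
    show (if β c = true ∧ j = κ c then _ else _) = if j = κ c ∧ 0 + (ρ c : ℕ) < ones β then _ else _
    by_cases hj : β c = true ∧ j = κ c
    · obtain ⟨h4, rfl⟩ := hj
      have h5 := (hρ c).2 h4
      rw [if_pos ⟨h4, rfl⟩, if_pos ⟨rfl, by omega⟩]
      rfl
    · rw [if_neg hj, if_neg]
      rintro ⟨h4, h5⟩
      exact hj ⟨(hρ c).1 (by omega), h4⟩
  refine ⟨e1, ?_, ?_⟩
  · rw [← e1]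
    intro w
    obtain ⟨r, rfl⟩ := ω.1.surjective w
    by_cases hr : g ≤ (r : ℕ) ∧ (r : ℕ) < g + n * K
    · obtain ⟨⟨c, j⟩, rfl⟩ := exists_role hM r hr.1 hr.2
      rw [put_cel, put_cel]
      unfold sP sQ
      show (if β c = true ∧ j = κ c then _ else _) = _ ∨
        (if β c = true ∧ j = κ c then _ else _) = if β c = true ∧ j = κ c then _ else _
      by_cases hc : β c = true ∧ j = κ c
      · right
        rw [if_pos hc, if_pos hc]
      · left
        rw [if_neg hc]
    · right
      rw [put_out hM ω _ _ r hr, put_out hM ω _ _ r hr]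
  · intro w
    obtain ⟨r, rfl⟩ := ω.1.surjective w
    rw [conf_role]
    by_cases hr : g ≤ (r : ℕ) ∧ (r : ℕ) < g + n * K
    · right
      obtain ⟨⟨c, j⟩, rfl⟩ := exists_role hM r hr.1 hr.2
      rw [put_cel]
      unfold sQ
      show (if β c = true ∧ j = κ c then _ else _) = _
      by_cases hc : β c = true ∧ j = κ c
      · obtain ⟨h4, rfl⟩ := hc
        have h5 := (hρ c).2 h4
        have e2 : ((brole hml ρ c : Fin M) : ℕ) = m + 0 + (ρ c : ℕ) := rfl
        rw [if_pos ⟨h4, rfl⟩, h1 c h4, e2, if_neg (by omega), if_pos (by omega)]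
        rfl
      · have e2 : σ.symm (role hM (c, j)) = role hM (c, j) := by
          refine h3 _ (fun c' hc' h => ?_) (fun c' _ h => ?_)
          · have h4 := role_injective hM h
            have h5 : c' = c := congrArg Prod.fst h4
            subst h5
            exact hc ⟨hc', (congrArg Prod.snd h4).symm⟩
          · have h4 : m + 0 + (ρ c' : ℕ) = (role hM (c, j) : ℕ) := congrArg Fin.val h
            omega
        rw [if_neg hc, e2, if_pos hr.2]
        rfl
    · rw [put_out hM ω _ _ r hr, conf_one]
      by_cases hg : (r : ℕ) < g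
      · right
        have e2 : σ.symm r = r := by
          refine h3 _ (fun c' _ h => ?_) (fun c' _ h => ?_)
          · subst h
            exact hr ⟨role_le hM _, role_lt hM _⟩
          · have h4 : m + 0 + (ρ c' : ℕ) = (r : ℕ) := congrArg Fin.val h
            omega
        rw [e2, if_pos hg, if_pos (by omega)]
      · left
        rw [if_neg hg, if_neg (by omega)]

end Pool.Agent.PPH
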