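import Pool.Agent.PPH.Stmts
import Pool.Agent.S2C.APS
import Pool.Agent.S2C.CND
import Pool.Agent.S2C.KXA
import Pool.Agent.S2C.KXC

/-!
# Module COR: the core, for fixed bits
-/

set_option autoImplicit false

namespace Pool.Agent.PPH

open Finset Pool.Agent.NegLim Pool.Agent.NLM Pool.Agent.S2C
open Pool.Agent.NBC (SameN St Tests)

namespace CORM

section

variable {n K k b : ℕ} {E Xn Xp : Type}

/-- The state of the cells of `I` with the positive tests `v`. -/
def stI (β : Fin n → Bool) (I : Finset (Fin n)) (v : Fin n → Fin K × Xp) :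
    Fin n × Fin K → St Xn Xp := fun x =>
  if (x.1 ∈ I ∧ β x.1 = true) ∧ x.2 = (v x.1).1 then St.pos (v x.1).2 else St.emp

/-- The positive tests of the cells outside of `I`. -/
def posI (β : Fin n → Bool) (I : Finset (Fin n)) (y : Fin n → Fin K × Xp) :
    Fin n × Fin K → Option Xp := fun x =>
  if (x.1 ∉ I ∧ β x.1 = true) ∧ x.2 = (y x.1).1 then some (y x.1).2 else none

theorem posI_none {β : Fin n → Bool} {I : Finset (Fin n)} {y0 y : Fin n → Fin K × Xp}
    (hy : ∀ c, c ∉ I → (y c).1 ≠ (y0 c).1) {w : Fin n × Fin K} (hw : w ∉ kxa_D I y0) :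
    posI β I y w = none := by
  have h : ¬ ((w.1 ∉ I ∧ β w.1 = true) ∧ w.2 = (y w.1).1) := by
    rintro ⟨⟨h1, -⟩, h2⟩
    apply hw
    rw [kxa_D, mem_filter]
    exact ⟨mem_univ _, h1, fun h3 => hy w.1 h1 (h2.symm.trans h3)⟩
  exact if_neg h

open Classical in
theorem up (T : Tests (Fin n × Fin K) E Xn Xp) {β : Fin n → Bool} {I : Finset (Fin n)}
    {v y : Fin n → Fin K × Xp} (hy : ∀ c ∈ I, y c = v c) (e : E)
    (he : T.xin (sP β y) e = true) :
    (decide (∃ w, e ∈ T.B w ∧ ∃ τ, posI β I y w = some τ ∧ T.pos w τ e = true) ||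
      T.xin (stI β I v) e) = true := by
  obtain ⟨j, hj, hv⟩ := (kxa_xin T _ e).1 he
  by_cases h : β j.1 = true ∧ j.2 = (y j.1).1
  · have h1 : (sP β y : Fin n × Fin K → St Xn Xp) j = St.pos (y j.1).2 := if_pos h
    rw [h1] at hv
    have hv' : T.pos j (y j.1).2 e = true := hv
    rw [Bool.or_eq_true]
    by_cases hI : j.1 ∈ I
    · right
      refine (kxa_xin T _ e).2 ⟨j, hj, ?_⟩
      have h2 : (stI β I v : Fin n × Fin K → St Xn Xp) j = St.pos (v j.1).2 :=
        if_pos ⟨⟨hI, h.1⟩, by rw [← hy _ hI]; exact h.2⟩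
      rw [h2, ← hy _ hI]
      exact hv'
    · left
      exact decide_eq_true ⟨j, hj, (y j.1).2, if_pos ⟨⟨hI, h.1⟩, h.2⟩, hv'⟩
  · have h1 : (sP β y : Fin n × Fin K → St Xn Xp) j = St.emp := if_neg h
    rw [h1] at hv
    exact absurd hv (by simp [Tests.val])

open Classical in
theorem dn (T : Tests (Fin n × Fin K) E Xn Xp) {β : Fin n → Bool} {I : Finset (Fin n)}
    {v y0 : Fin n → Fin K × Xp} (hy : ∀ c ∈ I, y0 c = v c) (χ : Fin n × Fin K → Xn) (e : E)
    (he : (decide (∃ w ∈ kxa_D I y0, e ∈ T.B w ∧ T.neu w (χ w) e = true) ||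
      T.xin (stI β I v) e) = true) :
    T.xin (sR (I.filter fun c => β c = true) y0 χ) e = true := by
  rw [Bool.or_eq_true] at he
  rcases he with he | he
  · obtain ⟨w, hw, hB, hn⟩ := of_decide_eq_true he
    rw [kxa_D, mem_filter] at hw
    refine (kxa_xin T _ e).2 ⟨w, hB, ?_⟩
    have h1 : (sR (I.filter fun c => β c = true) y0 χ : Fin n × Fin K → St Xn Xp) w =
        St.neu (χ w) := if_neg hw.2.2
    rw [h1]
    exact hn
  · obtain ⟨j, hj, hv⟩ := (kxa_xin T _ e).1 he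
    by_cases h : (j.1 ∈ I ∧ β j.1 = true) ∧ j.2 = (v j.1).1
    · have h1 : (stI β I v : Fin n × Fin K → St Xn Xp) j = St.pos (v j.1).2 := if_pos h
      rw [h1] at hv
      refine (kxa_xin T _ e).2 ⟨j, hj, ?_⟩
      have hS : j.1 ∈ I.filter fun c => β c = true := mem_filter.2 h.1
      have h2 : (sR (I.filter fun c => β c = true) y0 χ : Fin n × Fin K → St Xn Xp) j =
          St.pos (y0 j.1).2 := by
        have h3 : j.2 = (y0 j.1).1 := by
          rw [hy _ h.1.1]
          exact h.2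
        exact (if_pos h3).trans (if_pos hS)
      rw [h2, hy _ h.1.1]
      exact hv
    · have h1 : (stI β I v : Fin n × Fin K → St Xn Xp) j = St.emp := if_neg h
      rw [h1] at hv
      exact absurd hv (by simp [Tests.val])

end

theorem num {Λ G q p N N' A : ℕ} (hp2 : 16 * G * 2 ^ Λ * q < 2 ^ p)
    (hN : N' ≤ N) (h : N * 2 ^ p ≤ G * (4 * q) * A) : 2 ^ Λ * N' ≤ A := by
  have h1 : 2 ^ Λ * N' * 2 ^ p ≤ A * 2 ^ p := by
    calc 2 ^ Λ * N' * 2 ^ p ≤ 2 ^ Λ * N * 2 ^ p :=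
          Nat.mul_le_mul_right _ (Nat.mul_le_mul_left _ hN)
      _ = 2 ^ Λ * (N * 2 ^ p) := by ring
      _ ≤ 2 ^ Λ * (G * (4 * q) * A) := Nat.mul_le_mul_left _ h
      _ = 4 * G * 2 ^ Λ * q * A := by ring
      _ ≤ 16 * G * 2 ^ Λ * q * A := by
          refine Nat.mul_le_mul_right _ (Nat.mul_le_mul_right _ (Nat.mul_le_mul_right _
            (Nat.mul_le_mul_right _ (by norm_num))))
      _ ≤ 2 ^ p * A := Nat.mul_le_mul_right _ hp2.le
      _ = A * 2 ^ p := Nat.mul_comm _ _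
  exact Nat.le_of_mul_le_mul_right h1 (by positivity)

end CORM

open CORM in
theorem COR_thm : Stmt_COR := by
  classical
  intro n K G Λ k b h p E T f hPar hDis hCl hf β I v y0 P0 hy0 hPy0 hspr0
  have hn : 0 < n := lt_of_lt_of_le (by norm_num) hPar.hn
  have hK4 : 4 * n ≤ K := hPar.hK
  have hK : 0 < K := by omega
  have hb : 0 < b :=
    lt_of_lt_of_le (Nat.mul_pos (by norm_num) (Nat.mul_pos
      (lt_of_lt_of_le (by norm_num) hPar.hp) (Nat.mul_pos (by norm_num)
      (lt_of_lt_of_le (by norm_num) hPar.hh)))) hPar.hb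
  have hfin : Nonempty (Fin (k - 1)) := ⟨⟨0, by have := hPar.hk2; omega⟩⟩
  have hne2 : NeZero b := ⟨by omega⟩
  -- the spread set, for arbitrary subsets
  have hspr : ∀ (J : Finset (Fin n)) (u : Fin n → Fin K × (Fin k → Fin b)), Disjoint J I →
      ∀ R : Finset (Fin n → Fin K × (Fin k → Fin b)), (∀ y ∈ R, y ∈ P0 ∧ ∀ i ∈ J, y i = u i) →
      R.card * Fintype.card (Fin K × (Fin k → Fin b)) ^ J.card ≤ 2 ^ J.card * P0.card := by
    intro J u hJ R hR
    refine (Nat.mul_le_mul_right _ (Finset.card_le_card ?_)).trans (hspr0 J u hJ)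
    intro y hy
    exact Finset.mem_filter.2 (hR y hy)
  obtain ⟨P, hP, hhalf⟩ := kxc_half hK4 hn Fintype.card_pos I P0 y0 hspr
  have hP0pos : 0 < P0.card := Finset.card_pos.2 ⟨y0, hy0⟩
  have hPne : P.Nonempty := by
    rw [← Finset.card_pos]
    omega
  have hPy : ∀ y ∈ P, (∀ c ∈ I, y c = v c) ∧ (∀ c, c ∉ I → (y c).1 ≠ (y0 c).1) ∧
      f (T.xin (sP β y)) = true := fun y hy =>
    ⟨(hPy0 y (hP y hy).1).1, (hP y hy).2, (hPy0 y (hP y hy).1).2⟩
  have hcXp : Fintype.card (Fin K × (Fin k → Fin b)) = K * b ^ k := by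
    rw [Fintype.card_prod, Fintype.card_fin, Fintype.card_fun, Fintype.card_fin,
      Fintype.card_fin]
  have hcnt : ∀ (J : Finset (Fin n)) (u : Fin n → Fin K × (Fin k → Fin b)), J.Nonempty →
      Disjoint J I → (P.filter fun y => ∀ c ∈ J, y c = u c).card * (K * b ^ k) ^ J.card ≤
        K ^ J.card * P.card := by
    intro J u hJ hJI
    have h6 := hspr J u hJI _ (fun y hy =>
      ⟨(hP y (Finset.mem_filter.1 hy).1).1, (Finset.mem_filter.1 hy).2⟩)
    rw [hcXp] at h6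
    have hJ1 : 1 ≤ J.card := Finset.card_pos.2 hJ
    have h8 : 2 ^ J.card * 2 ≤ K ^ J.card := by
      calc 2 ^ J.card * 2 ≤ 2 ^ J.card * 2 ^ J.card :=
            Nat.mul_le_mul_left _ (by
              calc 2 = 2 ^ 1 := rfl
                _ ≤ 2 ^ J.card := Nat.pow_le_pow_right (by norm_num) hJ1)
        _ = 4 ^ J.card := by rw [← mul_pow]; norm_num
        _ ≤ K ^ J.card := Nat.pow_le_pow_left (by omega) _
    refine h6.trans ?_
    calc 2 ^ J.card * P0.card ≤ 2 ^ J.card * (2 * P.card) := Nat.mul_le_mul_left _ hhalf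
      _ = 2 ^ J.card * 2 * P.card := by ring
      _ ≤ K ^ J.card * P.card := Nat.mul_le_mul_right _ h8
  have hset : ∀ Y : Finset ((Fin n × Fin K) × (Fin k × Fin b)),
      ((univ : Finset {y // y ∈ P}).filter fun π =>
        ∀ y ∈ Y, ∃ τ, posI β I π.1 y.1 = some τ ∧ τ y.2.1 = y.2.2).card * b ^ Y.card ≤
      Fintype.card {y // y ∈ P} := by
    intro Y
    have h1 := CND_thm n K k b I P hK hb hcnt Y
    rw [Fintype.card_coe]
    refine le_trans (Nat.mul_le_mul_right _ ?_) h1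
    refine Finset.card_le_card_of_injOn (fun π => π.1) ?_ fun a _ b _ hab => Subtype.ext hab
    intro π hπ
    have hπ' := (mem_filter.1 (Finset.mem_coe.1 hπ)).2
    refine Finset.mem_coe.2 (mem_filter.2 ⟨π.2, ?_⟩)
    intro x hx
    obtain ⟨τ, hτ, hτ'⟩ := hπ' x hx
    by_cases hc : (x.1.1 ∉ I ∧ β x.1.1 = true) ∧ x.1.2 = (π.1 x.1.1).1
    · have h2 : posI β I π.1 x.1 = some (π.1 x.1.1).2 := if_pos hc
      rw [h2] at hτ
      have h3 := Option.some.inj hτ
      exact ⟨hc.1.1, hc.2.symm, by rw [h3]; exact hτ'⟩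
    · have h2 : posI β I π.1 x.1 = none := if_neg hc
      rw [h2] at hτ
      exact absurd hτ (by simp)
  have key := (APS_thm (Fin n × Fin K) E {y // y ∈ P} k b h p G T hDis hCl hPar.hh hPar.hk2
    hPar.hk hPar.hp hPar.hb (kxa_D I y0) (fun π => posI β I π.1)
    (fun π w hw => posI_none (hPy π.1 π.2).2.1 hw) hset
    (fun z => f (fun e => z e || T.xin (stI β I v) e)) (hf.comp (kxa_proj _))).1 hPar.hG ?_
  · refine num hPar.hp2 (Finset.card_le_card ?_) key
    intro χ hχ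
    have hχ' := (mem_filter.1 hχ).2
    refine mem_filter.2 ⟨mem_univ _, ?_⟩
    rw [← Bool.not_eq_true] at hχ' ⊢
    intro hc
    exact hχ' (NNDT.MonSize.monotone hf _ _
      (fun e he => dn T (hPy0 y0 hy0).1 χ e he) hc)
  · rw [Finset.filter_true_of_mem (s := (univ : Finset {y // y ∈ P})) (fun π _ =>
      NNDT.MonSize.monotone hf _ _
        (fun e he => up T (hPy π.1 π.2).1 e he) (hPy π.1 π.2).2.2), Finset.card_univ]
    have h0 : 0 < Fintype.card {y // y ∈ P} := by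
      rw [Fintype.card_coe]
      exact hPne.card_pos
    omega

end Pool.Agent.PPH
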