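import Pool.Agent.PPH.Stmts

/-!
# PPH, module DEG: polynomials over the field with two elements on the cube
-/

set_option autoImplicit false

namespace Pool.Agent.PPH

open Finset

namespace DEGM

variable {n : ℕ}

theorem mono {D D' : ℕ} {φ : (Fin n → Bool) → ZMod 2} (h : D ≤ D') (hφ : Deg n D φ) :
    Deg n D' φ := by
  obtain ⟨c, hc, hb⟩ := hφ
  exact ⟨c, fun S hS => hc S (lt_of_le_of_lt h hS), hb⟩

theorem mon (S : Finset (Fin n)) (z : ZMod 2) :
    Deg n S.card fun b => if ∀ i ∈ S, b i = true then z else 0 := by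
  refine ⟨fun T => if T = S then z else 0, fun T hT => if_neg ?_, fun b => ?_⟩
  · rintro rfl
    exact lt_irrefl _ hT
  · beta_reduce
    rw [Finset.sum_eq_single S]
    · rw [if_pos rfl]
    · intro T _ hT
      rw [if_neg hT, ite_self]
    · intro h
      exact absurd (Finset.mem_univ S) h

theorem const (z : ZMod 2) : Deg n 0 fun _ => z := by
  have h := mon (∅ : Finset (Fin n)) z
  simpa using h

theorem zero (D : ℕ) : Deg n D fun _ => 0 := mono (Nat.zero_le D) (const 0)

theorem add {D : ℕ} {φ ψ : (Fin n → Bool) → ZMod 2} (hφ : Deg n D φ) (hψ : Deg n D ψ) :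
    Deg n D fun b => φ b + ψ b := by
  obtain ⟨c, hc, hb⟩ := hφ
  obtain ⟨c', hc', hb'⟩ := hψ
  refine ⟨fun S => c S + c' S, fun S hS => by simp [hc S hS, hc' S hS], fun b => ?_⟩
  beta_reduce
  rw [hb b, hb' b, ← Finset.sum_add_distrib]
  refine Finset.sum_congr rfl fun S _ => ?_
  by_cases h : ∀ i ∈ S, b i = true
  · simp only [if_pos h]
  · simp only [if_neg h, add_zero]

theorem sum {D : ℕ} {ι : Type} (s : Finset ι) (φ : ι → (Fin n → Bool) → ZMod 2)
    (h : ∀ i ∈ s, Deg n D (φ i)) : Deg n D fun b => ∑ i ∈ s, φ i b := by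
  classical
  induction s using Finset.induction_on with
  | empty => simpa using zero (n := n) D
  | insert a s ha ih =>
    have h1 := add (h a (Finset.mem_insert_self a s))
      (ih fun i hi => h i (Finset.mem_insert_of_mem hi))
    have h2 : (fun b => ∑ i ∈ insert a s, φ i b) = fun b => φ a b + ∑ i ∈ s, φ i b := by
      funext b
      rw [Finset.sum_insert ha]
    rw [h2]
    exact h1

/-- a polynomial as a sum of its monomials -/
theorem expand {D : ℕ} {φ : (Fin n → Bool) → ZMod 2} (h : Deg n D φ) :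
    ∃ c : Finset (Fin n) → ZMod 2, ∀ b, φ b =
      ∑ S ∈ (univ : Finset (Finset (Fin n))).filter (fun S => S.card ≤ D),
        if ∀ i ∈ S, b i = true then c S else 0 := by
  obtain ⟨c, hc, hb⟩ := h
  refine ⟨c, fun b => ?_⟩
  rw [hb b, Finset.sum_filter]
  refine Finset.sum_congr rfl fun S _ => ?_
  by_cases hS : S.card ≤ D
  · rw [if_pos hS]
  · rw [if_neg hS, hc S (not_le.1 hS), ite_self]

theorem mul {D D' : ℕ} {φ ψ : (Fin n → Bool) → ZMod 2} (hφ : Deg n D φ) (hψ : Deg n D' ψ) :
    Deg n (D + D') fun b => φ b * ψ b := by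
  obtain ⟨c, hc⟩ := expand hφ
  obtain ⟨c', hc'⟩ := expand hψ
  have h1 : (fun b => φ b * ψ b) = fun b =>
      ∑ S ∈ (univ : Finset (Finset (Fin n))).filter (fun S => S.card ≤ D),
        ∑ T ∈ (univ : Finset (Finset (Fin n))).filter (fun T => T.card ≤ D'),
          if ∀ i ∈ S ∪ T, b i = true then c S * c' T else 0 := by
    funext b
    rw [hc b, hc' b, Finset.sum_mul_sum]
    refine Finset.sum_congr rfl fun S _ => Finset.sum_congr rfl fun T _ => ?_
    by_cases h1 : ∀ i ∈ S, b i = true
    · by_cases h2 : ∀ i ∈ T, b i = true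
      · rw [if_pos h1, if_pos h2, if_pos]
        intro i hi
        rcases Finset.mem_union.1 hi with h | h
        · exact h1 i h
        · exact h2 i h
      · rw [if_neg h2, mul_zero, if_neg]
        exact fun h => h2 fun i hi => h i (Finset.mem_union_right _ hi)
    · rw [if_neg h1, zero_mul, if_neg]
      exact fun h => h1 fun i hi => h i (Finset.mem_union_left _ hi)
  rw [h1]
  refine sum _ _ fun S hS => sum _ _ fun T hT => mono ?_ (mon (S ∪ T) (c S * c' T))
  exact (Finset.card_union_le S T).trans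
    (add_le_add (Finset.mem_filter.1 hS).2 (Finset.mem_filter.1 hT).2)

theorem prod {ι : Type} (s : Finset ι) (D : ι → ℕ) (φ : ι → (Fin n → Bool) → ZMod 2)
    (h : ∀ i ∈ s, Deg n (D i) (φ i)) : Deg n (∑ i ∈ s, D i) fun b => ∏ i ∈ s, φ i b := by
  classical
  induction s using Finset.induction_on with
  | empty => simpa using const (n := n) 1
  | insert a s ha ih =>
    have h1 := mul (h a (Finset.mem_insert_self a s))
      (ih fun i hi => h i (Finset.mem_insert_of_mem hi))
    have h2 : (fun b => ∏ i ∈ insert a s, φ i b) = fun b => φ a b * ∏ i ∈ s, φ i b := by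
      funext b
      rw [Finset.prod_insert ha]
    rw [h2, Finset.sum_insert ha]
    exact h1

/-- the monomials at the complement -/
theorem mon_compl (S : Finset (Fin n)) (z : ZMod 2) :
    Deg n S.card fun b => if ∀ i ∈ S, (!(b i)) = true then z else 0 := by
  have h1 : (fun b : Fin n → Bool => if ∀ i ∈ S, (!(b i)) = true then z else 0) =
      fun b => z * ∏ i ∈ S, (1 + if ∀ j ∈ ({i} : Finset (Fin n)), b j = true then 1 else 0) := by
    funext b
    by_cases h : ∀ i ∈ S, (!(b i)) = true
    · rw [if_pos h, Finset.prod_eq_one, mul_one]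
      intro i hi
      have h2 : b i = false := by simpa using h i hi
      simp [h2]
    · rw [if_neg h]
      push Not at h
      obtain ⟨i, hi, hbi⟩ := h
      have h2 : b i = true := by simpa using hbi
      rw [Finset.prod_eq_zero hi, mul_zero]
      simp only [Finset.mem_singleton, forall_eq, h2, if_true]
      decide
  rw [h1]
  have h2 : Deg n (∑ i ∈ S, 1) fun b : Fin n → Bool =>
      ∏ i ∈ S, (1 + if ∀ j ∈ ({i} : Finset (Fin n)), b j = true then (1 : ZMod 2) else 0) := by
    refine prod S (fun _ => 1) _ fun i _ => ?_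
    refine add (mono (Nat.zero_le 1) (const 1)) ?_
    have h3 := mon ({i} : Finset (Fin n)) 1
    rwa [Finset.card_singleton] at h3
  rw [Finset.sum_const, smul_eq_mul, mul_one] at h2
  have h3 := mul (const (n := n) z) h2
  rwa [zero_add] at h3

theorem compl {D : ℕ} {φ : (Fin n → Bool) → ZMod 2} (hφ : Deg n D φ) :
    Deg n D fun b => φ fun i => !(b i) := by
  obtain ⟨c, hc⟩ := expand hφ
  have h1 : (fun b : Fin n → Bool => φ fun i => !(b i)) = fun b =>
      ∑ S ∈ (univ : Finset (Finset (Fin n))).filter (fun S => S.card ≤ D),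
        if ∀ i ∈ S, (!(b i)) = true then c S else 0 := by
    funext b
    rw [hc fun i => !(b i)]
  rw [h1]
  exact sum _ _ fun S hS => mono (Finset.mem_filter.1 hS).2 (mon_compl S (c S))

end DEGM

open DEGM in
/-- module DEG -/
theorem DEG_thm : Stmt_DEG :=
  ⟨fun _ _ _ _ h hφ => mono h hφ, fun _ z => const z, fun _ S => mon S 1,
    fun _ _ _ s φ h => sum s φ h, fun _ _ _ _ _ h h' => mul h h',
    fun _ _ s D φ h => prod s D φ h, fun _ _ _ h => compl h⟩

end Pool.Agent.PPH
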