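import Pool.Agent.S2C.Stmts
import Pool.Agent.NPQ.Stm4

/-!
# PP is not in P^PH for circuits with few negations: definitions

The circuits are those of `Pool.Agent.NegLim.Defs`. `Qn`, `AnsQ`, `RightQ` (and `hist`) are the definitions of
the final statement; all other definitions belong to the proof.
-/

set_option autoImplicit false

namespace Pool.Agent.PPH

open Finset Pool.Agent.NegLim Pool.Agent.NLM Pool.Agent.S2C
open Pool.Agent.NPQ (hist)
open Pool.Agent.NBC (SameN St Tests)

/-! ### answers of the polynomial hierarchy -/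

/-- Blocks of quantifiers about strings of bits: for every pair `(κ, b)` of the list, one after the other:
there is (`κ = true`) a string of `b` bits, for all (`κ = false`) strings of `b` bits. The predicate gets the
concatenation of the strings. -/
def Qn : List (Bool × ℕ) → (List Bool → Prop) → Prop
  | [], R => R []
  | (true, b) :: bs, R => ∃ w : Fin b → Bool, Qn bs fun l => R (List.ofFn w ++ l)
  | (false, b) :: bs, R => ∀ w : Fin b → Bool, Qn bs fun l => R (List.ofFn w ++ l)

/-- The number of the quantified bits. -/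
def tot (bs : List (Bool × ℕ)) : ℕ := (bs.map Prod.snd).sum

/-- The answer of the circuit on the input `x`, with the blocks of quantifiers `bs`: the first `n` of the last
witness bits are `d`, the other last witness bits are the bits `0, 1, …` of the quantified string `l`; the
witness bit `u i` of the first kind is the bit number `ρ i` of `l`. -/
def AnsQ {E : Type} {s t n : ℕ} (C : NCirc E s (n + t)) (bs : List (Bool × ℕ)) (ρ : Fin s → ℕ)
    (d : Fin n → Bool) (x : E → Bool) : Prop :=
  Qn bs fun l => outp C x (fun i => l.getD (ρ i) false) (Fin.append d fun j => l.getD j false) =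
    true

/-- The answers `a x l` of the query number `l` are right; the circuit gets the answers of the earlier
rounds. -/
def RightQ (q : ℕ) {E : Type} {s t n : ℕ} (C : NCirc E s (n + t)) (bs : List (Bool × ℕ))
    (ρ : Fin s → ℕ) (l : Fin n) (a : (E → Bool) → Fin n → Bool) : Prop :=
  ∀ x, a x l = true ↔ AnsQ C bs ρ (hist q l (a x)) x

/-- The `n` queries and the last circuit `D`. -/
structure Sys (E : Type) (n : ℕ) where
  s : Fin n → ℕ
  t : Fin n → ℕ
  bs : Fin n → List (Bool × ℕ)
  ρ : (l : Fin n) → Fin (s l) → ℕ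
  C : (l : Fin n) → NCirc E (s l) (n + t l)
  D : NCirc E 0 n

/-- The bounds for the system. -/
structure Sys.Ok {E : Type} {n : ℕ} (S : Sys E n) (G R dd W : ℕ) : Prop where
  nf : ∀ l, (S.C l).NotsFree
  nfD : S.D.NotsFree
  sz : ∀ l, (S.C l).gates.length ≤ G
  szD : S.D.gates.length ≤ G
  nots : ∀ l, 2 ^ (S.s l + (S.C l).nots) ≤ R
  notsD : 2 ^ S.D.nots ≤ R
  len : ∀ l, (S.bs l).length ≤ dd
  bits : ∀ l, tot (S.bs l) ≤ W

/-- The answers are right. -/
def Sys.Right {E : Type} {n : ℕ} (S : Sys E n) (q : ℕ) (a : (E → Bool) → Fin n → Bool) : Prop :=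
  ∀ l, RightQ q (S.C l) (S.bs l) (S.ρ l) l a

/-- The NOT gates of all circuits have the same outputs on `x` and `x'`. -/
def Sys.SN {E : Type} {n : ℕ} (S : Sys E n) (x x' : E → Bool) : Prop :=
  (∀ l, SameN (S.C l) x x') ∧ SameN S.D x x'

/-- The potential: it decreases if the input grows. -/
def Sys.pot {E : Type} {n : ℕ} (S : Sys E n) (q c : ℕ) (a : (E → Bool) → Fin n → Bool)
    (x : E → Bool) : ℕ :=
  ((∑ l, ∑ u : Fin (S.s l) → Bool, num (S.C l).gates x u (fun _ => false)) +
      num S.D.gates x (fun i => i.elim0) (fun _ => false)) * (q + 1) ^ c +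
    ∑ l : Fin n, if a x l = true then 0 else (q + 1) ^ (c - 1 - (l : ℕ) / q)

/-! ### polynomials over the field with two elements -/

/-- `φ` is a polynomial of degree at most `D`. -/
def Deg (n D : ℕ) (φ : (Fin n → Bool) → ZMod 2) : Prop :=
  ∃ c : Finset (Fin n) → ZMod 2, (∀ S, D < S.card → c S = 0) ∧
    ∀ b, φ b = ∑ S, if ∀ i ∈ S, b i = true then c S else 0

open Classical in
/-- `f` is a polynomial of degree at most `D` for all arguments but at most `N / 2 ^ H` of them. -/
def Apx (n D N H : ℕ) (f : (Fin n → Bool) → Prop) : Prop :=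
  ∃ φ : (Fin n → Bool) → ZMod 2, Deg n D φ ∧
    2 ^ H * ((univ : Finset (Fin n → Bool)).filter fun b => ¬ (φ b = 1 ↔ f b)).card ≤ N * 2 ^ n

/-- Monotone disjunctive normal forms of width at most `w`. -/
def DNF (n w : ℕ) (f : (Fin n → Bool) → Prop) : Prop :=
  ∃ A : Finset (Finset (Fin n)), (∀ S ∈ A, S.card ≤ w) ∧ ∀ b, f b ↔ ∃ S ∈ A, ∀ i ∈ S, b i = true

/-- The number of the ones. -/
def ones {n : ℕ} (b : Fin n → Bool) : ℕ := ((univ : Finset (Fin n)).filter fun i => b i = true).card

/-! ### tests -/

section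

variable {Xn Xp : Type} {n K : ℕ}

/-- The positive test `y c` in every cell `c` with `b c = true`, the other windows are empty. -/
def sP (b : Fin n → Bool) (y : Fin n → Fin K × Xp) : Fin n × Fin K → St Xn Xp := fun x =>
  if b x.1 = true ∧ x.2 = (y x.1).1 then St.pos (y x.1).2 else St.emp

/-- The same with neutral tests in all other windows of the cells. -/
def sQ (b : Fin n → Bool) (y : Fin n → Fin K × Xp) (χ : Fin n × Fin K → Xn) :
    Fin n × Fin K → St Xn Xp := fun x =>
  if b x.1 = true ∧ x.2 = (y x.1).1 then St.pos (y x.1).2 else St.neu (χ x)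

/-- The positive test `y c` in every cell `c ∈ S`, neutral tests in the windows which are not the window of
`y`; the windows of `y` in the cells outside `S` are empty. -/
def sR (S : Finset (Fin n)) (y : Fin n → Fin K × Xp) (χ : Fin n × Fin K → Xn) :
    Fin n × Fin K → St Xn Xp := fun x =>
  if x.2 = (y x.1).1 then if x.1 ∈ S then St.pos (y x.1).2 else St.emp else St.neu (χ x)

end

/-- The conditions for the numbers of one step. -/
structure Par3 (n K G Λ k b h p : ℕ) : Prop where
  hn : 4 ≤ n
  hK : 4 * n ≤ K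
  hh : 1 ≤ h
  hk : 2 * h * (2 * h - 1) ≤ k - 1
  hk2 : 2 ≤ k
  hp : 2 ≤ p
  hb : 4 * (p * (2 * h)) ≤ b
  hG : 4 * G ≤ 2 ^ (2 * h)
  hp2 : 16 * G * 2 ^ Λ * (p * (2 * h)) ^ (4 * h) < 2 ^ p

end Pool.Agent.PPH
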