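import Pool.Agent.PPH.Stmts

/-!
# PPH, module GAT: one gate
-/

set_option autoImplicit false

namespace Pool.Agent.PPH

open Finset

namespace GATM

theorem sub_eq (x y : ZMod 2) : x - y = x + y := by
  revert x y; decide

theorem one_sub_iff (z : ZMod 2) : 1 - z = 1 ↔ ¬ z = 1 := by
  revert z; decide

theorem zero_or (z : ZMod 2) : z = 0 ∨ z = 1 := by
  revert z; decide

theorem ite_dec (z : ZMod 2) : (if decide (z = 1) = true then (1 : ZMod 2) else 0) = z := by
  revert z; decide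

theorem deg_add (hD : Stmt_DEG) {n D : ℕ} {φ ψ : (Fin n → Bool) → ZMod 2} (h1 : Deg n D φ)
    (h2 : Deg n D ψ) : Deg n D fun b => φ b + ψ b := by
  have h := hD.2.2.2.1 n D Bool univ (fun i => if i = true then φ else ψ) (by
    intro i _
    cases i
    · simpa using h2
    · simpa using h1)
  simpa using h

theorem deg_sub (hD : Stmt_DEG) {n D : ℕ} {φ ψ : (Fin n → Bool) → ZMod 2} (h1 : Deg n D φ)
    (h2 : Deg n D ψ) : Deg n D fun b => φ b - ψ b := by
  have h := deg_add hD h1 h2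
  have e : (fun b => φ b - ψ b) = fun b => φ b + ψ b := by
    funext b; exact sub_eq _ _
  rw [e]; exact h

theorem deg_one (hD : Stmt_DEG) (n D : ℕ) : Deg n D fun _ => 1 :=
  hD.1 n 0 D _ (Nat.zero_le _) (hD.2.1 n 1)

theorem deg_gate (hD : Stmt_DEG) {n D H : ℕ} {I : Type} (φ : I → (Fin n → Bool) → ZMod 2)
    (hφ : ∀ i, Deg n D (φ i)) (T : Fin H → Finset I) :
    Deg n (D * H) fun b => 1 - ∏ j, (1 - ∑ i ∈ T j, φ i b) := by
  refine deg_sub hD (deg_one hD n _) ?_
  have h := hD.2.2.2.2.2.1 n (Fin H) univ (fun _ => D) (fun j b => 1 - ∑ i ∈ T j, φ i b)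
    (fun j _ => deg_sub hD (deg_one hD n D) (hD.2.2.2.1 n D I (T j) φ fun i _ => hφ i))
  have e : (∑ _j : Fin H, D) = D * H := by
    simp [mul_comm]
  rw [e] at h
  exact h

theorem apx_not (hD : Stmt_DEG) {n D N H : ℕ} {f : (Fin n → Bool) → Prop} (h : Apx n D N H f) :
    Apx n D N H fun b => ¬ f b := by
  classical
  obtain ⟨φ, h1, h2⟩ := h
  refine ⟨fun b => 1 - φ b, deg_sub hD (deg_one hD n D) h1, ?_⟩
  refine le_trans (Nat.mul_le_mul_left _ (card_le_card ?_)) h2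
  intro b hb
  simp only [mem_filter, mem_univ, true_and] at hb ⊢
  intro hc
  apply hb
  rw [one_sub_iff, hc]

theorem gate (hD : Stmt_DEG) (hR : Stmt_ROR) (n D H : ℕ) (I : Type) [Fintype I] (N : I → ℕ)
    (f : I → (Fin n → Bool) → Prop) (hf : ∀ i, Apx n D (N i) H (f i)) :
    Apx n (D * H) (∑ i, N i + 1) H (fun b => ∃ i, f i b) := by
  classical
  choose φ hφ hb using hf
  obtain ⟨T, hT⟩ := hR I (Fin n → Bool) (fun i b => decide (φ i b = 1)) H
  refine ⟨fun b => 1 - ∏ j, (1 - ∑ i ∈ T j, φ i b), deg_gate hD φ hφ T, ?_⟩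
  have hT' : 2 ^ H * ((univ : Finset (Fin n → Bool)).filter fun x => (∃ i, φ i x = 1) ∧
      ∀ j, (∑ i ∈ T j, φ i x) = 0).card ≤ 2 ^ n := by
    refine le_trans (Nat.mul_le_mul_left _ (card_le_card ?_)) (le_trans hT ?_)
    · intro x hx
      simp only [mem_filter, mem_univ, true_and] at hx ⊢
      refine ⟨?_, fun j => ?_⟩
      · obtain ⟨i, hi⟩ := hx.1
        exact ⟨i, by simpa using hi⟩
      · exact (sum_congr rfl fun i _ => ite_dec _).trans (hx.2 j)
    · simp
  have hsub : ((univ : Finset (Fin n → Bool)).filter fun b =>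
        ¬ (1 - ∏ j, (1 - ∑ i ∈ T j, φ i b) = 1 ↔ ∃ i, f i b)) ⊆
      ((univ : Finset I).biUnion fun i => (univ : Finset (Fin n → Bool)).filter fun b =>
        ¬ (φ i b = 1 ↔ f i b)) ∪
      ((univ : Finset (Fin n → Bool)).filter fun x => (∃ i, φ i x = 1) ∧
        ∀ j, (∑ i ∈ T j, φ i x) = 0) := by
    intro b hb'
    simp only [mem_filter, mem_univ, true_and] at hb'
    by_contra hc
    rw [mem_union, not_or] at hc
    obtain ⟨hc1, hc2⟩ := hc
    have h1 : ∀ i, (φ i b = 1 ↔ f i b) := by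
      intro i
      by_contra hi
      exact hc1 (mem_biUnion.2 ⟨i, mem_univ _, by simpa using hi⟩)
    apply hb'
    rw [one_sub_iff]
    by_cases hex : ∃ i, φ i b = 1
    · have h2 : ¬ ∀ j, (∑ i ∈ T j, φ i b) = 0 := by
        intro h3
        exact hc2 (by simp only [mem_filter, mem_univ, true_and]; exact ⟨hex, h3⟩)
      rw [not_forall] at h2
      obtain ⟨j, hj⟩ := h2
      have hj1 : (∑ i ∈ T j, φ i b) = 1 := (zero_or _).resolve_left hj
      have h0 : ∏ j, (1 - ∑ i ∈ T j, φ i b) = 0 :=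
        prod_eq_zero (mem_univ j) (by rw [hj1, sub_self])
      rw [h0]
      obtain ⟨i, hi⟩ := hex
      exact ⟨fun _ => ⟨i, (h1 i).1 hi⟩, fun _ => by decide⟩
    · have h0 : ∀ i, φ i b = 0 := fun i => (zero_or _).resolve_right fun h => hex ⟨i, h⟩
      have hp : ∏ j : Fin H, (1 - ∑ i ∈ T j, φ i b) = 1 := by
        refine prod_eq_one fun j _ => ?_
        rw [sum_eq_zero fun i _ => h0 i, sub_zero]
      rw [hp]
      refine ⟨fun h => absurd rfl h, fun h => ?_⟩
      obtain ⟨i, hi⟩ := h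
      exact absurd ⟨i, (h1 i).2 hi⟩ hex
  have hcard := card_le_card hsub
  have h3 : ((univ : Finset (Fin n → Bool)).filter fun b =>
        ¬ (1 - ∏ j, (1 - ∑ i ∈ T j, φ i b) = 1 ↔ ∃ i, f i b)).card ≤
      (∑ i, ((univ : Finset (Fin n → Bool)).filter fun b => ¬ (φ i b = 1 ↔ f i b)).card) +
      ((univ : Finset (Fin n → Bool)).filter fun x => (∃ i, φ i x = 1) ∧
        ∀ j, (∑ i ∈ T j, φ i x) = 0).card :=
    le_trans hcard (le_trans (card_union_le _ _) (Nat.add_le_add_right card_biUnion_le _))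
  refine le_trans (le_of_eq (congrArg (fun s : Finset (Fin n → Bool) => 2 ^ H * s.card)
    (?_ : _ = (univ : Finset (Fin n → Bool)).filter fun b =>
        ¬ (1 - ∏ j, (1 - ∑ i ∈ T j, φ i b) = 1 ↔ ∃ i, f i b)))) ?_
  · ext b
    simp only [mem_filter, mem_univ, true_and]
  calc 2 ^ H * ((univ : Finset (Fin n → Bool)).filter fun b =>
        ¬ (1 - ∏ j, (1 - ∑ i ∈ T j, φ i b) = 1 ↔ ∃ i, f i b)).card
      ≤ 2 ^ H * ((∑ i, ((univ : Finset (Fin n → Bool)).filter fun b =>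
          ¬ (φ i b = 1 ↔ f i b)).card) +
        ((univ : Finset (Fin n → Bool)).filter fun x => (∃ i, φ i x = 1) ∧
          ∀ j, (∑ i ∈ T j, φ i x) = 0).card) := Nat.mul_le_mul_left _ h3
    _ = (∑ i, 2 ^ H * ((univ : Finset (Fin n → Bool)).filter fun b =>
          ¬ (φ i b = 1 ↔ f i b)).card) +
        2 ^ H * ((univ : Finset (Fin n → Bool)).filter fun x => (∃ i, φ i x = 1) ∧
          ∀ j, (∑ i ∈ T j, φ i x) = 0).card := by rw [mul_add, mul_sum]
    _ ≤ (∑ i, N i * 2 ^ n) + 2 ^ n := Nat.add_le_add (sum_le_sum fun i _ => hb i) hT'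
    _ = (∑ i, N i + 1) * 2 ^ n := by rw [← sum_mul]; ring

end GATM

theorem GAT_thm : Stmt_GAT := by
  intro hD hR n D H I _ N f hf
  refine ⟨GATM.gate hD hR n D H I N f hf, ?_⟩
  have h := GATM.apx_not hD (GATM.gate hD hR n D H I N (fun i b => ¬ f i b)
    fun i => GATM.apx_not hD (hf i))
  have e : (fun b => ∀ i, f i b) = fun b => ¬ ∃ i, ¬ f i b := by
    funext b
    simp
  rw [e]
  exact h

end Pool.Agent.PPH
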