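import Pool.Agent.PPH.Stmts5
import Pool.Agent.NLM.Trans

/-!
# NOT gates at the input bits suffice (De Morgan)
-/

set_option autoImplicit false

namespace Pool.Agent.PPH

open Finset Pool.Agent.NegLim Pool.Agent.NLM Pool.Agent.NNDT

namespace MINP

open Classical

variable {E : Type} {s t : ℕ}

/-- the wire for the value (`b = false`) or the negated value (`b = true`) -/
noncomputable def lw (es : List E) (j : ℕ) (b : Bool) : Wire E s t → Wire E s t
  | Wire.inp e => if b then Wire.gate (es.idxOf e) else Wire.inp e
  | Wire.wit φ => Wire.wit fun u w => xor b (φ u w)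
  | Wire.gate n => if n < j then Wire.gate (es.length + 2 * n + b.toNat) else Wire.wit fun _ _ => b

/-- the two gates for a gate -/
noncomputable def lg (es : List E) (j : ℕ) : Gate E s t → List (Gate E s t)
  | Gate.and a c => [Gate.and (lw es j false a) (lw es j false c),
      Gate.or (lw es j true a) (lw es j true c)]
  | Gate.or a c => [Gate.or (lw es j false a) (lw es j false c),
      Gate.and (lw es j true a) (lw es j true c)]
  | Gate.not a => [Gate.or (lw es j true a) (lw es j true a),
      Gate.or (lw es j false a) (lw es j false a)]

/-- the negated input bits -/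
def ni (es : List E) : List (Gate E s t) := es.map fun e => Gate.not (Wire.inp e)

/-- the gates -/
noncomputable def ll (es : List E) (D : List (Gate E s t)) : List (Gate E s t) :=
  ni es ++ (D.mapIdx (lg es)).flatten

/-- the values -/
def fl (l : List Bool) : List Bool := l.flatMap fun b => [b, !b]

lemma fl_get (l : List Bool) : ∀ (n : ℕ) (h : n < l.length),
    (fl l)[2 * n]? = some l[n] ∧ (fl l)[2 * n + 1]? = some (!l[n]) := by
  induction l with
  | nil => intro n h; exact absurd h (Nat.not_lt_zero n)
  | cons a l ih =>
    intro n h
    have hc : fl (a :: l) = a :: (!a) :: fl l := rfl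
    cases n with
    | zero => rw [hc]; exact ⟨rfl, rfl⟩
    | succ n =>
      obtain ⟨h1, h2⟩ := ih n (by simpa using h)
      rw [hc]
      refine ⟨?_, ?_⟩
      · rw [show 2 * (n + 1) = 2 * n + 1 + 1 by ring, List.getElem?_cons_succ,
          List.getElem?_cons_succ]
        simpa using h1
      · rw [show 2 * (n + 1) + 1 = 2 * n + 1 + 1 + 1 by ring, List.getElem?_cons_succ,
          List.getElem?_cons_succ]
        simpa using h2

lemma fl_length (l : List Bool) : (fl l).length = 2 * l.length := by
  induction l with
  | nil => rfl
  | cons a l ih =>
    have hc : fl (a :: l) = a :: (!a) :: fl l := rfl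
    rw [hc, List.length_cons, List.length_cons, ih, List.length_cons]
    ring

lemma fl_concat (l : List Bool) (b : Bool) : fl (l ++ [b]) = fl l ++ [b, !b] := by
  unfold fl
  rw [List.flatMap_append]
  rfl

lemma getD_of {l : List Bool} {n : ℕ} {b : Bool} (h : l[n]? = some b) : l.getD n false = b := by
  rw [List.getD_eq_getElem?_getD, h]
  rfl

lemma lw_val (es : List E) (hes : ∀ e, e ∈ es) (x : E → Bool) (u : Fin s → Bool)
    (w : Fin t → Bool) (l R : List Bool) (b : Bool) (a : Wire E s t) :
    (lw es l.length b a).val x u w ((es.map fun e => !(x e)) ++ (fl l ++ R)) =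
      xor b (a.val x u w l) := by
  cases a with
  | inp e =>
    cases b with
    | false => exact (Bool.false_xor _).symm
    | true =>
      show List.getD _ (es.idxOf e) false = xor true (x e)
      have h1 : es.idxOf e < es.length := List.idxOf_lt_length_of_mem (hes e)
      refine (getD_of (b := !(x e)) ?_).trans (Bool.true_xor _).symm
      rw [List.getElem?_append_left (by simpa using h1), List.getElem?_map,
        List.getElem?_eq_getElem h1, List.getElem_idxOf]
      rfl
  | wit φ => rfl
  | gate n =>
    show (if n < l.length then Wire.gate (es.length + 2 * n + b.toNat)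
      else Wire.wit fun _ _ => b : Wire E s t).val x u w _ = _
    split_ifs with h
    · obtain ⟨h1, h2⟩ := fl_get l n h
      have hl := fl_length l
      have h3 : l.getD n false = l[n] := List.getD_eq_getElem _ _ h
      show List.getD _ (es.length + 2 * n + b.toNat) false = xor b (l.getD n false)
      rw [h3]
      apply getD_of
      rw [List.getElem?_append_right (by simp; omega)]
      cases b with
      | false =>
        have e1 : es.length + 2 * n + false.toNat - (es.map fun e => !(x e)).length = 2 * n := by
          rw [List.length_map]
          simp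
        rw [e1, List.getElem?_append_left (by rw [hl]; omega), h1, Bool.false_xor]
      | true =>
        have e1 : es.length + 2 * n + true.toNat - (es.map fun e => !(x e)).length =
            2 * n + 1 := by
          rw [List.length_map]
          simp
          omega
        rw [e1, List.getElem?_append_left (by rw [hl]; omega), h2, Bool.true_xor]
    · show b = xor b (l.getD n false)
      rw [List.getD_eq_default _ _ (not_lt.1 h), Bool.xor_false]

lemma ni_vals (es : List E) (x : E → Bool) (u : Fin s → Bool) (w : Fin t → Bool) :
    vals (ni es) x u w = es.map fun e => !(x e) := by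
  induction es using List.reverseRecOn with
  | nil => rfl
  | append_singleton es e ih =>
    have h : ni (s := s) (t := t) (es ++ [e]) = ni es ++ [Gate.not (Wire.inp e)] := by
      unfold ni
      rw [List.map_append]
      rfl
    rw [h, vals_concat, ih, List.map_append]
    rfl

lemma ll_concat (es : List E) (D : List (Gate E s t)) (g : Gate E s t) :
    ll es (D ++ [g]) = ll es D ++ lg es D.length g := by
  unfold ll
  rw [List.mapIdx_append_one, List.flatten_append, ← List.append_assoc]
  simp

lemma two_vals (C : List (Gate E s t)) (g1 g2 : Gate E s t) (x : E → Bool) (u : Fin s → Bool)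
    (w : Fin t → Bool) : vals (C ++ [g1, g2]) x u w = vals C x u w ++
      [g1.val x u w (vals C x u w),
        g2.val x u w (vals C x u w ++ [g1.val x u w (vals C x u w)])] := by
  have h : C ++ [g1, g2] = (C ++ [g1]) ++ [g2] := by simp
  rw [h, vals_concat, vals_concat]
  simp

lemma ll_vals (es : List E) (hes : ∀ e, e ∈ es) (x : E → Bool) (u : Fin s → Bool)
    (w : Fin t → Bool) (D : List (Gate E s t)) :
    vals (ll es D) x u w = (es.map fun e => !(x e)) ++ fl (vals D x u w) := by
  induction D using List.reverseRecOn with
  | nil =>
    show vals (ni es ++ []) x u w = _ ++ []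
    rw [List.append_nil, List.append_nil, ni_vals]
  | append_singleton D g ih =>
    have hw : ∀ (R : List Bool) (b : Bool) (a : Wire E s t), (lw es D.length b a).val x u w
        ((es.map fun e => !(x e)) ++ fl (vals D x u w) ++ R) = xor b (a.val x u w (vals D x u w)) := by
      intro R b a
      have h := lw_val es hes x u w (vals D x u w) R b a
      rw [vals_length] at h
      rw [List.append_assoc]
      exact h
    have hw0 : ∀ (b : Bool) (a : Wire E s t), (lw es D.length b a).val x u w
        ((es.map fun e => !(x e)) ++ fl (vals D x u w)) = xor b (a.val x u w (vals D x u w)) := by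
      intro b a
      have h := hw [] b a
      rwa [List.append_nil] at h
    rw [ll_concat, vals_concat, fl_concat, ← List.append_assoc]
    cases g with
    | and a c =>
      show vals (ll es D ++ [_, _]) x u w = _
      rw [two_vals, ih]
      congr 1
      show [(_ && _), (_ || _)] = [(_ && _), !(_ && _)]
      rw [hw0, hw0, hw, hw, Bool.false_xor, Bool.false_xor, Bool.true_xor, Bool.true_xor,
        Bool.not_and]
    | or a c =>
      show vals (ll es D ++ [_, _]) x u w = _
      rw [two_vals, ih]
      congr 1
      show [(_ || _), (_ && _)] = [(_ || _), !(_ || _)]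
      rw [hw0, hw0, hw, hw, Bool.false_xor, Bool.false_xor, Bool.true_xor, Bool.true_xor,
        Bool.not_or]
    | not a =>
      show vals (ll es D ++ [_, _]) x u w = _
      rw [two_vals, ih]
      congr 1
      show [(_ || _), (_ || _)] = [(!_), !(!_)]
      rw [hw0, hw, Bool.true_xor, Bool.false_xor, Bool.or_self, Bool.or_self, Bool.not_not]

lemma lg_not (es : List E) (j : ℕ) (g : Gate E s t) {h : Gate E s t} (hh : h ∈ lg es j g) :
    h.isNot = false := by
  cases g <;> (simp only [lg, List.mem_cons, List.not_mem_nil, or_false] at hh) <;>
    rcases hh with rfl | rfl <;> rfl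

lemma lg_length (es : List E) (j : ℕ) (g : Gate E s t) : (lg es j g).length = 2 := by
  cases g <;> rfl

lemma fl_not (es : List E) (D : List (Gate E s t)) {h : Gate E s t}
    (hh : h ∈ (D.mapIdx (lg es)).flatten) : h.isNot = false := by
  rw [List.mem_flatten] at hh
  obtain ⟨l, hl, hh⟩ := hh
  rw [List.mem_mapIdx] at hl
  obtain ⟨i, hi, rfl⟩ := hl
  exact lg_not es i _ hh

lemma ll_length (es : List E) (D : List (Gate E s t)) :
    (ll es D).length = es.length + 2 * D.length := by
  induction D using List.reverseRecOn with
  | nil =>
    show (ni (s := s) (t := t) es ++ []).length = _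
    rw [List.append_nil, ni, List.length_map]
    rfl
  | append_singleton D g ih =>
    rw [ll_concat, List.length_append, ih, lg_length, List.length_append, List.length_singleton]
    ring

end MINP

open MINP in
theorem INP_thm : Stmt_INP := by
  classical
  intro E _ s t D
  obtain ⟨es, hes⟩ : ∃ es : List E, es = (univ : Finset E).toList := ⟨_, rfl⟩
  have hmem : ∀ e, e ∈ es := fun e => by rw [hes]; exact Finset.mem_toList.2 (mem_univ e)
  have hlen : es.length = Fintype.card E := by rw [hes, Finset.length_toList]; rfl
  refine ⟨⟨ll es D.gates, lw es D.gates.length false D.out⟩, ?_, ?_, ?_, ?_⟩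
  · intro n a h
    have h1 : Gate.not a ∈ ni es ++ (D.gates.mapIdx (lg es)).flatten := List.mem_of_getElem? h
    rw [List.mem_append] at h1
    rcases h1 with h1 | h1
    · obtain ⟨e, -, he⟩ := List.mem_map.1 h1
      exact ⟨e, by injection he with he; exact he.symm⟩
    · exact absurd (fl_not es D.gates h1) (by simp [Gate.isNot])
  · show List.countP Gate.isNot (ni es ++ (D.gates.mapIdx (lg es)).flatten) = _
    have h1 : List.countP Gate.isNot (ni (s := s) (t := t) es) = es.length := by
      rw [← List.length_map (f := fun e => (Gate.not (Wire.inp e) : Gate E s t)) (as := es)]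
      apply List.countP_eq_length.2
      intro g hg
      obtain ⟨e, -, rfl⟩ := List.mem_map.1 hg
      rfl
    have h2 : List.countP Gate.isNot (D.gates.mapIdx (lg es)).flatten = 0 := by
      apply List.countP_eq_zero.2
      intro g hg
      rw [fl_not es D.gates hg]
      exact Bool.false_ne_true
    rw [List.countP_append, h1, h2, hlen, Nat.add_zero]
  · show (ll es D.gates).length ≤ _
    rw [ll_length, hlen]
    omega
  · intro x u w
    show (lw es D.gates.length false D.out).val x u w (vals (ll es D.gates) x u w) =
      D.out.val x u w (vals D.gates x u w)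
    have h := lw_val es hmem x u w (vals D.gates x u w) [] false D.out
    rw [vals_length, List.append_nil, Bool.false_xor] at h
    rw [ll_vals es hmem]
    exact h

end Pool.Agent.PPH
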