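import Pool.Agent.PPH.Stmts

/-!
# One step: the potential changes with a positive probability
-/

set_option autoImplicit false

namespace Pool.Agent.PPH

open Finset Pool.Agent.NegLim Pool.Agent.NLM Pool.Agent.S2C
open Pool.Agent.NPQ (hist)
open Pool.Agent.NBC (SameN St Tests winT)

namespace LOCM

section tests

variable {W E Xn Xp : Type} {n K : ℕ}

theorem xin_mono (T : Tests W E Xn Xp) {a a' : W → St Xn Xp}
    (h : Sb a a') (e : E) (he : T.xin a e = true) : T.xin a' e = true := by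
  simp only [Tests.xin, decide_eq_true_eq] at he ⊢
  obtain ⟨j, h1, h2⟩ := he
  refine ⟨j, h1, ?_⟩
  rcases h j with h3 | h3
  · rw [h3] at h2
    exact absurd h2 (by simp [Tests.val])
  · rw [← h3]
    exact h2

theorem inp_mono (T : Tests W E Xn Xp) {a a' : W → St Xn Xp}
    (b : W → St Xn Xp) (h : Sb a a') (e : E ⊕ E) (he : T.inp a b e = true) :
    T.inp a' b e = true := by
  cases e with
  | inl e => exact xin_mono T h e he
  | inr e => exact he

theorem put_e {e : Fin n × Fin K → W} (he : Function.Injective e)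
    (st : Fin n × Fin K → St Xn Xp) (a : W → St Xn Xp) (x : Fin n × Fin K) :
    put e st a (e x) = st x := he.extend_apply st a x

theorem put_not {e : Fin n × Fin K → W} (st : Fin n × Fin K → St Xn Xp) (a : W → St Xn Xp)
    (w : W) (hw : ¬ ∃ x, e x = w) : put e st a w = a w := Function.extend_apply' st a w hw

theorem sb_put {e : Fin n × Fin K → W} (st : Fin n × Fin K → St Xn Xp)
    (a : W → St Xn Xp) (ha : ∀ x, a (e x) = St.emp) : Sb a (put e st a) := by
  intro w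
  by_cases hw : ∃ x, e x = w
  · obtain ⟨x, rfl⟩ := hw
    exact Or.inl (ha x)
  · exact Or.inr (put_not st a w hw).symm

theorem sb_put_put {e : Fin n × Fin K → W} (he : Function.Injective e)
    {st st' : Fin n × Fin K → St Xn Xp} (a : W → St Xn Xp)
    (h : ∀ x, st x = St.emp ∨ st x = st' x) : Sb (put e st a) (put e st' a) := by
  intro w
  by_cases hw : ∃ x, e x = w
  · obtain ⟨x, rfl⟩ := hw
    rw [put_e he, put_e he]
    exact h x
  · rw [put_not _ _ _ hw, put_not _ _ _ hw]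
    exact Or.inr rfl

theorem sP_sQ (b : Fin n → Bool) (y : Fin n → Fin K × Xp) (χ : Fin n × Fin K → Xn)
    (x : Fin n × Fin K) : (sP b y x : St Xn Xp) = St.emp ∨ sP b y x = sQ b y χ x := by
  unfold sP sQ
  by_cases h : b x.1 = true ∧ x.2 = (y x.1).1
  · rw [if_pos h, if_pos h]
    exact Or.inr rfl
  · rw [if_neg h]
    exact Or.inl rfl

theorem sP_sA (b : Fin n → Bool) (y : Fin n → Fin K × Xp)
    (x : Fin n × Fin K) : (sP b y x : St Xn Xp) = St.emp ∨ (sP b y x : St Xn Xp) = sA y x := by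
  unfold sP sA
  by_cases h : b x.1 = true ∧ x.2 = (y x.1).1
  · rw [if_pos h, if_pos h.2]
    exact Or.inr rfl
  · rw [if_neg h]
    exact Or.inl rfl

theorem sP_pos (b : Fin n → Bool) (y : Fin n → Fin K × Xp) (x : Fin n × Fin K) :
    (∃ τ, (sP b y x : St Xn Xp) = St.pos τ) ↔ b x.1 = true ∧ x.2 = (y x.1).1 := by
  unfold sP
  by_cases h : b x.1 = true ∧ x.2 = (y x.1).1
  · rw [if_pos h]
    exact ⟨fun _ => h, fun _ => ⟨_, rfl⟩⟩
  · rw [if_neg h]
    exact ⟨fun h' => (by obtain ⟨τ, hτ⟩ := h'; cases hτ), fun h' => absurd h' h⟩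

theorem sQ_pos (b : Fin n → Bool) (y : Fin n → Fin K × Xp) (χ : Fin n × Fin K → Xn)
    (x : Fin n × Fin K) :
    (∃ τ, (sQ b y χ x : St Xn Xp) = St.pos τ) ↔ b x.1 = true ∧ x.2 = (y x.1).1 := by
  unfold sQ
  by_cases h : b x.1 = true ∧ x.2 = (y x.1).1
  · rw [if_pos h]
    exact ⟨fun _ => h, fun _ => ⟨_, rfl⟩⟩
  · rw [if_neg h]
    exact ⟨fun h' => (by obtain ⟨τ, hτ⟩ := h'; cases hτ), fun h' => absurd h' h⟩

theorem cnt_put [Fintype W] {e : Fin n × Fin K → W} (he : Function.Injective e)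
    (st : Fin n × Fin K → St Xn Xp) (a : W → St Xn Xp) (hc : cnt a = 0)
    (b : Fin n → Bool) (y : Fin n → Fin K × Xp)
    (hst : ∀ x, (∃ τ, st x = St.pos τ) ↔ b x.1 = true ∧ x.2 = (y x.1).1) :
    cnt (put e st a) = ones b := by
  classical
  have hc' : ∀ w, ¬ ∃ τ, a w = St.pos τ := by
    intro w hw
    unfold cnt at hc
    rw [Finset.card_eq_zero] at hc
    have h1 := Finset.eq_empty_iff_forall_notMem.1 hc w
    exact h1 (mem_filter.2 ⟨mem_univ _, hw⟩)
  unfold cnt ones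
  symm
  apply Finset.card_bij (fun i _ => e (i, (y i).1))
  · intro i hi
    rw [mem_filter] at hi ⊢
    refine ⟨mem_univ _, ?_⟩
    rw [put_e he]
    exact (hst _).2 ⟨hi.2, rfl⟩
  · intro i _ j _ hij
    exact (Prod.ext_iff.1 (he hij)).1
  · intro w hw
    rw [mem_filter] at hw
    by_cases hx : ∃ x, e x = w
    · obtain ⟨x, rfl⟩ := hx
      rw [put_e he] at hw
      obtain ⟨h1, h2⟩ := (hst x).1 hw.2
      exact ⟨x.1, mem_filter.2 ⟨mem_univ _, h1⟩, by rw [← h2]⟩
    · rw [put_not _ _ _ hx] at hw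
      exact absurd hw.2 (hc' w)

end tests

theorem count {B Y X : Type} [Fintype B] [Fintype Y] [Fintype X] (Bad Ps : Finset (B × Y × X))
    (Gs : Finset Y)
    (h : ∀ y ∈ Gs, ∀ χ, ∀ Z : Finset B, (∀ β ∈ Z, (β, y, χ) ∉ Bad ∧ (β, y, χ) ∉ Ps) →
      8 * Z.card ≤ 7 * Fintype.card B) :
    Fintype.card B * Gs.card * Fintype.card X ≤ 8 * (Bad.card + Ps.card) := by
  classical
  have h1 : ∀ y ∈ Gs, ∀ χ, Fintype.card B ≤ 8 * ((univ : Finset B).filter fun β =>
      (β, y, χ) ∈ Bad ∪ Ps).card := by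
    intro y hy χ
    have h2 := h y hy χ ((univ : Finset B).filter fun β => (β, y, χ) ∉ Bad ∪ Ps) (by
      intro β hβ
      have h3 := (mem_filter.1 hβ).2
      rw [mem_union, not_or] at h3
      exact h3)
    have h3 := Finset.card_filter_add_card_filter_not (s := (univ : Finset B))
      (fun β => (β, y, χ) ∈ Bad ∪ Ps)
    rw [Finset.card_univ] at h3
    omega
  have h4 : ∑ p : Y × X, ((univ : Finset B).filter fun β => (β, p) ∈ Bad ∪ Ps).card =
      (Bad ∪ Ps).card := by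
    have h5 : (Bad ∪ Ps).card = ((univ : Finset (B × Y × X)).filter fun z => z ∈ Bad ∪ Ps).card := by
      congr 1
      ext z
      simp
    rw [h5]
    simp only [Finset.card_filter]
    exact (Fintype.sum_prod_type_right
      (fun z : B × (Y × X) => if z ∈ Bad ∪ Ps then (1 : ℕ) else 0)).symm
  have h6 : ∑ p : Y × X, (if p.1 ∈ Gs then Fintype.card B else 0) =
      Fintype.card B * Gs.card * Fintype.card X := by
    have h7 : ∑ p : Y × X, (if p.1 ∈ Gs then Fintype.card B else 0) =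
        ∑ y : Y, ∑ _χ : X, (if y ∈ Gs then Fintype.card B else 0) := Fintype.sum_prod_type _
    rw [h7]
    simp only [Finset.sum_const, Finset.card_univ, smul_eq_mul]
    rw [← Finset.mul_sum, ← Finset.sum_filter, Finset.sum_const, smul_eq_mul]
    have h8 : (univ : Finset Y).filter (fun y => y ∈ Gs) = Gs := by
      ext y
      simp
    rw [h8]
    ring
  rw [← h6]
  refine le_trans ?_ (Nat.mul_le_mul_left 8 (Finset.card_union_le _ _))
  rw [← h4, Finset.mul_sum]
  apply Finset.sum_le_sum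
  rintro ⟨y, χ⟩ _
  by_cases hy : y ∈ Gs
  · simp only [if_pos hy]
    exact h1 y hy χ
  · simp only [if_neg hy]
    exact Nat.zero_le _

theorem arith (N Yc Xc gd nb Bd g m m1 : ℕ) (hX : 0 < Xc) (h1 : gd + nb = Yc)
    (h2 : N * gd * Xc ≤ 8 * (Bd + g)) (h3 : 64 * Bd ≤ N * (Yc * Xc)) (h4 : m1 ≤ m)
    (h5 : (nb : ℝ) ≤ (4 * (m1 : ℝ) / Xc + 1 / 64) * Yc) :
    3 * (N * (Yc * Xc)) ≤ 64 * (g + N * Yc * m) := by
  have hX' : (0 : ℝ) < Xc := by exact_mod_cast hX
  have h6 : (nb : ℝ) * Xc ≤ (4 * (m : ℝ) + Xc / 64) * Yc := by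
    have h7 : (nb : ℝ) * Xc ≤ (4 * (m1 : ℝ) / Xc + 1 / 64) * Yc * Xc :=
      mul_le_mul_of_nonneg_right h5 hX'.le
    have h8 : (4 * (m1 : ℝ) / Xc + 1 / 64) * Yc * Xc = (4 * (m1 : ℝ) + Xc / 64) * Yc := by
      field_simp
    rw [h8] at h7
    have h9 : (m1 : ℝ) ≤ m := by exact_mod_cast h4
    have h10 : (0 : ℝ) ≤ Yc := Nat.cast_nonneg _
    nlinarith [mul_le_mul_of_nonneg_right h9 h10]
  have h7 : (N : ℝ) * (nb * Xc) ≤ N * ((4 * (m : ℝ) + Xc / 64) * Yc) :=
    mul_le_mul_of_nonneg_left h6 (Nat.cast_nonneg _)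
  have h1' : (gd : ℝ) + nb = Yc := by exact_mod_cast h1
  have h2' : (N : ℝ) * gd * Xc ≤ 8 * (Bd + g) := by exact_mod_cast h2
  have h3' : 64 * (Bd : ℝ) ≤ N * (Yc * Xc) := by exact_mod_cast h3
  have h8 : (N : ℝ) * (Yc * Xc) = N * gd * Xc + N * (nb * Xc) := by
    rw [← h1']
    ring
  have hg : (0 : ℝ) ≤ g := Nat.cast_nonneg _
  have hm : (0 : ℝ) ≤ (N : ℝ) * Yc * m := by positivity
  have h9 : (N : ℝ) * ((4 * (m : ℝ) + Xc / 64) * Yc) =
      4 * ((N : ℝ) * Yc * m) + N * (Yc * Xc) / 64 := by ring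
  have h10 : 3 * ((N : ℝ) * (Yc * Xc)) ≤ 64 * (g + N * Yc * m) := by
    rw [h9] at h7
    linarith
  exact_mod_cast h10

end LOCM

open LOCM in
theorem LOC_thm : Stmt_LOC := by
  classical
  intro hDEG hROR hGAT hQAP hSMO hBIN hUNQ hACM hCOR hSAN hPOT hNGB hLVS
    M τ K G Λ k b h p n q c R dd W E T S a F b' hPar hdis hcl hOk hRight hq hn hF hT hΛ hτ hh
    A e he hAe hcA
  obtain ⟨-, hpot2, hpot3, hpot4⟩ := hPOT hUNQ (E ⊕ E) n q c G R dd W S a hOk hRight hq hn
  obtain ⟨h0, hD, Bad, hdn, hdnD, hBad, hsand⟩ := hLVS hCOR hSAN M (2 * τ + 1) K G Λ k b h p n R dd W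
    E T S hPar hdis hcl hOk (by
      refine le_trans ?_ hΛ
      have : (n + 1) * 2 ^ (n + W) ≤ (dd + 2) * (n + 1) * 2 ^ (n + W) := by
        rw [mul_assoc]
        exact Nat.le_mul_of_pos_left _ (by omega)
      omega) A b' e he hAe
  have hN := hNGB M (2 * τ + 1) K G Λ k b h p n R dd W E T S hPar hdis hcl hOk hh A b' e he hAe
  -- the local estimate
  have hloc : ∀ (y : Fin (2 * τ + 1) → Fin K × (Fin k → Fin b))
      (χ : Fin (2 * τ + 1) × Fin K → Fin k × Fin b → Fin (k - 1)),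
      S.SN (T.inp A b') (T.inp (put e (sA y) A) b') →
      ∀ Z : Finset (Fin (2 * τ + 1) → Bool), (∀ β ∈ Z, (β, y, χ) ∉ Bad ∧
        S.pot q c a (T.inp (put e (sP β y) A) b') =
          S.pot q c a (T.inp (put e (sQ β y χ) A) b')) →
        8 * Z.card ≤ 7 * Fintype.card (Fin (2 * τ + 1) → Bool) := by
    intro y χ hy Z hZ
    have hcard : Fintype.card (Fin (2 * τ + 1) → Bool) = 2 ^ (2 * τ + 1) := by
      rw [Fintype.card_fun, Fintype.card_bool, Fintype.card_fin]
    rw [hcard]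
    have hΛ1 : 1 ≤ Λ := by
      by_contra h1
      have h2 : Λ = 0 := by omega
      rw [h2] at hΛ
      have h3 : 0 < (dd + 2) * (n + 1) * 2 ^ (n + W) := by positivity
      omega
    refine hACM hDEG hROR hGAT hQAP hSMO hBIN hUNQ τ n q dd W Λ S.bs (fun l d r => h0 l d r y)
      (fun d => hD d y) (fun β => a (T.inp (put e (sP β y) A) b')) Z hΛ1 hOk.len hOk.bits
      (fun l d r _ => hdn l d r y) (fun d => hdnD d y) ?_ (by omega) hτ
    intro β hβ
    obtain ⟨hβ1, hβ2⟩ := hZ β hβ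
    have hRx : ∀ i, T.inp A b' i = true → T.inp (put e (sP β y) A) b' i = true :=
      inp_mono T b' (sb_put _ A hAe)
    have hxA : ∀ i, T.inp (put e (sP β y) A) b' i = true → T.inp (put e (sA y) A) b' i = true :=
      inp_mono T b' (sb_put_put he A (sP_sA β y))
    have hxx : ∀ i, T.inp (put e (sP β y) A) b' i = true →
        T.inp (put e (sQ β y χ) A) b' i = true :=
      inp_mono T b' (sb_put_put he A (sP_sQ β y χ))
    obtain ⟨hs1, ha1⟩ := (hpot2 _ _ hxx).2 hβ2.symm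
    have hs2 : S.SN (T.inp A b') (T.inp (put e (sP β y) A) b') := hpot3 _ _ _ hRx hxA hy
    have hs3 : S.SN (T.inp A b') (T.inp (put e (sQ β y χ) A) b') := hpot4 _ _ _ hs2 hs1
    obtain ⟨hq1, hq2⟩ := hsand (β, y, χ) hβ1 hs2 hs3
    have hcP : cnt (put e (sP β y) A) = ones β := cnt_put he _ A hcA β y (sP_pos β y)
    have hcQ : cnt (put e (sQ β y χ) A) = ones β := cnt_put he _ A hcA β y (sQ_pos β y χ)
    refine ⟨fun l => ⟨fun hl => ?_, fun hl => ?_⟩, ⟨fun hl => ?_, fun hl => ?_⟩⟩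
    · have h1 := (hRight l _).1 hl
      exact hUNQ.2 (S.bs l) _ _ (fun r hr h2 => (hq1 l _ r hr).1 h2) h1
    · have h1 : AnsQ (S.C l) (S.bs l) (S.ρ l) (hist q l (a (T.inp (put e (sP β y) A) b')))
          (T.inp (put e (sQ β y χ) A) b') :=
        hUNQ.2 (S.bs l) _ _ (fun r hr h2 => (hq1 l _ r hr).2 h2) hl
      rw [ha1] at h1
      have h2 := (hRight l _).2 h1
      rw [← ha1] at h2
      exact h2
    · have h1 := (hq2 _).2 hl
      rw [ha1] at h1
      have h2 := (hT _).1 ((hF _).2 h1)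
      rw [hcQ] at h2
      exact h2
    · rw [← hcP] at hl
      exact (hq2 _).1 ((hF _).1 ((hT _).2 hl))
  have hcount := count Bad ((univ : Finset ((Fin (2 * τ + 1) → Bool) ×
      (Fin (2 * τ + 1) → Fin K × (Fin k → Fin b)) ×
      (Fin (2 * τ + 1) × Fin K → Fin k × Fin b → Fin (k - 1)))).filter fun z =>
      S.pot q c a (T.inp (put e (sP z.1 z.2.1) A) b') ≠
      S.pot q c a (T.inp (put e (sQ z.1 z.2.1 z.2.2) A) b'))
    ((univ : Finset (Fin (2 * τ + 1) → Fin K × (Fin k → Fin b))).filter fun y =>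
      S.SN (T.inp A b') (T.inp (put e (sA y) A) b')) (by
      intro y hy χ Z hZ
      refine hloc y χ (mem_filter.1 hy).2 Z fun β hβ => ?_
      obtain ⟨h1, h2⟩ := hZ β hβ
      refine ⟨h1, ?_⟩
      by_contra h3
      exact h2 (mem_filter.2 ⟨mem_univ _, h3⟩))
  have hX : 0 < Fintype.card (Fin (2 * τ + 1) × Fin K → Fin k × Fin b → Fin (k - 1)) := by
    have : Nonempty (Fin (k - 1)) := ⟨⟨0, by have := hPar.hk2; omega⟩⟩
    exact Fintype.card_pos
  have hm : ((univ : Finset (Fin (2 * τ + 1) × Fin K → Fin k × Fin b → Fin (k - 1))).filter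
      fun χ => ¬ S.SN (T.inp A b') (T.inp (put e (sN χ) A) b')).card ≤
      ((univ : Finset (Fin (2 * τ + 1) × Fin K → Fin k × Fin b → Fin (k - 1))).filter
      fun χ => S.pot q c a (T.inp A b') ≠ S.pot q c a (T.inp (put e (sN χ) A) b')).card := by
    apply Finset.card_le_card
    intro χ hχ
    rw [mem_filter] at hχ ⊢
    exact ⟨hχ.1, fun heq => hχ.2 ((hpot2 _ _ (inp_mono T b' (sb_put _ A hAe))).2 heq.symm).1⟩
  have hsplit := Finset.card_filter_add_card_filter_not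
    (s := (univ : Finset (Fin (2 * τ + 1) → Fin K × (Fin k → Fin b))))
    (fun y => S.SN (T.inp A b') (T.inp (put e (sA y) A) b'))
  rw [Fintype.card_prod, Fintype.card_prod] at hBad ⊢
  rw [Fintype.card_prod]
  exact arith _ _ _ _ _ _ _ _ _ hX hsplit hcount hBad hm hN

end Pool.Agent.PPH
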