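import Pool.Agent.PPH.Stmts4
import Pool.Agent.PPH.LOC

/-!
# One step on average: the output is right for at most a half of the hard states

An adaptation of `Pool/Agent/PPH/LOC.lean`, whose auxiliary lemmas are cited.
-/

set_option autoImplicit false

namespace Pool.Agent.PPH

open Finset Pool.Agent.NegLim Pool.Agent.NLM Pool.Agent.S2C
open Pool.Agent.NPQ (hist)
open Pool.Agent.NBC (SameN St Tests winT)

namespace LOWM

theorem mem_filt {α : Type} {p : α → Prop} {inst : DecidablePred p} {s : Finset α} {z : α}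
    (hz : z ∈ @Finset.filter α p inst s) : p z := (Finset.mem_filter.1 hz).2

theorem countW {B Y X : Type} [Fintype B] [Fintype Y] [Fintype X]
    (Bad Ps Rs : Finset (B × Y × X)) (Gs Ns : Finset Y) (V u : ℕ)
    (hNs : ∀ y, y ∉ Gs → y ∈ Ns)
    (h : ∀ y ∈ Gs, ∀ χ, ∀ Z : Finset B,
      (∀ β ∈ Z, (β, y, χ) ∉ Bad ∧ (β, y, χ) ∉ Ps ∧ (β, y, χ) ∈ Rs) →
      u * Z.card ≤ V * Fintype.card B) :
    u * Rs.card ≤ V * (Fintype.card B * (Gs.card * Fintype.card X)) +
      u * (Bad.card + Ps.card + Fintype.card B * (Ns.card * Fintype.card X)) := by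
  classical
  have hsum : ∀ Q : Finset (B × Y × X),
      ∑ p : Y × X, ((univ : Finset B).filter fun β => (β, p) ∈ Q).card = Q.card := by
    intro Q
    have h5 : Q.card = ((univ : Finset (B × Y × X)).filter fun z => z ∈ Q).card := by
      congr 1
      ext z
      simp
    rw [h5]
    simp only [Finset.card_filter]
    exact (Fintype.sum_prod_type_right
      (fun z : B × (Y × X) => if z ∈ Q then (1 : ℕ) else 0)).symm
  have h6 : ∀ G' : Finset Y, ∑ p : Y × X, (if p.1 ∈ G' then Fintype.card B else 0) =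
      Fintype.card B * (G'.card * Fintype.card X) := by
    intro G'
    have h7 : ∑ p : Y × X, (if p.1 ∈ G' then Fintype.card B else 0) =
        ∑ y : Y, ∑ _χ : X, (if y ∈ G' then Fintype.card B else 0) := Fintype.sum_prod_type _
    rw [h7]
    simp only [Finset.sum_const, Finset.card_univ, smul_eq_mul]
    rw [← Finset.mul_sum, ← Finset.sum_filter, Finset.sum_const, smul_eq_mul]
    have h8 : (univ : Finset Y).filter (fun y => y ∈ G') = G' := by
      ext y
      simp
    rw [h8]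
    ring
  have hone : ∀ p : Y × X, u * ((univ : Finset B).filter fun β => (β, p) ∈ Rs).card ≤
      V * (if p.1 ∈ Gs then Fintype.card B else 0) +
        u * (((univ : Finset B).filter fun β => (β, p) ∈ Bad ∪ Ps).card +
          (if p.1 ∈ Ns then Fintype.card B else 0)) := by
    rintro ⟨y, χ⟩
    by_cases hy : y ∈ Gs
    · have h1 := h y hy χ ((univ : Finset B).filter fun β =>
        (β, y, χ) ∉ Bad ∪ Ps ∧ (β, y, χ) ∈ Rs) (by
          intro β hβ
          obtain ⟨h2, h3⟩ := (mem_filter.1 hβ).2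
          rw [mem_union, not_or] at h2
          exact ⟨h2.1, h2.2, h3⟩)
      have h2 : ((univ : Finset B).filter fun β => (β, (y, χ)) ∈ Rs) ⊆
          ((univ : Finset B).filter fun β => (β, y, χ) ∉ Bad ∪ Ps ∧ (β, y, χ) ∈ Rs) ∪
            ((univ : Finset B).filter fun β => (β, (y, χ)) ∈ Bad ∪ Ps) := by
        intro β hβ
        have h3 := (mem_filter.1 hβ).2
        rw [mem_union, mem_filter, mem_filter]
        by_cases h4 : (β, y, χ) ∈ Bad ∪ Ps
        · exact Or.inr ⟨mem_univ _, h4⟩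
        · exact Or.inl ⟨mem_univ _, h4, h3⟩
      have h3 := (Finset.card_le_card h2).trans (Finset.card_union_le _ _)
      have h4 := Nat.mul_le_mul_left u h3
      rw [Nat.mul_add] at h4
      simp only [if_pos hy]
      refine h4.trans (Nat.add_le_add h1 (Nat.mul_le_mul_left u (Nat.le_add_right _ _)))
    · have h1 : ((univ : Finset B).filter fun β => (β, (y, χ)) ∈ Rs).card ≤ Fintype.card B := by
        refine (Finset.card_filter_le _ _).trans ?_
        rw [Finset.card_univ]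
      simp only [if_neg hy, if_pos (hNs y hy), Nat.mul_zero, Nat.zero_add]
      exact Nat.mul_le_mul_left u (h1.trans (Nat.le_add_left _ _))
  calc u * Rs.card = ∑ p : Y × X, u * ((univ : Finset B).filter fun β => (β, p) ∈ Rs).card := by
        rw [← Finset.mul_sum, hsum]
    _ ≤ ∑ p : Y × X, (V * (if p.1 ∈ Gs then Fintype.card B else 0) +
        u * (((univ : Finset B).filter fun β => (β, p) ∈ Bad ∪ Ps).card +
          (if p.1 ∈ Ns then Fintype.card B else 0))) := Finset.sum_le_sum fun p _ => hone p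
    _ = V * (Fintype.card B * (Gs.card * Fintype.card X)) +
        u * ((Bad ∪ Ps).card + Fintype.card B * (Ns.card * Fintype.card X)) := by
        rw [Finset.sum_add_distrib, ← Finset.mul_sum, ← Finset.mul_sum, Finset.sum_add_distrib,
          hsum, h6, h6]
    _ ≤ _ := by
        refine Nat.add_le_add_left (Nat.mul_le_mul_left u ?_) _
        exact Nat.add_le_add_right (Finset.card_union_le _ _) _

theorem arithW (N Yc Xc gd nb Bd g m m1 Rc U : ℕ) (hX : 0 < Xc) (hU : 1 ≤ U)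
    (h1 : gd + nb = Yc)
    (h2 : 2 * U * Rc ≤ (U + 3) * (N * (gd * Xc)) + 2 * U * (Bd + g + N * (nb * Xc)))
    (h3 : U * Bd ≤ N * (Yc * Xc)) (h4 : m1 ≤ m)
    (h5 : (nb : ℝ) ≤ (4 * (m1 : ℝ) / Xc + 1 / U) * Yc) :
    2 * U * Rc ≤ (U + 7) * (N * (Yc * Xc)) + 2 * U * (g + 4 * (N * Yc * m)) := by
  have hX' : (0 : ℝ) < Xc := by exact_mod_cast hX
  have hU' : (0 : ℝ) < U := by exact_mod_cast hU
  have h6 : (U : ℝ) * (nb * Xc) ≤ (4 * (m : ℝ) * U + Xc) * Yc := by
    have h7 : (nb : ℝ) * (Xc * U) ≤ (4 * (m1 : ℝ) / Xc + 1 / U) * Yc * (Xc * U) :=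
      mul_le_mul_of_nonneg_right h5 (by positivity)
    have h8 : (4 * (m1 : ℝ) / Xc + 1 / U) * Yc * (Xc * U) = (4 * (m1 : ℝ) * U + Xc) * Yc := by
      field_simp
    rw [h8] at h7
    have h9 : (m1 : ℝ) ≤ m := by exact_mod_cast h4
    have h10 : (0 : ℝ) ≤ U * Yc := by positivity
    have h11 : (m1 : ℝ) * (U * Yc) ≤ m * (U * Yc) := mul_le_mul_of_nonneg_right h9 h10
    nlinarith
  have hN : (0 : ℝ) ≤ N := Nat.cast_nonneg _
  have h7 : (N : ℝ) * (U * (nb * Xc)) ≤ N * ((4 * (m : ℝ) * U + Xc) * Yc) :=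
    mul_le_mul_of_nonneg_left h6 hN
  have h2' : 2 * (U : ℝ) * Rc ≤ (U + 3) * (N * (gd * Xc)) + 2 * U * (Bd + g + N * (nb * Xc)) := by
    exact_mod_cast h2
  have h3' : (U : ℝ) * Bd ≤ N * (Yc * Xc) := by exact_mod_cast h3
  have hgd : (gd : ℝ) ≤ Yc := by
    have h8 : gd ≤ Yc := by omega
    exact_mod_cast h8
  have h9 : ((U : ℝ) + 3) * (N * (gd * Xc)) ≤ (U + 3) * (N * (Yc * Xc)) := by
    have h10 : (N : ℝ) * (gd * Xc) ≤ N * (Yc * Xc) :=
      mul_le_mul_of_nonneg_left (mul_le_mul_of_nonneg_right hgd hX'.le) hN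
    exact mul_le_mul_of_nonneg_left h10 (by positivity)
  have h10 : 2 * (U : ℝ) * Rc ≤ (U + 7) * (N * (Yc * Xc)) + 2 * U * (g + 4 * (N * Yc * m)) := by
    have e1 : 2 * (U : ℝ) * (Bd + g + N * (nb * Xc)) =
        2 * (U * Bd) + 2 * U * g + 2 * (N * (U * (nb * Xc))) := by ring
    have e2 : (N : ℝ) * ((4 * (m : ℝ) * U + Xc) * Yc) =
        4 * U * (N * Yc * m) + N * (Yc * Xc) := by ring
    have e3 : ((U : ℝ) + 7) * (N * (Yc * Xc)) + 2 * U * (g + 4 * (N * Yc * m)) =
        (U + 3) * (N * (Yc * Xc)) + 4 * (N * (Yc * Xc)) + 2 * U * g +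
          8 * U * (N * Yc * m) := by ring
    rw [e1] at h2'
    rw [e2] at h7
    rw [e3]
    linarith
  exact_mod_cast h10

end LOWM

open LOCM LOWM in
theorem LOW_thm : Stmt_LOW := by
  classical
  intro hDEG hROR hGAT hQAP hSMO hBIW hUNQ hACW hCOR hSAN hPOT hNGW hLVW
    M τ K G Λ k b h p n q c R dd W U E T S a b' hU hPar hdis hcl hOk hRight hq hn hΛ hτ hh
    A e he hAe hcA
  obtain ⟨-, hpot2, hpot3, hpot4⟩ := hPOT hUNQ (E ⊕ E) n q c G R dd W S a hOk hRight hq hn
  obtain ⟨h0, hD, Bad, hdn, hdnD, hBad, hsand⟩ := hLVW hCOR hSAN M (2 * τ + 1) K G Λ k b h p n R dd W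
    U E T S hPar hdis hcl hOk (by
      refine le_trans ?_ hΛ
      have : (n + 1) * 2 ^ (n + W) ≤ (dd + 2) * (n + 1) * 2 ^ (n + W) := by
        rw [mul_assoc]
        exact Nat.le_mul_of_pos_left _ (by omega)
      exact Nat.mul_le_mul_left _ this) A b' e he hAe
  have hN := hNGW M (2 * τ + 1) K G Λ k b h p n R dd W U E T S hU hPar hdis hcl hOk hh A b' e he hAe
  -- the local estimate
  have hloc : ∀ (y : Fin (2 * τ + 1) → Fin K × (Fin k → Fin b))
      (χ : Fin (2 * τ + 1) × Fin K → Fin k × Fin b → Fin (k - 1)),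
      S.SN (T.inp A b') (T.inp (put e (sA y) A) b') →
      ∀ Z : Finset (Fin (2 * τ + 1) → Bool), (∀ β ∈ Z, (β, y, χ) ∉ Bad ∧
        S.pot q c a (T.inp (put e (sP β y) A) b') =
          S.pot q c a (T.inp (put e (sQ β y χ) A) b') ∧
        (outp S.D (T.inp (put e (sW τ β y χ) A) b') (fun i => i.elim0)
          (a (T.inp (put e (sW τ β y χ) A) b')) = true ↔ τ < cnt (put e (sW τ β y χ) A))) →
        2 * U * Z.card ≤ (U + 3) * Fintype.card (Fin (2 * τ + 1) → Bool) := by
    intro y χ hy Z hZ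
    have hcard : Fintype.card (Fin (2 * τ + 1) → Bool) = 2 ^ (2 * τ + 1) := by
      rw [Fintype.card_fun, Fintype.card_bool, Fintype.card_fin]
    have hΛ0 : U * ((dd + 2) * (n + 1) * 2 ^ (n + W)) ≤ 2 ^ Λ := by
      refine le_trans (Nat.mul_le_mul_right _ ?_) hΛ
      omega
    have hΛ1 : 1 ≤ Λ := by
      by_contra h1
      have h2 : Λ = 0 := by omega
      rw [h2] at hΛ
      have h3 : 0 < U * ((dd + 2) * (n + 1) * 2 ^ (n + W)) := by positivity
      have h4 : 2 * U * ((dd + 2) * (n + 1) * 2 ^ (n + W)) =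
          2 * (U * ((dd + 2) * (n + 1) * 2 ^ (n + W))) := by ring
      rw [h4] at hΛ
      omega
    have hmain : U * Z.card ≤ (U + 3) * 4 ^ τ := by
      refine hACW hDEG hROR hGAT hQAP hSMO hBIW hUNQ τ n q dd W Λ U S.bs (fun l d r => h0 l d r y)
        (fun d => hD d y) (fun β => a (T.inp (put e (sP β y) A) b')) Z hΛ1 hOk.len hOk.bits
        (fun l d r _ => hdn l d r y) (fun d => hdnD d y) ?_ hΛ0 hτ
      intro β hβ
      obtain ⟨hβ1, hβ2, hβ3⟩ := hZ β hβ
      have hRx : ∀ i, T.inp A b' i = true → T.inp (put e (sP β y) A) b' i = true :=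
        inp_mono T b' (sb_put _ A hAe)
      have hxA : ∀ i, T.inp (put e (sP β y) A) b' i = true → T.inp (put e (sA y) A) b' i = true :=
        inp_mono T b' (sb_put_put he A (sP_sA β y))
      have hxx : ∀ i, T.inp (put e (sP β y) A) b' i = true →
          T.inp (put e (sQ β y χ) A) b' i = true :=
        inp_mono T b' (sb_put_put he A (sP_sQ β y χ))
      obtain ⟨hs1, ha1⟩ := (hpot2 _ _ hxx).2 hβ2.symm
      have hs2 : S.SN (T.inp A b') (T.inp (put e (sP β y) A) b') := hpot3 _ _ _ hRx hxA hy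
      have hs3 : S.SN (T.inp A b') (T.inp (put e (sQ β y χ) A) b') := hpot4 _ _ _ hs2 hs1
      obtain ⟨hq1, hq2⟩ := hsand (β, y, χ) hβ1 hs2 hs3
      have hcP : cnt (put e (sP β y) A) = ones β := cnt_put he _ A hcA β y (sP_pos β y)
      have hcQ : cnt (put e (sQ β y χ) A) = ones β := cnt_put he _ A hcA β y (sQ_pos β y χ)
      refine ⟨fun l => ⟨fun hl => ?_, fun hl => ?_⟩, ⟨fun hl => ?_, fun hl => ?_⟩⟩
      · have h1 := (hRight l _).1 hl
        exact hUNQ.2 (S.bs l) _ _ (fun r hr h2 => (hq1 l _ r hr).1 h2) h1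
      · have h1 : AnsQ (S.C l) (S.bs l) (S.ρ l) (hist q l (a (T.inp (put e (sP β y) A) b')))
            (T.inp (put e (sQ β y χ) A) b') :=
          hUNQ.2 (S.bs l) _ _ (fun r hr h2 => (hq1 l _ r hr).2 h2) hl
        rw [ha1] at h1
        have h2 := (hRight l _).2 h1
        rw [← ha1] at h2
        exact h2
      · by_contra hno
        have h1 := (hq2 _).2 hl
        rw [ha1] at h1
        have hst : (sW τ β y χ : Fin (2 * τ + 1) × Fin K →
            St (Fin k × Fin b → Fin (k - 1)) (Fin k → Fin b)) = sQ β y χ := by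
          unfold sW
          rw [if_neg hno]
        rw [hst, hcQ] at hβ3
        exact hno (hβ3.1 h1)
      · have hst : (sW τ β y χ : Fin (2 * τ + 1) × Fin K →
            St (Fin k × Fin b → Fin (k - 1)) (Fin k → Fin b)) = sP β y := by
          unfold sW
          rw [if_pos hl]
        rw [hst, hcP] at hβ3
        exact (hq2 _).1 (hβ3.2 hl)
    have h4 : (2 : ℕ) ^ (2 * τ + 1) = 2 * 4 ^ τ := by
      rw [pow_succ, pow_mul]
      norm_num
      ring
    rw [hcard, h4]
    calc 2 * U * Z.card = 2 * (U * Z.card) := by ring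
      _ ≤ 2 * ((U + 3) * 4 ^ τ) := Nat.mul_le_mul_left 2 hmain
      _ = (U + 3) * (2 * 4 ^ τ) := by ring
  have hcount := fun (Rs : Finset ((Fin (2 * τ + 1) → Bool) ×
      (Fin (2 * τ + 1) → Fin K × (Fin k → Fin b)) ×
      (Fin (2 * τ + 1) × Fin K → Fin k × Fin b → Fin (k - 1))))
    (hRs : ∀ z ∈ Rs, (outp S.D (T.inp (put e (sW τ z.1 z.2.1 z.2.2) A) b') (fun i => i.elim0)
          (a (T.inp (put e (sW τ z.1 z.2.1 z.2.2) A) b')) = true ↔
        τ < cnt (put e (sW τ z.1 z.2.1 z.2.2) A))) =>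
    countW Bad ((univ : Finset ((Fin (2 * τ + 1) → Bool) ×
      (Fin (2 * τ + 1) → Fin K × (Fin k → Fin b)) ×
      (Fin (2 * τ + 1) × Fin K → Fin k × Fin b → Fin (k - 1)))).filter fun z =>
      S.pot q c a (T.inp (put e (sP z.1 z.2.1) A) b') ≠
      S.pot q c a (T.inp (put e (sQ z.1 z.2.1 z.2.2) A) b')) Rs
    ((univ : Finset (Fin (2 * τ + 1) → Fin K × (Fin k → Fin b))).filter fun y =>
      S.SN (T.inp A b') (T.inp (put e (sA y) A) b'))
    ((univ : Finset (Fin (2 * τ + 1) → Fin K × (Fin k → Fin b))).filter fun y =>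
      ¬ S.SN (T.inp A b') (T.inp (put e (sA y) A) b')) (U + 3) (2 * U)
    (by
      intro y hy
      rw [mem_filter]
      refine ⟨mem_univ _, fun h1 => hy (mem_filter.2 ⟨mem_univ _, h1⟩)⟩)
    (by
      intro y hy χ Z hZ
      refine hloc y χ (mem_filter.1 hy).2 Z fun β hβ => ?_
      obtain ⟨h1, h2, h3⟩ := hZ β hβ
      refine ⟨h1, ?_, hRs _ h3⟩
      by_contra h4
      exact h2 (mem_filter.2 ⟨mem_univ _, h4⟩))
  have hX : 0 < Fintype.card (Fin (2 * τ + 1) × Fin K → Fin k × Fin b → Fin (k - 1)) := by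
    have : Nonempty (Fin (k - 1)) := ⟨⟨0, by have := hPar.hk2; omega⟩⟩
    exact Fintype.card_pos
  have hm : ((univ : Finset (Fin (2 * τ + 1) × Fin K → Fin k × Fin b → Fin (k - 1))).filter
      fun χ => ¬ S.SN (T.inp A b') (T.inp (put e (sN χ) A) b')).card ≤
      ((univ : Finset (Fin (2 * τ + 1) × Fin K → Fin k × Fin b → Fin (k - 1))).filter
      fun χ => S.pot q c a (T.inp A b') ≠ S.pot q c a (T.inp (put e (sN χ) A) b')).card := by
    apply Finset.card_le_card
    intro χ hχ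
    rw [mem_filter] at hχ ⊢
    exact ⟨hχ.1, fun heq => hχ.2 ((hpot2 _ _ (inp_mono T b' (sb_put _ A hAe))).2 heq.symm).1⟩
  have hsplit := Finset.card_filter_add_card_filter_not
    (s := (univ : Finset (Fin (2 * τ + 1) → Fin K × (Fin k → Fin b))))
    (fun y => S.SN (T.inp A b') (T.inp (put e (sA y) A) b'))
  rw [Fintype.card_prod, Fintype.card_prod] at hBad ⊢
  rw [Fintype.card_prod]
  exact arithW _ _ _ _ _ _ _ _ _ _ _ hX hU hsplit
    (hcount _ (by
      intro z hz
      have h9 := mem_filt hz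
      exact h9)) hBad hm hN

end Pool.Agent.PPH
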