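import Pool.Agent.PPH.Stmts5
import Pool.Agent.PPH.LOW

/-!
# One step on average for any potential: the output is right for at most a half of the hard states

An adaptation of `Pool/Agent/PPH/LOW.lean`, whose auxiliary lemmas are cited.
-/

set_option autoImplicit false

namespace Pool.Agent.PPH

open Finset Pool.Agent.NegLim Pool.Agent.NLM Pool.Agent.S2C
open Pool.Agent.NPQ (hist)
open Pool.Agent.NBC (SameN St Tests winT)

open LOCM LOWM in
theorem LOA_thm : Stmt_LOA := by
  classical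
  intro hDEG hROR hGAT hQAP hSMO hBIW hUNQ hACW hCOR hSAN hPOT hNGW hLVW
    M τ K G Λ k b h p n q c R dd W U E T S a Φ b' hU hPar hdis hcl hOk hRight hq hn hpot2 hΛ hτ hh
    A e he hAe hcA
  obtain ⟨-, -, hpot3, hpot4⟩ := hPOT hUNQ (E ⊕ E) n q c G R dd W S a hOk hRight hq hn
  obtain ⟨h0, hD, Bad, hdn, hdnD, hBad, hsand⟩ := hLVW hCOR hSAN M (2 * τ + 1) K G Λ k b h p n R dd W
    U E T S hPar hdis hcl hOk (by
      refine le_trans ?_ hΛ
      have : (n + 1) * 2 ^ (n + W) ≤ (dd + 2) * (n + 1) * 2 ^ (n + W) := by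
        rw [mul_assoc]
        exact Nat.le_mul_of_pos_left _ (by omega)
      exact Nat.mul_le_mul_left _ this) A b' e he hAe
  have hN := hNGW M (2 * τ + 1) K G Λ k b h p n R dd W U E T S hU hPar hdis hcl hOk hh A b' e he hAe
  -- the local estimate
  have hloc : ∀ (y : Fin (2 * τ + 1) → Fin K × (Fin k → Fin b))
      (χ : Fin (2 * τ + 1) × Fin K → Fin k × Fin b → Fin (k - 1)),
      S.SN (T.inp A b') (T.inp (put e (sA y) A) b') →
      ∀ Z : Finset (Fin (2 * τ + 1) → Bool), (∀ β ∈ Z, (β, y, χ) ∉ Bad ∧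
        Φ (T.inp (put e (sP β y) A) b') =
          Φ (T.inp (put e (sQ β y χ) A) b') ∧
        (outp S.D (T.inp (put e (sW τ β y χ) A) b') (fun i => i.elim0)
          (a (T.inp (put e (sW τ β y χ) A) b')) = true ↔ τ < cnt (put e (sW τ β y χ) A))) →
        2 * U * Z.card ≤ (U + 3) * Fintype.card (Fin (2 * τ + 1) → Bool) := by
    intro y χ hy Z hZ
    have hcard : Fintype.card (Fin (2 * τ + 1) → Bool) = 2 ^ (2 * τ + 1) := by
      rw [Fintype.card_fun, Fintype.card_bool, Fintype.card_fin]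
    have hΛ0 : U * ((dd + 2) * (n + 1) * 2 ^ (n + W)) ≤ 2 ^ Λ := by
      refine le_trans (Nat.mul_le_mul_right _ ?_) hΛ
      omega
    have hΛ1 : 1 ≤ Λ := by
      by_contra h1
      have h2 : Λ = 0 := by omega
      rw [h2] at hΛ
      have h3 : 0 < U * ((dd + 2) * (n + 1) * 2 ^ (n + W)) := by positivity
      have h4 : 2 * U * ((dd + 2) * (n + 1) * 2 ^ (n + W)) =
          2 * (U * ((dd + 2) * (n + 1) * 2 ^ (n + W))) := by ring
      rw [h4] at hΛ
      omega
    have hmain : U * Z.card ≤ (U + 3) * 4 ^ τ := by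
      refine hACW hDEG hROR hGAT hQAP hSMO hBIW hUNQ τ n q dd W Λ U S.bs (fun l d r => h0 l d r y)
        (fun d => hD d y) (fun β => a (T.inp (put e (sP β y) A) b')) Z hΛ1 hOk.len hOk.bits
        (fun l d r _ => hdn l d r y) (fun d => hdnD d y) ?_ hΛ0 hτ
      intro β hβ
      obtain ⟨hβ1, hβ2, hβ3⟩ := hZ β hβ
      have hRx : ∀ i, T.inp A b' i = true → T.inp (put e (sP β y) A) b' i = true :=
        inp_mono T b' (sb_put _ A hAe)
      have hxA : ∀ i, T.inp (put e (sP β y) A) b' i = true → T.inp (put e (sA y) A) b' i = true :=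
        inp_mono T b' (sb_put_put he A (sP_sA β y))
      have hxx : ∀ i, T.inp (put e (sP β y) A) b' i = true →
          T.inp (put e (sQ β y χ) A) b' i = true :=
        inp_mono T b' (sb_put_put he A (sP_sQ β y χ))
      obtain ⟨hs1, ha1⟩ := (hpot2 _ _ hxx).2 hβ2.symm
      have hs2 : S.SN (T.inp A b') (T.inp (put e (sP β y) A) b') := hpot3 _ _ _ hRx hxA hy
      have hs3 : S.SN (T.inp A b') (T.inp (put e (sQ β y χ) A) b') := hpot4 _ _ _ hs2 hs1
      obtain ⟨hq1, hq2⟩ := hsand (β, y, χ) hβ1 hs2 hs3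
      have hcP : cnt (put e (sP β y) A) = ones β := cnt_put he _ A hcA β y (sP_pos β y)
      have hcQ : cnt (put e (sQ β y χ) A) = ones β := cnt_put he _ A hcA β y (sQ_pos β y χ)
      refine ⟨fun l => ⟨fun hl => ?_, fun hl => ?_⟩, ⟨fun hl => ?_, fun hl => ?_⟩⟩
      · have h1 := (hRight l _).1 hl
        exact hUNQ.2 (S.bs l) _ _ (fun r hr h2 => (hq1 l _ r hr).1 h2) h1
      · have h1 : AnsQ (S.C l) (S.bs l) (S.ρ l) (hist q l (a (T.inp (put e (sP β y) A) b')))
            (T.inp (put e (sQ β y χ) A) b') :=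
          hUNQ.2 (S.bs l) _ _ (fun r hr h2 => (hq1 l _ r hr).2 h2) hl
        rw [ha1] at h1
        have h2 := (hRight l _).2 h1
        rw [← ha1] at h2
        exact h2
      · by_contra hno
        have h1 := (hq2 _).2 hl
        rw [ha1] at h1
        have hst : (sW τ β y χ : Fin (2 * τ + 1) × Fin K →
            St (Fin k × Fin b → Fin (k - 1)) (Fin k → Fin b)) = sQ β y χ := by
          unfold sW
          rw [if_neg hno]
        rw [hst, hcQ] at hβ3
        exact hno (hβ3.1 h1)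
      · have hst : (sW τ β y χ : Fin (2 * τ + 1) × Fin K →
            St (Fin k × Fin b → Fin (k - 1)) (Fin k → Fin b)) = sP β y := by
          unfold sW
          rw [if_pos hl]
        rw [hst, hcP] at hβ3
        exact (hq2 _).1 (hβ3.2 hl)
    have h4 : (2 : ℕ) ^ (2 * τ + 1) = 2 * 4 ^ τ := by
      rw [pow_succ, pow_mul]
      norm_num
      ring
    rw [hcard, h4]
    calc 2 * U * Z.card = 2 * (U * Z.card) := by ring
      _ ≤ 2 * ((U + 3) * 4 ^ τ) := Nat.mul_le_mul_left 2 hmain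
      _ = (U + 3) * (2 * 4 ^ τ) := by ring
  have hcount := fun (Rs : Finset ((Fin (2 * τ + 1) → Bool) ×
      (Fin (2 * τ + 1) → Fin K × (Fin k → Fin b)) ×
      (Fin (2 * τ + 1) × Fin K → Fin k × Fin b → Fin (k - 1))))
    (hRs : ∀ z ∈ Rs, (outp S.D (T.inp (put e (sW τ z.1 z.2.1 z.2.2) A) b') (fun i => i.elim0)
          (a (T.inp (put e (sW τ z.1 z.2.1 z.2.2) A) b')) = true ↔
        τ < cnt (put e (sW τ z.1 z.2.1 z.2.2) A))) =>
    countW Bad ((univ : Finset ((Fin (2 * τ + 1) → Bool) ×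
      (Fin (2 * τ + 1) → Fin K × (Fin k → Fin b)) ×
      (Fin (2 * τ + 1) × Fin K → Fin k × Fin b → Fin (k - 1)))).filter fun z =>
      Φ (T.inp (put e (sP z.1 z.2.1) A) b') ≠
      Φ (T.inp (put e (sQ z.1 z.2.1 z.2.2) A) b')) Rs
    ((univ : Finset (Fin (2 * τ + 1) → Fin K × (Fin k → Fin b))).filter fun y =>
      S.SN (T.inp A b') (T.inp (put e (sA y) A) b'))
    ((univ : Finset (Fin (2 * τ + 1) → Fin K × (Fin k → Fin b))).filter fun y =>
      ¬ S.SN (T.inp A b') (T.inp (put e (sA y) A) b')) (U + 3) (2 * U)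
    (by
      intro y hy
      rw [mem_filter]
      refine ⟨mem_univ _, fun h1 => hy (mem_filter.2 ⟨mem_univ _, h1⟩)⟩)
    (by
      intro y hy χ Z hZ
      refine hloc y χ (mem_filter.1 hy).2 Z fun β hβ => ?_
      obtain ⟨h1, h2, h3⟩ := hZ β hβ
      refine ⟨h1, ?_, hRs _ h3⟩
      by_contra h4
      exact h2 (mem_filter.2 ⟨mem_univ _, h4⟩))
  have hX : 0 < Fintype.card (Fin (2 * τ + 1) × Fin K → Fin k × Fin b → Fin (k - 1)) := by
    have : Nonempty (Fin (k - 1)) := ⟨⟨0, by have := hPar.hk2; omega⟩⟩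
    exact Fintype.card_pos
  have hm : ((univ : Finset (Fin (2 * τ + 1) × Fin K → Fin k × Fin b → Fin (k - 1))).filter
      fun χ => ¬ S.SN (T.inp A b') (T.inp (put e (sN χ) A) b')).card ≤
      ((univ : Finset (Fin (2 * τ + 1) × Fin K → Fin k × Fin b → Fin (k - 1))).filter
      fun χ => Φ (T.inp A b') ≠ Φ (T.inp (put e (sN χ) A) b')).card := by
    apply Finset.card_le_card
    intro χ hχ
    rw [mem_filter] at hχ ⊢
    exact ⟨hχ.1, fun heq => hχ.2 ((hpot2 _ _ (inp_mono T b' (sb_put _ A hAe))).2 heq.symm).1⟩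
  have hsplit := Finset.card_filter_add_card_filter_not
    (s := (univ : Finset (Fin (2 * τ + 1) → Fin K × (Fin k → Fin b))))
    (fun y => S.SN (T.inp A b') (T.inp (put e (sA y) A) b'))
  rw [Fintype.card_prod, Fintype.card_prod] at hBad ⊢
  rw [Fintype.card_prod]
  exact arithW _ _ _ _ _ _ _ _ _ _ _ hX hU hsplit
    (hcount _ (by
      intro z hz
      have h9 := mem_filt hz
      exact h9)) hBad hm hN

end Pool.Agent.PPH
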