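import Pool.Agent.PPH.Stmts4
import Pool.Agent.S2C.GVL
import Pool.Agent.S2C.STQ

/-!
# The sandwich for all witnesses of all circuits (PPH, part 2): module LVW
-/

set_option autoImplicit false

namespace Pool.Agent.PPH

open Finset Pool.Agent.NegLim Pool.Agent.NLM Pool.Agent.S2C
open Pool.Agent.NPQ (hist)
open Pool.Agent.NBC (SameN St Tests winT)

namespace LVWM

lemma bi {ι α : Type} [Fintype ι] [DecidableEq α] (F : ι → Finset α) (A B : ℕ)
    (h : ∀ i, A * (F i).card ≤ B) : A * (univ.biUnion F).card ≤ Fintype.card ι * B := by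
  calc A * (univ.biUnion F).card ≤ A * ∑ i, (F i).card := Nat.mul_le_mul_left _ card_biUnion_le
    _ = ∑ i, A * (F i).card := mul_sum _ _ _
    _ ≤ ∑ _i : ι, B := sum_le_sum fun i _ => h i
    _ = Fintype.card ι * B := by rw [sum_const, card_univ, smul_eq_mul]

/-- the union of the exceptional sets -/
lemma count {α : Type} [Fintype α] {n W Λ U : ℕ} (c : Fin n → ℕ) (hc : ∀ l, c l ≤ W)
    (X : (l : Fin n) → (Fin n → Bool) → (Fin (c l) → Bool) → Finset α)
    (Y : (Fin n → Bool) → Finset α)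
    (hX : ∀ l d r, 2 ^ Λ * (X l d r).card ≤ 2 * Fintype.card α)
    (hY : ∀ d, 2 ^ Λ * (Y d).card ≤ 2 * Fintype.card α)
    (hΛ : 2 * U * ((n + 1) * 2 ^ (n + W)) ≤ 2 ^ Λ) :
    ∃ Bad : Finset α, U * Bad.card ≤ Fintype.card α ∧ (∀ l d r, X l d r ⊆ Bad) ∧
      ∀ d, Y d ⊆ Bad := by
  classical
  obtain ⟨a, ha⟩ : ∃ a : ℕ, a = Fintype.card α := ⟨_, rfl⟩
  rw [← ha] at hX hY ⊢
  have hb : Fintype.card (Fin n → Bool) = 2 ^ n := by
    rw [Fintype.card_fun, Fintype.card_bool, Fintype.card_fin]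
  have h1 : ∀ l d, 2 ^ Λ * (univ.biUnion (X l d)).card ≤ 2 ^ W * (2 * a) := by
    intro l d
    refine (bi (X l d) (2 ^ Λ) (2 * a) (hX l d)).trans (Nat.mul_le_mul_right _ ?_)
    rw [Fintype.card_fun, Fintype.card_bool, Fintype.card_fin]
    exact Nat.pow_le_pow_right (by norm_num) (hc l)
  have h2 : ∀ l, 2 ^ Λ * (univ.biUnion fun d => univ.biUnion (X l d)).card ≤
      2 ^ n * (2 ^ W * (2 * a)) := by
    intro l
    have := bi (fun d => univ.biUnion (X l d)) (2 ^ Λ) (2 ^ W * (2 * a)) (h1 l)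
    rwa [hb] at this
  have h3 : 2 ^ Λ * (univ.biUnion fun l => univ.biUnion fun d => univ.biUnion (X l d)).card ≤
      n * (2 ^ n * (2 ^ W * (2 * a))) := by
    have := bi (fun l => univ.biUnion fun d => univ.biUnion (X l d)) (2 ^ Λ) _ h2
    rwa [Fintype.card_fin] at this
  have h4 : 2 ^ Λ * (univ.biUnion Y).card ≤ 2 ^ n * (2 * a) := by
    have := bi Y (2 ^ Λ) (2 * a) hY
    rwa [hb] at this
  refine ⟨(univ.biUnion fun l => univ.biUnion fun d => univ.biUnion (X l d)) ∪ univ.biUnion Y,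
    ?_, ?_, ?_⟩
  · refine Nat.le_of_mul_le_mul_left (c := 2 ^ Λ) ?_ (Nat.two_pow_pos Λ)
    have h5 := card_union_le (univ.biUnion fun l => univ.biUnion fun d => univ.biUnion (X l d))
      (univ.biUnion Y)
    have h6 : 2 ^ n * (2 * a) ≤ 2 ^ (n + W) * (2 * a) :=
      Nat.mul_le_mul_right _ (Nat.pow_le_pow_right (by norm_num) (by omega))
    have h7 : n * (2 ^ n * (2 ^ W * (2 * a))) = n * (2 ^ (n + W) * (2 * a)) := by
      rw [pow_add]
      ring
    rw [h7] at h3
    calc 2 ^ Λ * (U * ((univ.biUnion fun l => univ.biUnion fun d => univ.biUnion (X l d)) ∪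
          univ.biUnion Y).card)
        = U * (2 ^ Λ * ((univ.biUnion fun l => univ.biUnion fun d => univ.biUnion (X l d)) ∪
          univ.biUnion Y).card) := by ring
      _ ≤ U * (2 ^ Λ * ((univ.biUnion fun l => univ.biUnion fun d => univ.biUnion (X l d)).card +
          (univ.biUnion Y).card)) :=
          Nat.mul_le_mul_left _ (Nat.mul_le_mul_left _ h5)
      _ ≤ U * (n * (2 ^ (n + W) * (2 * a)) + 2 ^ (n + W) * (2 * a)) := by
          rw [Nat.mul_add (2 ^ Λ)]
          exact Nat.mul_le_mul_left _ (Nat.add_le_add h3 (h4.trans h6))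
      _ = 2 * U * ((n + 1) * 2 ^ (n + W)) * a := by ring
      _ ≤ 2 ^ Λ * a := Nat.mul_le_mul_right _ hΛ
  · intro l d r x hx
    refine mem_union_left _ (mem_biUnion.2 ⟨l, mem_univ _, mem_biUnion.2 ⟨d, mem_univ _,
      mem_biUnion.2 ⟨r, mem_univ _, hx⟩⟩⟩)
  · intro d x hx
    exact mem_union_right _ (mem_biUnion.2 ⟨d, mem_univ _, hx⟩)

end LVWM

open LVWM Classical in
theorem LVW_thm : Stmt_LVW := by
  intro hCOR hSAN
  intro M n₀ K G Λ k b h p n R dd W U E T S hPar hDis hCL hOk hΛ A b' e he hA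
  have hDis' : (stq_T T e).Dis := fun i j v hi hj => he (hDis _ _ v hi hj)
  have hCL' : CliqueLike (stq_T T e) := fun j v => hCL (e j) v
  have hG := fun l => GVL_thm (E ⊕ E) (S.s l) (n + S.t l) G (S.C l) (hOk.nf l) (hOk.sz l)
    (T.inp A b')
  choose f g hf hg hfv hgv using hG
  obtain ⟨fD, gD, hfD, hgD, hfvD, hgvD⟩ := GVL_thm (E ⊕ E) 0 n G S.D hOk.nfD hOk.szD (T.inp A b')
  -- the sandwiches
  have hH := fun (l : Fin n) (d : Fin n → Bool) (r : List Bool) =>
    hSAN hCOR n₀ K G Λ k b h p E (stq_T T e)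
      (fun z => f l (Sum.elim (fun i => r.getD (S.ρ l i) false)
        (Fin.append d fun j => r.getD j false)) (stq_sg T A b' z))
      hPar hDis' hCL' ((hf l _).comp (stq_proj T A b'))
  choose H hDNF hcard using hH
  have hHD := fun (d : Fin n → Bool) =>
    hSAN hCOR n₀ K G Λ k b h p E (stq_T T e)
      (fun z => fD (Sum.elim (fun i => i.elim0) d) (stq_sg T A b' z))
      hPar hDis' hCL' ((hfD _).comp (stq_proj T A b'))
  choose HD hDNFD hcardD using hHD
  obtain ⟨Bad, hB1, hB2, hB3⟩ := count (W := W) (Λ := Λ) (fun l => tot (S.bs l)) hOk.bits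
    (fun l d r => _) (fun d => _) (fun l d r => hcard l d (List.ofFn r)) hcardD hΛ
  refine ⟨H, HD, Bad, hDNF, hDNFD, hB1, ?_⟩
  intro z hz hP hQ
  refine ⟨fun l d r hr => ?_, fun d => ?_⟩
  · have hr' : List.ofFn (fun i : Fin (tot (S.bs l)) => r.get (i.cast hr.symm)) = r := by
      apply List.ext_get
      · rw [List.length_ofFn, hr]
      · intro i h1 h2
        simp
    have h1 : z ∉ _ := fun h2 => hz (hB2 l d (fun i => r.get (i.cast hr.symm)) h2)
    rw [mem_filter, hr'] at h1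
    have h2 := hfv l _ (hP.1 l) (Sum.elim (fun i => r.getD (S.ρ l i) false)
      (Fin.append d fun j => r.getD j false))
    have h3 := hfv l _ (hQ.1 l) (Sum.elim (fun i => r.getD (S.ρ l i) false)
      (Fin.append d fun j => r.getD j false))
    have e2 : outp (S.C l) (T.inp (put e (sP z.1 z.2.1) A) b')
        (fun i => r.getD (S.ρ l i) false) (Fin.append d fun j => r.getD j false) =
        f l (Sum.elim (fun i => r.getD (S.ρ l i) false)
          (Fin.append d fun j => r.getD j false))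
          (stq_sg T A b' ((stq_T T e).xin (sP z.1 z.2.1))) := by
      rw [← stq_inp T he hA]
      exact h2
    have e3 : outp (S.C l) (T.inp (put e (sQ z.1 z.2.1 z.2.2) A) b')
        (fun i => r.getD (S.ρ l i) false) (Fin.append d fun j => r.getD j false) =
        f l (Sum.elim (fun i => r.getD (S.ρ l i) false)
          (Fin.append d fun j => r.getD j false))
          (stq_sg T A b' ((stq_T T e).xin (sQ z.1 z.2.1 z.2.2))) := by
      rw [← stq_inp T he hA]
      exact h3
    rw [e2, e3]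
    constructor
    · intro h4
      by_contra h5
      exact h1 ⟨mem_univ _, Or.inl ⟨h4, h5⟩⟩
    · intro h4
      by_contra h5
      exact h1 ⟨mem_univ _, Or.inr ⟨h4, by simpa using h5⟩⟩
  · have h1 : z ∉ _ := fun h2 => hz (hB3 d h2)
    rw [mem_filter] at h1
    have h2 := hfvD _ hP.2 (Sum.elim (fun i => i.elim0) d)
    have h3 := hfvD _ hQ.2 (Sum.elim (fun i => i.elim0) d)
    have e2 : outp S.D (T.inp (put e (sP z.1 z.2.1) A) b') (fun i => i.elim0) d =
        fD (Sum.elim (fun i => i.elim0) d)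
          (stq_sg T A b' ((stq_T T e).xin (sP z.1 z.2.1))) := by
      rw [← stq_inp T he hA]
      exact h2
    have e3 : outp S.D (T.inp (put e (sQ z.1 z.2.1 z.2.2) A) b') (fun i => i.elim0) d =
        fD (Sum.elim (fun i => i.elim0) d)
          (stq_sg T A b' ((stq_T T e).xin (sQ z.1 z.2.1 z.2.2))) := by
      rw [← stq_inp T he hA]
      exact h3
    rw [e2, e3]
    constructor
    · intro h4
      by_contra h5
      exact h1 ⟨mem_univ _, Or.inl ⟨h4, h5⟩⟩
    · intro h4
      by_contra h5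
      exact h1 ⟨mem_univ _, Or.inr ⟨h4, by simpa using h5⟩⟩

end Pool.Agent.PPH
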