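import Pool.Agent.PPH.Stmts
import Pool.Agent.S2C.MAI
import Pool.Agent.S2C.CN2

/-!
# The assembly: PP is not in P^PH for circuits with few negations
-/

set_option autoImplicit false

namespace Pool.Agent.PPH

open Finset Pool.Agent.NegLim Pool.Agent.NLM Pool.Agent.S2C
open Pool.Agent.NPQ (hist)
open Pool.Agent.NBC (SameN St Tests winT)

namespace MAIM

open Classical in
/-- A state with exactly `τ` positive tests. -/
theorem cnt_low {Xn Xp : Type} (M τ : ℕ) (hτ : τ ≤ M) (y : Xp) :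
    cnt (fun i : Fin M => if i.val < τ then (St.pos y : St Xn Xp) else St.emp) = τ := by
  have h1 : cnt (fun i : Fin M => if i.val < τ then (St.pos y : St Xn Xp) else St.emp) =
      ((univ : Finset (Fin M)).filter fun i => i.val < τ).card := by
    unfold cnt
    congr 1
    apply Finset.filter_congr
    intro i _
    constructor
    · rintro ⟨z, hz⟩
      by_contra hi
      have h5 : (if i.val < τ then (St.pos y : St Xn Xp) else St.emp) = St.pos z := hz
      rw [if_neg hi] at h5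
      cases h5
    · intro hi
      exact ⟨y, if_pos hi⟩
  rw [h1]
  have h2 : ((univ : Finset (Fin M)).filter fun i => i.val < τ) =
      (univ : Finset (Fin τ)).map ⟨fun i => Fin.castLE hτ i, Fin.castLE_injective hτ⟩ := by
    ext i
    rw [mem_filter, mem_map]
    constructor
    · rintro ⟨-, hi⟩
      exact ⟨⟨i.val, hi⟩, mem_univ _, Fin.ext rfl⟩
    · rintro ⟨j, -, hj⟩
      refine ⟨mem_univ _, ?_⟩
      rw [← hj]
      exact j.2
  rw [h2, card_map, card_univ, Fintype.card_fin]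

/-- The sum of the numbers of the strings of witness bits. -/
theorem sum_le {E : Type} {n G R dd W : ℕ} (S : Sys E n) (hOk : S.Ok G R dd W) :
    ∑ l, 2 ^ S.s l ≤ n * R := by
  have h1 : ∀ l ∈ (univ : Finset (Fin n)), 2 ^ S.s l ≤ R := fun l _ =>
    le_trans (Nat.pow_le_pow_right (by norm_num) (Nat.le_add_right _ _)) (hOk.nots l)
  have h2 := Finset.sum_le_card_nsmul _ _ _ h1
  rwa [card_univ, Fintype.card_fin, smul_eq_mul] at h2

end MAIM

theorem MAI_thm : Stmt_MAI := by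
  classical
  intro hDEG hROR hGAT hQAP hSMO hBIN hUNQ hACM hCOR hSAN hPOT hNGB hLVS hLOC hCFP hAVP hNUM
    ε hε hε1
  obtain ⟨v₀, hv₀⟩ := hNUM ε hε hε1
  refine ⟨v₀, fun v hv k m w N n q c R dd S a hvm hmw hk hN hq hnc hR hbits hnw hOk hRt hF => ?_⟩
  have hR1 : 1 ≤ R := le_trans Nat.one_le_two_pow hOk.notsD
  obtain ⟨τ, K, Λ, h, p, b, J, Q, A, hPar, hb0, hJ, h1, h2, h3, hA, hw, hQb, hM⟩ :=
    hv₀ v hv k m w N n q c R dd hvm hmw hk hN hnw hR1 hR
  obtain ⟨M, hMd⟩ : ∃ M : ℕ, M = J * ((2 * τ + 1) * K) + (2 * τ + 1) := ⟨_, rfl⟩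
  rw [← hMd] at hM
  obtain ⟨T, hdis, hcl, hT⟩ := mai_win CN2_thm v k Q b M A hPar.hk2 hb0 hA hw hQb hM
  have hK0 : 0 < K := by have := hPar.hK; omega
  have hτM : τ ≤ M := by omega
  have : Nonempty (Fin k × Fin b → Fin (k - 1)) := ⟨fun _ => ⟨0, by have := hPar.hk2; omega⟩⟩
  have : Nonempty (Fin k → Fin b) := ⟨fun _ => ⟨0, hb0⟩⟩
  obtain ⟨b', hb'⟩ : ∃ b' : Fin M → St (Fin k × Fin b → Fin (k - 1)) (Fin k → Fin b),
      cnt b' = τ := ⟨_, MAIM.cnt_low M τ hτM fun _ => ⟨0, hb0⟩⟩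
  have hOk' : S.Ok (2 ^ (m / 2)) R dd (w - n) :=
    { hOk with bits := fun l => by have := hbits l; omega }
  have hw' : n + (w - n) = w := by omega
  have hstep := hLOC hDEG hROR hGAT hQAP hSMO hBIN hUNQ hACM hCOR hSAN hPOT hNGB hLVS
    M τ K (2 ^ (m / 2)) Λ k b h p n q c R dd (w - n) (Edge v) T S a (More v k) b' hPar hdis hcl
    hOk' hRt hq hnc hF (fun B => (hT B b').trans (by rw [hb'])) (by rw [hw']; exact h1) h2
    (le_trans (Nat.mul_le_mul_left _ (Nat.mul_le_mul_right _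
      (Nat.add_le_add_right (MAIM.sum_le S hOk) 1))) h3)
  obtain ⟨hp1, hp2, -, -⟩ := hPOT hUNQ (Edge v ⊕ Edge v) n q c (2 ^ (m / 2)) R dd w S a hOk hRt hq
    hnc
  have hfin := hAVP hCFP M (2 * τ + 1) K J ((n + 1) * R * (q + 1) ^ c)
    (Fin k × Fin b → Fin (k - 1)) (Fin k → Fin b) (fun B => S.pot q c a (T.inp B b'))
    (by omega) hK0 (le_of_eq hMd.symm) (fun B => hp1 _)
    (fun B B' hB => (hp2 _ _ (mai_inp1 T b' hB)).1) hstep
  omega

end Pool.Agent.PPH
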