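import Pool.Agent.PPH.Stmts
import Pool.Agent.S2C.MN2
import Pool.Agent.NBC.MNT

/-!
# PPH_POT: the potential with rounds (helper25)
-/

set_option autoImplicit false

namespace Pool.Agent.PPH

open Finset Pool.Agent.NegLim Pool.Agent.NLM Pool.Agent.S2C
open Pool.Agent.NPQ (hist)
open Pool.Agent.NBC (SameN St Tests)

namespace POTM

/-- the weights of the rounds `≥ j` -/
lemma tail {n q c : ℕ} (hq : 1 ≤ q) (hn : n ≤ c * q) : ∀ i j : ℕ, i + j = c →
    (∑ l : Fin n, if j ≤ (l : ℕ) / q then (q + 1) ^ (c - 1 - (l : ℕ) / q) else 0) <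
      (q + 1) ^ i := by
  intro i
  induction i with
  | zero =>
    intro j hj
    rw [Finset.sum_eq_zero]
    · simp
    · intro l _
      have h1 : (l : ℕ) / q < c := by
        apply Nat.div_lt_of_lt_mul
        have := l.2
        rw [Nat.mul_comm]
        omega
      rw [if_neg (by omega)]
  | succ i ih =>
    intro j hj
    have h1 := ih (j + 1) (by omega)
    have h2 : ∀ l : Fin n, (if j ≤ (l : ℕ) / q then (q + 1) ^ (c - 1 - (l : ℕ) / q) else 0) =
        (if (l : ℕ) / q = j then (q + 1) ^ i else 0) +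
        (if j + 1 ≤ (l : ℕ) / q then (q + 1) ^ (c - 1 - (l : ℕ) / q) else 0) := by
      intro l
      rcases lt_trichotomy ((l : ℕ) / q) j with h | h | h
      · rw [if_neg (by omega), if_neg (by omega), if_neg (by omega)]
      · rw [if_pos (by omega), if_pos h, if_neg (by omega), h, show c - 1 - j = i by omega]
        exact (Nat.add_zero _).symm
      · rw [if_pos (by omega), if_neg (by omega), if_pos (by omega), Nat.zero_add]
    rw [Finset.sum_congr rfl fun l _ => h2 l, Finset.sum_add_distrib]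
    have h3 : (∑ l : Fin n, if (l : ℕ) / q = j then (q + 1) ^ i else 0) ≤ q * (q + 1) ^ i := by
      rw [← Finset.sum_filter, Finset.sum_const, smul_eq_mul]
      apply Nat.mul_le_mul_right
      have h4 : ((univ : Finset (Fin n)).filter fun l : Fin n => (l : ℕ) / q = j).card ≤
          (Finset.Ico (j * q) (j * q + q)).card := by
        apply Finset.card_le_card_of_injOn (fun l : Fin n => (l : ℕ))
        · intro l hl
          have h5 := (Finset.mem_filter.1 (Finset.mem_coe.1 hl)).2
          rw [Finset.coe_Ico, Set.mem_Ico]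
          have h6 := Nat.div_mul_le_self (l : ℕ) q
          have h7 := Nat.lt_div_mul_add (a := (l : ℕ)) (show 0 < q by omega)
          rw [h5] at h6 h7
          exact ⟨h6, h7⟩
        · exact fun a _ b _ h => Fin.ext h
      rw [Nat.card_Ico] at h4
      omega
    calc _ < q * (q + 1) ^ i + (q + 1) ^ i := by omega
      _ = (q + 1) ^ (i + 1) := by ring

/-- the second part of the potential -/
def T {n : ℕ} (q c : ℕ) (b : Fin n → Bool) : ℕ :=
  ∑ l : Fin n, if b l = true then 0 else (q + 1) ^ (c - 1 - (l : ℕ) / q)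

lemma T_lt {n q c : ℕ} (hq : 1 ≤ q) (hn : n ≤ c * q) (b : Fin n → Bool) :
    T q c b < (q + 1) ^ c := by
  refine lt_of_le_of_lt ?_ (tail hq hn c 0 rfl)
  apply Finset.sum_le_sum
  intro l _
  rw [if_pos (Nat.zero_le _)]
  split_ifs
  · exact Nat.zero_le _
  · exact le_rfl

lemma drop {n q c : ℕ} (hq : 1 ≤ q) (hn : n ≤ c * q) (b b' : Fin n → Bool) (l₀ : Fin n)
    (h1 : ∀ l : Fin n, (l : ℕ) / q < (l₀ : ℕ) / q → b l = b' l)
    (h2 : ∀ l : Fin n, (l : ℕ) / q = (l₀ : ℕ) / q → b l = true → b' l = true)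
    (h3 : b l₀ ≠ b' l₀) : T q c b' < T q c b := by
  have hc : (l₀ : ℕ) / q < c := by
    apply Nat.div_lt_of_lt_mul
    have := l₀.2
    rw [Nat.mul_comm]
    omega
  have h4 := tail hq hn (c - 1 - (l₀ : ℕ) / q) ((l₀ : ℕ) / q + 1) (by omega)
  have h5 : ∀ l ∈ (univ : Finset (Fin n)),
      (if b' l = true then 0 else (q + 1) ^ (c - 1 - (l : ℕ) / q)) +
        (if l = l₀ then (q + 1) ^ (c - 1 - (l₀ : ℕ) / q) else 0) ≤
      (if b l = true then 0 else (q + 1) ^ (c - 1 - (l : ℕ) / q)) +
        (if (l₀ : ℕ) / q + 1 ≤ (l : ℕ) / q then (q + 1) ^ (c - 1 - (l : ℕ) / q) else 0) := by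
    intro l _
    by_cases hl : l = l₀
    · subst hl
      have h6 : b l = false ∧ b' l = true := by
        have h7 := h2 l rfl
        cases hb : b l <;> cases hb' : b' l <;> simp_all
      rw [h6.1, h6.2]
      simp
    · rw [if_neg hl]
      rcases lt_trichotomy ((l : ℕ) / q) ((l₀ : ℕ) / q) with h | h | h
      · rw [h1 l h]
        omega
      · have h7 := h2 l h
        cases hb : b l
        · rw [if_neg (show ¬ (false = true) by decide)]
          split_ifs <;> omega
        · rw [h7 hb]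
          simp
      · rw [if_pos (show (l₀ : ℕ) / q + 1 ≤ (l : ℕ) / q from h)]
        split_ifs <;> simp
  have h6 := Finset.sum_le_sum h5
  rw [Finset.sum_add_distrib, Finset.sum_add_distrib, Finset.sum_ite_eq' univ l₀,
    if_pos (mem_univ _)] at h6
  unfold T
  omega

/-- the first part of the potential -/
def N {E : Type} {n : ℕ} (S : Sys E n) (x : E → Bool) : ℕ :=
  (∑ l, ∑ u : Fin (S.s l) → Bool, num (S.C l).gates x u (fun _ => false)) +
      num S.D.gates x (fun i => i.elim0) (fun _ => false)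

lemma pot_eq {E : Type} {n : ℕ} (S : Sys E n) (q c : ℕ) (a : (E → Bool) → Fin n → Bool)
    (x : E → Bool) : S.pot q c a x = N S x * (q + 1) ^ c + T q c (a x) := rfl

lemma N_bd {E : Type} {n G R dd W : ℕ} (S : Sys E n) (hS : S.Ok G R dd W) (x : E → Bool) :
    N S x + (n + 1) ≤ (n + 1) * R := by
  have h1 : ∀ l ∈ (univ : Finset (Fin n)),
      (∑ u : Fin (S.s l) → Bool, num (S.C l).gates x u (fun _ => false)) + 1 ≤ R := by
    intro l _
    have h2 : ∀ u ∈ (univ : Finset (Fin (S.s l) → Bool)),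
        num (S.C l).gates x u (fun _ => false) + 1 ≤ 2 ^ (S.C l).nots := fun u _ =>
      num_lt (S.C l).gates x u fun _ => false
    have h3 := Finset.sum_le_sum h2
    rw [Finset.sum_add_distrib, Finset.sum_const, Finset.sum_const, Finset.card_univ,
      Fintype.card_fun, Fintype.card_bool, Fintype.card_fin, smul_eq_mul, smul_eq_mul,
      ← pow_add] at h3
    have h4 := hS.nots l
    have h5 : 0 < 2 ^ S.s l := by positivity
    omega
  have h2 := Finset.sum_le_sum h1
  rw [Finset.sum_add_distrib, Finset.sum_const, Finset.sum_const, Finset.card_univ,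
    Fintype.card_fin, smul_eq_mul, smul_eq_mul] at h2
  have h3 := num_lt S.D.gates x (fun i => i.elim0) fun _ => false
  have h4 : 2 ^ S.D.gates.countP Gate.isNot ≤ R := hS.notsD
  unfold N
  rw [Nat.add_mul]
  omega

lemma SameN_of {E : Type} {s t : ℕ} (C : NCirc E s t) {x x' : E → Bool}
    (h : ∀ u : Fin s → Bool, num C.gates x' u (fun _ => false) =
      num C.gates x u (fun _ => false)) : SameN C x x' := by
  intro u m hm
  exact num_inj C.gates (h u).symm m hm

lemma N_le {E : Type} {n : ℕ} (S : Sys E n) {x x' : E → Bool}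
    (hx : ∀ e, x e = true → x' e = true) :
    N S x' ≤ N S x ∧ (N S x' = N S x → S.SN x x') := by
  have hle : ∀ l ∈ (univ : Finset (Fin n)), ∀ u ∈ (univ : Finset (Fin (S.s l) → Bool)),
      num (S.C l).gates x' u (fun _ => false) ≤ num (S.C l).gates x u (fun _ => false) :=
    fun l _ u _ => num_le (S.C l).gates u (fun _ => false) hx
  have h1 : ∀ l ∈ (univ : Finset (Fin n)),
      (∑ u : Fin (S.s l) → Bool, num (S.C l).gates x' u (fun _ => false)) ≤
      ∑ u : Fin (S.s l) → Bool, num (S.C l).gates x u (fun _ => false) :=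
    fun l hl => Finset.sum_le_sum (hle l hl)
  have h2 := Finset.sum_le_sum h1
  have h3 := num_le S.D.gates (fun i : Fin 0 => i.elim0) (fun _ => false) hx
  refine ⟨Nat.add_le_add h2 h3, fun h => ?_⟩
  unfold N at h
  have h4 := (Finset.sum_eq_sum_iff_of_le h1).1 (by omega)
  refine ⟨fun l => SameN_of _ fun u => ?_, SameN_of _ fun u => ?_⟩
  · exact (Finset.sum_eq_sum_iff_of_le (hle l (mem_univ l))).1 (h4 l (mem_univ l)) u
      (mem_univ u)
  · have h5 : u = fun i : Fin 0 => i.elim0 := Subsingleton.elim _ _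
    rw [h5]
    omega

lemma hist_eq {n q : ℕ} {l l₀ : Fin n} {b b' : Fin n → Bool}
    (hl : (l : ℕ) / q = (l₀ : ℕ) / q) (h : ∀ i : Fin n, i < l₀ → b i = b' i) :
    hist q l b = hist q l b' := by
  funext i
  unfold hist
  split_ifs with h1
  · apply h
    rw [hl] at h1
    have := Nat.div_mul_le_self (l₀ : ℕ) q
    exact Fin.lt_def.2 (by omega)
  · rfl

lemma T_le (hU : Stmt_UNQ) {E : Type} {n q c G R dd W : ℕ} (S : Sys E n)
    (a : (E → Bool) → Fin n → Bool) (hS : S.Ok G R dd W) (ha : S.Right q a) (hq : 1 ≤ q)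
    (hn : n ≤ c * q) {x x' : E → Bool} (hx : ∀ e, x e = true → x' e = true)
    (hSN : S.SN x x') : T q c (a x') ≤ T q c (a x) ∧
      (T q c (a x') = T q c (a x) → a x = a x') := by
  classical
  by_cases hab : a x = a x'
  · rw [hab]
    exact ⟨le_rfl, fun _ => rfl⟩
  · have h1 : ((univ : Finset (Fin n)).filter fun l => a x l ≠ a x' l).Nonempty := by
      obtain ⟨l, hl⟩ := Function.ne_iff.1 hab
      exact ⟨l, Finset.mem_filter.2 ⟨mem_univ l, hl⟩⟩
    obtain ⟨l₀, hl₀, hmin⟩ := Finset.exists_min_image _ (fun l : Fin n => (l : ℕ)) h1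
    have h2 : ∀ i : Fin n, i < l₀ → a x i = a x' i := by
      intro i hi
      by_contra hne
      have h3 := hmin i (Finset.mem_filter.2 ⟨mem_univ i, hne⟩)
      have h4 : (i : ℕ) < l₀ := Fin.lt_def.1 hi
      omega
    have h3 : T q c (a x') < T q c (a x) := by
      apply drop hq hn (a x) (a x') l₀
      · intro l hl
        apply h2
        by_contra hge
        have h4 : (l₀ : ℕ) ≤ l := by
          have := Fin.lt_def.not.1 hge
          omega
        have h5 := Nat.div_le_div_right (c := q) h4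
        omega
      · intro l hl hal
        rw [ha l x] at hal
        rw [ha l x', ← hist_eq hl h2]
        refine hU.2 _ _ _ (fun r _ hr => ?_) hal
        exact Pool.Agent.NBC.MNT_thm E _ _ (S.C l) (hS.nf l) x x' hx (hSN.1 l) _ _ hr
      · exact (Finset.mem_filter.1 hl₀).2
    exact ⟨h3.le, fun h => absurd h h3.ne⟩

end POTM

open POTM in
theorem POT_thm : Stmt_POT := by
  intro hU E n q c G R dd W S a hS ha hq hn
  refine ⟨fun x => ?_, fun x x' hx => ?_, fun x x' x'' hx hx' h => ?_, fun x x' x'' h h' => ?_⟩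
  · rw [pot_eq]
    have h1 := N_bd S hS x
    have h2 := T_lt hq hn (a x)
    have h3 : (N S x + (n + 1)) * (q + 1) ^ c ≤ (n + 1) * R * (q + 1) ^ c :=
      Nat.mul_le_mul_right _ h1
    have h4 : (q + 1) ^ c ≤ (n + 1) * (q + 1) ^ c := Nat.le_mul_of_pos_left _ (by omega)
    rw [Nat.add_mul] at h3
    omega
  · rw [pot_eq, pot_eq]
    obtain ⟨h1, h2⟩ := N_le S hx
    rcases h1.lt_or_eq with h | h
    · have h3 := T_lt hq hn (a x')
      have h4 : (N S x' + 1) * (q + 1) ^ c ≤ N S x * (q + 1) ^ c := Nat.mul_le_mul_right _ h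
      rw [Nat.add_mul, Nat.one_mul] at h4
      constructor
      · omega
      · intro h5
        omega
    · obtain ⟨h3, h4⟩ := T_le hU S a hS ha hq hn hx (h2 h)
      rw [h]
      refine ⟨by omega, fun h5 => ⟨h2 h, h4 (by omega)⟩⟩
  · refine ⟨fun l => ?_, ?_⟩
    · exact ((MN2_thm E _ _ (S.C l) (hS.nf l) x x' x'' hx hx').2 (h.1 l)).1
    · exact ((MN2_thm E _ _ S.D hS.nfD x x' x'' hx hx').2 h.2).1
  · refine ⟨fun l u m hm => ?_, fun u m hm => ?_⟩
    · exact (h.1 l u m hm).trans (h'.1 l u m hm)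
    · exact (h.2 u m hm).trans (h'.2 u m hm)

end Pool.Agent.PPH
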