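import Pool.Agent.PPH.Stmts

/-!
# Module PPH_QAP: polynomials for blocks of quantifiers and for monotone disjunctive normal forms
-/

set_option autoImplicit false

namespace Pool.Agent.PPH

open Finset

namespace QAPM

lemma mono {n D N N' H : ℕ} {f : (Fin n → Bool) → Prop} (h : Apx n D N H f) (hN : N ≤ N') :
    Apx n D N' H f := by
  obtain ⟨φ, h1, h2⟩ := h
  exact ⟨φ, h1, h2.trans (Nat.mul_le_mul_right _ hN)⟩

lemma change {n D D' N N' H : ℕ} {f g : (Fin n → Bool) → Prop} (h : Apx n D N H f) (hD : D = D')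
    (hN : N ≤ N') (e : ∀ b, f b ↔ g b) : Apx n D' N' H g := by
  have hfg : f = g := funext fun b => propext (e b)
  subst hD
  subst hfg
  exact mono h hN

lemma num (N m b' t : ℕ) :
    (∑ _w : Fin b' → Bool, (N + m) * 2 ^ t) + 1 ≤ (N + (m + 1)) * 2 ^ (b' + t) := by
  have h1 : (∑ _w : Fin b' → Bool, (N + m) * 2 ^ t) = (N + m) * 2 ^ (b' + t) := by
    simp only [sum_const, smul_eq_mul, card_univ, Fintype.card_fun, Fintype.card_bool,
      Fintype.card_fin]
    ring
  have h2 : 1 ≤ 2 ^ (b' + t) := Nat.one_le_two_pow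
  rw [h1, ← add_assoc, Nat.add_mul (N + m) 1, one_mul]
  omega

lemma blocks (hg : ∀ (n D H : ℕ) (I : Type) [Fintype I] (N : I → ℕ)
    (f : I → (Fin n → Bool) → Prop), (∀ i, Apx n D (N i) H (f i)) →
    Apx n (D * H) (∑ i, N i + 1) H (fun b => ∃ i, f i b) ∧
    Apx n (D * H) (∑ i, N i + 1) H (fun b => ∀ i, f i b)) (n D H N : ℕ) :
    ∀ (bs : List (Bool × ℕ)) (f : List Bool → (Fin n → Bool) → Prop),
    (∀ l, l.length = tot bs → Apx n D N H (f l)) →
    Apx n (D * H ^ bs.length) ((N + bs.length) * 2 ^ tot bs) H fun b => Qn bs fun l => f l b := by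
  intro bs
  induction bs with
  | nil =>
    intro f h
    refine change (h [] rfl) (by simp) (by simp [tot]) fun b => ?_
    simp [Qn]
  | cons p bs ih =>
    intro f h
    obtain ⟨κ, b'⟩ := p
    have ht : tot ((κ, b') :: bs) = b' + tot bs := by simp [tot]
    have hi : ∀ w : Fin b' → Bool, Apx n (D * H ^ bs.length) ((N + bs.length) * 2 ^ tot bs) H
        fun b => Qn bs fun l => f (List.ofFn w ++ l) b := by
      intro w
      refine ih (fun l => f (List.ofFn w ++ l)) fun l hl => h _ ?_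
      rw [ht, List.length_append, List.length_ofFn, hl]
    have hm := hg n (D * H ^ bs.length) H (Fin b' → Bool)
      (fun _ => (N + bs.length) * 2 ^ tot bs)
      (fun w b => Qn bs fun l => f (List.ofFn w ++ l) b) hi
    have hD : D * H ^ bs.length * H = D * H ^ ((κ, b') :: bs).length := by
      rw [List.length_cons, pow_succ, mul_assoc]
    have hN : (∑ _w : Fin b' → Bool, (N + bs.length) * 2 ^ tot bs) + 1 ≤
        (N + ((κ, b') :: bs).length) * 2 ^ tot ((κ, b') :: bs) := by
      rw [ht, List.length_cons]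
      exact num N bs.length b' (tot bs)
    cases κ with
    | true => exact change hm.1 hD hN fun b => by simp only [Qn]
    | false => exact change hm.2 hD hN fun b => by simp only [Qn]

end QAPM

open QAPM

theorem QAP_thm : Stmt_QAP := by
  intro hd hr hgat
  have hg := hgat hd hr
  refine ⟨fun n D H N bs f h => blocks (fun n D H I _ N f hf => hg n D H I N f hf) n D H N bs f h,
    ?_⟩
  intro n w H f hf
  obtain ⟨A, hA, hf⟩ := hf
  have h0 : ∀ S : {S // S ∈ A}, Apx n w 0 H fun b => ∀ i ∈ S.1, b i = true := by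
    intro S
    refine ⟨_, hd.1 n _ w _ (hA S.1 S.2) (hd.2.2.1 n S.1), ?_⟩
    have he : ((univ : Finset (Fin n → Bool)).filter fun b =>
        ¬ ((if ∀ i ∈ S.1, b i = true then (1 : ZMod 2) else 0) = 1 ↔
          ∀ i ∈ S.1, b i = true)) = ∅ := by
      refine filter_eq_empty_iff.2 fun b _ => not_not.2 ?_
      by_cases hb : ∀ i ∈ S.1, b i = true
      · rw [if_pos hb]
        exact ⟨fun _ => hb, fun _ => rfl⟩
      · rw [if_neg hb]
        exact ⟨fun h => absurd h (by decide), fun h => absurd h hb⟩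
    have hc : 2 ^ H * ((univ : Finset (Fin n → Bool)).filter fun b =>
        ¬ ((if ∀ i ∈ S.1, b i = true then (1 : ZMod 2) else 0) = 1 ↔
          ∀ i ∈ S.1, b i = true)).card ≤ 0 * 2 ^ n := by
      rw [he, card_empty]
      simp
    exact le_trans (le_of_eq (by congr)) hc
  have h1 := (hg n w H {S // S ∈ A} (fun _ => 0) (fun S b => ∀ i ∈ S.1, b i = true) h0).1
  refine change h1 rfl (by simp) fun b => ?_
  rw [hf b]
  constructor
  · rintro ⟨S, hS⟩
    exact ⟨S.1, S.2, hS⟩
  · rintro ⟨S, hS, h⟩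
    exact ⟨⟨S, hS⟩, h⟩

end Pool.Agent.PPH
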