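import Pool.Agent.PPH.Stmts

/-!
# Project PPH, module ROR: random parities
-/

set_option autoImplicit false

namespace Pool.Agent.PPH

open Finset

namespace RORM

/-- the parity of the true values in `T` -/
def par {I : Type} (v : I → Bool) (T : Finset I) : ZMod 2 :=
  ∑ i ∈ T, if v i = true then (1 : ZMod 2) else 0

open Classical in
/-- add or remove one element -/
noncomputable def flip {I : Type} (i₀ : I) (T : Finset I) : Finset I :=
  if i₀ ∈ T then T.erase i₀ else insert i₀ T

theorem flip_flip {I : Type} (i₀ : I) (T : Finset I) : flip i₀ (flip i₀ T) = T := by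
  classical
  unfold flip
  by_cases h : i₀ ∈ T
  · rw [if_pos h, if_neg (Finset.notMem_erase i₀ T), Finset.insert_erase h]
  · rw [if_neg h, if_pos (Finset.mem_insert_self i₀ T), Finset.erase_insert h]

theorem zmod_two (z : ZMod 2) : z ≠ 0 ↔ z = 1 := by
  revert z
  decide

theorem par_flip {I : Type} (v : I → Bool) (i₀ : I) (h₀ : v i₀ = true) (T : Finset I) :
    par v (flip i₀ T) = par v T + 1 := by
  classical
  unfold flip par
  by_cases h : i₀ ∈ T
  · rw [if_pos h, ← Finset.sum_erase_add T _ h, if_pos h₀, add_assoc]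
    have h2 : (1 : ZMod 2) + 1 = 0 := by decide
    rw [h2, add_zero]
  · rw [if_neg h, Finset.sum_insert h, if_pos h₀, add_comm]

open Classical in
/-- exactly half of the sets have parity `0` -/
theorem half {I : Type} [Fintype I] (v : I → Bool) (h : ∃ i, v i = true) :
    2 * ((univ : Finset (Finset I)).filter fun T => par v T = 0).card =
      Fintype.card (Finset I) := by
  obtain ⟨i₀, h₀⟩ := h
  have h1 : ((univ : Finset (Finset I)).filter fun T => par v T = 0).card =
      ((univ : Finset (Finset I)).filter fun T => ¬ par v T = 0).card := by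
    refine Finset.card_bij' (fun T _ => flip i₀ T) (fun T _ => flip i₀ T) ?_ ?_
      (fun T _ => flip_flip i₀ T) (fun T _ => flip_flip i₀ T)
    · intro T hT
      rw [Finset.mem_filter] at hT ⊢
      refine ⟨Finset.mem_univ _, ?_⟩
      rw [par_flip v i₀ h₀, hT.2]
      decide
    · intro T hT
      rw [Finset.mem_filter] at hT ⊢
      refine ⟨Finset.mem_univ _, ?_⟩
      rw [par_flip v i₀ h₀, (zmod_two _).1 hT.2]
      decide
  have h2 := Finset.card_filter_add_card_filter_not (s := (univ : Finset (Finset I)))
    (fun T => par v T = 0)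
  rw [← h1, Finset.card_univ] at h2
  omega

open Classical in
/-- one random parity -/
theorem step {I X : Type} [Fintype I] (φ : I → X → Bool) (B : Finset X)
    (hB : ∀ x ∈ B, ∃ i, φ i x = true) :
    ∃ T : Finset I, 2 * (B.filter fun x => par (fun i => φ i x) T = 0).card ≤ B.card := by
  by_contra hcon
  push Not at hcon
  have h1 : ∑ _T : Finset I, B.card <
      ∑ T : Finset I, 2 * (B.filter fun x => par (fun i => φ i x) T = 0).card := by
    refine Finset.sum_lt_sum_of_nonempty ⟨∅, Finset.mem_univ _⟩ fun T _ => hcon T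
  have h2 : ∑ T : Finset I, 2 * (B.filter fun x => par (fun i => φ i x) T = 0).card =
      ∑ x ∈ B, 2 * ((univ : Finset (Finset I)).filter
        fun T => par (fun i => φ i x) T = 0).card := by
    rw [← Finset.mul_sum, ← Finset.mul_sum]
    congr 1
    simp only [Finset.card_filter]
    exact Finset.sum_comm
  rw [h2, Finset.sum_congr rfl fun x hx => half (fun i => φ i x) (hB x hx), Finset.sum_const,
    Finset.sum_const, Finset.card_univ, smul_eq_mul, smul_eq_mul, mul_comm] at h1
  exact lt_irrefl _ h1

end RORM

open RORM in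
theorem ROR_thm : Stmt_ROR := by
  classical
  intro I X _ _ φ H
  induction H with
  | zero =>
    refine ⟨fun j => j.elim0, ?_⟩
    rw [pow_zero, one_mul]
    exact Finset.card_le_univ _
  | succ H ih =>
    obtain ⟨T, hT⟩ := ih
    obtain ⟨T₀, hT₀⟩ := step φ ((univ : Finset X).filter fun x => (∃ i, φ i x = true) ∧
      ∀ j, (∑ i ∈ T j, if φ i x = true then (1 : ZMod 2) else 0) = 0) (by
        intro x hx
        exact (Finset.mem_filter.1 hx).2.1)
    refine ⟨Fin.cons T₀ T, ?_⟩
    refine le_trans ?_ hT
    rw [pow_succ, mul_assoc]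
    refine Nat.mul_le_mul_left _ (le_trans (Nat.mul_le_mul_left 2 ?_) hT₀)
    refine Finset.card_le_card fun x hx => ?_
    rw [Finset.mem_filter] at hx
    rw [Finset.mem_filter, Finset.mem_filter]
    refine ⟨⟨Finset.mem_univ _, hx.2.1, fun j => ?_⟩, ?_⟩
    · have h3 := hx.2.2 j.succ
      rw [Fin.cons_succ] at h3
      exact h3
    · have h3 := hx.2.2 0
      rw [Fin.cons_zero] at h3
      exact h3

end Pool.Agent.PPH
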