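import Pool.Agent.PPH.Stmts
import Pool.Agent.S2C.SPR
import Pool.Agent.NNDT.Core

/-!
# Project PPH, module SAN: the sandwich (helper61)

A small monotone function is, for every choice of the positive tests, between narrow disjunctive normal
forms in the bits of the cells.
-/

set_option autoImplicit false

namespace Pool.Agent.PPH

open Finset Pool.Agent.NegLim Pool.Agent.NLM Pool.Agent.S2C
open Pool.Agent.NBC (SameN St Tests)

namespace SANM

section

variable {n K : ℕ} {E Xn Xp : Type}

theorem xin_iff {W : Type} (T : Tests W E Xn Xp) (a : W → St Xn Xp) (e : E) :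
    T.xin a e = true ↔ ∃ j, e ∈ T.B j ∧ T.val j (a j) e = true := by
  simp only [Tests.xin, decide_eq_true_eq]

/-- A part of a state gives a smaller input. -/
theorem xin_le {W : Type} (T : Tests W E Xn Xp) (a a' : W → St Xn Xp) (h : Sb a a') (e : E)
    (he : T.xin a e = true) : T.xin a' e = true := by
  obtain ⟨j, hj, hv⟩ := (xin_iff T a e).1 he
  refine (xin_iff T a' e).2 ⟨j, hj, ?_⟩
  rcases h j with h1 | h1
  · rw [h1] at hv
    exact absurd hv (by simp [Tests.val])
  · rw [← h1]
    exact hv

theorem sR_sQ (S : Finset (Fin n)) (β : Fin n → Bool) (hS : ∀ i ∈ S, β i = true)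
    (y : Fin n → Fin K × Xp) (χ : Fin n × Fin K → Xn) : Sb (sR S y χ) (sQ β y χ) := by
  intro x
  by_cases h : x.2 = (y x.1).1
  · by_cases h2 : x.1 ∈ S
    · right
      unfold sR sQ
      rw [if_pos h, if_pos h2, if_pos ⟨hS _ h2, h⟩]
    · left
      unfold sR
      rw [if_pos h, if_neg h2]
  · right
    unfold sR sQ
    rw [if_neg h, if_neg (fun h2 => h h2.2)]

end

theorem card_prod {A B : Type} [Fintype A] [Fintype B] (P : A × B → Prop)
    [inst : DecidablePred P] : ((univ : Finset (A × B)).filter P).card =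
      ∑ a, (@Finset.filter B (fun b => P (a, b)) (fun b => inst (a, b)) univ).card := by
  simp only [Finset.card_filter]
  exact Fintype.sum_prod_type _

/-- SPR for all instances. -/
theorem spr (n B : ℕ) (Y : Type) [Fintype Y] [Nonempty Y] (S : Finset (Fin n → Y))
    (hS : S.Nonempty) (hB : Fintype.card Y ^ n ≤ B * S.card) :
    ∃ (I : Finset (Fin n)) (v : Fin n → Y) (P : Finset (Fin n → Y)), P.Nonempty ∧
      (∀ y, y ∈ P → y ∈ S ∧ ∀ i ∈ I, y i = v i) ∧ 2 ^ I.card ≤ B ∧
      ∀ (J : Finset (Fin n)) (u : Fin n → Y), Disjoint J I →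
        ∀ inst : DecidablePred (fun y : Fin n → Y => ∀ i ∈ J, y i = u i),
        (@Finset.filter _ (fun y => ∀ i ∈ J, y i = u i) inst P).card *
          Fintype.card Y ^ J.card ≤ 2 ^ J.card * P.card := by
  classical
  obtain ⟨I, v, h1, h2, h3⟩ := SPR_thm n B Y S hS hB
  refine ⟨I, v, _, h1, fun y hy => (@Finset.mem_filter _ _ _ _ _).1 hy, h2, ?_⟩
  intro J u hJ inst
  refine le_trans (le_of_eq ?_) (h3 J u hJ)
  congr 2
  ext y
  simp only [Finset.mem_filter]

open Classical in
/-- The first kind, for fixed bits. -/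
theorem first (hCOR : Stmt_COR) (n K G Λ k b h p : ℕ) (E : Type)
    (T : Tests (Fin n × Fin K) E (Fin k × Fin b → Fin (k - 1)) (Fin k → Fin b))
    (f : (E → Bool) → Bool) (hpar : Par3 n K G Λ k b h p) (hdis : T.Dis) (hcl : CliqueLike T)
    (hms : MonSize f G) (β : Fin n → Bool)
    (H : (Fin n → Fin K × (Fin k → Fin b)) → Prop)
    (hH : ∀ y (S : Finset (Fin n)), S.card ≤ Λ → (∀ i ∈ S, β i = true) →
      2 ^ Λ * ((univ : Finset (Fin n × Fin K → Fin k × Fin b → Fin (k - 1))).filter
        fun χ => f (T.xin (sR S y χ)) = false).card ≤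
          Fintype.card (Fin n × Fin K → Fin k × Fin b → Fin (k - 1)) → H y) :
    2 ^ Λ * ((univ : Finset (Fin n → Fin K × (Fin k → Fin b))).filter fun y =>
      f (T.xin (sP (Xn := Fin k × Fin b → Fin (k - 1)) β y)) = true ∧ ¬ H y).card ≤
      Fintype.card (Fin n → Fin K × (Fin k → Fin b)) := by
  by_contra hcon
  push Not at hcon
  have hn : 0 < n := by
    have := hpar.hn
    omega
  have hK : 0 < K := by
    have := hpar.hK
    omega
  have hb : 0 < b := by
    have h1 := hpar.hb
    have h2 := hpar.hp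
    have h3 := hpar.hh
    have : 0 < 4 * (p * (2 * h)) := by positivity
    omega
  have : Nonempty (Fin K × (Fin k → Fin b)) := ⟨(⟨0, hK⟩, fun _ => ⟨0, hb⟩)⟩
  have hc : Fintype.card (Fin n → Fin K × (Fin k → Fin b)) =
      Fintype.card (Fin K × (Fin k → Fin b)) ^ n := by
    rw [Fintype.card_fun, Fintype.card_fin]
  rw [hc] at hcon
  obtain ⟨I, v, P, ⟨y0, hy0⟩, hP, hI, hspr⟩ := spr n (2 ^ Λ) (Fin K × (Fin k → Fin b))
    ((univ : Finset (Fin n → Fin K × (Fin k → Fin b))).filter fun y =>
      f (T.xin (sP (Xn := Fin k × Fin b → Fin (k - 1)) β y)) = true ∧ ¬ H y) (by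
      rw [Finset.nonempty_iff_ne_empty]
      intro he
      rw [he, Finset.card_empty, Nat.mul_zero] at hcon
      exact Nat.not_lt_zero _ hcon) hcon.le
  have hcor := hCOR n K G Λ k b h p E T f hpar hdis hcl hms β I v y0 P hy0 (by
    intro y hy
    exact ⟨(hP y hy).2, (mem_filter.1 (hP y hy).1).2.1⟩) (fun J u hJ => hspr J u hJ _)
  have hbad := (mem_filter.1 (hP y0 hy0).1).2.2
  apply hbad
  refine hH y0 (I.filter fun c => β c = true) ?_ ?_ hcor
  · exact (Finset.card_filter_le _ _).trans ((Nat.pow_le_pow_iff_right (by norm_num)).1 hI)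
  · intro i hi
    exact (mem_filter.1 hi).2

end SANM

open SANM in
open Classical in
theorem SAN_thm : Stmt_SAN := by
  intro hCOR n K G Λ k b h p E T f hpar hdis hcl hms
  refine ⟨fun y β => ∃ S : Finset (Fin n), (∀ i ∈ S, β i = true) ∧ S.card ≤ Λ ∧
    2 ^ Λ * ((univ : Finset (Fin n × Fin K → Fin k × Fin b → Fin (k - 1))).filter
      fun χ => f (T.xin (sR S y χ)) = false).card ≤
        Fintype.card (Fin n × Fin K → Fin k × Fin b → Fin (k - 1)), ?_, ?_⟩
  · intro y
    refine ⟨(univ : Finset (Finset (Fin n))).filter fun S => S.card ≤ Λ ∧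
      2 ^ Λ * ((univ : Finset (Fin n × Fin K → Fin k × Fin b → Fin (k - 1))).filter
        fun χ => f (T.xin (sR S y χ)) = false).card ≤
          Fintype.card (Fin n × Fin K → Fin k × Fin b → Fin (k - 1)), ?_, ?_⟩
    · intro S hS
      exact (mem_filter.1 hS).2.1
    · intro β
      constructor
      · rintro ⟨S, h1, h2, h3⟩
        exact ⟨S, mem_filter.2 ⟨mem_univ _, h2, h3⟩, h1⟩
      · rintro ⟨S, h1, h2⟩
        exact ⟨S, h2, (mem_filter.1 h1).2.1, (mem_filter.1 h1).2.2⟩
  · obtain ⟨H, hHdef⟩ : ∃ H : (Fin n → Fin K × (Fin k → Fin b)) → (Fin n → Bool) → Prop,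
      H = fun y β => ∃ S : Finset (Fin n), (∀ i ∈ S, β i = true) ∧ S.card ≤ Λ ∧
        2 ^ Λ * ((univ : Finset (Fin n × Fin K → Fin k × Fin b → Fin (k - 1))).filter
          fun χ => f (T.xin (sR S y χ)) = false).card ≤
            Fintype.card (Fin n × Fin K → Fin k × Fin b → Fin (k - 1)) := ⟨_, rfl⟩
    rw [← hHdef]
    have hF1 : 2 ^ Λ * ((univ : Finset ((Fin n → Bool) × (Fin n → Fin K × (Fin k → Fin b)) ×
          (Fin n × Fin K → Fin k × Fin b → Fin (k - 1)))).filter fun z =>
        (f (T.xin (sP (Xn := Fin k × Fin b → Fin (k - 1)) z.1 z.2.1)) = true ∧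
          ¬ H z.2.1 z.1)).card ≤
        Fintype.card ((Fin n → Bool) × (Fin n → Fin K × (Fin k → Fin b)) ×
          (Fin n × Fin K → Fin k × Fin b → Fin (k - 1))) := by
      rw [card_prod, Fintype.card_prod, Fintype.card_prod, Finset.mul_sum]
      refine (Finset.sum_le_card_nsmul _ _ (Fintype.card (Fin n → Fin K × (Fin k → Fin b)) *
        Fintype.card (Fin n × Fin K → Fin k × Fin b → Fin (k - 1))) ?_).trans (le_of_eq ?_)
      · intro β _
        have h1 := first hCOR n K G Λ k b h p E T f hpar hdis hcl hms β (fun y => H y β) (by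
          intro y S h1 h2 h3
          rw [hHdef]
          exact ⟨S, h2, h1, h3⟩)
        have h2 : ((univ : Finset ((Fin n → Fin K × (Fin k → Fin b)) ×
            (Fin n × Fin K → Fin k × Fin b → Fin (k - 1)))).filter fun z =>
            (f (T.xin (sP (Xn := Fin k × Fin b → Fin (k - 1)) β z.1)) = true ∧
              ¬ H z.1 β)).card =
            ((univ : Finset (Fin n → Fin K × (Fin k → Fin b))).filter fun y =>
              f (T.xin (sP (Xn := Fin k × Fin b → Fin (k - 1)) β y)) = true ∧ ¬ H y β).card *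
              Fintype.card (Fin n × Fin K → Fin k × Fin b → Fin (k - 1)) := by
          rw [card_prod, Finset.card_filter, Finset.sum_mul]
          refine Finset.sum_congr rfl fun y _ => ?_
          by_cases hy : f (T.xin (sP (Xn := Fin k × Fin b → Fin (k - 1)) β y)) = true ∧ ¬ H y β
          · rw [if_pos hy, one_mul, Finset.filter_true_of_mem fun _ _ => hy, Finset.card_univ]
          · rw [if_neg hy, zero_mul, Finset.filter_false_of_mem fun _ _ => hy, Finset.card_empty]
        calc _ = 2 ^ Λ * (((univ : Finset (Fin n → Fin K × (Fin k → Fin b))).filter fun y =>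
              f (T.xin (sP (Xn := Fin k × Fin b → Fin (k - 1)) β y)) = true ∧ ¬ H y β).card *
              Fintype.card (Fin n × Fin K → Fin k × Fin b → Fin (k - 1))) := by
                rw [← h2]
          _ ≤ _ := by
                rw [← mul_assoc]
                exact Nat.mul_le_mul_right _ h1
      · rw [Finset.card_univ, smul_eq_mul]
    have hF2 : 2 ^ Λ * ((univ : Finset ((Fin n → Bool) × (Fin n → Fin K × (Fin k → Fin b)) ×
          (Fin n × Fin K → Fin k × Fin b → Fin (k - 1)))).filter fun z =>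
        (H z.2.1 z.1 ∧ f (T.xin (sQ z.1 z.2.1 z.2.2)) = false)).card ≤
        Fintype.card ((Fin n → Bool) × (Fin n → Fin K × (Fin k → Fin b)) ×
          (Fin n × Fin K → Fin k × Fin b → Fin (k - 1))) := by
      rw [card_prod, Fintype.card_prod, Fintype.card_prod, Finset.mul_sum]
      refine (Finset.sum_le_card_nsmul _ _ (Fintype.card (Fin n → Fin K × (Fin k → Fin b)) *
        Fintype.card (Fin n × Fin K → Fin k × Fin b → Fin (k - 1))) ?_).trans (le_of_eq ?_)
      · intro β _
        rw [card_prod, Finset.mul_sum]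
        refine (Finset.sum_le_card_nsmul _ _
          (Fintype.card (Fin n × Fin K → Fin k × Fin b → Fin (k - 1))) ?_).trans (le_of_eq ?_)
        · intro y _
          by_cases hy : H y β
          · have hy' := hy
            rw [hHdef] at hy'
            obtain ⟨S, h1, h2, h3⟩ := hy'
            refine le_trans ?_ h3
            refine Nat.mul_le_mul_left _ (Finset.card_le_card ?_)
            intro χ hχ
            have hχ2 := (mem_filter.1 hχ).2.2
            refine mem_filter.2 ⟨mem_univ _, ?_⟩
            by_contra hc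
            rw [Bool.not_eq_false] at hc
            have h4 := NNDT.MonSize.monotone hms _ (T.xin (sQ β y χ))
              (fun e he => xin_le T _ _ (sR_sQ S β h1 y χ) e he) hc
            have h5 : f (T.xin (sQ β y χ)) = false := hχ2
            rw [h4] at h5
            exact absurd h5 (by simp)
          · rw [Finset.filter_false_of_mem fun _ _ h1 => hy h1.1, Finset.card_empty, mul_zero]
            exact Nat.zero_le _
        · rw [Finset.card_univ, smul_eq_mul]
      · rw [Finset.card_univ, smul_eq_mul]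
    have hU : ∀ F F1 F2 N Q : ℕ, F ≤ F1 + F2 → Q * F1 ≤ N → Q * F2 ≤ N → Q * F ≤ 2 * N := by
      intro F F1 F2 N Q h1 h2 h3
      calc Q * F ≤ Q * (F1 + F2) := Nat.mul_le_mul_left _ h1
        _ = Q * F1 + Q * F2 := Nat.mul_add _ _ _
        _ ≤ N + N := Nat.add_le_add h2 h3
        _ = 2 * N := (two_mul N).symm
    refine hU _ _ _ _ _ ?_ hF1 hF2
    refine le_trans (Finset.card_le_card ?_) (Finset.card_union_le _ _)
    intro z hz
    rw [mem_union]
    rcases (mem_filter.1 hz).2 with h1 | h1
    · exact Or.inl (mem_filter.2 ⟨mem_univ _, h1⟩)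
    · exact Or.inr (mem_filter.2 ⟨mem_univ _, h1⟩)

end Pool.Agent.PPH
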