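import Pool.Agent.PPH.Stmts

/-!
# Project PPH, module SMO: Smolensky's argument for majority
-/

set_option autoImplicit false

namespace Pool.Agent.PPH

open Finset

namespace SMOM

/-- the indicator of a set -/
def ind {n : ℕ} (T : Finset (Fin n)) : Fin n → Bool := fun i => decide (i ∈ T)

/-- the set of the ones -/
def sup {n : ℕ} (b : Fin n → Bool) : Finset (Fin n) := univ.filter fun i => b i = true

lemma ind_sup {n : ℕ} (b : Fin n → Bool) : ind (sup b) = b := by
  funext i
  unfold ind sup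
  cases h : b i <;> simp [h]

lemma sub_iff {n : ℕ} (b : Fin n → Bool) (S : Finset (Fin n)) :
    (∀ i ∈ S, b i = true) ↔ S ⊆ sup b := by
  constructor
  · intro h i hi
    exact mem_filter.2 ⟨mem_univ _, h i hi⟩
  · intro h i hi
    exact (mem_filter.1 (h hi)).2

/-- the double sum -/
lemma dbl {n : ℕ} (G : Finset (Fin n) → ZMod 2) (B : Finset (Fin n)) :
    ∑ S ∈ B.powerset, ∑ T ∈ S.powerset, G T = G B := by
  have h1 : ∑ S ∈ B.powerset, ∑ T ∈ S.powerset, G T =
      ∑ T ∈ B.powerset, ∑ _S ∈ Finset.Icc T B, G T := by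
    refine Finset.sum_comm' ?_
    intro S T
    simp only [Finset.mem_powerset, Finset.mem_Icc]
    constructor
    · rintro ⟨h1, h2⟩
      exact ⟨⟨h2, h1⟩, h2.trans h1⟩
    · rintro ⟨⟨h1, h2⟩, -⟩
      exact ⟨h2, h1⟩
  rw [h1, Finset.sum_eq_single B]
  · rw [Finset.sum_const, Finset.Icc_self, Finset.card_singleton, one_smul]
  · intro T hT hne
    have hsub : T ⊆ B := Finset.mem_powerset.1 hT
    have hlt : T.card < B.card := Finset.card_lt_card (hsub.ssubset_of_ne hne)
    rw [Finset.sum_const, Finset.card_Icc_finset hsub, nsmul_eq_mul]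
    have h2 : ((2 ^ (B.card - T.card) : ℕ) : ZMod 2) = 0 := by
      rw [Nat.cast_pow]
      have h3 : ((2 : ℕ) : ZMod 2) = 0 := by decide
      rw [h3]
      exact zero_pow (by omega)
    rw [h2, zero_mul]
  · intro h
    exact absurd (Finset.mem_powerset.2 (Finset.Subset.refl B)) h

/-- interpolation at the arguments with few ones -/
lemma low (n τ : ℕ) (g : (Fin n → Bool) → ZMod 2) :
    ∃ p : (Fin n → Bool) → ZMod 2, Deg n τ p ∧ ∀ b, ones b ≤ τ → p b = g b := by
  let c : Finset (Fin n) → ZMod 2 := fun S =>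
    if S.card ≤ τ then ∑ T ∈ S.powerset, g (ind T) else 0
  refine ⟨fun b => ∑ S, if ∀ i ∈ S, b i = true then c S else 0, ⟨c, ?_, fun b => rfl⟩, ?_⟩
  · intro S hS
    show (if S.card ≤ τ then ∑ T ∈ S.powerset, g (ind T) else 0) = 0
    rw [if_neg (by omega)]
  · intro b hb
    have hB : (sup b).card ≤ τ := hb
    have h1 : (∑ S, if ∀ i ∈ S, b i = true then c S else 0) =
        ∑ S ∈ (sup b).powerset, ∑ T ∈ S.powerset, g (ind T) := by
      rw [← Finset.sum_filter]
      refine Finset.sum_congr ?_ ?_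
      · ext S
        simp only [mem_filter, mem_univ, true_and, Finset.mem_powerset]
        exact sub_iff b S
      · intro S hS
        have hS1 : S ⊆ sup b := Finset.mem_powerset.1 hS
        show (if S.card ≤ τ then ∑ T ∈ S.powerset, g (ind T) else 0) = _
        rw [if_pos ((Finset.card_le_card hS1).trans hB)]
    show (∑ S, if ∀ i ∈ S, b i = true then c S else 0) = g b
    rw [h1, dbl (fun T => g (ind T)) (sup b), ind_sup]

lemma ones_not {n : ℕ} (b : Fin n → Bool) : ones (fun i => !(b i)) = n - ones b := by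
  have h1 : ones b + ones (fun i => !(b i)) = n := by
    unfold ones
    have h2 := Finset.card_filter_add_card_filter_not (s := (univ : Finset (Fin n)))
      (fun i => b i = true)
    rw [Finset.card_univ, Fintype.card_fin] at h2
    have h3 : ((univ : Finset (Fin n)).filter fun i => (!(b i)) = true) =
        (univ : Finset (Fin n)).filter fun i => ¬ b i = true := by
      refine Finset.filter_congr ?_
      intro i _
      cases b i <;> simp
    rw [h3]
    exact h2
  omega

lemma deg_add {n D : ℕ} {φ ψ : (Fin n → Bool) → ZMod 2} (h : Deg n D φ) (h' : Deg n D ψ) :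
    Deg n D fun b => φ b + ψ b := by
  obtain ⟨c, h1, h2⟩ := h
  obtain ⟨c', h3, h4⟩ := h'
  refine ⟨fun S => c S + c' S, ?_, ?_⟩
  · intro S hS
    show c S + c' S = 0
    rw [h1 S hS, h3 S hS, add_zero]
  · intro b
    show φ b + ψ b = _
    rw [h2 b, h4 b, ← Finset.sum_add_distrib]
    refine Finset.sum_congr rfl ?_
    intro S _
    split_ifs <;> simp

/-- a polynomial with the values `g` where `φ` is right -/
lemma interp (hD : Stmt_DEG) (τ Δ : ℕ) (φ : (Fin (2 * τ + 1) → Bool) → ZMod 2)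
    (hφ : Deg (2 * τ + 1) Δ φ) (g : (Fin (2 * τ + 1) → Bool) → ZMod 2) :
    ∃ ψ : (Fin (2 * τ + 1) → Bool) → ZMod 2, Deg (2 * τ + 1) (τ + Δ) ψ ∧
      ∀ b, (φ b = 1 ↔ τ < ones b) → ψ b = g b := by
  obtain ⟨hmono, hconst, -, -, hmul, -, hneg⟩ := hD
  obtain ⟨p₀, hp, h0⟩ := low (2 * τ + 1) τ g
  obtain ⟨p₁, hp1, h1⟩ := low (2 * τ + 1) τ (fun b => g fun i => !(b i))
  have hφ' : Deg (2 * τ + 1) Δ fun b => 1 + φ b :=
    deg_add (hmono _ 0 Δ _ (Nat.zero_le _) (hconst _ 1)) hφ
  refine ⟨fun b => (φ b * p₁ (fun i => !(b i))) + ((1 + φ b) * p₀ b), ?_, ?_⟩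
  · rw [add_comm τ Δ]
    exact deg_add (hmul _ Δ τ φ _ hφ (hneg _ τ p₁ hp1)) (hmul _ Δ τ _ p₀ hφ' hp)
  · intro b hb
    show φ b * p₁ (fun i => !(b i)) + (1 + φ b) * p₀ b = g b
    by_cases ht : τ < ones b
    · have h2 : φ b = 1 := hb.2 ht
      have h3 : p₁ (fun i => !(b i)) = g b := by
        rw [h1 _ (by rw [ones_not]; omega)]
        congr 1
        funext i
        exact Bool.not_not _
      have h4 : (1 : ZMod 2) + 1 = 0 := by decide
      rw [h2, h3, h4, zero_mul, add_zero, one_mul]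
    · have h2 : φ b ≠ 1 := fun h => ht (hb.1 h)
      have h3 : ∀ z : ZMod 2, z ≠ 1 → z = 0 := by decide
      rw [h3 _ h2, zero_mul, zero_add, add_zero, one_mul]
      exact h0 b (by omega)

end SMOM

theorem SMO_thm : Stmt_SMO := by
  intro hD τ Δ φ hφ
  obtain ⟨X, hX⟩ : ∃ X : Finset (Fin (2 * τ + 1) → Bool),
      X = (univ : Finset (Fin (2 * τ + 1) → Bool)).filter fun b =>
        φ b = 1 ↔ τ < ones b := ⟨_, rfl⟩
  obtain ⟨I, hI⟩ : ∃ I : Finset (Finset (Fin (2 * τ + 1))),
      I = (univ : Finset (Finset (Fin (2 * τ + 1)))).filter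
        fun S => S.card ≤ τ + Δ := ⟨_, rfl⟩
  rw [← hX, ← hI]
  have hXm : ∀ b, b ∈ X → (φ b = 1 ↔ τ < ones b) := by
    intro b hb
    rw [hX, mem_filter] at hb
    exact hb.2
  have hIm : ∀ S, S ∉ I → τ + Δ < S.card := by
    intro S hS
    by_contra hc
    apply hS
    rw [hI, mem_filter]
    exact ⟨mem_univ _, by omega⟩
  let F : ({S // S ∈ I} → ZMod 2) → ({b // b ∈ X} → ZMod 2) := fun c b =>
    ∑ S : {S // S ∈ I}, if ∀ i ∈ S.1, b.1 i = true then c S else 0
  have hF : Function.Surjective F := by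
    intro g
    let g' : (Fin (2 * τ + 1) → Bool) → ZMod 2 := fun b =>
      if h : b ∈ X then g ⟨b, h⟩ else 0
    obtain ⟨ψ, ⟨c, hc1, hc2⟩, hψ⟩ := SMOM.interp hD τ Δ φ hφ g'
    refine ⟨fun S => c S.1, ?_⟩
    funext b
    have h2 : ψ b.1 = g b := by
      rw [hψ b.1 (hXm b.1 b.2)]
      show (if h : b.1 ∈ X then g ⟨b.1, h⟩ else 0) = g b
      rw [dif_pos b.2]
    show (∑ S : {S // S ∈ I}, if ∀ i ∈ S.1, b.1 i = true then c S.1 else 0) = g b
    rw [← h2, hc2 b.1]
    rw [Finset.sum_coe_sort I (fun S => if ∀ i ∈ S, b.1 i = true then c S else 0)]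
    refine Finset.sum_subset (Finset.subset_univ _) ?_
    intro S _ hS
    rw [hc1 S (hIm S hS), ite_self]
  have h1 := Fintype.card_le_of_surjective F hF
  rw [Fintype.card_fun, Fintype.card_fun, Fintype.card_coe, Fintype.card_coe, ZMod.card] at h1
  exact (Nat.pow_le_pow_iff_right (by norm_num)).1 h1

end Pool.Agent.PPH
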