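import Pool.Agent.PPH.Stmts

/-!
# Project PPH, module UNQ: the answers in rounds are unique; the quantifiers are monotone
-/

set_option autoImplicit false

namespace Pool.Agent.PPH

open Pool.Agent.NPQ (hist)

namespace UNQM

theorem tot_nil : tot [] = 0 := rfl

theorem tot_cons (κ : Bool) (b : ℕ) (bs : List (Bool × ℕ)) : tot ((κ, b) :: bs) = b + tot bs := by
  simp [tot]

theorem hist_congr {n q : ℕ} (l : Fin n) {α β : Fin n → Bool}
    (h : ∀ i : Fin n, (i : ℕ) < l → α i = β i) : hist q l α = hist q l β := by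
  funext i
  unfold hist
  split_ifs with hi
  · exact h i (lt_of_lt_of_le hi (Nat.div_mul_le_self _ _))
  · rfl

theorem uniq {n q : ℕ} {R : Fin n → (Fin n → Bool) → Prop} {α β : Fin n → Bool}
    (hα : ∀ l, α l = true ↔ R l (hist q l α)) (hβ : ∀ l, β l = true ↔ R l (hist q l β)) :
    ∀ (m : ℕ) (l : Fin n), (l : ℕ) = m → α l = β l := by
  intro m
  induction m using Nat.strong_induction_on with
  | _ m ih =>
    intro l hl
    have h1 : hist q l α = hist q l β :=
      hist_congr l fun i hi => ih i (by omega) i rfl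
    have h2 : α l = true ↔ β l = true := by
      rw [hα l, hβ l, h1]
    exact Bool.eq_iff_iff.mpr h2

theorem mono : ∀ (bs : List (Bool × ℕ)) (R R' : List Bool → Prop),
    (∀ l, l.length = tot bs → R l → R' l) → Qn bs R → Qn bs R'
  | [], _, _, h, hR => h [] rfl hR
  | (true, b) :: bs, R, R', h, hR => by
    obtain ⟨w, hw⟩ := hR
    refine ⟨w, mono bs _ _ (fun l hl => h _ ?_) hw⟩
    rw [List.length_append, List.length_ofFn, hl, tot_cons]
  | (false, b) :: bs, R, R', h, hR => by
    intro w
    refine mono bs _ _ (fun l hl => h _ ?_) (hR w)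
    rw [List.length_append, List.length_ofFn, hl, tot_cons]

end UNQM

theorem UNQ_thm : Stmt_UNQ :=
  ⟨fun _ _ _ _ _ hα hβ => funext fun l => UNQM.uniq hα hβ l l rfl, UNQM.mono⟩

end Pool.Agent.PPH
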