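import Pool.Agent.PPH.DEG
import Pool.Agent.PPH.ROR
import Pool.Agent.PPH.GAT
import Pool.Agent.PPH.QAP
import Pool.Agent.PPH.SMO
import Pool.Agent.PPH.BIN
import Pool.Agent.PPH.UNQ
import Pool.Agent.PPH.ACM
import Pool.Agent.PPH.COR
import Pool.Agent.PPH.SAN
import Pool.Agent.PPH.POT
import Pool.Agent.PPH.NGB
import Pool.Agent.PPH.LVS
import Pool.Agent.PPH.LOC
import Pool.Agent.PPH.CFP
import Pool.Agent.PPH.AVP
import Pool.Agent.PPH.NUM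
import Pool.Agent.PPH.MAI

/-!
# The lower bound of the project PPH
-/

set_option autoImplicit false

namespace Pool.Agent.PPH

open Finset Pool.Agent.NegLim Pool.Agent.NLM Pool.Agent.S2C
open Pool.Agent.NPQ (hist)

theorem lower : Lower :=
  MAI_thm DEG_thm ROR_thm GAT_thm QAP_thm SMO_thm BIN_thm UNQ_thm ACM_thm COR_thm SAN_thm POT_thm
    NGB_thm LVS_thm LOC_thm CFP_thm AVP_thm NUM_thm

/-- The lower bound, written out. -/
theorem lower_exp (ε : ℝ) (hε : 0 < ε) (hε1 : ε ≤ 1) :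
    ∃ v₀ : ℕ, ∀ v ≥ v₀, ∀ (k m w N n q c R d : ℕ) (s t : Fin n → ℕ)
      (bs : Fin n → List (Bool × ℕ)) (ρ : (l : Fin n) → Fin (s l) → ℕ)
      (C : (l : Fin n) → NCirc (Edge v ⊕ Edge v) (s l) (n + t l))
      (D : NCirc (Edge v ⊕ Edge v) 0 n)
      (a : (Edge v ⊕ Edge v → Bool) → Fin n → Bool),
      v ^ 8 ≤ 2 ^ m → m ≤ w → k = m ^ 2 → N = v * (v - 1) / 2 → 1 ≤ q → n ≤ c * q → n ≤ w →
      ((R * (q + 1) ^ c * w ^ (4 * (d + 6)) : ℕ) : ℝ) ≤ (N : ℝ) ^ (1 - ε) →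
      (∀ l, (C l).NotsFree ∧ 2 ^ (s l + (C l).nots) ≤ R ∧ (bs l).length ≤ d ∧
        n + tot (bs l) ≤ w ∧ RightQ q (C l) (bs l) (ρ l) l a) →
      D.NotsFree → 2 ^ D.nots ≤ R →
      (∀ x, More v k x ↔ outp D x (fun i => i.elim0) (a x) = true) →
      2 ^ (m / 2) < D.gates.length ∨ ∃ l, 2 ^ (m / 2) < (C l).gates.length := by
  obtain ⟨v₀, h₀⟩ := lower ε hε hε1
  refine ⟨v₀, fun v hv k m w N n q c R d s t bs ρ C D a hvm hmw hk hN hq hn hnw hb hC hD hDR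
    hF => ?_⟩
  by_contra hcon
  push Not at hcon
  exact h₀ v hv k m w N n q c R d ⟨s, t, bs, ρ, C, D⟩ a hvm hmw hk hN hq hn hb
    (fun l => (hC l).2.2.2.1) hnw
    ⟨fun l => (hC l).1, hD, hcon.2, hcon.1, fun l => (hC l).2.1, hDR, fun l => (hC l).2.2.1,
      fun l => (Nat.le_add_left _ _).trans (hC l).2.2.2.1⟩
    (fun l => (hC l).2.2.2.2) hF

end Pool.Agent.PPH
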