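import Pool.Agent.PPH.Stmts4
import Pool.Agent.PPH.MAI

/-!
# The assembly: PP is not in BPP^PH for circuits with few negations, average-case form
-/

set_option autoImplicit false

namespace Pool.Agent.PPH

open Finset Pool.Agent.NegLim Pool.Agent.NLM Pool.Agent.S2C
open Pool.Agent.NPQ (hist)
open Pool.Agent.NBC (SameN St Tests winT)

namespace MAWM

/-- The last inequality. -/
theorem last {w c c' t : ℕ} (ht : 0 < t) (hc : c' ≤ c)
    (h : 2 * (8 * w) * c ≤ (8 * w + 8) * t) : 2 * w * c' < (w + 2) * t := by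
  have h1 : 8 * (2 * w * c) ≤ 8 * ((w + 1) * t) := by
    calc 8 * (2 * w * c) = 2 * (8 * w) * c := by ring
      _ ≤ (8 * w + 8) * t := h
      _ = 8 * ((w + 1) * t) := by ring
  have h2 : 2 * w * c ≤ (w + 1) * t := Nat.le_of_mul_le_mul_left h1 (by norm_num)
  calc 2 * w * c' ≤ 2 * w * c := Nat.mul_le_mul_left _ hc
    _ ≤ (w + 1) * t := h2
    _ < (w + 2) * t := Nat.mul_lt_mul_of_pos_right (by omega) ht

end MAWM

theorem MAW_thm : Stmt_MAW := by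
  classical
  intro hDEG hROR hGAT hQAP hSMO hBIW hUNQ hACW hCOR hSAN hPOT hNGW hLVW hLOW hCFP hAVW hNUW
    ε hε hε1
  obtain ⟨v₀, hv₀⟩ := hNUW ε hε hε1
  refine ⟨v₀, fun v hv k m w N n q c R dd hvm hmw hk hN hq hnc hnw hR => ?_⟩
  rcases Nat.eq_zero_or_pos R with hR0 | hR1
  · refine ⟨Unit, inferInstance, inferInstance, fun _ _ => false, fun S a _ hOk _ => ?_⟩
    have h1 := hOk.notsD
    have h2 : 0 < 2 ^ S.D.nots := by positivity
    omega
  obtain ⟨hw1, τ, K, Λ, h, p, b, J, Q, A, hPar, hb0, hJ0, hJ, h1, h2, h3, hA, hw, hQb, hM⟩ :=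
    hv₀ v hv k m w N n q c R dd hvm hmw hk hN hnw hR1 hR
  obtain ⟨M, hMd⟩ : ∃ M : ℕ, M = J * ((2 * τ + 1) * K) + (2 * τ + 1) := ⟨_, rfl⟩
  rw [← hMd] at hM
  obtain ⟨T, hdis, hcl, hT⟩ := mai_win CN2_thm v k Q b M A hPar.hk2 hb0 hA hw hQb hM
  have hK0 : 0 < K := by have := hPar.hK; omega
  have hτM : τ ≤ M := by omega
  have : Nonempty (Fin k × Fin b → Fin (k - 1)) := ⟨fun _ => ⟨0, by have := hPar.hk2; omega⟩⟩
  have : Nonempty (Fin k → Fin b) := ⟨fun _ => ⟨0, hb0⟩⟩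
  obtain ⟨b', hb'⟩ : ∃ b' : Fin M → St (Fin k × Fin b → Fin (k - 1)) (Fin k → Fin b),
      cnt b' = τ := ⟨_, MAIM.cnt_low M τ hτM fun _ => ⟨0, hb0⟩⟩
  obtain ⟨I, iF, iN, B, hB⟩ := hAVW hCFP M τ K J (8 * w) (Fin k × Fin b → Fin (k - 1))
    (Fin k → Fin b) hK0 hJ0 (le_of_eq hMd.symm)
  refine ⟨I, iF, iN, fun i => T.inp (B i) b', fun S a hbits hOk hRt => ?_⟩
  have hOk' : S.Ok (2 ^ (m / 2)) R dd (w - n) :=
    { hOk with bits := fun l => by have := hbits l; omega }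
  have hw' : n + (w - n) = w := by omega
  have hstep := hLOW hDEG hROR hGAT hQAP hSMO hBIW hUNQ hACW hCOR hSAN hPOT hNGW hLVW
    M τ K (2 ^ (m / 2)) Λ k b h p n q c R dd (w - n) (8 * w) (Edge v) T S a b' (by omega) hPar
    hdis hcl hOk' hRt hq hnc (by rw [hw']; exact h1) h2
    (le_trans (Nat.mul_le_mul_left _ (Nat.mul_le_mul_right _
      (Nat.add_le_add_right (MAIM.sum_le S hOk) 1))) h3)
  obtain ⟨hp1, hp2, -, -⟩ := hPOT hUNQ (Edge v ⊕ Edge v) n q c (2 ^ (m / 2)) R dd w S a hOk hRt hq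
    hnc
  have hfin := hB ((n + 1) * R * (q + 1) ^ c) (fun B => S.pot q c a (T.inp B b')) _
    (fun B => hp1 _) (fun B B' hB => (hp2 _ _ (mai_inp1 T b' hB)).1) hstep hJ
  refine MAWM.last (Fintype.card_pos) ?_ hfin
  refine Finset.card_le_card fun i hi => ?_
  simp only [Finset.mem_filter] at hi ⊢
  refine ⟨mem_univ _, ?_⟩
  have h5 : More v k (T.inp (B i) b') ↔ τ < cnt (B i) := (hT (B i) b').trans (by rw [hb'])
  exact (hi.2.symm.trans h5 :)

end Pool.Agent.PPH
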