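import Pool.Agent.PPH.Stmts4
import Pool.Agent.PPH.NGB

/-!
# PPH, module NGW (helper12): the NOT gates at the positive tests, with the parameter `U`
-/

set_option autoImplicit false

namespace Pool.Agent.PPH

open Finset Pool.Agent.NegLim Pool.Agent.NLM Pool.Agent.S2C
open Pool.Agent.NPQ (hist)
open Pool.Agent.NBC (SameN St Tests)

open Classical in
theorem NGW_thm : Stmt_NGW := by
  intro M n₀ K G Λ k b h p n R dd W U E T S hU hPar3 hDis hCL hOk hUb a b' e he ha
  have hPar := NGBM.par hPar3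
  have hDis' : (stq_T T e).Dis := fun i j v hi hj => he (hDis _ _ v hi hj)
  have hCL' : CliqueLike (stq_T T e) := fun j v => hCL (e j) v
  have hC := fun l => GVL_thm (E ⊕ E) (S.s l) (n + S.t l) G (S.C l) (hOk.nf l) (hOk.sz l)
    (T.inp a b')
  choose f g hf hg hfv hgv using hC
  obtain ⟨fD, gD, hfD, hgD, hfvD, hgvD⟩ :=
    GVL_thm (E ⊕ E) 0 n G S.D hOk.nfD hOk.szD (T.inp a b')
  have hR : ∀ st : Fin n₀ × Fin K → St (Fin k × Fin b → Fin (k - 1)) (Fin k → Fin b),
      ∀ w, T.inp a b' w = true → T.inp (put e st a) b' w = true := by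
    intro st w hw
    rw [stq_inp T he ha]
    exact stq_le T a b' _ w hw
  -- the family of the functions
  let Mx : Type := (Σ l, (Fin (S.s l) → Bool)) ⊕ (Fin 0 → Bool)
  let F : Mx → (E → Bool) → Bool := fun m z =>
    Sum.elim (fun m => g m.1 m.2 (stq_sg T a b' z)) (fun u => gD u (stq_sg T a b' z)) m
  have hF : ∀ m, MonSize (F m) G := by
    rintro (m | u)
    · exact (hg m.1 m.2).comp (stq_proj T a b')
    · exact (hgD u).comp (stq_proj T a b')
  have hMx : Fintype.card Mx = ∑ l, 2 ^ S.s l + 1 := by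
    show Fintype.card ((Σ l, (Fin (S.s l) → Bool)) ⊕ (Fin 0 → Bool)) = _
    rw [Fintype.card_sum, Fintype.card_sigma]
    simp
  have hSN : ∀ st : Fin n₀ × Fin K → St (Fin k × Fin b → Fin (k - 1)) (Fin k → Fin b),
      ¬ S.SN (T.inp a b') (T.inp (put e st a) b') ↔
        ∃ m : Mx, F m ((stq_T T e).xin st) = true := by
    intro st
    unfold Sys.SN
    rw [not_and_or, not_forall]
    constructor
    · rintro (⟨l, hl⟩ | hD)
      · rw [hgv l _ (hR st), not_forall] at hl
        obtain ⟨u, hu⟩ := hl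
        rw [stq_inp T he ha] at hu
        have hu' : g l u (stq_sg T a b' ((stq_T T e).xin st)) = true := by simpa using hu
        exact ⟨Sum.inl ⟨l, u⟩, hu'⟩
      · rw [hgvD _ (hR st), not_forall] at hD
        obtain ⟨u, hu⟩ := hD
        rw [stq_inp T he ha] at hu
        have hu' : gD u (stq_sg T a b' ((stq_T T e).xin st)) = true := by simpa using hu
        exact ⟨Sum.inr u, hu'⟩
    · rintro ⟨m | u, hm⟩
      · left
        refine ⟨m.1, fun hl => ?_⟩
        rw [hgv m.1 _ (hR st)] at hl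
        have h1 := hl m.2
        rw [stq_inp T he ha] at h1
        have h2 : g m.1 m.2 (stq_sg T a b' ((stq_T T e).xin st)) = true := hm
        rw [h2] at h1
        exact absurd h1 (by simp)
      · right
        intro hD
        rw [hgvD _ (hR st)] at hD
        have h1 := hD u
        rw [stq_inp T he ha] at h1
        have h2 : gD u (stq_sg T a b' ((stq_T T e).xin st)) = true := hm
        rw [h2] at h1
        exact absurd h1 (by simp)
  have hk2 := hPar.hk2
  have hne : Nonempty (Fin (k - 1)) := ⟨⟨0, by omega⟩⟩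
  have hX := NXC_thm APS_thm CND_thm n₀ K G 0 0 1 k b h p E Mx (stq_T T e) F hPar hDis' hCL' hF
  have hQ : 0 < Fintype.card (Fin n₀ × Fin K → Fin k × Fin b → Fin (k - 1)) := Fintype.card_pos
  have hQ' : (0 : ℝ) < Fintype.card (Fin n₀ × Fin K → Fin k × Fin b → Fin (k - 1)) := by
    exact_mod_cast hQ
  have hP : (0 : ℝ) ≤ Fintype.card (Fin n₀ → Fin K × (Fin k → Fin b)) := Nat.cast_nonneg _
  have h2 : 0 < 2 ^ (2 * h) := by positivity
  by_cases hc : 4 * ((univ : Finset (Fin n₀ × Fin K → Fin k × Fin b → Fin (k - 1))).filter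
      fun χ => ∃ m : Mx, F m ((stq_T T e).xin (sN (Xp := Fin k → Fin b) χ)) = true).card <
      Fintype.card (Fin n₀ × Fin K → Fin k × Fin b → Fin (k - 1))
  · have h3 := hX hc
    rw [hMx] at h3
    have h4 : ((univ : Finset (Fin n₀ → Fin K × (Fin k → Fin b))).filter fun y =>
        ¬ S.SN (T.inp a b') (T.inp (put e (sA y) a) b')).card * 2 ^ (2 * h) ≤
        (∑ l, 2 ^ S.s l + 1) * G * Fintype.card (Fin n₀ → Fin K × (Fin k → Fin b)) := by
      refine le_trans (Nat.mul_le_mul_right _ (Finset.card_le_card fun y hy => ?_)) h3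
      rw [mem_filter] at hy ⊢
      exact ⟨mem_univ _, (hSN _).1 hy.2⟩
    have h5 : U * ((univ : Finset (Fin n₀ → Fin K × (Fin k → Fin b))).filter fun y =>
        ¬ S.SN (T.inp a b') (T.inp (put e (sA y) a) b')).card ≤
        Fintype.card (Fin n₀ → Fin K × (Fin k → Fin b)) := by
      generalize ((univ : Finset (Fin n₀ → Fin K × (Fin k → Fin b))).filter fun y =>
        ¬ S.SN (T.inp a b') (T.inp (put e (sA y) a) b')).card = x at h4 ⊢
      generalize Fintype.card (Fin n₀ → Fin K × (Fin k → Fin b)) = z at h4 ⊢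
      generalize (∑ l, 2 ^ S.s l + 1) * G = w at h4 hUb
      refine Nat.le_of_mul_le_mul_right ?_ h2
      calc U * x * 2 ^ (2 * h) = U * (x * 2 ^ (2 * h)) := by ring
        _ ≤ U * (w * z) := Nat.mul_le_mul_left _ h4
        _ = U * w * z := by ring
        _ ≤ 2 ^ (2 * h) * z := Nat.mul_le_mul_right _ hUb
        _ = z * 2 ^ (2 * h) := by ring
    have h6 : (((univ : Finset (Fin n₀ → Fin K × (Fin k → Fin b))).filter fun y =>
        ¬ S.SN (T.inp a b') (T.inp (put e (sA y) a) b')).card : ℝ) ≤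
        1 / U * Fintype.card (Fin n₀ → Fin K × (Fin k → Fin b)) := by
      have h7 : ((U * ((univ : Finset (Fin n₀ → Fin K × (Fin k → Fin b))).filter fun y =>
          ¬ S.SN (T.inp a b') (T.inp (put e (sA y) a) b')).card : ℕ) : ℝ) ≤
          ((Fintype.card (Fin n₀ → Fin K × (Fin k → Fin b)) : ℕ) : ℝ) := by
        exact_mod_cast h5
      rw [Nat.cast_mul] at h7
      have hU' : (0 : ℝ) < U := by exact_mod_cast hU
      rw [one_div, ← div_eq_inv_mul, le_div_iff₀ hU', mul_comm]
      exact h7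
    refine h6.trans (mul_le_mul_of_nonneg_right ?_ hP)
    exact le_add_of_nonneg_left (div_nonneg (by positivity) hQ'.le)
  · rw [not_lt] at hc
    have h3 : Fintype.card (Fin n₀ × Fin K → Fin k × Fin b → Fin (k - 1)) ≤
        4 * ((univ : Finset (Fin n₀ × Fin K → Fin k × Fin b → Fin (k - 1))).filter fun χ =>
          ¬ S.SN (T.inp a b') (T.inp (put e (sN χ) a) b')).card := by
      refine hc.trans (Nat.mul_le_mul_left _ (Finset.card_le_card fun χ hχ => ?_))
      rw [mem_filter] at hχ ⊢
      exact ⟨mem_univ _, (hSN _).2 hχ.2⟩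
    have h4 : (1 : ℝ) ≤ 4 * (((univ : Finset (Fin n₀ × Fin K → Fin k × Fin b →
        Fin (k - 1))).filter fun χ =>
          ¬ S.SN (T.inp a b') (T.inp (put e (sN χ) a) b')).card : ℝ) /
          Fintype.card (Fin n₀ × Fin K → Fin k × Fin b → Fin (k - 1)) := by
      rw [le_div_iff₀ hQ', one_mul]
      exact_mod_cast h3
    have h5 : (((univ : Finset (Fin n₀ → Fin K × (Fin k → Fin b))).filter fun y =>
        ¬ S.SN (T.inp a b') (T.inp (put e (sA y) a) b')).card : ℝ) ≤
        Fintype.card (Fin n₀ → Fin K × (Fin k → Fin b)) := by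
      exact_mod_cast Finset.card_le_univ _
    refine h5.trans (le_mul_of_one_le_left hP (h4.trans (le_add_of_nonneg_right ?_)))
    positivity

end Pool.Agent.PPH
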