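import Pool.Agent.PPH.Stmts
import Pool.Agent.NBC.NUM

/-!
# The parameters
-/

set_option autoImplicit false

namespace Pool.Agent.PPH

open Finset Pool.Agent.NegLim Pool.Agent.NLM Pool.Agent.S2C

namespace NUMM

theorem big (B : ℕ) : ∃ v₁ : ℕ, ∀ v ≥ v₁, ∀ m : ℕ, v ^ 8 ≤ 2 ^ m → B ≤ m := by
  refine ⟨2 ^ B, fun v hv m hm => ?_⟩
  have h1 : 2 ^ B ≤ 2 ^ m := by
    calc 2 ^ B ≤ v := hv
      _ ≤ v ^ 8 := Nat.le_self_pow (by norm_num) v
      _ ≤ 2 ^ m := hm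
  exact (Nat.pow_le_pow_iff_right (by norm_num)).1 h1

theorem sq_le (L : ℕ) (hL : 50 ≤ L) : 2 ^ 38 * L ^ 2 ≤ 2 ^ L := by
  induction L, hL using Nat.le_induction with
  | base => norm_num
  | succ L hL ih =>
    calc 2 ^ 38 * (L + 1) ^ 2 ≤ 2 ^ 38 * (2 * L ^ 2) := by
          apply Nat.mul_le_mul_left
          nlinarith
      _ = 2 * (2 ^ 38 * L ^ 2) := by ring
      _ ≤ 2 * 2 ^ L := Nat.mul_le_mul_left _ ih
      _ = 2 ^ (L + 1) := by ring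

theorem pow_add_le (w a n : ℕ) (hw : 0 < w) (h : a * n ≤ w) : (w + a) ^ n ≤ 3 * w ^ n := by
  have h1 : (((w + a) ^ n : ℕ) : ℝ) ≤ ((3 * w ^ n : ℕ) : ℝ) := by
    push_cast
    have hw' : (0 : ℝ) < w := by exact_mod_cast hw
    have e1 : (w : ℝ) + a ≤ w * Real.exp (a / w) := by
      have h2 := Real.add_one_le_exp ((a : ℝ) / w)
      calc (w : ℝ) + a = w * (a / w + 1) := by
            field_simp
            ring
        _ ≤ w * Real.exp (a / w) := mul_le_mul_of_nonneg_left h2 hw'.le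
    calc ((w : ℝ) + a) ^ n ≤ (w * Real.exp (a / w)) ^ n := pow_le_pow_left₀ (by positivity) e1 n
      _ = w ^ n * Real.exp (n * (a / w)) := by rw [mul_pow, ← Real.exp_nat_mul]
      _ ≤ w ^ n * 3 := by
          apply mul_le_mul_of_nonneg_left _ (by positivity)
          have e2 : (n : ℝ) * (a / w) ≤ 1 := by
            rw [← mul_div_assoc, div_le_one hw']
            have h3 : (((a * n : ℕ)) : ℝ) ≤ w := by exact_mod_cast h
            push_cast at h3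
            linarith
          have e3 := Real.exp_le_exp.2 e2
          have e4 := Real.exp_one_lt_d9
          linarith
      _ = 3 * w ^ n := mul_comm _ _
  exact_mod_cast h1

/-- The numbers which do not depend on the progressions. -/
theorem core {v m w n q c R dd : ℕ} (hB : 2 ^ 49 ≤ m) (hv : v ^ 8 ≤ 2 ^ m) (hmw : m ≤ w)
    (hn : n ≤ w) (hR : 1 ≤ R) (hT : R * (q + 1) ^ c * w ^ (4 * (dd + 6)) ≤ v ^ 2) :
    ∃ τ K Λ h p b J : ℕ, Par3 (2 * τ + 1) K (2 ^ (m / 2)) Λ (m ^ 2) b h p ∧ 0 < b ∧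
      128 * ((n + 1) * R * (q + 1) ^ c) < 3 * J ∧
      128 * ((dd + 2) * (n + 1) * 2 ^ w) ≤ 2 ^ Λ ∧
      6 * ((n + 1) * Λ ^ (dd + 2)) ^ 2 ≤ τ ∧
      64 * ((n * R + 1) * 2 ^ (m / 2)) ≤ 2 ^ (2 * h) ∧
      2 * m ^ 2 * b * m ^ 2 ≤ v ∧
      (J * ((2 * τ + 1) * K) + (2 * τ + 1)) * (32 * ((m ^ 2) ^ 3 * b ^ 2)) ≤
        R * (q + 1) ^ c * w ^ (4 * (dd + 6)) := by
  have hB' : 562949953421312 ≤ m := by
    have e : (2 : ℕ) ^ 49 = 562949953421312 := by norm_num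
    rwa [e] at hB
  clear hB
  obtain ⟨l, hl⟩ : ∃ l : ℕ, l = Nat.log 2 w := ⟨_, rfl⟩
  have hw0 : w ≠ 0 := by omega
  have hL1 : w < 2 ^ (l + 1) := by
    rw [hl]
    exact Nat.lt_pow_succ_log_self (by norm_num) w
  have hL2 : 2 ^ l ≤ w := by
    rw [hl]
    exact Nat.pow_log_le_self 2 hw0
  have hl49 : 49 ≤ l := by
    rw [hl]
    apply Nat.le_log_of_pow_le (by norm_num)
    have e : (2 : ℕ) ^ 49 = 562949953421312 := by norm_num
    rw [e]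
    omega
  obtain ⟨L, hL⟩ : ∃ L : ℕ, L = l + 1 := ⟨_, rfl⟩
  rw [← hL] at hL1
  have hL50 : 50 ≤ L := by omega
  have hsq := sq_le L hL50
  have hwL : 2 ^ 37 * L ^ 2 ≤ w := by
    have e1 : 2 * (2 ^ 37 * L ^ 2) = 2 ^ 38 * L ^ 2 := by ring
    have e2 : 2 ^ L = 2 * 2 ^ l := by
      rw [hL]
      ring
    omega
  have hLL : L ≤ L ^ 2 := Nat.le_self_pow (by norm_num) L
  have hLw : 64 * L ≤ w := by
    have e1 : (2 : ℕ) ^ 37 = 137438953472 := by norm_num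
    rw [e1] at hwL
    omega
  have h8L : 8 * L ≤ 2 ^ L := by
    have e1 : (2 : ℕ) ^ 38 = 274877906944 := by norm_num
    rw [e1] at hsq
    omega
  -- consequences of the main inequality
  have hX1 : 1 ≤ R * (q + 1) ^ c := by
    have : 0 < R * (q + 1) ^ c := by positivity
    exact this
  have hwv : w ^ (4 * (dd + 6)) ≤ v ^ 2 := by
    refine le_trans ?_ hT
    exact Nat.le_mul_of_pos_left _ hX1
  have hw1 : 1 ≤ w := by omega
  have hw24 : w ^ 24 ≤ v ^ 2 :=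
    (Nat.pow_le_pow_right hw1 (by omega)).trans hwv
  have hw12 : w ^ 12 ≤ v := by
    have e1 : (w ^ 12) ^ 2 ≤ v ^ 2 := by
      rw [← pow_mul]
      exact hw24
    exact (Nat.pow_le_pow_iff_left (by norm_num)).1 e1
  have hdd : l * (16 * (dd + 6)) ≤ w := by
    have e1 : 2 ^ (l * (16 * (dd + 6))) ≤ 2 ^ w := by
      calc 2 ^ (l * (16 * (dd + 6))) = (2 ^ l) ^ (16 * (dd + 6)) := pow_mul _ _ _
        _ ≤ w ^ (16 * (dd + 6)) := Nat.pow_le_pow_left hL2 _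
        _ = (w ^ (4 * (dd + 6))) ^ 4 := by
            rw [← pow_mul]
            congr 1
            ring
        _ ≤ (v ^ 2) ^ 4 := Nat.pow_le_pow_left hwv 4
        _ = v ^ 8 := by rw [← pow_mul]
        _ ≤ 2 ^ m := hv
        _ ≤ 2 ^ w := Nat.pow_le_pow_right (by norm_num) hmw
    exact (Nat.pow_le_pow_iff_right (by norm_num)).1 e1
  have hdd2 : 3 * L * (4 * (dd + 2)) ≤ w := by
    refine le_trans ?_ hdd
    calc 3 * L * (4 * (dd + 2)) = (12 * L) * (dd + 2) := by ring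
      _ ≤ (16 * l) * (dd + 6) := Nat.mul_le_mul (by omega) (by omega)
      _ = l * (16 * (dd + 6)) := by ring
  have hdd3 : 128 * (dd + 2) ≤ w := by
    refine le_trans ?_ hdd
    calc 128 * (dd + 2) ≤ 49 * (16 * (dd + 6)) := by omega
      _ ≤ l * (16 * (dd + 6)) := Nat.mul_le_mul_right _ hl49
  have hm2 : 2 * (m / 2) ≤ m := Nat.mul_div_le m 2
  have hm3 : m ≤ 2 * (m / 2) + 1 := by omega
  -- the numbers
  obtain ⟨h, hh⟩ : ∃ h : ℕ, h = m / 2 := ⟨_, rfl⟩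
  rw [← hh] at hm2 hm3
  obtain ⟨Y, hY⟩ : ∃ Y : ℕ, Y = (n + 1) * (w + 3 * L) ^ (dd + 2) := ⟨_, rfl⟩
  have hY1 : 1 ≤ Y := by
    have : 0 < Y := by
      rw [hY]
      positivity
    exact this
  obtain ⟨X, hX⟩ : ∃ X : ℕ, X = (n + 1) * R * (q + 1) ^ c := ⟨_, rfl⟩
  have hX1' : 1 ≤ X := by
    have : 0 < X := by
      rw [hX]
      positivity
    exact this
  have hp2h : 8 * w * L * (2 * h) ≤ 8 * w ^ 2 * L := by
    calc 8 * w * L * (2 * h) ≤ 8 * w * L * w := Nat.mul_le_mul_left _ (by omega)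
      _ = 8 * w ^ 2 * L := by ring
  have hbb : 4 * (8 * w * L * (2 * h)) ≤ 32 * w ^ 2 * L := by
    calc 4 * (8 * w * L * (2 * h)) ≤ 4 * (8 * w ^ 2 * L) := Nat.mul_le_mul_left _ hp2h
      _ = 32 * w ^ 2 * L := by ring
  have hh1 : 1 ≤ h := by omega
  refine ⟨6 * Y ^ 2, 4 * (2 * (6 * Y ^ 2) + 1), w + 3 * L, h, 8 * w * L,
    4 * (8 * w * L * (2 * h)), 43 * X, ⟨?_, le_refl _, hh1, ?_, ?_, ?_, le_refl _, ?_, ?_⟩,
    ?_, ?_, ?_, ?_, ?_, ?_, ?_⟩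
  · -- hn
    have e1 : 1 ≤ Y ^ 2 := Nat.one_le_pow _ _ hY1
    omega
  · -- hk
    have e1 : 2 * h * (2 * h - 1) ≤ m * (m - 1) := Nat.mul_le_mul hm2 (by omega)
    have e2 : m * (m - 1) + m = m ^ 2 := by
      have e3 : m = (m - 1) + 1 := by omega
      calc m * (m - 1) + m = m * ((m - 1) + 1) := by ring
        _ = m * m := by rw [← e3]
        _ = m ^ 2 := by ring
    omega
  · -- hk2
    calc 2 ≤ m := by omega
      _ ≤ m ^ 2 := Nat.le_self_pow (by norm_num) m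
  · -- hp
    have e1 : 1 ≤ w * L := Nat.mul_pos hw1 (by omega)
    calc 2 ≤ 8 * 1 := by norm_num
      _ ≤ 8 * (w * L) := Nat.mul_le_mul_left _ e1
      _ = 8 * w * L := by ring
  · -- hG
    rw [← hh]
    calc 4 * 2 ^ h = 2 ^ (h + 2) := by ring
      _ ≤ 2 ^ (2 * h) := Nat.pow_le_pow_right (by norm_num) (by omega)
  · -- hp2
    rw [← hh]
    have e1 : 8 * w * L * (2 * h) ≤ 2 ^ (3 * L) := by
      calc 8 * w * L * (2 * h) ≤ 8 * w ^ 2 * L := hp2h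
        _ = (w * w) * (8 * L) := by ring
        _ ≤ (2 ^ L * 2 ^ L) * 2 ^ L :=
            Nat.mul_le_mul (Nat.mul_le_mul hL1.le hL1.le) h8L
        _ = 2 ^ (3 * L) := by
            rw [← pow_add, ← pow_add]
            congr 1
            ring
    calc 16 * 2 ^ h * 2 ^ (w + 3 * L) * (8 * w * L * (2 * h)) ^ (4 * h)
        ≤ 16 * 2 ^ h * 2 ^ (w + 3 * L) * (2 ^ (3 * L)) ^ (4 * h) :=
          Nat.mul_le_mul_left _ (Nat.pow_le_pow_left e1 _)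
      _ = 2 ^ (4 + h + (w + 3 * L) + 3 * L * (4 * h)) := by
          rw [pow_add 2 (4 + h + (w + 3 * L)), pow_add 2 (4 + h), pow_add 2 4, ← pow_mul]
          norm_num
      _ < 2 ^ (8 * w * L) := by
          apply Nat.pow_lt_pow_right (by norm_num)
          have e2 : 3 * L * (4 * h) ≤ 6 * (w * L) := by
            calc 3 * L * (4 * h) = (6 * L) * (2 * h) := by ring
              _ ≤ (6 * L) * w := Nat.mul_le_mul_left _ (by omega)
              _ = 6 * (w * L) := by ring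
          have e3 : w * 50 ≤ w * L := Nat.mul_le_mul_left _ hL50
          have e4 : 8 * w * L = 8 * (w * L) := by ring
          rw [e4]
          omega
  · -- b
    have e1 : 1 ≤ w * L := Nat.mul_pos hw1 (by omega)
    positivity
  · -- J
    rw [← hX]
    omega
  · -- Λ
    have e1 : n + 1 ≤ 2 ^ L := by omega
    have e2 : 128 * (dd + 2) ≤ 2 ^ L := hdd3.trans hL1.le
    calc 128 * ((dd + 2) * (n + 1) * 2 ^ w) = (128 * (dd + 2)) * (n + 1) * 1 * 2 ^ w := by ring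
      _ ≤ 2 ^ L * 2 ^ L * 2 ^ L * 2 ^ w := by
          apply Nat.mul_le_mul_right
          exact Nat.mul_le_mul (Nat.mul_le_mul e2 e1) Nat.one_le_two_pow
      _ = 2 ^ (w + 3 * L) := by
          rw [← pow_add, ← pow_add, ← pow_add]
          congr 1
          ring
  · -- τ
    rw [hY]
  · -- R
    rw [← hh]
    have e1 : 128 * (n * R + 1) ≤ v ^ 2 := by
      refine le_trans ?_ hT
      have e2 : w ^ 2 ≤ w ^ (4 * (dd + 6)) := Nat.pow_le_pow_right hw1 (by omega)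
      have e3 : 1 ≤ (q + 1) ^ c := Nat.one_le_pow _ _ (by omega)
      calc 128 * (n * R + 1) ≤ 128 * (w * R + w * R) := by
            apply Nat.mul_le_mul_left
            apply Nat.add_le_add (Nat.mul_le_mul_right _ hn)
            exact Nat.mul_pos hw1 hR
        _ = R * 1 * (256 * w) := by ring
        _ ≤ R * (q + 1) ^ c * (w * w) := by
            apply Nat.mul_le_mul (Nat.mul_le_mul_left _ e3)
            exact Nat.mul_le_mul_right _ (by omega)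
        _ = R * (q + 1) ^ c * w ^ 2 := by ring
        _ ≤ R * (q + 1) ^ c * w ^ (4 * (dd + 6)) := Nat.mul_le_mul_left _ e2
    obtain ⟨e, he⟩ : ∃ e : ℕ, m = h + e := ⟨m - h, by omega⟩
    have e2 : v ^ 2 ≤ 2 ^ e := by
      have e3 : (v ^ 4) ^ 2 ≤ (2 ^ e) ^ 2 := by
        calc (v ^ 4) ^ 2 = v ^ 8 := by rw [← pow_mul]
          _ ≤ 2 ^ m := hv
          _ ≤ 2 ^ (e * 2) := Nat.pow_le_pow_right (by norm_num) (by omega)
          _ = (2 ^ e) ^ 2 := pow_mul _ _ _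
      have e4 : v ^ 4 ≤ 2 ^ e := (Nat.pow_le_pow_iff_left (by norm_num)).1 e3
      have e5 : v ^ 2 ≤ v ^ 4 := by
        rcases Nat.eq_zero_or_pos v with h0 | h0
        · rw [h0]
          norm_num
        · exact Nat.pow_le_pow_right h0 (by norm_num)
      exact e5.trans e4
    have e3 : 2 * (64 * ((n * R + 1) * 2 ^ h)) ≤ 2 * 2 ^ (2 * h) := by
      calc 2 * (64 * ((n * R + 1) * 2 ^ h)) = 128 * (n * R + 1) * 2 ^ h := by ring
        _ ≤ 2 ^ e * 2 ^ h := Nat.mul_le_mul_right _ (e1.trans e2)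
        _ = 2 ^ (e + h) := (pow_add _ _ _).symm
        _ ≤ 2 ^ (2 * h + 1) := Nat.pow_le_pow_right (by norm_num) (by omega)
        _ = 2 * 2 ^ (2 * h) := by ring
    omega
  · -- the size of `b`
    have e1 : m ^ 2 ≤ w ^ 2 := Nat.pow_le_pow_left hmw 2
    calc 2 * m ^ 2 * (4 * (8 * w * L * (2 * h))) * m ^ 2
        ≤ 2 * w ^ 2 * (32 * w ^ 2 * L) * w ^ 2 :=
          Nat.mul_le_mul (Nat.mul_le_mul (Nat.mul_le_mul_left _ e1) hbb) e1
      _ = w ^ 6 * (64 * L) := by ring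
      _ ≤ w ^ 6 * w := Nat.mul_le_mul_left _ hLw
      _ = w ^ 7 := by ring
      _ ≤ w ^ 12 := Nat.pow_le_pow_right hw1 (by norm_num)
      _ ≤ v := hw12
  · -- the number of the windows
    have e1 : 2 * (6 * Y ^ 2) + 1 ≤ 13 * Y ^ 2 := by
      have e2 : 1 ≤ Y ^ 2 := Nat.one_le_pow _ _ hY1
      omega
    obtain ⟨n₀, hn₀⟩ : ∃ n₀ : ℕ, n₀ = 2 * (6 * Y ^ 2) + 1 := ⟨_, rfl⟩
    rw [← hn₀] at e1 ⊢
    have hn1 : 1 ≤ n₀ := by omega
    have e3 : 43 * X * (n₀ * (4 * n₀)) + n₀ ≤ 173 * (X * n₀ ^ 2) := by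
      have e4 : n₀ ≤ X * n₀ ^ 2 := by
        calc n₀ = 1 * (n₀ * 1) := by ring
          _ ≤ X * (n₀ * n₀) := Nat.mul_le_mul hX1' (Nat.mul_le_mul_left _ hn1)
          _ = X * n₀ ^ 2 := by ring
      have e5 : 43 * X * (n₀ * (4 * n₀)) = 172 * (X * n₀ ^ 2) := by ring
      omega
    have e4 : (w + 3 * L) ^ (4 * (dd + 2)) ≤ 3 * w ^ (4 * (dd + 2)) :=
      pow_add_le w (3 * L) (4 * (dd + 2)) hw1 hdd2
    have e5 : n₀ ^ 2 ≤ 507 * ((n + 1) ^ 4 * w ^ (4 * (dd + 2))) := by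
      calc n₀ ^ 2 ≤ (13 * Y ^ 2) ^ 2 := Nat.pow_le_pow_left e1 2
        _ = 169 * ((n + 1) ^ 4 * ((w + 3 * L) ^ (dd + 2)) ^ 4) := by
            rw [hY]
            ring
        _ = 169 * ((n + 1) ^ 4 * (w + 3 * L) ^ (4 * (dd + 2))) := by
            rw [← pow_mul]
            ring_nf
        _ ≤ 169 * ((n + 1) ^ 4 * (3 * w ^ (4 * (dd + 2)))) :=
            Nat.mul_le_mul_left _ (Nat.mul_le_mul_left _ e4)
        _ = 507 * ((n + 1) ^ 4 * w ^ (4 * (dd + 2))) := by ring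
    have e6 : (n + 1) ^ 5 ≤ 32 * w ^ 5 := by
      calc (n + 1) ^ 5 ≤ (2 * w) ^ 5 := Nat.pow_le_pow_left (by omega) 5
        _ = 32 * w ^ 5 := by ring
    have e7 : 173 * (X * n₀ ^ 2) ≤
        2806752 * (R * (q + 1) ^ c * (w ^ 5 * w ^ (4 * (dd + 2)))) := by
      calc 173 * (X * n₀ ^ 2) ≤ 173 * (X * (507 * ((n + 1) ^ 4 * w ^ (4 * (dd + 2))))) :=
            Nat.mul_le_mul_left _ (Nat.mul_le_mul_left _ e5)
        _ = 87711 * (R * (q + 1) ^ c * ((n + 1) ^ 5 * w ^ (4 * (dd + 2)))) := by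
            rw [hX]
            ring
        _ ≤ 87711 * (R * (q + 1) ^ c * ((32 * w ^ 5) * w ^ (4 * (dd + 2)))) :=
            Nat.mul_le_mul_left _ (Nat.mul_le_mul_left _ (Nat.mul_le_mul_right _ e6))
        _ = 2806752 * (R * (q + 1) ^ c * (w ^ 5 * w ^ (4 * (dd + 2)))) := by ring
    have e8 : 32 * ((m ^ 2) ^ 3 * (4 * (8 * w * L * (2 * h))) ^ 2) ≤ 32768 * (w ^ 10 * L ^ 2) := by
      have e9 : (m ^ 2) ^ 3 ≤ w ^ 6 := by
        rw [← pow_mul]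
        exact Nat.pow_le_pow_left hmw 6
      calc 32 * ((m ^ 2) ^ 3 * (4 * (8 * w * L * (2 * h))) ^ 2)
          ≤ 32 * (w ^ 6 * (32 * w ^ 2 * L) ^ 2) :=
            Nat.mul_le_mul_left _ (Nat.mul_le_mul e9 (Nat.pow_le_pow_left hbb 2))
        _ = 32768 * (w ^ 10 * L ^ 2) := by ring
    have e9 : 91971649536 * L ^ 2 ≤ w := by
      refine le_trans (Nat.mul_le_mul_right _ ?_) hwL
      norm_num
    calc (43 * X * (n₀ * (4 * n₀)) + n₀) * (32 * ((m ^ 2) ^ 3 * (4 * (8 * w * L * (2 * h))) ^ 2))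
        ≤ (2806752 * (R * (q + 1) ^ c * (w ^ 5 * w ^ (4 * (dd + 2))))) *
            (32768 * (w ^ 10 * L ^ 2)) := Nat.mul_le_mul (e3.trans e7) e8
      _ = R * (q + 1) ^ c * (w ^ 15 * w ^ (4 * (dd + 2))) * (91971649536 * L ^ 2) := by ring
      _ ≤ R * (q + 1) ^ c * (w ^ 15 * w ^ (4 * (dd + 2))) * w := Nat.mul_le_mul_left _ e9
      _ = R * (q + 1) ^ c * (w ^ 16 * w ^ (4 * (dd + 2))) := by ring
      _ = R * (q + 1) ^ c * w ^ (4 * (dd + 6)) := by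
          rw [← pow_add]
          congr 2
          ring

end NUMM

/-- **The parameters.** -/
theorem NUM_thm : Stmt_NUM := by
  intro ε hε hε1
  obtain ⟨v₀, hv₀⟩ := Pool.Agent.NBC.num_ev ε hε
  obtain ⟨v₁, hv₁⟩ := NUMM.big (2 ^ 49)
  refine ⟨max v₀ v₁, fun v hv k m w N n q c R dd hvm hmw hk hN hn hR hT => ?_⟩
  obtain ⟨g1, g2, g3, g4⟩ := hv₀ v (le_trans (le_max_left _ _) hv)
  have hB := hv₁ v (le_trans (le_max_right _ _) hv) m hvm
  have hv1 : (1 : ℝ) ≤ v := by exact_mod_cast (by omega : 1 ≤ v)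
  have hv0 : (0 : ℝ) < v := by linarith
  have hNv : (N : ℝ) ≤ (v : ℝ) ^ (2 : ℝ) := by
    have h3 : N ≤ v * v := by
      rw [hN]
      exact (Nat.div_le_self _ _).trans (Nat.mul_le_mul_left _ (Nat.sub_le _ _))
    calc (N : ℝ) ≤ ((v * v : ℕ) : ℝ) := by exact_mod_cast h3
      _ = (v : ℝ) ^ (2 : ℝ) := by
        rw [Real.rpow_two, sq]
        push_cast
        rfl
  have hNe : (N : ℝ) ^ (1 - ε) ≤ (v : ℝ) ^ (2 - 2 * ε) := by
    calc (N : ℝ) ^ (1 - ε) ≤ ((v : ℝ) ^ (2 : ℝ)) ^ (1 - ε) :=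
          Real.rpow_le_rpow (by positivity) hNv (by linarith)
      _ = _ := by
          rw [← Real.rpow_mul hv0.le]
          congr 1
          ring
  have hT2 : R * (q + 1) ^ c * w ^ (4 * (dd + 6)) ≤ v ^ 2 := by
    have h1 : ((R * (q + 1) ^ c * w ^ (4 * (dd + 6)) : ℕ) : ℝ) ≤ ((v ^ 2 : ℕ) : ℝ) := by
      calc ((R * (q + 1) ^ c * w ^ (4 * (dd + 6)) : ℕ) : ℝ) ≤ (N : ℝ) ^ (1 - ε) := hT
        _ ≤ (v : ℝ) ^ (2 - 2 * ε) := hNe
        _ ≤ (v : ℝ) ^ (2 : ℝ) := Real.rpow_le_rpow_of_exponent_le hv1 (by linarith)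
        _ = ((v ^ 2 : ℕ) : ℝ) := by
            rw [Real.rpow_two]
            push_cast
            rfl
    exact_mod_cast h1
  obtain ⟨τ, K, Λ, h, p, b, J, hpar, hb, h1, h2, h3, h4, h5, h6⟩ :=
    NUMM.core hB hvm hmw hn hR hT2
  rw [← hk] at hpar h5 h6
  have hk0 : 0 < k := by
    have := hpar.hk2
    omega
  obtain ⟨Q, A, hA, hw, hQ, hcard⟩ := Pool.Agent.NEG72.params_explicit hb hk0 h5
  refine ⟨τ, K, Λ, h, p, b, J, Q, A, hpar, hb, h1, h2, h3, h4, hA, hw, hQ, ?_⟩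
  have hk3 : (0 : ℝ) < k := by exact_mod_cast hk0
  have hbr : (0 : ℝ) < b := by exact_mod_cast hb
  have e0 : (0 : ℝ) < 32 * ((k : ℝ) ^ 3 * (b : ℝ) ^ 2) * Real.exp (4 * √(Real.log (v : ℝ))) := by
    positivity
  have e1 : ((J * ((2 * τ + 1) * K) + (2 * τ + 1) : ℕ) : ℝ) * (32 * ((k : ℝ) ^ 3 * (b : ℝ) ^ 2)) ≤
      (v : ℝ) ^ (2 - 2 * ε) := by
    calc ((J * ((2 * τ + 1) * K) + (2 * τ + 1) : ℕ) : ℝ) * (32 * ((k : ℝ) ^ 3 * (b : ℝ) ^ 2))
        = (((J * ((2 * τ + 1) * K) + (2 * τ + 1)) * (32 * (k ^ 3 * b ^ 2)) : ℕ) : ℝ) := by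
          push_cast
          ring
      _ ≤ ((R * (q + 1) ^ c * w ^ (4 * (dd + 6)) : ℕ) : ℝ) := by exact_mod_cast h6
      _ ≤ (N : ℝ) ^ (1 - ε) := hT
      _ ≤ (v : ℝ) ^ (2 - 2 * ε) := hNe
  have e2 : ((J * ((2 * τ + 1) * K) + (2 * τ + 1) : ℕ) : ℝ) *
      (32 * ((k : ℝ) ^ 3 * (b : ℝ) ^ 2) * Real.exp (4 * √(Real.log (v : ℝ)))) ≤
      ((Q * A.card : ℕ) : ℝ) *
        (32 * ((k : ℝ) ^ 3 * (b : ℝ) ^ 2) * Real.exp (4 * √(Real.log (v : ℝ)))) := by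
    calc ((J * ((2 * τ + 1) * K) + (2 * τ + 1) : ℕ) : ℝ) *
        (32 * ((k : ℝ) ^ 3 * (b : ℝ) ^ 2) * Real.exp (4 * √(Real.log (v : ℝ))))
        = (((J * ((2 * τ + 1) * K) + (2 * τ + 1) : ℕ) : ℝ) *
          (32 * ((k : ℝ) ^ 3 * (b : ℝ) ^ 2))) * Real.exp (4 * √(Real.log (v : ℝ))) := by ring
      _ ≤ (v : ℝ) ^ (2 - 2 * ε) * (v : ℝ) ^ (ε / 1600) :=
          mul_le_mul e1 g3 (Real.exp_pos _).le (by positivity)
      _ = (v : ℝ) ^ (2 - 2 * ε + ε / 1600) := (Real.rpow_add hv0 _ _).symm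
      _ ≤ (v : ℝ) ^ (2 : ℝ) := Real.rpow_le_rpow_of_exponent_le hv1 (by linarith)
      _ = (v : ℝ) ^ 2 := Real.rpow_two _
      _ ≤ _ := hcard
      _ = _ := mul_comm _ _
  have e3 := le_of_mul_le_mul_right e2 e0
  exact_mod_cast e3

end Pool.Agent.PPH
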