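import Pool.Agent.PPH.Stmts5
import Pool.Agent.PPH.MAW

/-!
# The assembly: PP is not in BPP^PH for circuits whose NOT gates change few times, average-case form (helper1)
-/

set_option autoImplicit false

namespace Pool.Agent.PPH

open Finset Pool.Agent.NegLim Pool.Agent.NLM Pool.Agent.S2C
open Pool.Agent.NPQ (hist)
open Pool.Agent.NBC (SameN St Tests winT)

namespace MAAM

/-- The first part of the potential, from the numbers of the changes which can still come. -/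
theorem exists_nu (hALN : Stmt_ALN) {E : Type} {n G σ A dd : ℕ} (S : Sys E n)
    (hOk : S.OkA G σ A dd) : ∃ ν : (E → Bool) → ℕ, (∀ x, ν x ≤ (n * 2 ^ σ + 1) * A) ∧
      ∀ x x' : E → Bool, (∀ e, x e = true → x' e = true) →
        ν x' ≤ ν x ∧ (ν x' = ν x → S.SN x x') := by
  choose φ hφ1 hφ2 using fun (l : Fin n) (u : Fin (S.s l) → Bool) =>
    hALN E (S.s l) (n + S.t l) A (S.C l) (hOk.alt l) u
  obtain ⟨φD, hD1, hD2⟩ := hALN E 0 n A S.D hOk.altD fun i => i.elim0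
  refine ⟨fun x => (∑ l, ∑ u : Fin (S.s l) → Bool, φ l u x) + φD x, fun x => ?_,
    fun x x' hx => ?_⟩
  · have h1 : ∀ l ∈ (univ : Finset (Fin n)),
        (∑ u : Fin (S.s l) → Bool, φ l u x) ≤ 2 ^ σ * A := by
      intro l _
      have h2 := Finset.sum_le_card_nsmul (univ : Finset (Fin (S.s l) → Bool))
        (fun u => φ l u x) A fun u _ => hφ1 l u x
      rw [Finset.card_univ, Fintype.card_fun, Fintype.card_bool, Fintype.card_fin,
        smul_eq_mul] at h2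
      exact le_trans h2 (Nat.mul_le_mul_right _ (Nat.pow_le_pow_right (by norm_num) (hOk.fst l)))
    have h2 := Finset.sum_le_card_nsmul _ _ _ h1
    rw [Finset.card_univ, Fintype.card_fin, smul_eq_mul] at h2
    calc (∑ l, ∑ u : Fin (S.s l) → Bool, φ l u x) + φD x ≤ n * (2 ^ σ * A) + A :=
          Nat.add_le_add h2 (hD1 x)
      _ = (n * 2 ^ σ + 1) * A := by ring
  · have hle : ∀ l ∈ (univ : Finset (Fin n)), ∀ u ∈ (univ : Finset (Fin (S.s l) → Bool)),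
        φ l u x' ≤ φ l u x := fun l _ u _ => (hφ2 l u x x' hx).1
    have h1 : ∀ l ∈ (univ : Finset (Fin n)),
        (∑ u : Fin (S.s l) → Bool, φ l u x') ≤ ∑ u : Fin (S.s l) → Bool, φ l u x :=
      fun l hl => Finset.sum_le_sum (hle l hl)
    have h2 := Finset.sum_le_sum h1
    have h3 := (hD2 x x' hx).1
    refine ⟨Nat.add_le_add h2 h3, fun h => ?_⟩
    have h : (∑ l, ∑ u : Fin (S.s l) → Bool, φ l u x') + φD x' =
        (∑ l, ∑ u : Fin (S.s l) → Bool, φ l u x) + φD x := h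
    have h4 := (Finset.sum_eq_sum_iff_of_le h1).1 (by omega)
    refine ⟨fun l u => ?_, fun u => ?_⟩
    · exact (hφ2 l u x x' hx).2 ((Finset.sum_eq_sum_iff_of_le (hle l (mem_univ l))).1
        (h4 l (mem_univ l)) u (mem_univ u))
    · have h5 : u = fun i : Fin 0 => i.elim0 := Subsingleton.elim _ _
      rw [h5]
      exact (hD2 x x' hx).2 (by omega)

/-- The sum of the numbers of the strings of witness bits. -/
theorem sum_leA {E : Type} {n G σ A dd : ℕ} (S : Sys E n) (hOk : S.OkA G σ A dd) :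
    ∑ l, 2 ^ S.s l ≤ n * (2 ^ σ * (A + 1)) := by
  have h1 : ∀ l ∈ (univ : Finset (Fin n)), 2 ^ S.s l ≤ 2 ^ σ * (A + 1) := fun l _ =>
    le_trans (Nat.pow_le_pow_right (by norm_num) (hOk.fst l))
      (Nat.le_mul_of_pos_right _ (by omega))
  have h2 := Finset.sum_le_card_nsmul _ _ _ h1
  rwa [card_univ, Fintype.card_fin, smul_eq_mul] at h2

/-- The system has the bounds `Ok` with a huge number `R'`. -/
theorem okR {E : Type} {n G σ A dd W : ℕ} (S : Sys E n) (hOk : S.OkA G σ A dd)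
    (hW : ∀ l, tot (S.bs l) ≤ W) : ∃ R' : ℕ, S.Ok G R' dd W := by
  refine ⟨(∑ l, 2 ^ (S.s l + (S.C l).nots)) + 2 ^ S.D.nots, hOk.nf, hOk.nfD, hOk.sz, hOk.szD,
    fun l => ?_, Nat.le_add_left _ _, hOk.len, hW⟩
  exact le_trans (Finset.single_le_sum (f := fun l => 2 ^ (S.s l + (S.C l).nots))
    (fun l _ => Nat.zero_le _) (mem_univ l)) (Nat.le_add_right _ _)

/-- The number of the values of the potential. -/
theorem bound (n σ A X : ℕ) :
    ((n * 2 ^ σ + 1) * A + 1) * X ≤ (n + 1) * (2 ^ σ * (A + 1)) * X := by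
  apply Nat.mul_le_mul_right
  have h1 : 1 ≤ 2 ^ σ := Nat.one_le_two_pow
  calc (n * 2 ^ σ + 1) * A + 1 ≤ (n * 2 ^ σ + 1) * A + (n * 2 ^ σ + 1) :=
        Nat.add_le_add_left (Nat.le_add_left _ _) _
    _ = (n * 2 ^ σ + 1) * (A + 1) := by ring
    _ ≤ (n * 2 ^ σ + 2 ^ σ) * (A + 1) := Nat.mul_le_mul_right _ (Nat.add_le_add_left h1 _)
    _ = (n + 1) * (2 ^ σ * (A + 1)) := by ring

end MAAM

theorem MAA_thm : Stmt_MAA := by
  classical
  intro hDEG hROR hGAT hQAP hSMO hBIW hUNQ hACW hCOR hSAN hPOT hNGW hLVW hALN hPOA hLOA hCFP hAVW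
    hNUW ε hε hε1
  obtain ⟨v₀, hv₀⟩ := hNUW ε hε hε1
  refine ⟨v₀, fun v hv k m w N n q c σ A dd hvm hmw hk hN hq hnc hnw hR => ?_⟩
  have hR1 : 1 ≤ 2 ^ σ * (A + 1) := Nat.mul_pos (by positivity) (by omega)
  obtain ⟨hw1, τ, K, Λ, h, p, b, J, Q, F, hPar, hb0, hJ0, hJ, h1, h2, h3, hA, hw, hQb, hM⟩ :=
    hv₀ v hv k m w N n q c (2 ^ σ * (A + 1)) dd hvm hmw hk hN hnw hR1 hR
  obtain ⟨M, hMd⟩ : ∃ M : ℕ, M = J * ((2 * τ + 1) * K) + (2 * τ + 1) := ⟨_, rfl⟩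
  rw [← hMd] at hM
  obtain ⟨T, hdis, hcl, hT⟩ := mai_win CN2_thm v k Q b M F hPar.hk2 hb0 hA hw hQb hM
  have hK0 : 0 < K := by have := hPar.hK; omega
  have hτM : τ ≤ M := by omega
  have : Nonempty (Fin k × Fin b → Fin (k - 1)) := ⟨fun _ => ⟨0, by have := hPar.hk2; omega⟩⟩
  have : Nonempty (Fin k → Fin b) := ⟨fun _ => ⟨0, hb0⟩⟩
  obtain ⟨b', hb'⟩ : ∃ b' : Fin M → St (Fin k × Fin b → Fin (k - 1)) (Fin k → Fin b),
      cnt b' = τ := ⟨_, MAIM.cnt_low M τ hτM fun _ => ⟨0, hb0⟩⟩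
  obtain ⟨I, iF, iN, B, hB⟩ := hAVW hCFP M τ K J (8 * w) (Fin k × Fin b → Fin (k - 1))
    (Fin k → Fin b) hK0 hJ0 (le_of_eq hMd.symm)
  refine ⟨I, iF, iN, fun i => T.inp (B i) b', fun S a hbits hOk hRt => ?_⟩
  obtain ⟨R', hOk'⟩ : ∃ R' : ℕ, S.Ok (2 ^ (m / 2)) R' dd (w - n) :=
    MAAM.okR S hOk fun l => by have := hbits l; omega
  obtain ⟨ν, hν1, hν2⟩ := MAAM.exists_nu hALN S hOk
  have hw' : n + (w - n) = w := by omega
  obtain ⟨hp1, hp2⟩ := hPOA hUNQ (Edge v ⊕ Edge v) n q c (2 ^ (m / 2)) R' dd (w - n)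
    ((n * 2 ^ σ + 1) * A) S a ν hOk' hRt hq hnc hν1 hν2
  have hstep := hLOA hDEG hROR hGAT hQAP hSMO hBIW hUNQ hACW hCOR hSAN hPOT hNGW hLVW
    M τ K (2 ^ (m / 2)) Λ k b h p n q c R' dd (w - n) (8 * w) (Edge v) T S a (potN q c ν a) b'
    (by omega) hPar hdis hcl hOk' hRt hq hnc hp2 (by rw [hw']; exact h1) h2
    (le_trans (Nat.mul_le_mul_left _ (Nat.mul_le_mul_right _
      (Nat.add_le_add_right (MAAM.sum_leA S hOk) 1))) h3)
  have hfin := hB ((n + 1) * (2 ^ σ * (A + 1)) * (q + 1) ^ c)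
    (fun B => potN q c ν a (T.inp B b')) _
    (fun B => le_trans (hp1 _) (MAAM.bound n σ A _))
    (fun B B' hB => (hp2 _ _ (mai_inp1 T b' hB)).1) hstep hJ
  refine MAWM.last (Fintype.card_pos) ?_ hfin
  refine Finset.card_le_card fun i hi => ?_
  simp only [Finset.mem_filter] at hi ⊢
  refine ⟨mem_univ _, ?_⟩
  have h5 : More v k (T.inp (B i) b') ↔ τ < cnt (B i) := (hT (B i) b').trans (by rw [hb'])
  exact (hi.2.symm.trans h5 :)

end Pool.Agent.PPH
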