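import Pool.Agent.PPH.DEG
import Pool.Agent.PPH.ROR
import Pool.Agent.PPH.GAT
import Pool.Agent.PPH.QAP
import Pool.Agent.PPH.SMO
import Pool.Agent.PPH.UNQ
import Pool.Agent.PPH.COR
import Pool.Agent.PPH.SAN
import Pool.Agent.PPH.POT
import Pool.Agent.PPH.CFP
import Pool.Agent.PPH.BIW
import Pool.Agent.PPH.ACW
import Pool.Agent.PPH.NGW
import Pool.Agent.PPH.LVW
import Pool.Agent.PPH.AVW
import Pool.Agent.PPH.NUW
import Pool.Agent.PPH.ALN
import Pool.Agent.PPH.ALX
import Pool.Agent.PPH.POA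
import Pool.Agent.PPH.LOA
import Pool.Agent.PPH.MAA
import Pool.Agent.PPH.INP

/-!
# The lower bound of the project PPH, third part: circuits which are chosen at random, alternation number
-/

set_option autoImplicit false

namespace Pool.Agent.PPH

open Finset Pool.Agent.NegLim Pool.Agent.NLM Pool.Agent.S2C
open Pool.Agent.NPQ (hist)

theorem lowerA : LowerA :=
  MAA_thm DEG_thm ROR_thm GAT_thm QAP_thm SMO_thm BIW_thm UNQ_thm ACW_thm COR_thm SAN_thm POT_thm
    NGW_thm LVW_thm ALN_thm POA_thm LOA_thm CFP_thm AVW_thm NUW_thm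

/-- **The lower bound for circuits which are chosen at random**, with the alternation number, written out. -/
theorem lower_alt (ε : ℝ) (hε : 0 < ε) (hε1 : ε ≤ 1) :
    ∃ v₀ : ℕ, ∀ v ≥ v₀, ∀ (k m w N n q c σ A d : ℕ) (Ω : Type) [Finite Ω] [Nonempty Ω]
      (s t : Ω → Fin n → ℕ) (bs : Ω → Fin n → List (Bool × ℕ))
      (ρ : (o : Ω) → (l : Fin n) → Fin (s o l) → ℕ)
      (C : (o : Ω) → (l : Fin n) → NCirc (Edge v ⊕ Edge v) (s o l) (n + t o l))
      (D : Ω → NCirc (Edge v ⊕ Edge v) 0 n)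
      (a : Ω → (Edge v ⊕ Edge v → Bool) → Fin n → Bool),
      v ^ 8 ≤ 2 ^ m → m ≤ w → k = m ^ 2 → N = v * (v - 1) / 2 → 1 ≤ q → n ≤ c * q → n ≤ w →
      ((2 ^ σ * (A + 1) * (q + 1) ^ c * w ^ (4 * (d + 8)) : ℕ) : ℝ) ≤ (N : ℝ) ^ (1 - ε) →
      (∀ o l, (C o l).NotsFree ∧ Alt (C o l) A ∧ s o l ≤ σ ∧ (bs o l).length ≤ d ∧
        n + tot (bs o l) ≤ w ∧ RightQ q (C o l) (bs o l) (ρ o l) l (a o)) →
      (∀ o, (D o).NotsFree ∧ Alt (D o) A) →
      (∀ x, (w + 2) * Nat.card Ω ≤ 2 * w * Nat.card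
        {o : Ω // More v k x ↔ outp (D o) x (fun i => i.elim0) (a o x) = true}) →
      ∃ o, 2 ^ (m / 2) < (D o).gates.length ∨ ∃ l, 2 ^ (m / 2) < (C o l).gates.length := by
  classical
  obtain ⟨v₀, h₀⟩ := lowerA ε hε hε1
  refine ⟨v₀, fun v hv k m w N n q c σ A d Ω _ _ s t bs ρ C D a hvm hmw hk hN hq hn hnw hb hC hD
    hF => ?_⟩
  cases nonempty_fintype Ω
  by_contra hcon
  push Not at hcon
  obtain ⟨I, hI1, hI2, X, hX⟩ := h₀ v hv k m w N n q c σ A d hvm hmw hk hN hq hn hnw hb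
  have h1 : ∀ o : Ω, 2 * w * ((univ : Finset I).filter fun i =>
      (More v k (X i) ↔ outp (D o) (X i) (fun i => i.elim0) (a o (X i)) = true)).card <
      (w + 2) * Fintype.card I := fun o =>
    hX ⟨s o, t o, bs o, ρ o, C o, D o⟩ (a o) (fun l => (hC o l).2.2.2.2.1)
      ⟨fun l => (hC o l).1, (hD o).1, (hcon o).2, (hcon o).1, fun l => (hC o l).2.2.1,
        fun l => (hC o l).2.1, (hD o).2, fun l => (hC o l).2.2.2.1⟩
      fun l => (hC o l).2.2.2.2.2
  have h2 : ∀ i : I, (w + 2) * Fintype.card Ω ≤ 2 * w * ((univ : Finset Ω).filter fun o =>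
      (More v k (X i) ↔ outp (D o) (X i) (fun i => i.elim0) (a o (X i)) = true)).card := by
    intro i
    have h3 := hF (X i)
    rw [Nat.card_eq_fintype_card, Nat.card_eq_fintype_card, Fintype.card_subtype] at h3
    exact h3
  have h3 : ∑ o : Ω, ((univ : Finset I).filter fun i =>
      (More v k (X i) ↔ outp (D o) (X i) (fun i => i.elim0) (a o (X i)) = true)).card =
      ∑ i : I, ((univ : Finset Ω).filter fun o =>
      (More v k (X i) ↔ outp (D o) (X i) (fun i => i.elim0) (a o (X i)) = true)).card := by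
    simp only [Finset.card_filter]
    exact Finset.sum_comm
  have h4 : ∑ o : Ω, 2 * w * ((univ : Finset I).filter fun i =>
      (More v k (X i) ↔ outp (D o) (X i) (fun i => i.elim0) (a o (X i)) = true)).card <
      ∑ _o : Ω, (w + 2) * Fintype.card I :=
    Finset.sum_lt_sum_of_nonempty univ_nonempty fun o _ => h1 o
  rw [← Finset.mul_sum, Finset.sum_const, card_univ, smul_eq_mul, h3] at h4
  have h5 : Fintype.card I * ((w + 2) * Fintype.card Ω) ≤
      2 * w * ∑ i : I, ((univ : Finset Ω).filter fun o =>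
      (More v k (X i) ↔ outp (D o) (X i) (fun i => i.elim0) (a o (X i)) = true)).card := by
    rw [Finset.mul_sum, ← smul_eq_mul (Fintype.card I), ← card_univ (α := I), ← Finset.sum_const]
    exact Finset.sum_le_sum fun i _ => h2 i
  have h6 : Fintype.card I * ((w + 2) * Fintype.card Ω) =
      Fintype.card Ω * ((w + 2) * Fintype.card I) := by ring
  rw [h6] at h5
  exact absurd h4 (not_lt.2 h5)

end Pool.Agent.PPH
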