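import Pool.Agent.PPH.Stmts5
import Pool.Agent.PPH.POT

/-!
# PPH_POA: the potential with an abstract first part (helper9)
-/

set_option autoImplicit false

namespace Pool.Agent.PPH

open Finset Pool.Agent.NegLim Pool.Agent.NLM Pool.Agent.S2C

open POTM in
theorem POA_thm : Stmt_POA := by
  intro hU E n q c G R dd W B S a ν hS ha hq hn hB hν
  have pe : ∀ x, potN q c ν a x = ν x * (q + 1) ^ c + T q c (a x) := fun _ => rfl
  refine ⟨fun x => ?_, fun x x' hx => ?_⟩
  · rw [pe]
    have h2 := T_lt hq hn (a x)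
    have h3 : (ν x + 1) * (q + 1) ^ c ≤ (B + 1) * (q + 1) ^ c :=
      Nat.mul_le_mul_right _ (Nat.succ_le_succ (hB x))
    rw [Nat.add_mul (ν x), Nat.one_mul] at h3
    omega
  · rw [pe, pe]
    obtain ⟨h1, h2⟩ := hν x x' hx
    rcases h1.lt_or_eq with h | h
    · have h3 := T_lt hq hn (a x')
      have h4 : (ν x' + 1) * (q + 1) ^ c ≤ ν x * (q + 1) ^ c := Nat.mul_le_mul_right _ h
      rw [Nat.add_mul, Nat.one_mul] at h4
      constructor
      · omega
      · intro h5
        omega
    · obtain ⟨h3, h4⟩ := T_le hU S a hS ha hq hn hx (h2 h)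
      rw [h]
      refine ⟨by omega, fun h5 => ⟨h2 h, h4 (by omega)⟩⟩

end Pool.Agent.PPH
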