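import Pool.Agent.PPH.Stmts
import Pool.Agent.NPQ.CIR
import Pool.Agent.NPQ.SRC
import Pool.Agent.NPQ.SIM

/-!
# ROU: many rounds are as good as NOT gates, with the answers of project PPH
-/

set_option autoImplicit false

namespace Pool.Agent.PPH

open Finset Pool.Agent.NegLim Pool.Agent.NLM
open Pool.Agent.NPQ (hist)

namespace ROUM

/-- A query without witness bits is right if its output is the answer. -/
theorem rightQ_of_outp {E : Type} {n q : ℕ} (C : NCirc E 0 (n + 0)) (l : Fin n)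
    (a : (E → Bool) → Fin n → Bool)
    (h : ∀ x u w, outp C x u (Fin.append (hist q l (a x)) w) = a x l) :
    RightQ q C [] (fun i => i.elim0) l a := by
  intro x
  unfold AnsQ Qn
  show a x l = true ↔ outp C x (fun i => ([] : List Bool).getD (i.elim0) false)
    (Fin.append (hist q l (a x)) fun j => ([] : List Bool).getD (j : ℕ) false) = true
  rw [h x]

end ROUM

/-- **Many rounds are as good as NOT gates.** -/
theorem ROU_thm : Stmt_ROU := by
  intro E _ c q hq hN
  classical
  have hS : ∀ x : E → Bool, NPQ.ones x < (q + 1) ^ c := by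
    intro x
    have h1 : NPQ.ones x ≤ Fintype.card E := card_le_univ _
    omega
  have hcir := fun l : Fin (c * q) => NPQ.CIR_thm E (c * q) 0 fun d =>
    NPQ.rdv c q d + ((l : ℕ) % q + 1) * (q + 1) ^ (c - 1 - (l : ℕ) / q)
  choose C hC1 hC2 hC3 using hcir
  refine ⟨C, fun x => NPQ.dig c q (NPQ.ones x), fun l => ⟨hC1 l, hC2 l, ?_⟩, fun t D₀ => ?_⟩
  · refine ROUM.rightQ_of_outp (C l) l _ fun x u w => ?_
    rw [Bool.eq_iff_iff, hC3 l x u, (NPQ.SRC_thm c q (NPQ.ones x) hq (hS x)).2 l]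
  · obtain ⟨D, h1, h2, h3⟩ := NPQ.SIM_thm E (c * q) t (NPQ.rdv c q) D₀
    exact ⟨D, h1, h2, fun x u w => h3 x u _ w (NPQ.SRC_thm c q (NPQ.ones x) hq (hS x)).1⟩

end Pool.Agent.PPH
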