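import Pool.Agent.PPH.Defs

/-!
# The statements of the modules of the project PPH (MP_153864_lc, Q1)

PP is not in P^PH (all levels of the polynomial hierarchy, few rounds of queries) for circuits with few
negations. Module `PPH_X`: `theorem Pool.Agent.PPH.X_thm : Stmt_X` in `Pool/Agent/PPH/X.lean`; a statement of
the form `Stmt_A → …` uses `Stmt_A` as a hypothesis. The theorems of the project S2C (`Pool/Agent/S2C/*.lean`,
`X_thm`) can be imported. The whole proof is described in `Pool/Agent/PPH/PAPER.md`.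
-/

set_option autoImplicit false

namespace Pool.Agent.PPH

open Finset Pool.Agent.NegLim Pool.Agent.NLM Pool.Agent.S2C
open Pool.Agent.NPQ (hist)
open Pool.Agent.NBC (SameN St Tests winT)

/-! ### A. polynomials over the field with two elements -/

/-- DEG (120 lines). Polynomials. PROOF. (1) the same coefficients. (2) `c ∅ = z`. (3) `c S = 1`. (4) sum of the
coefficients (`Finset.sum_comm`). (5) `c U = ∑ c₁ S * c₂ T` over the pairs with `S ∪ T = U`
(`|S ∪ T| ≤ D + D'`); `(∀ i ∈ S ∪ T, b i) ↔ …`. (6) induction on `s`, (5). (7) each monomial becomes the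
product of the `1 + x_i` (`1 - z = 1 + z` in `ZMod 2`), (2)-(6). -/
def Stmt_DEG : Prop :=
  (∀ (n D D' : ℕ) (φ : (Fin n → Bool) → ZMod 2), D ≤ D' → Deg n D φ → Deg n D' φ) ∧
  (∀ (n : ℕ) (z : ZMod 2), Deg n 0 fun _ => z) ∧
  (∀ (n : ℕ) (S : Finset (Fin n)), Deg n S.card fun b => if ∀ i ∈ S, b i = true then 1 else 0) ∧
  (∀ (n D : ℕ) (ι : Type) (s : Finset ι) (φ : ι → (Fin n → Bool) → ZMod 2),
    (∀ i ∈ s, Deg n D (φ i)) → Deg n D fun b => ∑ i ∈ s, φ i b) ∧
  (∀ (n D D' : ℕ) (φ ψ : (Fin n → Bool) → ZMod 2), Deg n D φ → Deg n D' ψ →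
    Deg n (D + D') fun b => φ b * ψ b) ∧
  (∀ (n : ℕ) (ι : Type) (s : Finset ι) (D : ι → ℕ) (φ : ι → (Fin n → Bool) → ZMod 2),
    (∀ i ∈ s, Deg n (D i) (φ i)) → Deg n (∑ i ∈ s, D i) fun b => ∏ i ∈ s, φ i b) ∧
  (∀ (n D : ℕ) (φ : (Fin n → Bool) → ZMod 2), Deg n D φ → Deg n D fun b => φ fun i => !(b i))

open Classical in
/-- ROR (80 lines). Razborov's random parities. PROOF. Let `N = 2 ^ |I|` be the number of the subsets. For a
fixed `x` with `φ i₀ x = true` exactly half of the subsets `T` have `∑_{i ∈ T} [φ i x] = 0` (the bijection `T ↦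
symmDiff T {i₀}` changes the sum by `1`; `Finset.insert`/`erase` of `i₀`), so `2 ^ H` times the number of the
functions `T : Fin H → Finset I` with all `H` sums `0` is `N ^ H` (`Fintype.card_pi`/`Fintype.piFinset`). Sum
over `x` (`Finset.sum_comm`): the mean over `T` of the number of bad `x` is at most `|X| / 2 ^ H`. -/
def Stmt_ROR : Prop :=
  ∀ (I X : Type) [Fintype I] [Fintype X] (φ : I → X → Bool) (H : ℕ),
    ∃ T : Fin H → Finset I, 2 ^ H * ((univ : Finset X).filter fun x => (∃ i, φ i x = true) ∧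
      ∀ j, (∑ i ∈ T j, if φ i x = true then (1 : ZMod 2) else 0) = 0).card ≤ Fintype.card X

/-- GAT (150 lines). One gate. PROOF. Let `φ i` be the polynomial of `f i`, `Bad i` its exceptional set. ROR for
`X = Fin n → Bool` and `decide (φ i b = 1)` gives `T`; `ψ b = 1 - ∏_j (1 - ∑_{i ∈ T j} φ i b)` has degree at most
`D * H` (DEG). In `ZMod 2` every value is `0` or `1` (`Fin.cases`/`decide`): if no `φ i b = 1` then `ψ b = 0`; if
some `φ i b = 1` then `ψ b = 1` unless `b` is in the set of ROR. So the exceptional set is in the union of the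
`Bad i` and the set of ROR. For the conjunction: `¬ ∃ i, ¬ f i`, the polynomials `1 - φ i` and `1 - ψ`. -/
def Stmt_GAT : Prop := Stmt_DEG → Stmt_ROR →
  ∀ (n D H : ℕ) (I : Type) [Fintype I] (N : I → ℕ) (f : I → (Fin n → Bool) → Prop),
    (∀ i, Apx n D (N i) H (f i)) →
    Apx n (D * H) (∑ i, N i + 1) H (fun b => ∃ i, f i b) ∧
    Apx n (D * H) (∑ i, N i + 1) H (fun b => ∀ i, f i b)

/-- QAP (100 lines). Quantifiers. PROOF. (1) Induction on `bs` (for all `f`): for `(κ, b') :: bs` GAT with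
`I = Fin b' → Bool` and the constant `(N + bs.length) * 2 ^ tot bs`; the number is `2 ^ b' * ((N + bs.length) *
2 ^ tot bs) + 1 ≤ (N + bs.length + 1) * 2 ^ (b' + tot bs)` (`Apx` is monotone in the number), the degree
`D * H ^ bs.length * H`. (2) GAT with `I` = the subtype of `A`; the functions `∀ i ∈ S, b i = true` are
polynomials of degree at most `w` without exceptions (DEG (3), (1)). -/
def Stmt_QAP : Prop := Stmt_DEG → Stmt_ROR → Stmt_GAT →
  (∀ (n D H N : ℕ) (bs : List (Bool × ℕ)) (f : List Bool → (Fin n → Bool) → Prop),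
    (∀ l, l.length = tot bs → Apx n D N H (f l)) →
    Apx n (D * H ^ bs.length) ((N + bs.length) * 2 ^ tot bs) H fun b => Qn bs fun l => f l b) ∧
  ∀ (n w H : ℕ) (f : (Fin n → Bool) → Prop), DNF n w f → Apx n (w * H) 1 H f

/-- SMO (200 lines). Smolensky's argument for majority. PROOF. (a) For every `g : (Fin n → Bool) → ZMod 2` and
`τ` there is a polynomial of degree at most `τ` which is `g` at all `b` with at most `τ` ones: identify `b`
with the set `B` of its ones; `c S = ∑_{T ⊆ S} g T` for `|S| ≤ τ`, `0` otherwise; at `B` with `|B| ≤ τ` the value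
is `∑_{S ⊆ B} ∑_{T ⊆ S} g T = ∑_{T ⊆ B} g T * 2 ^ (|B| - |T|) = g B` in `ZMod 2`. (b) For `n = 2 τ + 1`: by
DEG (7) there is also a polynomial of degree at most `τ` which is `g` at all `b` with more than `τ` ones. (c) Let
`X` be the set of the `b` with `φ b = 1 ↔ τ < ones b`. For every `g` the polynomial `φ p₁ + (1 - φ) p₀` has
degree at most `Δ + τ` and is `g` on `X`. So the map from the coefficients (functions on the `S` with
`|S| ≤ τ + Δ`) to the functions `X → ZMod 2` is surjective, `2 ^ |X| ≤ 2 ^ (number of the S)`. -/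
def Stmt_SMO : Prop := Stmt_DEG →
  ∀ (τ Δ : ℕ) (φ : (Fin (2 * τ + 1) → Bool) → ZMod 2), Deg (2 * τ + 1) Δ φ →
    ((univ : Finset (Fin (2 * τ + 1) → Bool)).filter fun b =>
      φ b = 1 ↔ τ < ones b).card ≤
    ((univ : Finset (Finset (Fin (2 * τ + 1)))).filter fun S => S.card ≤ τ + Δ).card

/-- BIN (100 lines). PROOF. The number of the `S` with `|S| ≤ τ` is `4 ^ τ` (`Nat.sum_range_choose_halfway`;
`Finset.card_powersetCard`), with `τ < |S| ≤ τ + Δ` at most `Δ * C`, `C = (2 τ + 1).choose τ`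
(`Nat.choose_le_centralBinom` / `Nat.choose_le_middle`). With `m = τ + 1`: `2 * C = Nat.centralBinom m`
(`Nat.choose` symmetry and Pascal) and `(Nat.centralBinom m) ^ 2 * (3 * m + 1) ≤ 16 ^ m` by induction
(`Nat.succ_mul_centralBinom_succ`: `(m + 1) cb (m + 1) = 2 (2 m + 1) cb m`, and
`(2 m + 1) ^ 2 (3 m + 4) ≤ 4 (m + 1) ^ 2 (3 m + 1)`). So `(2 Δ C) ^ 2 (3 τ + 4) ≤ Δ ^ 2 16 ^ (τ + 1)`, with
`16 Δ ^ 2 ≤ 3 τ + 4`: `2 Δ C ≤ 4 ^ τ`, and `4 (4 ^ τ + Δ C) ≤ 3 * 2 ^ (2 τ + 1)`. -/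
def Stmt_BIN : Prop :=
  ∀ τ Δ : ℕ, 16 * Δ ^ 2 ≤ 3 * τ + 4 →
    4 * ((univ : Finset (Finset (Fin (2 * τ + 1)))).filter fun S => S.card ≤ τ + Δ).card ≤
      3 * 2 ^ (2 * τ + 1)

/-- UNQ (40 lines). The answers in rounds are unique; monotonicity of the quantifiers. PROOF. (1) Strong
induction on `l`: `hist q l α` depends only on the `α i` with `i < l / q * q ≤ l`. (2) Induction on `bs` (the
strings have the length `tot bs`). -/
def Stmt_UNQ : Prop :=
  (∀ (n q : ℕ) (R : Fin n → (Fin n → Bool) → Prop) (α β : Fin n → Bool),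
    (∀ l, α l = true ↔ R l (hist q l α)) → (∀ l, β l = true ↔ R l (hist q l β)) → α = β) ∧
  ∀ (bs : List (Bool × ℕ)) (R R' : List Bool → Prop),
    (∀ l, l.length = tot bs → R l → R' l) → Qn bs R → Qn bs R'

open Classical in
/-- ACM (250 lines). Answers of the polynomial hierarchy in rounds over narrow DNFs do not compute majority.
PROOF. Let `n₀ = 2 τ + 1`. QAP (2) and (1) with `H = Λ` give for every `l`, `d` a polynomial `φ l d` of degree at
most `Λ * Λ * Λ ^ dd = Λ ^ (dd + 2)` for the function `Qn (bs l) (h l d · b)` with the number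
`(1 + dd) * 2 ^ W`, and `ψ d` of degree `Λ ^ 2` for `hD d` with the number `1`. Let `E` be the union of all
exceptional sets: `2 ^ Λ * |E| ≤ 2 ^ n * (n * ((1 + dd) * 2 ^ W) + 1) * 2 ^ n₀ ≤ (dd + 2) (n + 1) 2 ^ (n + W)
2 ^ n₀`, so `16 |E| ≤ 2 ^ n₀`. Let `G b = ∑_d (∏_l (if d l = true then φ l (hist q l d) b else
1 - φ l (hist q l d) b)) * ψ d b`, degree at most `n Λ ^ (dd + 2) + Λ ^ 2 ≤ (n + 1) Λ ^ (dd + 2) = Δ`. For
`b ∈ X`, `b ∉ E`: the product for `d` is `1` iff `d l = true ↔ Qn (bs l) (h l (hist q l d) · b)` for all `l`,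
otherwise `0`; by UNQ (1) only for `d = α b`; so `G b = ψ (α b) b`, which is `1` iff `τ < ones b`. SMO and BIN
(`16 Δ ^ 2 ≤ 18 Δ ^ 2 ≤ 3 τ`): `4 |X \ E| ≤ 3 * 2 ^ n₀`, so `16 |X| ≤ 13 * 2 ^ n₀`. -/
def Stmt_ACM : Prop := Stmt_DEG → Stmt_ROR → Stmt_GAT → Stmt_QAP → Stmt_SMO → Stmt_BIN → Stmt_UNQ →
  ∀ (τ n q dd W Λ : ℕ) (bs : Fin n → List (Bool × ℕ))
    (h : Fin n → (Fin n → Bool) → List Bool → (Fin (2 * τ + 1) → Bool) → Prop)
    (hD : (Fin n → Bool) → (Fin (2 * τ + 1) → Bool) → Prop)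
    (α : (Fin (2 * τ + 1) → Bool) → Fin n → Bool) (X : Finset (Fin (2 * τ + 1) → Bool)),
    1 ≤ Λ → (∀ l, (bs l).length ≤ dd) → (∀ l, tot (bs l) ≤ W) →
    (∀ l d r, r.length = tot (bs l) → DNF (2 * τ + 1) Λ (h l d r)) →
    (∀ d, DNF (2 * τ + 1) Λ (hD d)) →
    (∀ b ∈ X, (∀ l, α b l = true ↔ Qn (bs l) fun r => h l (hist q l (α b)) r b) ∧
      (hD (α b) b ↔ τ < ones b)) →
    16 * ((dd + 2) * (n + 1) * 2 ^ (n + W)) ≤ 2 ^ Λ → 6 * ((n + 1) * Λ ^ (dd + 2)) ^ 2 ≤ τ →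
    8 * X.card ≤ 7 * 2 ^ (2 * τ + 1)

/-! ### B. the sandwich -/

open Classical in
/-- COR (200 lines). THE CORE, for fixed bits `β`. If `f` accepts all inputs `sP β y`, `y ∈ P`, and `P` is fixed on
the cells `I` and spread outside, then for `y0 ∈ P` it accepts almost all inputs `sR (I ∩ β) y0 χ`. PROOF.
Compare `S2C/KXA.lean` and part (5) of KXC (`S2C/KXC.lean`). Let `|Y| = K b ^ k`, `P'' = {y ∈ P | ∀ c ∉ I, (y c).1 ≠
(y0 c).1}`. By the hypothesis for `J = {c}` the part of `P` with `y c = (κ, τ)` is at most `2 / |Y|`, so (sum over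
`τ`) the part with `(y c).1 = (y0 c).1` is at most `2 / K`, and `2 n / K ≤ 1 / 2` (`Par3.hK`): `|P''| ≥ |P| / 2 > 0`.
For `J ≠ ∅`, disjoint from `I`: `#{y ∈ P'' | y = u on J} * |Y| ^ |J| ≤ 2 ^ |J| |P| ≤ 2 ^ (|J| + 1) |P''| ≤
K ^ |J| |P''|`; so `S2C.CND_thm` applies to `P''`. Let `D` = the windows `(c, j)` with `c ∉ I`, `j ≠ (y0 c).1`, and
`f' z = f (z or T.xin v_I)`, `v_I` = the state with the positive tests `(v c).2` in the windows `(c, (v c).1)`,
`c ∈ I`, `β c = true`, and `emp` elsewhere (`MonSize.comp`, `IsProj`). For `y ∈ P''` the input `T.xin (sP β y)` is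
the union of `T.xin v_I` and the positive tests of the cells `c ∉ I` with `β c = true`, which are in windows of
`D`; so `f'` accepts the positive test `pos y w` := `some (y c).2` for `w = (c, (y c).1)`, `c ∉ I`, `β c = true`,
and `none` otherwise. For every `χ` the union of the neutral tests `χ` in the windows of `D` and of
`T.xin v_I` is below `T.xin (sR … y0 χ)` (`y0 = v` on `I`), so `f (T.xin (sR … y0 χ)) = false` implies that `f'` is
`false` at the neutral tests (`MonSize.monotone`). `S2C.APS_thm` (a) with `W = Fin n × Fin K` and the subtype of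
`P''` (all accepted; the condition for the sets is CND, with more conditions for `y`): the number of these `χ`
times `2 ^ p` is at most `G * (4 * (p * (2 * h)) ^ (4 * h))` times the number of all `χ`; then `Par3.hp2`. -/
def Stmt_COR : Prop :=
  ∀ (n K G Λ k b h p : ℕ) (E : Type)
    (T : Tests (Fin n × Fin K) E (Fin k × Fin b → Fin (k - 1)) (Fin k → Fin b))
    (f : (E → Bool) → Bool), Par3 n K G Λ k b h p → T.Dis → CliqueLike T → MonSize f G →
    ∀ (β : Fin n → Bool) (I : Finset (Fin n)) (v y0 : Fin n → Fin K × (Fin k → Fin b))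
      (P : Finset (Fin n → Fin K × (Fin k → Fin b))), y0 ∈ P →
      (∀ y ∈ P, (∀ c ∈ I, y c = v c) ∧ f (T.xin (sP β y)) = true) →
      (∀ (J : Finset (Fin n)) (u : Fin n → Fin K × (Fin k → Fin b)), Disjoint J I →
        (P.filter fun y => ∀ c ∈ J, y c = u c).card *
          Fintype.card (Fin K × (Fin k → Fin b)) ^ J.card ≤ 2 ^ J.card * P.card) →
      2 ^ Λ * ((univ : Finset (Fin n × Fin K → Fin k × Fin b → Fin (k - 1))).filter
          fun χ => f (T.xin (sR (I.filter fun c => β c = true) y0 χ)) = false).card ≤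
        Fintype.card (Fin n × Fin K → Fin k × Fin b → Fin (k - 1))

open Classical in
/-- SAN (150 lines). THE SANDWICH: a small monotone function is, for every `y`, between narrow DNFs in the bits
`β`. PROOF. Let `good S y` := `2 ^ Λ * #{χ | f (T.xin (sR S y χ)) = false} ≤ #χ`, and `H y β` := there is `S` with
`|S| ≤ Λ`, `β = true` on `S`, `good S y`: for fixed `y` a DNF. Second kind of the triples `(β, y, χ)`: let `H y β`;
`T.xin (sR S y χ)` is below `T.xin (sQ β y χ)` (for `S` in `β`), so for these `(β, y)` the number of the `χ` with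
`f (sQ β y χ) = false` is at most `2 ^ (-Λ) #χ`. First kind, for fixed `β`: let `P₀` be the set of the `y` with
`f (T.xin (sP β y)) = true`, `¬ H y β`. Suppose `2 ^ Λ * |P₀| > |Y| ^ n`. `S2C.SPR_thm` with `B = 2 ^ Λ` gives `I`,
`v`, `P = {y ∈ P₀ | y = v on I}`, not empty, `|I| ≤ Λ`. Take `y0 ∈ P`; by COR `S = I ∩ β` is good for `y0`, so
`H y0 β`, a contradiction. So the first kind has at most `2 ^ (-Λ)` of all triples. -/
def Stmt_SAN : Prop := Stmt_COR →
  ∀ (n K G Λ k b h p : ℕ) (E : Type)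
    (T : Tests (Fin n × Fin K) E (Fin k × Fin b → Fin (k - 1)) (Fin k → Fin b))
    (f : (E → Bool) → Bool), Par3 n K G Λ k b h p → T.Dis → CliqueLike T → MonSize f G →
    ∃ H : (Fin n → Fin K × (Fin k → Fin b)) → (Fin n → Bool) → Prop, (∀ y, DNF n Λ (H y)) ∧
      2 ^ Λ * ((univ : Finset ((Fin n → Bool) × (Fin n → Fin K × (Fin k → Fin b)) ×
          (Fin n × Fin K → Fin k × Fin b → Fin (k - 1)))).filter fun z =>
        (f (T.xin (sP z.1 z.2.1)) = true ∧ ¬ H z.2.1 z.1) ∨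
          (H z.2.1 z.1 ∧ f (T.xin (sQ z.1 z.2.1 z.2.2)) = false)).card ≤
        2 * Fintype.card ((Fin n → Bool) × (Fin n → Fin K × (Fin k → Fin b)) ×
          (Fin n × Fin K → Fin k × Fin b → Fin (k - 1)))

/-! ### C. circuits -/

/-- POT (250 lines). The potential. PROOF. `NotsFree` and `S2C.MN2_thm`, `NBC.MNT_thm`. (1) `num < 2 ^ nots`
(`num_lt`), so the sum of the numbers is at most `∑ l, 2 ^ s (2 ^ nots - 1) + 2 ^ nots - 1 ≤ (n + 1) (R - 1)`; the
second sum is at most `∑_{j < c} q (q + 1) ^ (c - 1 - j) = (q + 1) ^ c - 1` (the queries of the round `j = l / q`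
are at most `q`, and `l / q < c` as `n ≤ c q`). (2) Let `x ≤ x'`. By `num_le` the numbers do not grow; if one
drops, the first sum drops by at least `1`, times `(q + 1) ^ c`, which is more than the second sum can grow; so
the potential drops. Otherwise all numbers are the same, so `S.SN x x'` (`num_inj`; `SameN` is the same with the
last witness bits `false`; for `D` the functions `Fin 0 → Bool` are equal). Suppose the answers are different,
let `j` be the first round with different answers; for the queries `l` of this round `hist q l (a x) =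
hist q l (a x')`, so `a x l → a x' l` (with equal NOT gates `outp` grows, `NBC.MNT_thm`, and `Qn` is monotone,
UNQ (2)); so the terms of the round `j` drop by at least `(q + 1) ^ (c - 1 - j)`, the terms of the earlier
rounds do not change and the terms of the later rounds grow by at most `(q + 1) ^ (c - 1 - j) - 1`. (3) `SameN`
for `x ≤ x' ≤ x''`: MN2 (2). (4) from the definition. -/
def Stmt_POT : Prop := Stmt_UNQ →
  ∀ (E : Type) (n q c G R dd W : ℕ) (S : Sys E n) (a : (E → Bool) → Fin n → Bool),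
    S.Ok G R dd W → S.Right q a → 1 ≤ q → n ≤ c * q →
    (∀ x, S.pot q c a x ≤ (n + 1) * R * (q + 1) ^ c) ∧
    (∀ x x' : E → Bool, (∀ e, x e = true → x' e = true) → S.pot q c a x' ≤ S.pot q c a x ∧
      (S.pot q c a x' = S.pot q c a x → S.SN x x' ∧ a x = a x')) ∧
    (∀ x x' x'' : E → Bool, (∀ e, x e = true → x' e = true) → (∀ e, x' e = true → x'' e = true) →
      S.SN x x'' → S.SN x x') ∧
    (∀ x x' x'' : E → Bool, S.SN x x' → S.SN x' x'' → S.SN x x'')

open Classical in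
/-- NGB (150 lines). The NOT gates at the positive tests, as the first bound of `S2C.StepX` (`S2C/STQ.lean`,
whose lemmas can be used). PROOF. If `4 #{χ | …} ≥ |χ|` nothing is to show. Otherwise `S2C.GVL_thm` for all circuits
at `R = T.inp a b'` gives monotone functions `h i u`, `i = some l` or `none` (for `D`), `Mx = (Σ l, Fin (S.s l) →
Bool) ⊕ Unit` (at most `∑ l, 2 ^ S.s l + 1` elements), `S2C.NXC_thm` with `Par` for `d = ι = 0`, `B = 1`
(`Par3.hn`: `4 i ≤ n` for `2 ^ i ≤ 2`). -/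
def Stmt_NGB : Prop :=
  ∀ (M n₀ K G Λ k b h p n R dd W : ℕ) (E : Type)
    (T : Tests (Fin M) E (Fin k × Fin b → Fin (k - 1)) (Fin k → Fin b)) (S : Sys (E ⊕ E) n),
    Par3 n₀ K G Λ k b h p → T.Dis → CliqueLike T → S.Ok G R dd W →
    64 * ((∑ l, 2 ^ S.s l + 1) * G) ≤ 2 ^ (2 * h) →
    ∀ (a b' : Fin M → St (Fin k × Fin b → Fin (k - 1)) (Fin k → Fin b))
      (e : Fin n₀ × Fin K → Fin M), Function.Injective e → (∀ x, a (e x) = St.emp) →
      (((univ : Finset (Fin n₀ → Fin K × (Fin k → Fin b))).filter fun y =>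
          ¬ S.SN (T.inp a b') (T.inp (put e (sA y) a) b')).card : ℝ) ≤
        (4 * (((univ : Finset (Fin n₀ × Fin K → Fin k × Fin b → Fin (k - 1))).filter fun χ =>
          ¬ S.SN (T.inp a b') (T.inp (put e (sN χ) a) b')).card : ℝ) /
            Fintype.card (Fin n₀ × Fin K → Fin k × Fin b → Fin (k - 1)) + 1 / 64) *
          Fintype.card (Fin n₀ → Fin K × (Fin k → Fin b))

open Classical in
/-- LVS (200 lines). The sandwich for all witnesses of all circuits. PROOF. Let `R = T.inp A b'`. The tests of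
the cells `T' = ⟨fun x => T.B (e x), fun x => T.neu (e x), fun x => T.pos (e x)⟩` and the substitution `σ` with
`T.inp (put e st A) b' = σ (T'.xin st)` as in `S2C/STQ.lean`. `S2C.GVL_thm` for every circuit at `R` gives `f p`;
SAN for the function `f p ∘ σ`, for every `l`, `d`, `r` (`r` of the length `tot (bs l)`) with `p` = the witness of
`AnsQ`, and for `D` and every `d`. The inputs are above `R`; if the NOT gates are the same as at `R` the output
is `f p (…)`. `Bad` = the union of the exceptional sets, at most `2 ^ n * (n * 2 ^ W + 1) ≤ (n + 1) * 2 ^ (n + W)`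
sets: `2 ^ Λ * |Bad| ≤ 2 * ((n + 1) * 2 ^ (n + W)) * |all|`. For other `r` take `h l d r y = False` (a DNF). -/
def Stmt_LVS : Prop := Stmt_COR → Stmt_SAN →
  ∀ (M n₀ K G Λ k b h p n R dd W : ℕ) (E : Type)
    (T : Tests (Fin M) E (Fin k × Fin b → Fin (k - 1)) (Fin k → Fin b)) (S : Sys (E ⊕ E) n),
    Par3 n₀ K G Λ k b h p → T.Dis → CliqueLike T → S.Ok G R dd W →
    128 * ((n + 1) * 2 ^ (n + W)) ≤ 2 ^ Λ →
    ∀ (A b' : Fin M → St (Fin k × Fin b → Fin (k - 1)) (Fin k → Fin b))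
      (e : Fin n₀ × Fin K → Fin M), Function.Injective e → (∀ x, A (e x) = St.emp) →
    ∃ (h : Fin n → (Fin n → Bool) → List Bool → (Fin n₀ → Fin K × (Fin k → Fin b)) →
        (Fin n₀ → Bool) → Prop)
      (hD : (Fin n → Bool) → (Fin n₀ → Fin K × (Fin k → Fin b)) → (Fin n₀ → Bool) → Prop)
      (Bad : Finset ((Fin n₀ → Bool) × (Fin n₀ → Fin K × (Fin k → Fin b)) ×
        (Fin n₀ × Fin K → Fin k × Fin b → Fin (k - 1)))),
      (∀ l d r y, DNF n₀ Λ (h l d r y)) ∧ (∀ d y, DNF n₀ Λ (hD d y)) ∧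
      64 * Bad.card ≤ Fintype.card ((Fin n₀ → Bool) × (Fin n₀ → Fin K × (Fin k → Fin b)) ×
        (Fin n₀ × Fin K → Fin k × Fin b → Fin (k - 1))) ∧
      ∀ z, z ∉ Bad → S.SN (T.inp A b') (T.inp (put e (sP z.1 z.2.1) A) b') →
        S.SN (T.inp A b') (T.inp (put e (sQ z.1 z.2.1 z.2.2) A) b') →
        (∀ l d r, r.length = tot (S.bs l) →
          (outp (S.C l) (T.inp (put e (sP z.1 z.2.1) A) b') (fun i => r.getD (S.ρ l i) false)
              (Fin.append d fun j => r.getD j false) = true → h l d r z.2.1 z.1) ∧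
          (h l d r z.2.1 z.1 →
            outp (S.C l) (T.inp (put e (sQ z.1 z.2.1 z.2.2) A) b')
              (fun i => r.getD (S.ρ l i) false) (Fin.append d fun j => r.getD j false) = true)) ∧
        (∀ d, (outp S.D (T.inp (put e (sP z.1 z.2.1) A) b') (fun i => i.elim0) d = true →
            hD d z.2.1 z.1) ∧
          (hD d z.2.1 z.1 →
            outp S.D (T.inp (put e (sQ z.1 z.2.1 z.2.2) A) b') (fun i => i.elim0) d = true))

open Classical in
/-- The bound for one step: the potential `Φ` changes with a positive probability. -/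
def StepL {M : ℕ} {Xn Xp : Type} [Fintype Xn] [Fintype Xp] (n K : ℕ)
    (Φ : (Fin M → St Xn Xp) → ℕ) : Prop :=
  ∀ (A : Fin M → St Xn Xp) (e : Fin n × Fin K → Fin M), Function.Injective e →
    (∀ x, A (e x) = St.emp) → cnt A = 0 →
    3 * Fintype.card ((Fin n → Bool) × (Fin n → Fin K × Xp) × (Fin n × Fin K → Xn)) ≤
      64 * (((univ : Finset ((Fin n → Bool) × (Fin n → Fin K × Xp) ×
          (Fin n × Fin K → Xn))).filter fun z =>
          Φ (put e (sP z.1 z.2.1) A) ≠ Φ (put e (sQ z.1 z.2.1 z.2.2) A)).card +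
        Fintype.card ((Fin n → Bool) × (Fin n → Fin K × Xp)) *
          ((univ : Finset (Fin n × Fin K → Xn)).filter fun χ =>
            Φ A ≠ Φ (put e (sN χ) A)).card)

/-- LOC (300 lines). ONE STEP. PROOF. Let `Φ A = S.pot q c a (T.inp A b')`, `n₀ = 2 τ + 1`, `R = T.inp A b'`,
`x = T.inp (put e (sP β y) A) b'`, `x' = T.inp (put e (sQ β y χ) A) b'`, `A_y = T.inp (put e (sA y) A) b'`; `T.inp`
is monotone in the first argument for `Sb` (see `S2C/MAI.lean`), `R ≤ x ≤ A_y`, `x ≤ x'`, `cnt` of the two states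
is `ones β`. LVS gives `h`, `hD`, `Bad`. Fix `(y, χ)` with `S.SN R A_y` and let `X` be the set of the `β` with
`(β, y, χ) ∉ Bad` and `Φ (sP …) = Φ (sQ …)`. For `β ∈ X`: by POT `S.SN x x'` and `a x = a x' =: α β`, `S.SN R x` (3),
`S.SN R x'` (4). For every `l` (with `d = hist q l (α β)`): `α β l = a x l`, `AnsQ … x`, the sandwich and UNQ (2)
give `Qn (bs l) (h l d · y β)`, and from this `AnsQ … x'`, `a x' l = true`. In the same way
`F x → hD (α β) y β → F x'`, and `F x ↔ τ < ones β ↔ F x'`. ACM: `8 |X| ≤ 7 * 2 ^ n₀`, so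
`2 ^ n₀ ≤ 8 #{β | (β, y, χ) ∈ Bad or Φ (sP …) ≠ Φ (sQ …)}`. Sum over the `(y, χ)` with `S.SN R A_y`; with
`t = 2 ^ n₀ |y| |χ|` (all triples), `g = #{(β, y, χ) | Φ (sP …) ≠ Φ (sQ …)}`, `m = #{χ | Φ A ≠ Φ (sN χ)}`, and by NGB
`#{y | ¬ S.SN R A_y} ≤ (4 m / |χ| + 1 / 64) |y|` (`¬ S.SN R (sN χ)` implies `Φ A ≠ Φ (sN χ)` by POT): `t - 4 m 2 ^ n₀ |y|
- t / 64 ≤ 8 (t / 64 + g)`, so `55 t ≤ 64 (8 g + 4 m 2 ^ n₀ |y|)`. -/
def Stmt_LOC : Prop := Stmt_DEG → Stmt_ROR → Stmt_GAT → Stmt_QAP → Stmt_SMO → Stmt_BIN → Stmt_UNQ →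
  Stmt_ACM → Stmt_COR → Stmt_SAN → Stmt_POT → Stmt_NGB → Stmt_LVS →
  ∀ (M τ K G Λ k b h p n q c R dd W : ℕ) (E : Type)
    (T : Tests (Fin M) E (Fin k × Fin b → Fin (k - 1)) (Fin k → Fin b)) (S : Sys (E ⊕ E) n)
    (a : (E ⊕ E → Bool) → Fin n → Bool) (F : (E ⊕ E → Bool) → Prop)
    (b' : Fin M → St (Fin k × Fin b → Fin (k - 1)) (Fin k → Fin b)),
    Par3 (2 * τ + 1) K G Λ k b h p → T.Dis → CliqueLike T → S.Ok G R dd W → S.Right q a →
    1 ≤ q → n ≤ c * q → (∀ x, F x ↔ outp S.D x (fun i => i.elim0) (a x) = true) →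
    (∀ A : Fin M → St (Fin k × Fin b → Fin (k - 1)) (Fin k → Fin b), F (T.inp A b') ↔ τ < cnt A) →
    128 * ((dd + 2) * (n + 1) * 2 ^ (n + W)) ≤ 2 ^ Λ → 6 * ((n + 1) * Λ ^ (dd + 2)) ^ 2 ≤ τ →
    64 * ((∑ l, 2 ^ S.s l + 1) * G) ≤ 2 ^ (2 * h) →
    StepL (2 * τ + 1) K fun A => S.pot q c a (T.inp A b')

/-! ### D. the random chain -/

/-- CFP (200 lines). The configurations `conf` and the cells, for a part `β` of the cells. PROOF. As CFA (1), (2)
of S2C (`S2C/CFA.lean`, whose lemmas can be used): let `σ` be the permutation which exchanges the role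
`g + c K + κ c` with the role `m + ρ c` for all `c` with `β c = true`, `ρ` an enumeration of these `c` by the
numbers below `ones β`, and fixes all other roles (these `2 ones β` roles are different). The window `w` has in
`ω' = (ω.1 * σ, ω.2)` the role `σ.symm (ω.1.symm w)`. -/
def Stmt_CFP : Prop :=
  ∀ (M n K m g : ℕ) (Xn Xp : Type) (hM : g + n * K ≤ M), 0 < n → 0 < K → g + n * K ≤ m →
    m + n ≤ M → ∀ (κ : Fin n → Fin K) (β : Fin n → Bool), ∃ σ : Equiv.Perm (Fin M),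
      ∀ ω : Ply M Xn Xp,
        put (cel hM ω) (sP β fun c => (κ c, ω.2.2 (cel hM ω (c, κ c)))) (conf m ω g 0) =
          conf m (ω.1 * σ, ω.2) g (ones β) ∧
        Sb (conf m (ω.1 * σ, ω.2) g (ones β))
          (put (cel hM ω) (sQ β (fun c => (κ c, ω.2.2 (cel hM ω (c, κ c))))
            fun x => ω.2.1 (cel hM ω x)) (conf m ω g 0)) ∧
        Sb (put (cel hM ω) (sQ β (fun c => (κ c, ω.2.2 (cel hM ω (c, κ c))))
            fun x => ω.2.1 (cel hM ω x)) (conf m ω g 0))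
          (conf m (ω.1 * σ, ω.2) (g + n * K) (ones β))

/-- AVP (250 lines). The average over a random chain. PROOF. `m = J * (n * K)`, `g j = j * (n * K)` for `j < J`,
`N = |Ply|`. For fixed `ω` and `l` (`l ≤ n`) the numbers `Φ (conf m ω (g j) l)` decrease in `j` (`S2C.CFB_thm`),
so at most `P` of the `j < J` have `Φ (conf m ω (g j) l) ≠ Φ (conf m ω (g (j + 1)) l)` (*). For every `j` sum `StepL`
for `A = conf m ω (g j) 0`, `e = cel _ ω` (injective, `emp`: `S2C.CFA_thm` (0); `cnt A = 0`: CFB) over all `ω`.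
The last term: by `S2C.RSM_thm` for the coordinates `e x` of `ω.2.1` and `S2C.CFA_thm` (3) the sum over `ω` of
`#{χ | …}` is `|Xn| ^ (n K) #{ω | Φ (conf (g j) 0) ≠ Φ (conf (g (j + 1)) 0)}`. The first term: `y c = (κ c, τ c)`;
for every `κ`, `β` by RSM for the coordinates `c ↦ e (c, κ c)` of `ω.2.2` and `e x` of `ω.2.1` (`conf m ω g 0` does
not depend on them) the sum over `ω` of the number of the `(τ, χ)` is `|Xp| ^ n |Xn| ^ (n K) #{ω | Φ (put e (sP …))
≠ Φ (put e (sQ …))}` with `τ c = ω.2.2 (e (c, κ c))`, `χ = ω.2.1 ∘ e`, and by CFP, the bijection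
`ω ↦ (ω.1 * σ, ω.2)` and the monotonicity of `Φ` the last number is at most
`#{ω | Φ (conf (g j) (ones β)) ≠ Φ (conf (g (j + 1)) (ones β))}`. Sum over `j`, (*): both terms are at most `P N`
times the trivial factor, so `3 J ≤ 64 (P + P)`. -/
def Stmt_AVP : Prop := Stmt_CFP →
  ∀ (M n K J P : ℕ) (Xn Xp : Type) [Fintype Xn] [Fintype Xp] [Nonempty Xn] [Nonempty Xp]
    (Φ : (Fin M → St Xn Xp) → ℕ), 0 < n → 0 < K → J * (n * K) + n ≤ M → (∀ A, Φ A ≤ P) →
    (∀ A A', Sb A A' → Φ A' ≤ Φ A) → StepL n K Φ → 3 * J ≤ 128 * P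

/-! ### E. numbers and assembly -/

/-- NUM (250 lines). The parameters. Compare `S2C/NU2.lean`. PROOF. Let `L = Nat.log 2 w + 1` (`w < 2 ^ L`),
`Λ = w + 3 L`, `τ = 6 ((n + 1) Λ ^ (dd + 2)) ^ 2`, `n₀ = 2 τ + 1`, `K = 4 n₀`, `h = m / 2`, `p = 8 w L`,
`b = 4 (p (2 h))`, `J = 43 ((n + 1) R (q + 1) ^ c)`, `Q`, `A` from `Pool.Agent.NEG72.params_explicit`
(`NEG72/WinU.lean`). From `R (q + 1) ^ c w ^ (4 (dd + 6)) ≤ N ^ (1 - ε)`, `N ≤ v ^ 2 / 2` and `v ^ 8 ≤ 2 ^ m`, `m ≤ w` (so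
`w` is larger than every constant): `w ^ 12 ≤ v`, `R ≤ v ^ 2 ≤ 2 ^ (m / 4)`, `4 (dd + 6) log2 w ≤ w / 4`, `dd ≤ w`.
`128 (dd + 2) (n + 1) 2 ^ w ≤ 2 ^ Λ` as `n, dd ≤ w`, `2 ^ (3 L) ≥ w ^ 3`. `hp2`: `log2 (p 2 h) ≤ 3 + 2 L + log2 L ≤
3 L`, so the logarithm of the left-hand side is at most `4 + w / 2 + w + 3 L + 6 w L < 8 w L`.
`64 (n R + 1) 2 ^ (m / 2) ≤ 2 ^ (m - 1)` (`w R ≤ v ^ 2 / 2`). The windows: `J n₀ K + n₀ ≤ 173 (n + 1) R (q + 1) ^ c
n₀ ^ 2`, `n₀ ^ 2 ≤ 169 (2 w) ^ 4 Λ ^ (4 dd + 8)` and `Λ ^ (4 dd + 8) ≤ e w ^ (4 dd + 8)` as `(4 dd + 8) 3 L ≤ w`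
(`(1 + x) ^ n ≤ e ^ (n x)`), `32 k ^ 3 b ^ 2 ≤ 2 ^ 15 w ^ 10 L ^ 2`, so the product of all is at most
`C R (q + 1) ^ c w ^ (4 dd + 23) L ^ 2 ≤ N ^ (1 - ε)` for large `w`, and `e ^ (4 √(log v)) (v ^ 2) ^ (1 - ε) ≤ v ^ 2`
for large `v`. `2 k b k ≤ 64 w ^ 6 L ≤ v`. -/
def Stmt_NUM : Prop :=
  ∀ ε : ℝ, 0 < ε → ε ≤ 1 → ∃ v₀ : ℕ, ∀ v ≥ v₀, ∀ k m w N n q c R dd : ℕ,
    v ^ 8 ≤ 2 ^ m → m ≤ w → k = m ^ 2 → N = v * (v - 1) / 2 → n ≤ w → 1 ≤ R →
    ((R * (q + 1) ^ c * w ^ (4 * (dd + 6)) : ℕ) : ℝ) ≤ (N : ℝ) ^ (1 - ε) →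
    ∃ (τ K Λ h p b J Q : ℕ) (A : Finset ℕ), Par3 (2 * τ + 1) K (2 ^ (m / 2)) Λ k b h p ∧ 0 < b ∧
      128 * ((n + 1) * R * (q + 1) ^ c) < 3 * J ∧
      128 * ((dd + 2) * (n + 1) * 2 ^ w) ≤ 2 ^ Λ ∧
      6 * ((n + 1) * Λ ^ (dd + 2)) ^ 2 ≤ τ ∧
      64 * ((n * R + 1) * 2 ^ (m / 2)) ≤ 2 ^ (2 * h) ∧
      ThreeAPFree (A : Set ℕ) ∧
      (∀ w ∈ Finset.range Q ×ˢ A, ∀ i < k, w.1 + i * w.2 < 2 * Q) ∧ k * (2 * Q) * b ≤ v ∧
      J * ((2 * τ + 1) * K) + (2 * τ + 1) ≤ Q * A.card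

/-- The lower bound. -/
def Lower : Prop :=
  ∀ ε : ℝ, 0 < ε → ε ≤ 1 → ∃ v₀ : ℕ, ∀ v ≥ v₀, ∀ (k m w N n q c R dd : ℕ)
    (S : Sys (Edge v ⊕ Edge v) n) (a : (Edge v ⊕ Edge v → Bool) → Fin n → Bool),
    v ^ 8 ≤ 2 ^ m → m ≤ w → k = m ^ 2 → N = v * (v - 1) / 2 → 1 ≤ q → n ≤ c * q →
    ((R * (q + 1) ^ c * w ^ (4 * (dd + 6)) : ℕ) : ℝ) ≤ (N : ℝ) ^ (1 - ε) →
    (∀ l, n + tot (S.bs l) ≤ w) → n ≤ w → S.Ok (2 ^ (m / 2)) R dd w → S.Right q a →
    ¬ ∀ x, More v k x ↔ outp S.D x (fun i => i.elim0) (a x) = true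

/-- MAI (150 lines). The assembly. PROOF. Compare `S2C/MAI.lean`. Parameters from NUM (`1 ≤ R` by `notsD`). Let
`M = J ((2 τ + 1) K) + (2 τ + 1)`, `φ` injective into `range Q ×ˢ A`, `T = winT hv φ hφ`, `S2C.CN2_thm`. Let `b'` be
a state with exactly `τ` positive tests (`τ ≤ M`; the windows below `τ`), so `More (T.inp A b') ↔ τ < cnt A`. LOC
with `W` = the bound `w - n` for the bits (`S.Ok` with `w - n` in place of `w`; `n + W = w`) gives `StepL`, AVP with
`P = (n + 1) R (q + 1) ^ c` (POT; `T.inp` is monotone) gives `3 J ≤ 128 P`, a contradiction. -/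
def Stmt_MAI : Prop := Stmt_DEG → Stmt_ROR → Stmt_GAT → Stmt_QAP → Stmt_SMO → Stmt_BIN → Stmt_UNQ →
  Stmt_ACM → Stmt_COR → Stmt_SAN → Stmt_POT → Stmt_NGB → Stmt_LVS → Stmt_LOC →
  Stmt_CFP → Stmt_AVP → Stmt_NUM → Lower

/-- ROU (60 lines). Many rounds are as good as NOT gates. PROOF. Copy of `NCH/Rounds.lean` with
`RightQ q (C l) [] (fun i => i.elim0) l a` in place of `RightC` (`Qn [] R = R []`, all bits are `false`; the
circuits have no further witness bits). -/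
def Stmt_ROU : Prop :=
  ∀ (E : Type) [Fintype E] (c q : ℕ), 1 ≤ q → Fintype.card E + 1 ≤ (q + 1) ^ c →
    ∃ (C : Fin (c * q) → NCirc E 0 (c * q + 0)) (a : (E → Bool) → Fin (c * q) → Bool),
      (∀ l, (C l).nots = 0 ∧ (C l).gates.length ≤ 12 * (Fintype.card E + 1) ^ 3 ∧
        RightQ q (C l) [] (fun i => i.elim0) l a) ∧
      ∀ (t : ℕ) (D₀ : NCirc E 0 t), ∃ D : NCirc E 0 (c * q + t), D.nots = 0 ∧
        D.gates.length ≤ 2 * D₀.gates.length + 12 * (Fintype.card E + 1) ^ 3 ∧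
        ∀ x u w, outp D x u (Fin.append (a x) w) = outp D₀ x u w

end Pool.Agent.PPH
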