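import Pool.Agent.PPH.Stmts
import Pool.Agent.NNDT.Lit

/-!
# The upper bound of the project PPH, with circuits which read the witness bits and their negations only
-/

set_option autoImplicit false

namespace Pool.Agent.PPH

open Finset Pool.Agent.NegLim Pool.Agent.NLM Pool.Agent.S2C
open Pool.Agent.NNDT (Lit)

/-- UPL (250 lines). The function in the PP mode with few coins, `Lit` circuits. PROOF. Let `b = Nat.clog 2 v`
(`v ≤ 2 ^ b`). The first `k b` coins are `k` numbers `c_1, …, c_k` of `b` bits, the last coin is `σ`. For the pairs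
`i < j` of positions and the edges `e = (α, α')`, `α < α'`: `A = ⋀_{i<j} ⋁_e ([c_i = α] ∧ [c_j = α'] ∧ x e)`;
`A = 1` iff `c_1 < … < c_k < v` are the vertices of a clique of `x` (`k ≥ 2`), so the number of the codes with
`A = 1` is `cliques v k x`. `B = ⋁_{i<j} ((⋀_e ([c_i ≠ α] ∨ [c_j ≠ α'])) ∨ ⋁_e ([c_i = α] ∧ [c_j = α'] ∧ z e))`; `B = 0` iff
`c_1 < … < c_k < v` are the vertices of an independent set of `z`, so `B = 1` for `2 ^ (k b) - indeps v k z` codes. The
circuit is `(¬σ ∧ A) ∨ (σ ∧ B)`, accepted by `cliques + 2 ^ (k b) - indeps` of the `2 ^ (k b + 1)` coins. Gates: the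
`[c_i = α]`, `[c_i ≠ α]`: at most `2 k v b`, then about `8 (k ^ 2 / 2) (v ^ 2 / 2)`. Build the circuit with the formulas
`Cm` of `NPP/UPP.lean` (`comp`, `cm_all`, `cm_any`, `ba_eq`, `two`), compare `NCH/UPC.lean` and the functions `vt`,
`ae`, `prs` of `NPP/UPP.lean`; any constant in place of `100` which comes out is welcome. -/
def Stmt_UPL : Prop :=
  ∀ v k : ℕ, 2 ≤ k → 2 ≤ v →
    ∃ C : NCirc (Edge v ⊕ Edge v) 0 (k * Nat.clog 2 v + 1), Lit C ∧ C.nots = 0 ∧
      C.gates.length ≤ 100 * (v ^ 2 * k ^ 2) ∧ ∀ z, Maj C z ↔ More v k z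

end Pool.Agent.PPH
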