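import Pool.Agent.PPH.Stmts

/-!
# PP is not in BPP^PH (all levels), on average: the statements of the second part of the project PPH

The same as the first part (`Pool/Agent/PPH/Stmts.lean`, `PAPER.md`), now for the majority of `2 τ + 1` bits ON
AVERAGE: a parameter `U` instead of the constants, all errors are `O(1 / U)`. Module `PPH_X`:
`theorem Pool.Agent.PPH.X_thm : Stmt_X` in `Pool/Agent/PPH/X.lean`. Every module is an adaptation of the proof of a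
module of the first part (copy the file `Pool/Agent/PPH/Y.lean` and change the constants; its auxiliary lemmas can
be cited with `import Pool.Agent.PPH.Y`).

THE HARD INPUTS. At a random time `j` of the random chain, for random bits `β` and random tests: the input
`P_β` (positive tests in the cells with `β = true`, all other windows of the cells empty) if more than `τ` bits are
one, the input `N_β` (neutral tests in all other windows) otherwise. If the output of a small system is right at this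
input, then the narrow DNF `hD` of the sandwich is right at `β` (whatever the output at the other input is):
`output (P_β) → hD β → output (N_β)`. So the system is right for at most a `1 / 2 + O(1 / U)` part of these inputs.
-/

set_option autoImplicit false

namespace Pool.Agent.PPH

open Finset Pool.Agent.NegLim Pool.Agent.NLM Pool.Agent.S2C
open Pool.Agent.NPQ (hist)
open Pool.Agent.NBC (SameN St Tests winT)

/-- BIW (60 lines). As BIN (`BIN.lean`; `card_small`, `central`, `two_mul_choose` there). PROOF. The number is at most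
`4 ^ τ + Δ * C`, `C = (2 τ + 1).choose τ`; `(2 C) ^ 2 (3 τ + 4) ≤ 16 ^ (τ + 1)`, so `C ^ 2 (3 τ + 4) ≤ 4 * 16 ^ τ` and
`4 (Δ U C) ^ 2 ≤ (3 τ + 4) C ^ 2 ≤ 4 * (4 ^ τ) ^ 2`, `U Δ C ≤ 4 ^ τ`. -/
def Stmt_BIW : Prop :=
  ∀ τ Δ U : ℕ, 4 * (Δ * U) ^ 2 ≤ 3 * τ + 4 →
    U * ((univ : Finset (Finset (Fin (2 * τ + 1)))).filter fun S => S.card ≤ τ + Δ).card ≤
      (U + 1) * 4 ^ τ

/-- ACW (200 lines). As ACM (copy of `ACM.lean`). PROOF. The exceptional set: `U |E| ≤ 2 ^ (2 τ + 1) = 2 * 4 ^ τ`; SMO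
and BIW for `Δ = (n + 1) Λ ^ (dd + 2)`: `U |X \ E| ≤ (U + 1) * 4 ^ τ`; so `U |X| ≤ (U + 3) * 4 ^ τ`. -/
def Stmt_ACW : Prop := Stmt_DEG → Stmt_ROR → Stmt_GAT → Stmt_QAP → Stmt_SMO → Stmt_BIW → Stmt_UNQ →
  ∀ (τ n q dd W Λ U : ℕ) (bs : Fin n → List (Bool × ℕ))
    (h : Fin n → (Fin n → Bool) → List Bool → (Fin (2 * τ + 1) → Bool) → Prop)
    (hD : (Fin n → Bool) → (Fin (2 * τ + 1) → Bool) → Prop)
    (α : (Fin (2 * τ + 1) → Bool) → Fin n → Bool) (X : Finset (Fin (2 * τ + 1) → Bool)),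
    1 ≤ Λ → (∀ l, (bs l).length ≤ dd) → (∀ l, tot (bs l) ≤ W) →
    (∀ l d r, r.length = tot (bs l) → DNF (2 * τ + 1) Λ (h l d r)) →
    (∀ d, DNF (2 * τ + 1) Λ (hD d)) →
    (∀ b ∈ X, (∀ l, α b l = true ↔ Qn (bs l) fun r => h l (hist q l (α b)) r b) ∧
      (hD (α b) b ↔ τ < ones b)) →
    U * ((dd + 2) * (n + 1) * 2 ^ (n + W)) ≤ 2 ^ Λ →
    4 * ((n + 1) * Λ ^ (dd + 2) * U) ^ 2 ≤ 3 * τ →
    U * X.card ≤ (U + 3) * 4 ^ τ

open Classical in
/-- NGW (120 lines). As NGB (copy of `NGB.lean`, `64` becomes `U`). -/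
def Stmt_NGW : Prop :=
  ∀ (M n₀ K G Λ k b h p n R dd W U : ℕ) (E : Type)
    (T : Tests (Fin M) E (Fin k × Fin b → Fin (k - 1)) (Fin k → Fin b)) (S : Sys (E ⊕ E) n),
    1 ≤ U → Par3 n₀ K G Λ k b h p → T.Dis → CliqueLike T → S.Ok G R dd W →
    U * ((∑ l, 2 ^ S.s l + 1) * G) ≤ 2 ^ (2 * h) →
    ∀ (a b' : Fin M → St (Fin k × Fin b → Fin (k - 1)) (Fin k → Fin b))
      (e : Fin n₀ × Fin K → Fin M), Function.Injective e → (∀ x, a (e x) = St.emp) →
      (((univ : Finset (Fin n₀ → Fin K × (Fin k → Fin b))).filter fun y =>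
          ¬ S.SN (T.inp a b') (T.inp (put e (sA y) a) b')).card : ℝ) ≤
        (4 * (((univ : Finset (Fin n₀ × Fin K → Fin k × Fin b → Fin (k - 1))).filter fun χ =>
          ¬ S.SN (T.inp a b') (T.inp (put e (sN χ) a) b')).card : ℝ) /
            Fintype.card (Fin n₀ × Fin K → Fin k × Fin b → Fin (k - 1)) + 1 / U) *
          Fintype.card (Fin n₀ → Fin K × (Fin k → Fin b))

open Classical in
/-- LVW (150 lines). As LVS (copy of `LVS.lean`; `128` becomes `2 * U`, `64` becomes `U`, in `count` too). -/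
def Stmt_LVW : Prop := Stmt_COR → Stmt_SAN →
  ∀ (M n₀ K G Λ k b h p n R dd W U : ℕ) (E : Type)
    (T : Tests (Fin M) E (Fin k × Fin b → Fin (k - 1)) (Fin k → Fin b)) (S : Sys (E ⊕ E) n),
    Par3 n₀ K G Λ k b h p → T.Dis → CliqueLike T → S.Ok G R dd W →
    2 * U * ((n + 1) * 2 ^ (n + W)) ≤ 2 ^ Λ →
    ∀ (A b' : Fin M → St (Fin k × Fin b → Fin (k - 1)) (Fin k → Fin b))
      (e : Fin n₀ × Fin K → Fin M), Function.Injective e → (∀ x, A (e x) = St.emp) →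
    ∃ (h : Fin n → (Fin n → Bool) → List Bool → (Fin n₀ → Fin K × (Fin k → Fin b)) →
        (Fin n₀ → Bool) → Prop)
      (hD : (Fin n → Bool) → (Fin n₀ → Fin K × (Fin k → Fin b)) → (Fin n₀ → Bool) → Prop)
      (Bad : Finset ((Fin n₀ → Bool) × (Fin n₀ → Fin K × (Fin k → Fin b)) ×
        (Fin n₀ × Fin K → Fin k × Fin b → Fin (k - 1)))),
      (∀ l d r y, DNF n₀ Λ (h l d r y)) ∧ (∀ d y, DNF n₀ Λ (hD d y)) ∧
      U * Bad.card ≤ Fintype.card ((Fin n₀ → Bool) × (Fin n₀ → Fin K × (Fin k → Fin b)) ×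
        (Fin n₀ × Fin K → Fin k × Fin b → Fin (k - 1))) ∧
      ∀ z, z ∉ Bad → S.SN (T.inp A b') (T.inp (put e (sP z.1 z.2.1) A) b') →
        S.SN (T.inp A b') (T.inp (put e (sQ z.1 z.2.1 z.2.2) A) b') →
        (∀ l d r, r.length = tot (S.bs l) →
          (outp (S.C l) (T.inp (put e (sP z.1 z.2.1) A) b') (fun i => r.getD (S.ρ l i) false)
              (Fin.append d fun j => r.getD j false) = true → h l d r z.2.1 z.1) ∧
          (h l d r z.2.1 z.1 →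
            outp (S.C l) (T.inp (put e (sQ z.1 z.2.1 z.2.2) A) b')
              (fun i => r.getD (S.ρ l i) false) (Fin.append d fun j => r.getD j false) = true)) ∧
        (∀ d, (outp S.D (T.inp (put e (sP z.1 z.2.1) A) b') (fun i => i.elim0) d = true →
            hD d z.2.1 z.1) ∧
          (hD d z.2.1 z.1 →
            outp S.D (T.inp (put e (sQ z.1 z.2.1 z.2.2) A) b') (fun i => i.elim0) d = true))

/-- The hard state for the bits `b`: `sP` if more than `τ` bits are one, otherwise `sQ`. -/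
def sW {Xn Xp : Type} {n K : ℕ} (τ : ℕ) (b : Fin n → Bool) (y : Fin n → Fin K × Xp)
    (χ : Fin n × Fin K → Xn) : Fin n × Fin K → St Xn Xp :=
  if τ < ones b then sP b y else sQ b y χ

open Classical in
/-- The bound for one step: `Ri` (the output is right) holds for at most a `1 / 2 + O(1 / U)` part of the hard
states, but for the part where the potential `Φ` changes. -/
def StepW {M : ℕ} {Xn Xp : Type} [Fintype Xn] [Fintype Xp] (τ K U : ℕ)
    (Φ : (Fin M → St Xn Xp) → ℕ) (Ri : (Fin M → St Xn Xp) → Prop) : Prop :=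
  ∀ (A : Fin M → St Xn Xp) (e : Fin (2 * τ + 1) × Fin K → Fin M), Function.Injective e →
    (∀ x, A (e x) = St.emp) → cnt A = 0 →
    2 * U * ((univ : Finset ((Fin (2 * τ + 1) → Bool) × (Fin (2 * τ + 1) → Fin K × Xp) ×
        (Fin (2 * τ + 1) × Fin K → Xn))).filter fun z =>
        Ri (put e (sW τ z.1 z.2.1 z.2.2) A)).card ≤
      (U + 7) * Fintype.card ((Fin (2 * τ + 1) → Bool) × (Fin (2 * τ + 1) → Fin K × Xp) ×
        (Fin (2 * τ + 1) × Fin K → Xn)) +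
      2 * U * (((univ : Finset ((Fin (2 * τ + 1) → Bool) × (Fin (2 * τ + 1) → Fin K × Xp) ×
          (Fin (2 * τ + 1) × Fin K → Xn))).filter fun z =>
          Φ (put e (sP z.1 z.2.1) A) ≠ Φ (put e (sQ z.1 z.2.1 z.2.2) A)).card +
        4 * (Fintype.card ((Fin (2 * τ + 1) → Bool) × (Fin (2 * τ + 1) → Fin K × Xp)) *
          ((univ : Finset (Fin (2 * τ + 1) × Fin K → Xn)).filter fun χ =>
            Φ A ≠ Φ (put e (sN χ) A)).card))

/-- LOW (250 lines). ONE STEP. As LOC (copy of `LOC.lean`; the lemmas of `LOCM` can be cited). PROOF. Notation of LOC,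
`t` = the number of all triples. Fix `(y, χ)` with `S.SN R A_y` and let `Z` be the set of the `β` with `(β, y, χ) ∉ Bad`,
`Φ (sP …) = Φ (sQ …)` and `Ri (put e (sW τ β y χ) A)`. For `β ∈ Z` the answers `α β` are given by the DNFs as in LOC; if
`τ < ones β`, the state is `sP` and the output there is `true`, so `hD (α β) y β` (first half of the sandwich);
otherwise the state is `sQ` and the output there, with `a x' = a x = α β`, is `false`, so not `hD (α β) y β` (second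
half). ACW: `U |Z| ≤ (U + 3) 4 ^ τ`, `2 U |Z| ≤ (U + 3) 2 ^ (2 τ + 1)`. Sum over these `(y, χ)`; the other right triples are
in `Bad` (`2 U |Bad| ≤ 2 t`), in the set of the changes, or have `¬ S.SN R A_y`, by NGW `2 U * (4 m / |χ| + 1 / U) |y|
2 ^ n₀ |χ| = 8 U m 2 ^ n₀ |y| + 2 t`. Together `(U + 7) t + 2 U (g + 4 m 2 ^ n₀ |y|)`. -/
def Stmt_LOW : Prop := Stmt_DEG → Stmt_ROR → Stmt_GAT → Stmt_QAP → Stmt_SMO → Stmt_BIW → Stmt_UNQ →
  Stmt_ACW → Stmt_COR → Stmt_SAN → Stmt_POT → Stmt_NGW → Stmt_LVW →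
  ∀ (M τ K G Λ k b h p n q c R dd W U : ℕ) (E : Type)
    (T : Tests (Fin M) E (Fin k × Fin b → Fin (k - 1)) (Fin k → Fin b)) (S : Sys (E ⊕ E) n)
    (a : (E ⊕ E → Bool) → Fin n → Bool)
    (b' : Fin M → St (Fin k × Fin b → Fin (k - 1)) (Fin k → Fin b)),
    1 ≤ U → Par3 (2 * τ + 1) K G Λ k b h p → T.Dis → CliqueLike T → S.Ok G R dd W → S.Right q a →
    1 ≤ q → n ≤ c * q →
    2 * U * ((dd + 2) * (n + 1) * 2 ^ (n + W)) ≤ 2 ^ Λ →
    4 * ((n + 1) * Λ ^ (dd + 2) * U) ^ 2 ≤ 3 * τ →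
    U * ((∑ l, 2 ^ S.s l + 1) * G) ≤ 2 ^ (2 * h) →
    StepW τ K U (fun A => S.pot q c a (T.inp A b')) fun A =>
      (outp S.D (T.inp A b') (fun i => i.elim0) (a (T.inp A b')) = true ↔ τ < cnt A)

open Classical in
/-- AVW (250 lines). The average over a random chain. As AVP (copy of `AVP.lean`). PROOF. `n = 2 τ + 1`,
`m = J * (n * K)`, `g j = j * (n * K)`, `I = Fin J × Ply × (Fin n → Bool) × (Fin n → Fin K)`, `B (j, ω, β, κ)` =
`put (cel _ ω) (sW τ β (fun c => (κ c, ω.2.2 (cel _ ω (c, κ c)))) fun x => ω.2.1 (cel _ ω x)) (conf m ω (g j) 0)` (it does not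
depend on `Φ`, `Ri`). Sum `StepW` for `A = conf m ω (g j) 0`, `e = cel _ ω` over all `ω` and `j < J`. By RSM as in AVP (`avg_pos`,
`avg_neu`) the left-hand side becomes `2 U |Xp| ^ n |Xn| ^ (n K)` times the number of the `i` with `Ri (B i)`, the first
term on the right-hand side `(U + 7) |I|` times this factor, and the other two terms are at most `2 U (P + 4 P) |Ply| 2 ^ n
K ^ n` times the factor, as in AVP (claim1 for both terms). With `|I| = J |Ply| 2 ^ n K ^ n` and `10 U P ≤ J`. -/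
def Stmt_AVW : Prop := Stmt_CFP →
  ∀ (M τ K J U : ℕ) (Xn Xp : Type) [Fintype Xn] [Fintype Xp] [Nonempty Xn] [Nonempty Xp],
    0 < K → 0 < J → J * ((2 * τ + 1) * K) + (2 * τ + 1) ≤ M →
    ∃ (I : Type) (_ : Fintype I) (_ : Nonempty I) (B : I → Fin M → St Xn Xp),
      ∀ (P : ℕ) (Φ : (Fin M → St Xn Xp) → ℕ) (Ri : (Fin M → St Xn Xp) → Prop),
        (∀ A, Φ A ≤ P) → (∀ A A', Sb A A' → Φ A' ≤ Φ A) → StepW τ K U Φ Ri → 10 * U * P ≤ J →
        2 * U * ((univ : Finset I).filter fun i => Ri (B i)).card ≤ (U + 8) * Fintype.card I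

/-- NUW (250 lines). The parameters. As NUM (copy of `NUM.lean`), `U = 8 w`. PROOF. `L = Nat.log 2 w + 1`,
`Λ = w + 3 L`, `Y = (n + 1) Λ ^ (dd + 2)`, `τ = 86 (w Y) ^ 2` (`4 (8 w Y) ^ 2 = 256 (w Y) ^ 2 ≤ 3 τ`), `n₀ = 2 τ + 1 ≤
173 (w Y) ^ 2`, `K = 4 n₀`, `h = m / 2`, `p = 8 w L`, `b = 4 (p (2 h))`, `J = 80 w X`, `X = (n + 1) R (q + 1) ^ c`. `16 w (dd + 2)
(n + 1) 2 ^ w ≤ 2 ^ Λ` as `16 (dd + 2) ≤ w`. `8 w (n R + 1) 2 ^ (m / 2) ≤ 2 ^ (2 h)` as `16 w (n R + 1) ≤ w ^ 3 R ≤ v ^ 2`. The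
windows: `J n₀ K + n₀ ≤ 321 w X n₀ ^ 2`, `n₀ ^ 2 ≤ 173 ^ 2 w ^ 4 (n + 1) ^ 4 Λ ^ (4 dd + 8)`, `Λ ^ (4 dd + 8) ≤ 3 w ^ (4 dd + 8)`,
`(n + 1) ^ 5 ≤ 32 w ^ 5`, `32 k ^ 3 b ^ 2 ≤ 2 ^ 15 w ^ 10 L ^ 2`; the product of all is at most `C L ^ 2 R (q + 1) ^ c
w ^ (4 dd + 28)`, `C = 321 * 3 * 173 ^ 2 * 32 * 2 ^ 15 ≤ 2 ^ 45`, and `2 ^ 45 L ^ 2 ≤ w ^ 4` (much room; the exponent is
`4 dd + 32`). -/
def Stmt_NUW : Prop :=
  ∀ ε : ℝ, 0 < ε → ε ≤ 1 → ∃ v₀ : ℕ, ∀ v ≥ v₀, ∀ k m w N n q c R dd : ℕ,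
    v ^ 8 ≤ 2 ^ m → m ≤ w → k = m ^ 2 → N = v * (v - 1) / 2 → n ≤ w → 1 ≤ R →
    ((R * (q + 1) ^ c * w ^ (4 * (dd + 8)) : ℕ) : ℝ) ≤ (N : ℝ) ^ (1 - ε) →
    1 ≤ w ∧ ∃ (τ K Λ h p b J Q : ℕ) (A : Finset ℕ),
      Par3 (2 * τ + 1) K (2 ^ (m / 2)) Λ k b h p ∧ 0 < b ∧ 0 < J ∧
      10 * (8 * w) * ((n + 1) * R * (q + 1) ^ c) ≤ J ∧
      2 * (8 * w) * ((dd + 2) * (n + 1) * 2 ^ w) ≤ 2 ^ Λ ∧
      4 * ((n + 1) * Λ ^ (dd + 2) * (8 * w)) ^ 2 ≤ 3 * τ ∧
      8 * w * ((n * R + 1) * 2 ^ (m / 2)) ≤ 2 ^ (2 * h) ∧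
      ThreeAPFree (A : Set ℕ) ∧
      (∀ w ∈ Finset.range Q ×ˢ A, ∀ i < k, w.1 + i * w.2 < 2 * Q) ∧ k * (2 * Q) * b ≤ v ∧
      J * ((2 * τ + 1) * K) + (2 * τ + 1) ≤ Q * A.card

open Classical in
/-- The lower bound on average: there are inputs `X i` for which every small system has the right output for less
than a `1 / 2 + 1 / w` part. -/
def LowerW : Prop :=
  ∀ ε : ℝ, 0 < ε → ε ≤ 1 → ∃ v₀ : ℕ, ∀ v ≥ v₀, ∀ k m w N n q c R dd : ℕ,
    v ^ 8 ≤ 2 ^ m → m ≤ w → k = m ^ 2 → N = v * (v - 1) / 2 → 1 ≤ q → n ≤ c * q → n ≤ w →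
    ((R * (q + 1) ^ c * w ^ (4 * (dd + 8)) : ℕ) : ℝ) ≤ (N : ℝ) ^ (1 - ε) →
    ∃ (I : Type) (_ : Fintype I) (_ : Nonempty I) (X : I → Edge v ⊕ Edge v → Bool),
      ∀ (S : Sys (Edge v ⊕ Edge v) n) (a : (Edge v ⊕ Edge v → Bool) → Fin n → Bool),
        (∀ l, n + tot (S.bs l) ≤ w) → S.Ok (2 ^ (m / 2)) R dd w → S.Right q a →
        2 * w * ((univ : Finset I).filter fun i =>
          (More v k (X i) ↔
            outp S.D (X i) (fun i => i.elim0) (a (X i)) = true)).card <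
          (w + 2) * Fintype.card I

/-- MAW (150 lines). The assembly. As MAI (copy of `MAI.lean`; `MAIM.cnt_low`, `MAIM.sum_le`, `mai_win`, `mai_inp1`).
PROOF. If `R = 0` there is no `S` with `S.Ok` (`notsD`), `I = Unit`. Otherwise parameters from NUW, `U = 8 w`, `M`, `T`, `b'`
as in MAI; `X i = T.inp (B i) b'` with `I`, `B` from AVW. `More (T.inp A b') ↔ τ < cnt A`, so the output is right at `X i` iff
`Ri (B i)` for the `Ri` of LOW (`W = w - n`). LOW, POT (`P = (n + 1) R (q + 1) ^ c`) and AVW: `16 w # ≤ (8 w + 8) |I|`, so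
`2 w # ≤ (w + 1) |I| < (w + 2) |I|`. -/
def Stmt_MAW : Prop := Stmt_DEG → Stmt_ROR → Stmt_GAT → Stmt_QAP → Stmt_SMO → Stmt_BIW → Stmt_UNQ →
  Stmt_ACW → Stmt_COR → Stmt_SAN → Stmt_POT → Stmt_NGW → Stmt_LVW → Stmt_LOW →
  Stmt_CFP → Stmt_AVW → Stmt_NUW → LowerW

end Pool.Agent.PPH
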