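import Pool.Agent.PPH.Stmts4

/-!
# PP is not in BPP^PH for circuits whose NOT gates change few times: the statements of the third part of PPH

The number of the NOT gates is replaced by the ALTERNATION NUMBER: how often the outputs of the NOT gates can change
if the input bits are switched on one after the other (`Alt`). With `r` NOT gates it is less than `2 ^ r` (Markov), but
with `r` NOT gates which read input bits it is at most `r`. Module `PPH_X`: `theorem Pool.Agent.PPH.X_thm : Stmt_X` in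
`Pool/Agent/PPH/X.lean`.
-/

set_option autoImplicit false

namespace Pool.Agent.PPH

open Finset Pool.Agent.NegLim Pool.Agent.NLM Pool.Agent.S2C
open Pool.Agent.NPQ (hist)
open Pool.Agent.NBC (SameN St Tests winT)

section

variable {E : Type} {s t : ℕ}

/-- The NOT gates of the circuit have the same outputs on `x` and `x'`, for the witness bits `u`. -/
def SameU (C : NCirc E s t) (u : Fin s → Bool) (x x' : E → Bool) : Prop :=
  ∀ n : ℕ, (∃ a, C.gates[n]? = some (Gate.not a)) →
    (vals C.gates x u fun _ => false)[n]? = (vals C.gates x' u fun _ => false)[n]?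

open Classical in
/-- The alternation number of the NOT gates is at most `A`: if the input grows (bits are switched on) in `m`
steps, then, for the same witness bits, the outputs of the NOT gates change in at most `A` steps. -/
def Alt (C : NCirc E s t) (A : ℕ) : Prop :=
  ∀ (u : Fin s → Bool) (m : ℕ) (x : ℕ → E → Bool), (∀ i e, x i e = true → x (i + 1) e = true) →
    ((range m).filter fun i => ¬ SameU C u (x i) (x (i + 1))).card ≤ A

/-- Every NOT gate reads an input bit. -/
def NotsAtInputs (C : NCirc E s t) : Prop :=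
  ∀ (n : ℕ) (a : Wire E s t), C.gates[n]? = some (Gate.not a) → ∃ e, a = Wire.inp e

end

/-- The bounds for the system, with the alternation number. -/
structure Sys.OkA {E : Type} {n : ℕ} (S : Sys E n) (G σ A dd : ℕ) : Prop where
  nf : ∀ l, (S.C l).NotsFree
  nfD : S.D.NotsFree
  sz : ∀ l, (S.C l).gates.length ≤ G
  szD : S.D.gates.length ≤ G
  fst : ∀ l, S.s l ≤ σ
  alt : ∀ l, Alt (S.C l) A
  altD : Alt S.D A
  len : ∀ l, (S.bs l).length ≤ dd

/-- The potential with the first part `ν`. -/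
def potN {E : Type} {n : ℕ} (q c : ℕ) (ν : (E → Bool) → ℕ) (a : (E → Bool) → Fin n → Bool)
    (x : E → Bool) : ℕ :=
  ν x * (q + 1) ^ c + ∑ l : Fin n, if a x l = true then 0 else (q + 1) ^ (c - 1 - (l : ℕ) / q)

/-- ALN (70 lines). The number of the changes which can still come. PROOF. `φ x` = the greatest `j ≤ A`
(`Nat.findGreatest`, `Classical.decPred`) such that there are `m` and a chain `y` (`y 0 = x`, `y i ≤ y (i + 1)`) with exactly
`j` changes in the first `m` steps (`j = 0`: `m = 0`); by `Alt` every number of changes of a chain from `x` is at most `A`, so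
at most `φ x` (`Nat.le_findGreatest`), and `φ x` is attained (`Nat.findGreatest_spec`). Let `x ≤ x'` and let `y` be a chain
from `x'` with `φ x'` changes in `m` steps; the chain `x, y 0, y 1, …` (`fun i => Nat.casesOn i x y`; `m + 1` steps) has `φ x'`
changes and one more if `¬ SameU C u x x'` (`Finset.range_succ`, or map the set of the changes by `Nat.succ`
(`Finset.card_map`), and insert `0`). -/
def Stmt_ALN : Prop :=
  ∀ (E : Type) (s t A : ℕ) (C : NCirc E s t), Alt C A → ∀ u : Fin s → Bool,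
    ∃ φ : (E → Bool) → ℕ, (∀ x, φ x ≤ A) ∧
      ∀ x x' : E → Bool, (∀ e, x e = true → x' e = true) →
        φ x' ≤ φ x ∧ (φ x' = φ x → SameU C u x x')

/-- ALX (100 lines). PROOF. General lemma: if `φ : (E → Bool) → ℕ` is at most `A` and satisfies the conclusion of ALN for
`C`, `u`, then a chain has at most `A` changes (by induction on `m`: the number of the changes in the first `m` steps is at
most `φ (x 0) - φ (x m)`). (1) `φ x = num C.gates x u (fun _ => false) ≤ 2 ^ nots - 1` (`num_lt`, `num_le`, `num_inj`; see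
`POTM.N_le`, `POTM.SameN_of` in `PPH/POT.lean`). (2) `NotsFree`: the output of a NOT gate with the wire `inp e` is `!(x e)`
(the gate number `n` of `vals`: see `get_not` in `NegLim/Transfer.lean`), for all `w`. (3) `φ x` = the number of the `n <
C.gates.length` such that the gate number `n` is a NOT gate and its output on `x` is `true`; it is at most
`C.nots` (`List.countP`; `List.countP_eq_card_filter…`, or use the indices); if `x ≤ x'` the set for `x'` is contained in
the set for `x`, and if the numbers are equal the sets are equal. -/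
def Stmt_ALX : Prop :=
  (∀ (E : Type) (s t : ℕ) (C : NCirc E s t), Alt C (2 ^ C.nots - 1)) ∧
  (∀ (E : Type) (s t : ℕ) (C : NCirc E s t), NotsAtInputs C → C.NotsFree) ∧
  ∀ (E : Type) (s t : ℕ) (C : NCirc E s t), NotsAtInputs C → Alt C C.nots

/-- POA (60 lines). The potential. PROOF. (1) `POTM.T_lt`; `(ν x + 1) * (q + 1) ^ c ≤ (B + 1) * (q + 1) ^ c`. (2) copy of
the second part of `POT_thm` in `PPH/POT.lean` (`POTM.T_lt`, `POTM.T_le`, with `h2 h` from the hypothesis about `ν`). -/
def Stmt_POA : Prop := Stmt_UNQ →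
  ∀ (E : Type) (n q c G R dd W B : ℕ) (S : Sys E n) (a : (E → Bool) → Fin n → Bool)
    (ν : (E → Bool) → ℕ), S.Ok G R dd W → S.Right q a → 1 ≤ q → n ≤ c * q → (∀ x, ν x ≤ B) →
    (∀ x x' : E → Bool, (∀ e, x e = true → x' e = true) → ν x' ≤ ν x ∧ (ν x' = ν x → S.SN x x')) →
    (∀ x, potN q c ν a x ≤ (B + 1) * (q + 1) ^ c) ∧
    ∀ x x' : E → Bool, (∀ e, x e = true → x' e = true) → potN q c ν a x' ≤ potN q c ν a x ∧
      (potN q c ν a x' = potN q c ν a x → S.SN x x' ∧ a x = a x')

/-- LOA (250 lines). ONE STEP, as LOW with any potential `Φ`. PROOF. Copy of `PPH/LOW.lean`; the properties (1), (2) of POT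
(`S.pot q c a x' ≤ S.pot q c a x` and the conclusion from equality) are the hypothesis about `Φ`, only (3), (4) (about
`S.SN`) are taken from POT. -/
def Stmt_LOA : Prop := Stmt_DEG → Stmt_ROR → Stmt_GAT → Stmt_QAP → Stmt_SMO → Stmt_BIW → Stmt_UNQ →
  Stmt_ACW → Stmt_COR → Stmt_SAN → Stmt_POT → Stmt_NGW → Stmt_LVW →
  ∀ (M τ K G Λ k b h p n q c R dd W U : ℕ) (E : Type)
    (T : Tests (Fin M) E (Fin k × Fin b → Fin (k - 1)) (Fin k → Fin b)) (S : Sys (E ⊕ E) n)
    (a : (E ⊕ E → Bool) → Fin n → Bool) (Φ : (E ⊕ E → Bool) → ℕ)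
    (b' : Fin M → St (Fin k × Fin b → Fin (k - 1)) (Fin k → Fin b)),
    1 ≤ U → Par3 (2 * τ + 1) K G Λ k b h p → T.Dis → CliqueLike T → S.Ok G R dd W → S.Right q a →
    1 ≤ q → n ≤ c * q →
    (∀ x x' : E ⊕ E → Bool, (∀ e, x e = true → x' e = true) → Φ x' ≤ Φ x ∧
      (Φ x' = Φ x → S.SN x x' ∧ a x = a x')) →
    2 * U * ((dd + 2) * (n + 1) * 2 ^ (n + W)) ≤ 2 ^ Λ →
    4 * ((n + 1) * Λ ^ (dd + 2) * U) ^ 2 ≤ 3 * τ →
    U * ((∑ l, 2 ^ S.s l + 1) * G) ≤ 2 ^ (2 * h) →
    StepW τ K U (fun A => Φ (T.inp A b')) fun A =>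
      (outp S.D (T.inp A b') (fun i => i.elim0) (a (T.inp A b')) = true ↔ τ < cnt A)

open Classical in
/-- The lower bound on average, with the alternation number. -/
def LowerA : Prop :=
  ∀ ε : ℝ, 0 < ε → ε ≤ 1 → ∃ v₀ : ℕ, ∀ v ≥ v₀, ∀ k m w N n q c σ A dd : ℕ,
    v ^ 8 ≤ 2 ^ m → m ≤ w → k = m ^ 2 → N = v * (v - 1) / 2 → 1 ≤ q → n ≤ c * q → n ≤ w →
    ((2 ^ σ * (A + 1) * (q + 1) ^ c * w ^ (4 * (dd + 8)) : ℕ) : ℝ) ≤ (N : ℝ) ^ (1 - ε) →
    ∃ (I : Type) (_ : Fintype I) (_ : Nonempty I) (X : I → Edge v ⊕ Edge v → Bool),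
      ∀ (S : Sys (Edge v ⊕ Edge v) n) (a : (Edge v ⊕ Edge v → Bool) → Fin n → Bool),
        (∀ l, n + tot (S.bs l) ≤ w) → S.OkA (2 ^ (m / 2)) σ A dd → S.Right q a →
        2 * w * ((univ : Finset I).filter fun i =>
          (More v k (X i) ↔
            outp S.D (X i) (fun i => i.elim0) (a (X i)) = true)).card <
          (w + 2) * Fintype.card I

/-- MAA (150 lines). The assembly. PROOF. Copy of `PPH/MAW.lean` with `R = 2 ^ σ * (A + 1)` in the numbers (NUW; `1 ≤ R`).
For the system: `S.Ok (2 ^ (m / 2)) R' dd (w - n)` with the huge `R' = (∑ l, 2 ^ (S.s l + (S.C l).nots)) + 2 ^ S.D.nots`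
(`Finset.single_le_sum`), which enters nothing. ALN for every `S.C l`, `u` and for `S.D` gives `ν x = (∑ l, ∑ u, φ l u x) +
φD x ≤ (n * 2 ^ σ + 1) * A`; if `x ≤ x'` all terms decrease, and if the sums are equal all terms are equal
(`Finset.sum_eq_sum_iff_of_le`, as in `POTM.N_le`), so `S.SN x x'` (`SameN` is `SameU` for all `u`; for `D` the functions
`Fin 0 → Bool` are equal). POA with `B = (n * 2 ^ σ + 1) * A`, `B + 1 ≤ (n + 1) * R`; `Φ = potN q c ν a`; LOA (`2 ^ S.s l ≤ R`
for the sum) and AVW with `P = (n + 1) * R * (q + 1) ^ c`. -/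
def Stmt_MAA : Prop := Stmt_DEG → Stmt_ROR → Stmt_GAT → Stmt_QAP → Stmt_SMO → Stmt_BIW → Stmt_UNQ →
  Stmt_ACW → Stmt_COR → Stmt_SAN → Stmt_POT → Stmt_NGW → Stmt_LVW → Stmt_ALN → Stmt_POA → Stmt_LOA →
  Stmt_CFP → Stmt_AVW → Stmt_NUW → LowerA

/-- INP (120 lines). NOT gates at the input bits suffice (De Morgan). PROOF. Let `es = univ.toList` be the list of the input
bits, `N = es.length`. The circuit: first the gates `NOT (inp e)`, `e ∈ es`, then for every gate of `D` two gates, for its
value and for the negation. Wires: `inp e` becomes `(inp e, gate (es.idxOf e))`; `wit φ` becomes `(wit φ, wit (¬φ))`; `gate n`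
with `n <` the number of the gates before becomes `(gate (N + 2 n), gate (N + 2 n + 1))`, otherwise `(wit false, wit true)`.
Gates: `a ∧ b` becomes `a⁺ ∧ b⁺`, `a⁻ ∨ b⁻`; `a ∨ b` becomes `a⁺ ∨ b⁺`, `a⁻ ∧ b⁻`; `¬ a` becomes `a⁻ ∨ a⁻`, `a⁺ ∨ a⁺`. Induction on
the list of the gates from the end (`List.reverseRecOn`; `vals` of `l ++ [g]`); compare `tl_vals` in `NLM/Trans.lean` and
`NNDT/Lit.lean`. -/
def Stmt_INP : Prop :=
  ∀ (E : Type) [Fintype E] (s t : ℕ) (D : NCirc E s t), ∃ C : NCirc E s t,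
    NotsAtInputs C ∧ C.nots = Fintype.card E ∧
    C.gates.length ≤ 2 * D.gates.length + Fintype.card E ∧
    ∀ x u w, outp C x u w = outp D x u w

end Pool.Agent.PPH
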