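import Pool.Agent.PPH.Stmts2
import Pool.Agent.NPP.UPP

/-!
# Project PPH, module UPL: the upper bound, circuits which read the witness bits and their negations only

The witness is the code of `k` numbers of `b` bits and one more bit. The codes with `A = 1` are the codes of the
increasing lists of the vertices of a clique of the first graph, the codes with `B = 0` those of the independent
sets of the second graph.
-/

set_option autoImplicit false

namespace Pool.Agent.PPH

namespace UPLM

open Finset Pool.Agent.NegLim Pool.Agent.NLM Pool.Agent.NNDT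
open Pool.Agent.NPP.UPPM (Fn Cm Ba cm_all cm_any ba_eq two prs card_edge len_prs tb_inj)

/-! ### counting -/

section count

variable {v k b : ℕ}

/-- the number `j` of the code is `α` -/
def Hv (c : Fin k → Fin b → Bool) (j : Fin k) (α : Fin v) : Prop :=
  ∀ p : Fin b, c j p = (α : ℕ).testBit p

/-- the code is an increasing list of vertices, with `P` for all pairs -/
def Q (P : Edge v → Prop) (c : Fin k → Fin b → Bool) : Prop :=
  ∀ i j : Fin k, i < j → (∃ e : Edge v, Hv c i e.1.1 ∧ Hv c j e.1.2) ∧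
    ∀ e : Edge v, Hv c i e.1.1 → Hv c j e.1.2 → P e

lemma hv_uniq (hvb : v ≤ 2 ^ b) {c : Fin k → Fin b → Bool} {j : Fin k} {x y : Fin v}
    (hx : Hv c j x) (hy : Hv c j y) : x = y :=
  Fin.ext (tb_inj (x.2.trans_le hvb) (y.2.trans_le hvb) fun p => (hx p).symm.trans (hy p))

lemma q_good (hvb : v ≤ 2 ^ b) (hk : 2 ≤ k) {P : Edge v → Prop} {c : Fin k → Fin b → Bool}
    (h : Q P c) : ∃ g : Fin k → Fin v, StrictMono g ∧ (∀ j, Hv c j (g j)) ∧
      ∀ i j, i < j → ∀ e : Edge v, e.1.1 = g i → e.1.2 = g j → P e := by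
  have hex : ∀ j : Fin k, ∃ x : Fin v, Hv c j x := by
    intro j
    by_cases h0 : (j : ℕ) = 0
    · obtain ⟨⟨e, h1, h2⟩, -⟩ := h j ⟨1, hk⟩ (by rw [Fin.lt_def, h0]; norm_num)
      exact ⟨_, h1⟩
    · obtain ⟨⟨e, h1, h2⟩, -⟩ := h ⟨0, by omega⟩ j
        (by rw [Fin.lt_def]; exact Nat.pos_of_ne_zero h0)
      exact ⟨_, h2⟩
  choose g hg using hex
  refine ⟨g, ?_, hg, ?_⟩
  · intro i j hij
    obtain ⟨⟨e, h1, h2⟩, -⟩ := h i j hij
    have h3 := e.2
    rw [hv_uniq hvb h1 (hg i), hv_uniq hvb h2 (hg j)] at h3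
    exact h3
  · intro i j hij e h1 h2
    exact (h i j hij).2 e (by rw [h1]; exact hg i) (by rw [h2]; exact hg j)

lemma good_q (hvb : v ≤ 2 ^ b) {P : Edge v → Prop} {c : Fin k → Fin b → Bool} {g : Fin k → Fin v}
    (h1 : StrictMono g) (h2 : ∀ j, Hv c j (g j))
    (h3 : ∀ i j, i < j → ∀ e : Edge v, e.1.1 = g i → e.1.2 = g j → P e) : Q P c := by
  intro i j hij
  exact ⟨⟨⟨(g i, g j), h1 hij⟩, h2 i, h2 j⟩, fun e h4 h5 =>
    h3 i j hij e (hv_uniq hvb h4 (h2 i)) (hv_uniq hvb h5 (h2 j))⟩

/-- the number of the codes is the number of the sets -/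
lemma count (hvb : v ≤ 2 ^ b) (hk : 2 ≤ k) (P : Edge v → Prop)
    [DecidablePred fun c : Fin k → Fin b → Bool => Q P c]
    [DecidablePred fun S : Finset (Fin v) => S.card = k ∧
      ∀ e : Edge v, e.1.1 ∈ S → e.1.2 ∈ S → P e] :
    ((univ : Finset (Fin k → Fin b → Bool)).filter fun c => Q P c).card =
      ((univ : Finset (Finset (Fin v))).filter fun S => S.card = k ∧
        ∀ e : Edge v, e.1.1 ∈ S → e.1.2 ∈ S → P e).card := by
  symm
  refine Finset.card_bij (fun S hS j p =>
    ((S.orderEmbOfFin (Finset.mem_filter.1 hS).2.1 j : Fin v) : ℕ).testBit p) ?_ ?_ ?_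
  · intro S hS
    rw [Finset.mem_filter]
    refine ⟨Finset.mem_univ _, ?_⟩
    have h0 := (Finset.mem_filter.1 hS).2
    refine good_q hvb (g := S.orderEmbOfFin h0.1) (S.orderEmbOfFin h0.1).strictMono
      (fun j p => rfl) fun i j _ e h1 h2 => h0.2 e ?_ ?_
    · rw [h1]
      exact Finset.orderEmbOfFin_mem S h0.1 i
    · rw [h2]
      exact Finset.orderEmbOfFin_mem S h0.1 j
  · intro S hS S' hS' h
    have h0 := (Finset.mem_filter.1 hS).2.1
    have h0' := (Finset.mem_filter.1 hS').2.1
    have h1 : ∀ j : Fin k, S.orderEmbOfFin h0 j = S'.orderEmbOfFin h0' j := by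
      intro j
      refine Fin.ext (tb_inj ((S.orderEmbOfFin h0 j).2.trans_le hvb)
        ((S'.orderEmbOfFin h0' j).2.trans_le hvb) fun p => ?_)
      exact congrFun (congrFun h j) p
    have h2 : (S : Set (Fin v)) = S' := by
      rw [← Finset.range_orderEmbOfFin S h0, ← Finset.range_orderEmbOfFin S' h0']
      exact congrArg Set.range (funext h1)
    exact_mod_cast h2
  · intro c hc
    obtain ⟨g, h1, h2, h3⟩ := q_good hvb hk (Finset.mem_filter.1 hc).2
    have hcard : ((univ : Finset (Fin k)).image g).card = k := by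
      rw [Finset.card_image_of_injective _ h1.injective, Finset.card_univ, Fintype.card_fin]
    have hmem : ((univ : Finset (Fin k)).image g) ∈
        (univ : Finset (Finset (Fin v))).filter fun S => S.card = k ∧
          ∀ e : Edge v, e.1.1 ∈ S → e.1.2 ∈ S → P e := by
      rw [Finset.mem_filter]
      refine ⟨Finset.mem_univ _, hcard, fun e h4 h5 => ?_⟩
      obtain ⟨i, -, hi⟩ := Finset.mem_image.1 h4
      obtain ⟨j, -, hj⟩ := Finset.mem_image.1 h5
      have h6 := e.2
      rw [← hi, ← hj, h1.lt_iff_lt] at h6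
      exact h3 i j h6 e hi.symm hj.symm
    refine ⟨(univ : Finset (Fin k)).image g, hmem, ?_⟩
    have h7 := Finset.orderEmbOfFin_unique hcard
      (fun x => Finset.mem_image_of_mem g (Finset.mem_univ x)) h1
    funext j p
    have h8 := congrFun h7 j
    change ((((univ : Finset (Fin k)).image g).orderEmbOfFin hcard j : Fin v) : ℕ).testBit p = c j p
    rw [← h8]
    exact (h2 j p).symm

end count

/-! ### the functions -/

noncomputable section fn

variable {v k : ℕ}

/-- position of a bit of the number `j` -/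
def px {k b : ℕ} (j : Fin k) (p : Fin b) : Fin (k * b + 1) := Fin.castSucc (finProdFinEquiv (j, p))

/-- the number `c.1` is `c.2` -/
def vt (b : ℕ) (c : Fin k × Fin v) : Fn (Edge v ⊕ Edge v) 0 (k * b + 1) := fun _ _ w =>
  (Finset.univ : Finset (Fin b)).toList.all fun p => w (px c.1 p) == (c.2 : ℕ).testBit p

/-- the number `c.1` is not `c.2` -/
def vn (b : ℕ) (c : Fin k × Fin v) : Fn (Edge v ⊕ Edge v) 0 (k * b + 1) := fun _ _ w =>
  (Finset.univ : Finset (Fin b)).toList.any fun p => w (px c.1 p) == !((c.2 : ℕ).testBit p)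

/-- the functions of the first stage -/
def f1 (b : ℕ) (a : Bool × (Fin k × Fin v)) : Fn (Edge v ⊕ Edge v) 0 (k * b + 1) :=
  if a.1 = true then vt b a.2 else vn b a.2

/-- cliques of the first graph -/
def fA (v k b : ℕ) : Fn (Edge v ⊕ Edge v) 0 (k * b + 1) := fun z u w =>
  (prs k).all fun c => (Finset.univ : Finset (Edge v)).toList.any fun e =>
    vt b (c.1, e.1.1) z u w && (vt b (c.2, e.1.2) z u w && z (Sum.inl e))

/-- not independent sets of the second graph -/
def fB (v k b : ℕ) : Fn (Edge v ⊕ Edge v) 0 (k * b + 1) := fun z u w =>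
  (prs k).any fun c => ((Finset.univ : Finset (Edge v)).toList.all fun e =>
    vn b (c.1, e.1.1) z u w || vn b (c.2, e.1.2) z u w) ||
    ((Finset.univ : Finset (Edge v)).toList.any fun e =>
      vt b (c.1, e.1.1) z u w && (vt b (c.2, e.1.2) z u w && z (Sum.inr e)))

/-- the output -/
def fO (v k b : ℕ) : Fn (Edge v ⊕ Edge v) 0 (k * b + 1) := fun z u w =>
  ((w (Fin.last (k * b)) == false) && fA v k b z u w) ||
    ((w (Fin.last (k * b)) == true) && fB v k b z u w)

lemma cm_f1 (b : ℕ) (a : Bool × (Fin k × Fin v)) :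
    Cm (Ba (E := Edge v ⊕ Edge v) (s := 0) (t := k * b + 1)) b (f1 b a) := by
  unfold f1
  split_ifs
  · have h := cm_all (F := Ba (E := Edge v ⊕ Edge v) (s := 0) (t := k * b + 1)) (n := 0)
      (Or.inr (Or.inl ⟨true, rfl⟩)) (fun p : Fin b => Cm.base (ba_eq (px a.2.1 p)
        ((a.2.2 : ℕ).testBit p))) (Finset.univ : Finset (Fin b)).toList
    rw [Finset.length_toList, Finset.card_univ, Fintype.card_fin, zero_add, one_mul] at h
    exact h
  · have h := cm_any (F := Ba (E := Edge v ⊕ Edge v) (s := 0) (t := k * b + 1)) (n := 0)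
      (Or.inr (Or.inl ⟨false, rfl⟩)) (fun p : Fin b => Cm.base (ba_eq (px a.2.1 p)
        (!((a.2.2 : ℕ).testBit p)))) (Finset.univ : Finset (Fin b)).toList
    rw [Finset.length_toList, Finset.card_univ, Fintype.card_fin, zero_add, one_mul] at h
    exact h

/-- the functions of the second stage -/
def F2 (v k b : ℕ) : Fn (Edge v ⊕ Edge v) 0 (k * b + 1) → Prop :=
  fun h => Ba h ∨ ∃ a : Bool × (Fin k × Fin v), h = f1 b a

lemma cm_fO (v k b : ℕ) : Cm (F2 v k b)
    ((0 + ((2 + 1) * Fintype.card (Edge v) + 1) * (prs k).length + 1) +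
      (0 + ((1 + 1) * Fintype.card (Edge v) + (2 + 1) * Fintype.card (Edge v) + 1 + 1) *
        (prs k).length + 1) + 1) (fO v k b) := by
  have hT : F2 v k b (fun _ _ _ => true) := Or.inl (Or.inr (Or.inl ⟨true, rfl⟩))
  have hF : F2 v k b (fun _ _ _ => false) := Or.inl (Or.inr (Or.inl ⟨false, rfl⟩))
  have hvt : ∀ c : Fin k × Fin v, Cm (F2 v k b) 0 (vt b c) := fun c =>
    Cm.base (Or.inr ⟨(true, c), rfl⟩)
  have hvn : ∀ c : Fin k × Fin v, Cm (F2 v k b) 0 (vn b c) := fun c =>
    Cm.base (Or.inr ⟨(false, c), rfl⟩)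
  have hin : ∀ e : Edge v ⊕ Edge v, Cm (F2 v k b) 0 (fun z _ _ => z e) := fun e =>
    Cm.base (Or.inl (Or.inl ⟨e, rfl⟩))
  have hA : Cm (F2 v k b) (((2 + 1) * Fintype.card (Edge v) + 1) * (prs k).length)
      (fA v k b) := by
    refine cm_all hT (fun c => ?_) (prs k)
    have h := cm_any hF (fun e : Edge v => Cm.and (hvt (c.1, e.1.1)) (Cm.and (hvt (c.2, e.1.2))
      (hin (Sum.inl e)))) (Finset.univ : Finset (Edge v)).toList
    rw [Finset.length_toList, Finset.card_univ] at h
    exact h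
  have hB : Cm (F2 v k b) (((1 + 1) * Fintype.card (Edge v) + (2 + 1) * Fintype.card (Edge v) +
      1 + 1) * (prs k).length) (fB v k b) := by
    refine cm_any hF (fun c => ?_) (prs k)
    have h1 := cm_all hT (fun e : Edge v => Cm.or (hvn (c.1, e.1.1)) (hvn (c.2, e.1.2)))
      (Finset.univ : Finset (Edge v)).toList
    have h2 := cm_any hF (fun e : Edge v => Cm.and (hvt (c.1, e.1.1)) (Cm.and (hvt (c.2, e.1.2))
      (hin (Sum.inr e)))) (Finset.univ : Finset (Edge v)).toList
    rw [Finset.length_toList, Finset.card_univ] at h1 h2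
    exact Cm.or h1 h2
  exact Cm.or (Cm.and (Cm.base (Or.inl (ba_eq (Fin.last (k * b)) false))) hA)
    (Cm.and (Cm.base (Or.inl (ba_eq (Fin.last (k * b)) true))) hB)

/-! ### meaning -/

lemma vt_iff {b : ℕ} (c : Fin k × Fin v) (z : Edge v ⊕ Edge v → Bool) (u : Fin 0 → Bool)
    (w : Fin (k * b + 1) → Bool) :
    vt b c z u w = true ↔ Hv (fun j p => w (px j p)) c.1 c.2 := by
  unfold vt Hv
  rw [List.all_eq_true]
  simp [Finset.mem_toList]

lemma vn_iff {b : ℕ} (c : Fin k × Fin v) (z : Edge v ⊕ Edge v → Bool) (u : Fin 0 → Bool)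
    (w : Fin (k * b + 1) → Bool) :
    vn b c z u w = true ↔ ¬ Hv (fun j p => w (px j p)) c.1 c.2 := by
  unfold vn Hv
  rw [List.any_eq_true, not_forall]
  constructor
  · rintro ⟨p, -, hp⟩
    refine ⟨p, ?_⟩
    rw [beq_iff_eq] at hp
    change ¬ w (px c.1 p) = (c.2 : ℕ).testBit p
    rw [hp]
    exact Bool.not_ne_self _
  · rintro ⟨p, hp⟩
    refine ⟨p, Finset.mem_toList.2 (Finset.mem_univ p), ?_⟩
    rw [beq_iff_eq]
    change ¬ w (px c.1 p) = (c.2 : ℕ).testBit p at hp
    cases h1 : w (px c.1 p) <;> cases h2 : (c.2 : ℕ).testBit p <;> simp_all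

lemma mem_prs (c : Fin k × Fin k) : c ∈ prs k ↔ c.1 < c.2 := by
  unfold prs
  rw [Finset.mem_toList, Finset.mem_filter]
  simp

lemma fA_iff {b : ℕ} (hvb : v ≤ 2 ^ b) (z : Edge v ⊕ Edge v → Bool) (u : Fin 0 → Bool)
    (w : Fin (k * b + 1) → Bool) :
    fA v k b z u w = true ↔ Q (fun e => z (Sum.inl e) = true) fun j p => w (px j p) := by
  unfold fA
  rw [List.all_eq_true]
  constructor
  · intro h i j hij
    have h1 := h (i, j) ((mem_prs _).2 hij)
    rw [List.any_eq_true] at h1
    obtain ⟨e, -, he⟩ := h1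
    rw [Bool.and_eq_true, Bool.and_eq_true, vt_iff, vt_iff] at he
    obtain ⟨he1, he2, he3⟩ := he
    refine ⟨⟨e, he1, he2⟩, fun e' h3 h4 => ?_⟩
    have h5 : e' = e := Subtype.ext (Prod.ext (hv_uniq hvb h3 he1) (hv_uniq hvb h4 he2))
    rw [h5]
    exact he3
  · intro h c hc
    obtain ⟨⟨e, he1, he2⟩, h1⟩ := h c.1 c.2 ((mem_prs c).1 hc)
    rw [List.any_eq_true]
    refine ⟨e, Finset.mem_toList.2 (Finset.mem_univ e), ?_⟩
    rw [Bool.and_eq_true, Bool.and_eq_true, vt_iff, vt_iff]
    exact ⟨he1, he2, h1 e he1 he2⟩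

lemma fB_iff {b : ℕ} (z : Edge v ⊕ Edge v → Bool) (u : Fin 0 → Bool)
    (w : Fin (k * b + 1) → Bool) :
    fB v k b z u w = true ↔ ¬ Q (fun e => z (Sum.inr e) = false) fun j p => w (px j p) := by
  unfold fB
  rw [List.any_eq_true]
  constructor
  · rintro ⟨c, hc, h⟩ hQ
    obtain ⟨⟨e, he1, he2⟩, h1⟩ := hQ c.1 c.2 ((mem_prs c).1 hc)
    rw [Bool.or_eq_true, List.all_eq_true, List.any_eq_true] at h
    rcases h with h | ⟨e', -, h⟩
    · have h2 := h e (Finset.mem_toList.2 (Finset.mem_univ e))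
      rw [Bool.or_eq_true, vn_iff, vn_iff] at h2
      rcases h2 with h2 | h2
      · exact h2 he1
      · exact h2 he2
    · rw [Bool.and_eq_true, Bool.and_eq_true, vt_iff, vt_iff] at h
      have h3 : z (Sum.inr e') = false := h1 e' h.1 h.2.1
      rw [h.2.2] at h3
      exact absurd h3 (by decide)
  · intro hQ
    by_contra hcon
    apply hQ
    intro i j hij
    push Not at hcon
    have h1 := hcon (i, j) ((mem_prs _).2 hij)
    rw [ne_eq, Bool.or_eq_true, List.all_eq_true, List.any_eq_true, not_or] at h1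
    obtain ⟨h2, h3⟩ := h1
    constructor
    · push Not at h2
      obtain ⟨e, -, he⟩ := h2
      rw [ne_eq, Bool.or_eq_true, vn_iff, vn_iff, not_or, not_not, not_not] at he
      exact ⟨e, he⟩
    · intro e he1 he2
      by_contra h4
      apply h3
      refine ⟨e, Finset.mem_toList.2 (Finset.mem_univ e), ?_⟩
      rw [Bool.and_eq_true, Bool.and_eq_true, vt_iff, vt_iff]
      exact ⟨he1, he2, by simpa using h4⟩

/-- the witnesses -/
def eqv (k b : ℕ) : (Fin 0 → Bool) × (Fin (k * b + 1) → Bool) ≃ Bool × (Fin k → Fin b → Bool) where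
  toFun p := (p.2 (Fin.last (k * b)), fun j q => p.2 (px j q))
  invFun q := (fun i => i.elim0, Fin.snoc (α := fun _ => Bool)
    (fun r => q.2 (finProdFinEquiv.symm r).1 (finProdFinEquiv.symm r).2) q.1)
  left_inv p := by
    refine Prod.ext (funext fun i => i.elim0) (funext fun r => ?_)
    refine Fin.lastCases ?_ (fun i => ?_) r
    · simp
    · simp only [Fin.snoc_castSucc, px]
      rw [Prod.mk.eta, Equiv.apply_symm_apply]
  right_inv q := by
    refine Prod.ext ?_ (funext fun j => funext fun p => ?_)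
    · simp
    · simp only [px, Fin.snoc_castSucc, Equiv.symm_apply_apply]

open Classical in
/-- the number of the accepted witnesses -/
lemma card_fO {b : ℕ} (hvb : v ≤ 2 ^ b) (hk : 2 ≤ k) (z : Edge v ⊕ Edge v → Bool) :
    (Finset.univ.filter fun p : (Fin 0 → Bool) × (Fin (k * b + 1) → Bool) =>
      fO v k b z p.1 p.2 = true).card + indeps v k (fun e => z (Sum.inr e)) =
        cliques v k (fun e => z (Sum.inl e)) + 2 ^ (k * b) := by
  have k1 : ((univ : Finset (Fin k → Fin b → Bool)).filter fun c =>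
      Q (fun e => z (Sum.inl e) = true) c).card = cliques v k (fun e => z (Sum.inl e)) := by
    unfold cliques
    exact count hvb hk _
  have k2 : ((univ : Finset (Fin k → Fin b → Bool)).filter fun c =>
      Q (fun e => z (Sum.inr e) = false) c).card = indeps v k (fun e => z (Sum.inr e)) := by
    unfold indeps
    exact count hvb hk _
  have k3 : ((univ : Finset (Fin k → Fin b → Bool)).filter fun c =>
      Q (fun e => z (Sum.inr e) = false) c).card +
      ((univ : Finset (Fin k → Fin b → Bool)).filter fun c =>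
      ¬ Q (fun e => z (Sum.inr e) = false) c).card = 2 ^ (k * b) := by
    rw [Finset.card_filter_add_card_filter_not, Finset.card_univ, Fintype.card_fun,
      Fintype.card_fun, Fintype.card_bool, Fintype.card_fin, Fintype.card_fin, ← pow_mul,
      Nat.mul_comm]
  have k5 : (Finset.univ.filter fun p : (Fin 0 → Bool) × (Fin (k * b + 1) → Bool) =>
      fO v k b z p.1 p.2 = true).card =
      (Finset.univ.filter fun q : Bool × (Fin k → Fin b → Bool) =>
        (q.1 = false ∧ Q (fun e => z (Sum.inl e) = true) q.2) ∨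
          (q.1 = true ∧ ¬ Q (fun e => z (Sum.inr e) = false) q.2)).card := by
    refine Finset.card_equiv (eqv k b) fun p => ?_
    rw [Finset.mem_filter, Finset.mem_filter]
    simp only [Finset.mem_univ, true_and]
    unfold fO
    rw [Bool.or_eq_true, Bool.and_eq_true, Bool.and_eq_true, beq_iff_eq, beq_iff_eq,
      fA_iff hvb, fB_iff]
    exact Iff.rfl
  have k6 : (Finset.univ.filter fun q : Bool × (Fin k → Fin b → Bool) =>
        (q.1 = false ∧ Q (fun e => z (Sum.inl e) = true) q.2) ∨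
          (q.1 = true ∧ ¬ Q (fun e => z (Sum.inr e) = false) q.2)).card =
      ((univ : Finset (Fin k → Fin b → Bool)).filter fun c =>
        ¬ Q (fun e => z (Sum.inr e) = false) c).card +
      ((univ : Finset (Fin k → Fin b → Bool)).filter fun c =>
        Q (fun e => z (Sum.inl e) = true) c).card := by
    rw [Finset.card_filter, Fintype.sum_prod_type, Fintype.sum_bool, Finset.card_filter,
      Finset.card_filter]
    congr 1
    · refine Finset.sum_congr rfl fun c _ => ?_
      simp
    · refine Finset.sum_congr rfl fun c _ => ?_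
      simp
  rw [k5, k6, k1, ← k2, ← k3]
  ring

end fn

end UPLM

open UPLM Finset Pool.Agent.NegLim Pool.Agent.NLM in
open Pool.Agent.NPP.UPPM (two prs card_edge len_prs) in
theorem UPL_thm : Stmt_UPL := by
  classical
  intro v k hk hv
  have hvb : v ≤ 2 ^ Nat.clog 2 v := Nat.le_pow_clog (by norm_num) v
  have hb : Nat.clog 2 v ≤ v := Nat.clog_le_of_le_pow (Nat.lt_two_pow_self).le
  obtain ⟨C, h1, h2, h3, h4⟩ := two (f1 (v := v) (k := k) (Nat.clog 2 v))
    (fO v k (Nat.clog 2 v)) (cm_f1 _) (cm_fO v k _)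
  refine ⟨C, h1, h2, h3.trans ?_, fun z => ?_⟩
  · rw [Fintype.card_prod, Fintype.card_prod, Fintype.card_bool, Fintype.card_fin,
      Fintype.card_fin]
    have hE := card_edge v
    have hP := len_prs k
    generalize Fintype.card (Edge v) = e at hE
    generalize (prs k).length = p at hP
    generalize Nat.clog 2 v = b at hb
    have hA1 : 1 ≤ v ^ 2 * k ^ 2 := Nat.one_le_iff_ne_zero.2 (by positivity)
    have hk2 : k ≤ k ^ 2 := by nlinarith
    have hv2 : 1 ≤ v ^ 2 := Nat.one_le_iff_ne_zero.2 (by positivity)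
    have e1 : b * (k * v) ≤ v ^ 2 * k ^ 2 := by
      calc b * (k * v) ≤ v * (k * v) := Nat.mul_le_mul_right _ hb
        _ = v ^ 2 * k := by ring
        _ ≤ _ := Nat.mul_le_mul_left _ hk2
    have e2 : e * p ≤ v ^ 2 * k ^ 2 := Nat.mul_le_mul hE hP
    have e3 : p ≤ v ^ 2 * k ^ 2 := by
      calc p ≤ k ^ 2 := hP
        _ = 1 * k ^ 2 := (one_mul _).symm
        _ ≤ _ := Nat.mul_le_mul_right _ hv2
    have e4 : b * (2 * (k * v)) = 2 * (b * (k * v)) := by ring
    have e5 : ((2 + 1) * e + 1) * p = 3 * (e * p) + p := by ring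
    have e6 : ((1 + 1) * e + (2 + 1) * e + 1 + 1) * p = 5 * (e * p) + 2 * p := by ring
    rw [e4, e5, e6]
    omega
  · have h5 := card_fO hvb hk z
    unfold Maj More
    simp only [h4]
    generalize hb' : Nat.clog 2 v = b at *
    have k7 : 2 ^ (0 + (k * b + 1)) = 2 * 2 ^ (k * b) := by
      rw [zero_add, pow_succ, mul_comm]
    rw [k7]
    generalize cliques v k (fun e => z (Sum.inl e)) = x at *
    generalize indeps v k (fun e => z (Sum.inr e)) = y at *
    generalize 2 ^ (k * b) = n at *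
    omega

end Pool.Agent.PPH
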